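import Pool.Agent.H.MP_4ac1fb_an.Full.Defs

/-!
Baire category: a closed set covered by countably many charts is locally contained in one of them.
-/

namespace Pool.MP4ac1fb.Full

variable {d : ℕ}

theorem baire_chart {E : Set (Fin d → ℝ)} (hE : IsClosed E) (hne : E.Nonempty) (m : ℕ → ℕ)
    (U : ∀ n, Set (Fin (m n) → ℝ)) (ψ : ∀ n, (Fin (m n) → ℝ) → (Fin d → ℝ))
    (hU : ∀ n, IsOpen (U n)) (hψ : ∀ n, ContinuousOn (ψ n) (U n))
    (hcov : E ⊆ ⋃ n, ψ n '' U n) :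
    ∃ n, ∃ u ∈ U n, ψ n u ∈ E ∧ ∃ O ∈ nhds (ψ n u), E ∩ O ⊆ ψ n '' U n := by
  classical
  -- compact exhaustion of each `U n`
  have hK : ∀ n, ∃ K : ℕ → Set (Fin (m n) → ℝ), (∀ i, IsCompact (K i)) ∧ ⋃ i, K i = U n := by
    intro n
    have h1 : IsSigmaCompact (U n) := by
      haveI : LocallyCompactSpace (U n) := (hU n).locallyCompactSpace
      have h2 : IsSigmaCompact (Set.univ : Set (U n)) := isSigmaCompact_univ
      have h3 := h2.image (continuous_subtype_val (p := fun x => x ∈ U n))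
      simpa using h3
    obtain ⟨K, hK1, hK2⟩ := h1
    exact ⟨K, hK1, hK2⟩
  choose K hKc hKU using hK
  haveI : CompleteSpace E := hE.completeSpace_coe
  haveI : Nonempty E := hne.to_subtype
  let f : ℕ × ℕ → Set E := fun p => Subtype.val ⁻¹' (ψ p.1 '' K p.1 p.2)
  have hsub : ∀ p : ℕ × ℕ, K p.1 p.2 ⊆ U p.1 := fun p => by
    rw [← hKU p.1]; exact Set.subset_iUnion _ _
  have hf : ∀ p, IsClosed (f p) := by
    intro p
    have h1 : IsCompact (ψ p.1 '' K p.1 p.2) :=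
      (hKc p.1 p.2).image_of_continuousOn ((hψ p.1).mono (hsub p))
    exact h1.isClosed.preimage continuous_subtype_val
  have hfU : ⋃ p, f p = Set.univ := by
    rw [Set.eq_univ_iff_forall]
    rintro ⟨x, hx⟩
    obtain ⟨n, hn⟩ := Set.mem_iUnion.mp (hcov hx)
    obtain ⟨u, hu, rfl⟩ := hn
    rw [← hKU n] at hu
    obtain ⟨i, hi⟩ := Set.mem_iUnion.mp hu
    exact Set.mem_iUnion.mpr ⟨(n, i), u, hi, rfl⟩
  obtain ⟨p, hp⟩ := nonempty_interior_of_iUnion_of_closed hf hfU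
  obtain ⟨⟨x, hxE⟩, hx⟩ := hp
  obtain ⟨u, hu, hux⟩ := interior_subset hx
  simp only at hux
  refine ⟨p.1, u, hsub p hu, by rw [hux]; exact hxE, ?_⟩
  rw [hux]
  have h1 : f p ∈ nhds (⟨x, hxE⟩ : E) := mem_interior_iff_mem_nhds.mp hx
  rw [nhds_subtype_eq_comap, Filter.mem_comap] at h1
  obtain ⟨O, hO, hOf⟩ := h1
  refine ⟨O, hO, ?_⟩
  rintro y ⟨hyE, hyO⟩
  have h2 : (⟨y, hyE⟩ : E) ∈ f p := hOf hyO
  obtain ⟨v, hv, hvy⟩ := h2
  exact ⟨v, hsub p hv, hvy⟩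

end Pool.MP4ac1fb.Full
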