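import Pool.Agent.H.MP_4ac1fb_an.Full.CoeffBoundAux2

/-!
Bounds for the Taylor coefficients of `(P|_{z_j=0})^N / P` for `P` without zeros in the polydisc.
-/

namespace Pool.MP4ac1fb.Full

open MvPolynomial

variable {d : ℕ}

/-! ### Growth in one coordinate -/

/-- The coefficients grow at most polynomially in `k_j`, uniformly in the other coordinates. -/
def JB (j : Fin d) (f : MvPowerSeries (Fin d) ℂ) : Prop :=
  ∃ (C : ℝ) (L : ℕ), 0 ≤ C ∧ ∀ k, ‖MvPowerSeries.coeff k f‖ ≤ C * (1 + (k j : ℝ)) ^ L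

lemma JB.add {j : Fin d} {f g : MvPowerSeries (Fin d) ℂ} (hf : JB j f) (hg : JB j g) :
    JB j (f + g) := by
  obtain ⟨C, L, hC, h⟩ := hf
  obtain ⟨C', L', hC', h'⟩ := hg
  refine ⟨C + C', L + L', by positivity, fun k => ?_⟩
  have h1 : (1 : ℝ) ≤ 1 + (k j : ℝ) := by linarith [Nat.cast_nonneg (α := ℝ) (k j)]
  have h2 : (1 + (k j : ℝ)) ^ L ≤ (1 + (k j : ℝ)) ^ (L + L') :=
    pow_le_pow_right₀ h1 (Nat.le_add_right _ _)
  have h3 : (1 + (k j : ℝ)) ^ L' ≤ (1 + (k j : ℝ)) ^ (L + L') :=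
    pow_le_pow_right₀ h1 (Nat.le_add_left _ _)
  rw [map_add]
  calc ‖MvPowerSeries.coeff k f + MvPowerSeries.coeff k g‖ ≤
      C * (1 + (k j : ℝ)) ^ L + C' * (1 + (k j : ℝ)) ^ L' :=
        (norm_add_le _ _).trans (add_le_add (h k) (h' k))
    _ ≤ C * (1 + (k j : ℝ)) ^ (L + L') + C' * (1 + (k j : ℝ)) ^ (L + L') :=
        add_le_add (mul_le_mul_of_nonneg_left h2 hC) (mul_le_mul_of_nonneg_left h3 hC')
    _ = (C + C') * (1 + (k j : ℝ)) ^ (L + L') := by ring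

lemma JB.poly_mul {j : Fin d} {f : MvPowerSeries (Fin d) ℂ} (hf : JB j f)
    (S : MvPolynomial (Fin d) ℂ) : JB j ((S : MvPowerSeries (Fin d) ℂ) * f) := by
  induction S using MvPolynomial.induction_on' with
  | monomial u a =>
    obtain ⟨C, L, hC, h⟩ := hf
    refine ⟨‖a‖ * C, L, by positivity, fun k => ?_⟩
    rw [MvPolynomial.coe_monomial, MvPowerSeries.coeff_monomial_mul]
    split_ifs with hk
    · rw [norm_mul, mul_assoc]
      refine mul_le_mul_of_nonneg_left ((h _).trans ?_) (norm_nonneg _)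
      refine mul_le_mul_of_nonneg_left (pow_le_pow_left₀ (by positivity) ?_ _) hC
      have h1 : (k - u) j ≤ k j := by
        rw [Finsupp.tsub_apply]; exact Nat.sub_le _ _
      have h2 : (((k - u) j : ℕ) : ℝ) ≤ (k j : ℝ) := Nat.cast_le.2 h1
      linarith
    · rw [norm_zero]; positivity
  | add p q hp hq =>
    rw [MvPolynomial.coe_add, add_mul]
    exact hp.add hq

/-! ### Euler operators -/

/-- The Euler operator `z_i ∂/∂z_i`. -/
def eul (i : Fin d) (f : MvPowerSeries (Fin d) ℂ) : MvPowerSeries (Fin d) ℂ :=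
  fun k => (k i : ℂ) * MvPowerSeries.coeff k f

lemma coeff_eul (i : Fin d) (f : MvPowerSeries (Fin d) ℂ) (k : Fin d →₀ ℕ) :
    MvPowerSeries.coeff k (eul i f) = (k i : ℂ) * MvPowerSeries.coeff k f := rfl

lemma eul_mul (i : Fin d) (f g : MvPowerSeries (Fin d) ℂ) :
    eul i (f * g) = eul i f * g + f * eul i g := by
  ext k
  rw [coeff_eul, map_add, MvPowerSeries.coeff_mul, MvPowerSeries.coeff_mul,
    MvPowerSeries.coeff_mul, Finset.mul_sum, ← Finset.sum_add_distrib]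
  refine Finset.sum_congr rfl fun q hq => ?_
  rw [Finset.HasAntidiagonal.mem_antidiagonal] at hq
  rw [coeff_eul, coeff_eul]
  have h1 : (k i : ℂ) = (q.1 i : ℂ) + (q.2 i : ℂ) := by
    rw [← hq, Finsupp.add_apply, Nat.cast_add]
  rw [h1]; ring

lemma eul_add (i : Fin d) (f g : MvPowerSeries (Fin d) ℂ) :
    eul i (f + g) = eul i f + eul i g := by
  ext k
  rw [coeff_eul, map_add, map_add, coeff_eul, coeff_eul, mul_add]

lemma eul_one (i : Fin d) : eul i (1 : MvPowerSeries (Fin d) ℂ) = 0 := by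
  ext k
  rw [coeff_eul, MvPowerSeries.coeff_one, map_zero]
  split_ifs with h
  · rw [h]; simp
  · simp

lemma eul_poly (i : Fin d) (S : MvPolynomial (Fin d) ℂ) : ∃ S' : MvPolynomial (Fin d) ℂ,
    eul i (S : MvPowerSeries (Fin d) ℂ) = (S' : MvPowerSeries (Fin d) ℂ) := by
  refine ⟨∑ a ∈ S.support, monomial a ((a i : ℂ) * coeff a S), ?_⟩
  ext k
  rw [coeff_eul, MvPolynomial.coeff_coe, MvPolynomial.coeff_coe, MvPolynomial.coeff_sum]
  simp only [MvPolynomial.coeff_monomial]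
  rw [Finset.sum_ite_eq']
  split_ifs with h
  · rfl
  · rw [MvPolynomial.notMem_support_iff.1 h, mul_zero]

lemma eul_pow (i : Fin d) (f : MvPowerSeries (Fin d) ℂ) (n : ℕ) :
    eul i (f ^ (n + 1)) = ((n + 1 : ℕ) : MvPowerSeries (Fin d) ℂ) * f ^ n * eul i f := by
  induction n with
  | zero => simp
  | succ n ih =>
    rw [pow_succ, eul_mul, ih]
    push_cast
    ring

lemma eul_inv_pow (i : Fin d) {P Q : MvPowerSeries (Fin d) ℂ} (hPQ : P * Q = 1) (b : ℕ) :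
    eul i (Q ^ b) = -((b : ℕ) : MvPowerSeries (Fin d) ℂ) * Q ^ (b + 1) * eul i P := by
  have h1 : eul i Q = -(Q ^ 2 * eul i P) := by
    have h2 : eul i P * Q + P * eul i Q = 0 := by rw [← eul_mul, hPQ, eul_one]
    have h3 : P * eul i Q = -(eul i P * Q) := by linear_combination h2
    calc eul i Q = (P * Q) * eul i Q := by rw [hPQ, one_mul]
      _ = Q * (P * eul i Q) := by ring
      _ = -(Q ^ 2 * eul i P) := by rw [h3]; ring
  induction b with
  | zero => simp [eul_one]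
  | succ b ih =>
    rw [pow_succ, eul_mul, ih, h1]
    push_cast
    ring

/-! ### The filtration -/

/-- Sums of terms `S A^a Q^b` with `a ≥ b + e`. -/
inductive WW (A : MvPolynomial (Fin d) ℂ) (Q : MvPowerSeries (Fin d) ℂ) (e : ℕ) :
    MvPowerSeries (Fin d) ℂ → Prop
  | term (S : MvPolynomial (Fin d) ℂ) (a b : ℕ) (h : b + e ≤ a) :
      WW A Q e ((S : MvPowerSeries (Fin d) ℂ) * (A : MvPowerSeries (Fin d) ℂ) ^ a * Q ^ b)
  | add (f g : MvPowerSeries (Fin d) ℂ) : WW A Q e f → WW A Q e g → WW A Q e (f + g)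

lemma WW.eul {P A : MvPolynomial (Fin d) ℂ} {Q : MvPowerSeries (Fin d) ℂ}
    (hPQ : (P : MvPowerSeries (Fin d) ℂ) * Q = 1) (i : Fin d) {e : ℕ}
    {f : MvPowerSeries (Fin d) ℂ} (hf : WW A Q (e + 1) f) : WW A Q e (Full.eul i f) := by
  induction hf with
  | add f g _ _ ihf ihg => rw [eul_add]; exact WW.add _ _ ihf ihg
  | term S a b h =>
    obtain ⟨a, rfl⟩ : ∃ a', a = a' + 1 := ⟨a - 1, by omega⟩
    obtain ⟨S1, hS1⟩ := eul_poly i S
    obtain ⟨A1, hA1⟩ := eul_poly i A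
    obtain ⟨P1, hP1⟩ := eul_poly i P
    have h1 : Full.eul i ((S : MvPowerSeries (Fin d) ℂ) * (A : MvPowerSeries (Fin d) ℂ) ^ (a + 1) *
        Q ^ b) = ((S1 : MvPolynomial (Fin d) ℂ) : MvPowerSeries (Fin d) ℂ) *
          (A : MvPowerSeries (Fin d) ℂ) ^ (a + 1) * Q ^ b +
        (((((a + 1 : ℕ) : MvPolynomial (Fin d) ℂ) * S * A1 : MvPolynomial (Fin d) ℂ) :
          MvPowerSeries (Fin d) ℂ) * (A : MvPowerSeries (Fin d) ℂ) ^ a * Q ^ b +
        ((-(((b : ℕ) : MvPolynomial (Fin d) ℂ)) * S * P1 : MvPolynomial (Fin d) ℂ) :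
          MvPowerSeries (Fin d) ℂ) * (A : MvPowerSeries (Fin d) ℂ) ^ (a + 1) * Q ^ (b + 1)) := by
      rw [eul_mul, eul_mul, eul_pow, eul_inv_pow i hPQ, hS1, hA1, hP1]
      have hn : ∀ n : ℕ, (((n : ℕ) : MvPolynomial (Fin d) ℂ) : MvPowerSeries (Fin d) ℂ) =
          ((n : ℕ) : MvPowerSeries (Fin d) ℂ) := fun n =>
        map_natCast (MvPolynomial.coeToMvPowerSeries.ringHom (σ := Fin d) (R := ℂ)) n
      have hneg : ∀ p : MvPolynomial (Fin d) ℂ, ((-p : MvPolynomial (Fin d) ℂ) :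
          MvPowerSeries (Fin d) ℂ) = -(p : MvPowerSeries (Fin d) ℂ) := fun p =>
        map_neg (MvPolynomial.coeToMvPowerSeries.ringHom (σ := Fin d) (R := ℂ)) p
      rw [MvPolynomial.coe_mul, MvPolynomial.coe_mul, MvPolynomial.coe_mul, MvPolynomial.coe_mul,
        hneg, hn, hn]
      ring
    rw [h1]
    exact WW.add _ _ (WW.term _ _ _ (by omega))
      (WW.add _ _ (WW.term _ _ _ (by omega)) (WW.term _ _ _ (by omega)))

lemma WW.iterate {P A : MvPolynomial (Fin d) ℂ} {Q : MvPowerSeries (Fin d) ℂ}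
    (hPQ : (P : MvPowerSeries (Fin d) ℂ) * Q = 1) (i : Fin d) {e : ℕ} (m : ℕ) :
    ∀ {f : MvPowerSeries (Fin d) ℂ}, WW A Q (e + m) f → WW A Q e ((Full.eul i)^[m] f) := by
  induction m with
  | zero => intro f hf; exact hf
  | succ m ih =>
    intro f hf
    rw [Function.iterate_succ_apply]
    exact ih (WW.eul hPQ i hf)

lemma coeff_iterate (i : Fin d) (f : MvPowerSeries (Fin d) ℂ) (m : ℕ) (k : Fin d →₀ ℕ) :
    MvPowerSeries.coeff k ((eul i)^[m] f) = (k i : ℂ) ^ m * MvPowerSeries.coeff k f := by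
  induction m generalizing f with
  | zero => simp
  | succ m ih => rw [Function.iterate_succ_apply, ih, coeff_eul, pow_succ]; ring

lemma NZ.pow {P : MvPolynomial (Fin d) ℂ} (hP : NZ P) (b : ℕ) : NZ (P ^ b) := by
  intro z hz
  rw [map_pow]
  exact pow_ne_zero _ (hP z hz)

lemma WW.jb {P : MvPolynomial (Fin d) ℂ} (hP : NZ P) {Q : MvPowerSeries (Fin d) ℂ}
    (hPQ : (P : MvPowerSeries (Fin d) ℂ) * Q = 1) (j : Fin d) {e : ℕ}
    {f : MvPowerSeries (Fin d) ℂ} (hf : WW (Full.setZero j P) Q e f) : JB j f := by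
  induction hf with
  | add f g _ _ ihf ihg => exact ihf.add ihg
  | term S a b h =>
    have h1 : ((P ^ b : MvPolynomial (Fin d) ℂ) : MvPowerSeries (Fin d) ℂ) * Q ^ b = 1 := by
      rw [MvPolynomial.coe_pow, ← mul_pow, hPQ, one_pow]
    have h2 : JB j (((Full.setZero j (P ^ b) : MvPolynomial (Fin d) ℂ) :
        MvPowerSeries (Fin d) ℂ) * Q ^ b) :=
      ⟨1, (P ^ b).totalDegree, zero_le_one, fun k => by
        rw [one_mul]; exact R_bound (hP.pow b) h1 j k⟩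
    have h3 : Full.setZero j (P ^ b) = (Full.setZero j P) ^ b := by
      simp only [Full.setZero, map_pow]
    have h4 := h2.poly_mul (S * (Full.setZero j P) ^ (a - b))
    have h5 : (((S * (Full.setZero j P) ^ (a - b) : MvPolynomial (Fin d) ℂ)) :
        MvPowerSeries (Fin d) ℂ) * (((Full.setZero j (P ^ b) : MvPolynomial (Fin d) ℂ) :
        MvPowerSeries (Fin d) ℂ) * Q ^ b) = (S : MvPowerSeries (Fin d) ℂ) *
          ((Full.setZero j P : MvPolynomial (Fin d) ℂ) : MvPowerSeries (Fin d) ℂ) ^ a * Q ^ b := by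
      rw [h3, MvPolynomial.coe_mul, MvPolynomial.coe_pow, MvPolynomial.coe_pow]
      have h6 : a = (a - b) + b := by omega
      conv_rhs => rw [h6, pow_add]
      ring
    rwa [h5] at h4

lemma pow_sum_le' (s : Finset (Fin d)) (x : Fin d → ℝ) (hx : ∀ i, 0 ≤ x i) (M : ℕ) :
    (1 + ∑ i ∈ s, x i) ^ M ≤ ((d : ℝ) + 1) ^ M * (1 + ∑ i ∈ s, x i ^ M) := by
  have hS : 0 ≤ ∑ i ∈ s, x i ^ M := Finset.sum_nonneg fun i _ => pow_nonneg (hx i) _
  obtain ⟨m, hm1, hm2, hm3⟩ : ∃ m : ℝ, 1 ≤ m ∧ (∀ i ∈ s, x i ≤ m) ∧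
      m ^ M ≤ 1 + ∑ i ∈ s, x i ^ M := by
    rcases s.eq_empty_or_nonempty with rfl | hs
    · exact ⟨1, le_rfl, by simp, by simp⟩
    · obtain ⟨i0, hi0, hmax⟩ := Finset.exists_max_image s x hs
      have h1 : x i0 ^ M ≤ ∑ i ∈ s, x i ^ M :=
        Finset.single_le_sum (f := fun i => x i ^ M) (fun i _ => pow_nonneg (hx i) _) hi0
      rcases le_total (x i0) 1 with h | h
      · exact ⟨1, le_rfl, fun i hi => (hmax i hi).trans h, by rw [one_pow]; linarith⟩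
      · exact ⟨x i0, h, hmax, by linarith⟩
  have h1 : 1 + ∑ i ∈ s, x i ≤ ((d : ℝ) + 1) * m := by
    have h2 : ∑ i ∈ s, x i ≤ s.card * m := by
      rw [← nsmul_eq_mul]
      exact Finset.sum_le_card_nsmul _ _ _ hm2
    have h3 : (s.card : ℝ) ≤ d := by
      have := Finset.card_le_univ s
      rw [Fintype.card_fin] at this
      exact_mod_cast this
    nlinarith
  calc (1 + ∑ i ∈ s, x i) ^ M ≤ (((d : ℝ) + 1) * m) ^ M :=
        pow_le_pow_left₀ (by have := Finset.sum_nonneg fun i (_ : i ∈ s) => hx i; positivity) h1 _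
    _ = ((d : ℝ) + 1) ^ M * m ^ M := mul_pow _ _ _
    _ ≤ _ := mul_le_mul_of_nonneg_left hm3 (by positivity)

theorem coeff_bound (P : MvPolynomial (Fin d) ℂ) (hP : NZ P) (j : Fin d) (M : ℕ) :
    ∃ (N q : ℕ) (C : ℝ), ∀ Q : MvPowerSeries (Fin d) ℂ, (P : MvPowerSeries (Fin d) ℂ) * Q = 1 →
      ∀ k : Fin d →₀ ℕ,
        ‖MvPowerSeries.coeff k (((setZero j P : MvPolynomial (Fin d) ℂ) :
            MvPowerSeries (Fin d) ℂ) ^ N * Q)‖ * (1 + ∑ i ∈ Finset.univ.erase j, (k i : ℝ)) ^ M ≤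
          C * (1 + (k j : ℝ)) ^ q := by
  by_cases hex : ∃ Q : MvPowerSeries (Fin d) ℂ, (P : MvPowerSeries (Fin d) ℂ) * Q = 1
  swap
  · exact ⟨0, 0, 0, fun Q hQ => absurd ⟨Q, hQ⟩ hex⟩
  obtain ⟨Q, hPQ⟩ := hex
  have huniq : ∀ Q' : MvPowerSeries (Fin d) ℂ, (P : MvPowerSeries (Fin d) ℂ) * Q' = 1 →
      Q' = Q := by
    intro Q' h'
    calc Q' = ((P : MvPowerSeries (Fin d) ℂ) * Q) * Q' := by rw [hPQ, one_mul]
      _ = ((P : MvPowerSeries (Fin d) ℂ) * Q') * Q := by ring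
      _ = Q := by rw [h', one_mul]
  set f : MvPowerSeries (Fin d) ℂ := ((setZero j P : MvPolynomial (Fin d) ℂ) :
    MvPowerSeries (Fin d) ℂ) ^ (M + 1) * Q with hf
  have hW : WW (setZero j P) Q (0 + M) f := by
    have h1 := WW.term (A := setZero j P) (Q := Q) (e := 0 + M) 1 (M + 1) 1 (by omega)
    rwa [MvPolynomial.coe_one, one_mul, pow_one] at h1
  obtain ⟨C0, L0, hC0, h0⟩ := hW.jb hP hPQ
  have hi : ∀ i : Fin d, JB j ((eul i)^[M] f) := fun i => (hW.iterate hPQ i).jb hP hPQ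
  choose Ci Li hCi hbd using hi
  refine ⟨M + 1, L0 + ∑ i, Li i, ((d : ℝ) + 1) ^ M * (C0 + ∑ i, Ci i), fun Q' hQ' k => ?_⟩
  rw [huniq Q' hQ', ← hf]
  have hB : (1 : ℝ) ≤ 1 + (k j : ℝ) := by linarith [Nat.cast_nonneg (α := ℝ) (k j)]
  have h1 := pow_sum_le' (Finset.univ.erase j) (fun i => (k i : ℝ)) (fun i => by positivity) M
  set c := MvPowerSeries.coeff k f with hc
  have h2 : ∀ i, ‖c‖ * (k i : ℝ) ^ M ≤ Ci i * (1 + (k j : ℝ)) ^ (L0 + ∑ i, Li i) := by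
    intro i
    have h3 := hbd i k
    rw [coeff_iterate, norm_mul, norm_pow, Complex.norm_natCast, mul_comm] at h3
    refine h3.trans (mul_le_mul_of_nonneg_left (pow_le_pow_right₀ hB ?_) (hCi i))
    exact (Finset.single_le_sum (f := Li) (fun _ _ => Nat.zero_le _) (Finset.mem_univ i)).trans
      (Nat.le_add_left _ _)
  have h4 : ‖c‖ ≤ C0 * (1 + (k j : ℝ)) ^ (L0 + ∑ i, Li i) :=
    (h0 k).trans (mul_le_mul_of_nonneg_left (pow_le_pow_right₀ hB (Nat.le_add_right _ _)) hC0)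
  calc ‖c‖ * (1 + ∑ i ∈ Finset.univ.erase j, (k i : ℝ)) ^ M ≤
      ‖c‖ * (((d : ℝ) + 1) ^ M * (1 + ∑ i ∈ Finset.univ.erase j, (k i : ℝ) ^ M)) :=
        mul_le_mul_of_nonneg_left h1 (norm_nonneg _)
    _ = ((d : ℝ) + 1) ^ M * (‖c‖ + ∑ i ∈ Finset.univ.erase j, ‖c‖ * (k i : ℝ) ^ M) := by
        rw [← Finset.mul_sum]; ring
    _ ≤ ((d : ℝ) + 1) ^ M * (C0 * (1 + (k j : ℝ)) ^ (L0 + ∑ i, Li i) +
          ∑ i, Ci i * (1 + (k j : ℝ)) ^ (L0 + ∑ i, Li i)) := by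
        refine mul_le_mul_of_nonneg_left (add_le_add h4 ?_) (by positivity)
        refine (Finset.sum_le_sum fun i _ => h2 i).trans ?_
        exact Finset.sum_le_sum_of_subset_of_nonneg (Finset.erase_subset _ _)
          fun i _ _ => mul_nonneg (hCi i) (by positivity)
    _ = ((d : ℝ) + 1) ^ M * (C0 + ∑ i, Ci i) * (1 + (k j : ℝ)) ^ (L0 + ∑ i, Li i) := by
        rw [← Finset.sum_mul]; ring

end Pool.MP4ac1fb.Full
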