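import Mathlib

/-!
Coefficients of `1/p` for a polynomial `p` in one variable without zeros in the open disc.
-/

namespace Pool.MP4ac1fb.Full

/-- Growth of the solution of `g' = (1 - c X) g`. -/
lemma oneVar_step (c : ℂ) (hc : ‖c‖ ≤ 1) (D : ℕ) (g g' : PowerSeries ℂ)
    (h : g' = (1 - PowerSeries.C c * PowerSeries.X) * g)
    (hg' : ∀ n, ‖PowerSeries.coeff n g'‖ ≤ ((n + 1 : ℕ) : ℝ) ^ D) (n : ℕ) :
    ‖PowerSeries.coeff n g‖ ≤ ((n + 1 : ℕ) : ℝ) ^ (D + 1) := by
  have hrec : ∀ k, PowerSeries.coeff (k + 1) g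
      = PowerSeries.coeff (k + 1) g' + c * PowerSeries.coeff k g := by
    intro k
    rw [h, sub_mul, one_mul, map_sub, mul_assoc, PowerSeries.coeff_C_mul,
      PowerSeries.coeff_succ_X_mul]
    ring
  have h0 : PowerSeries.coeff 0 g = PowerSeries.coeff 0 g' := by
    rw [h, sub_mul, one_mul, map_sub, mul_assoc, PowerSeries.coeff_C_mul,
      PowerSeries.coeff_zero_X_mul]
    ring
  induction n with
  | zero =>
    rw [h0]
    have := hg' 0
    simpa using this
  | succ k ih =>
    rw [hrec k]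
    have h1 : ‖c * PowerSeries.coeff k g‖ ≤ ((k + 1 : ℕ) : ℝ) ^ (D + 1) := by
      rw [norm_mul]
      calc ‖c‖ * ‖PowerSeries.coeff k g‖ ≤ 1 * ‖PowerSeries.coeff k g‖ :=
            mul_le_mul_of_nonneg_right hc (norm_nonneg _)
        _ = ‖PowerSeries.coeff k g‖ := one_mul _
        _ ≤ _ := ih
    have h2 := hg' (k + 1)
    have h3 : ((k + 1 : ℕ) : ℝ) ^ D ≤ ((k + 1 + 1 : ℕ) : ℝ) ^ D := by
      apply pow_le_pow_left₀ (by positivity)
      push_cast
      linarith
    calc ‖PowerSeries.coeff (k + 1) g' + c * PowerSeries.coeff k g‖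
        ≤ ‖PowerSeries.coeff (k + 1) g'‖ + ‖c * PowerSeries.coeff k g‖ := norm_add_le _ _
      _ ≤ ((k + 1 + 1 : ℕ) : ℝ) ^ D + ((k + 1 : ℕ) : ℝ) ^ (D + 1) := add_le_add h2 h1
      _ = ((k + 1 + 1 : ℕ) : ℝ) ^ D + ((k + 1 : ℕ) : ℝ) ^ D * ((k + 1 : ℕ) : ℝ) := by
          rw [pow_succ ((k + 1 : ℕ) : ℝ) D]
      _ ≤ ((k + 1 + 1 : ℕ) : ℝ) ^ D + ((k + 1 + 1 : ℕ) : ℝ) ^ D * ((k + 1 : ℕ) : ℝ) := by
          gcongr
      _ = ((k + 1 + 1 : ℕ) : ℝ) ^ (D + 1) := by
          rw [pow_succ ((k + 1 + 1 : ℕ) : ℝ) D]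
          push_cast
          ring

theorem oneVar (p : Polynomial ℂ) (D : ℕ) (hD : p.natDegree ≤ D) (h0 : p.coeff 0 = 1)
    (hz : ∀ z : ℂ, ‖z‖ < 1 → p.eval z ≠ 0) (g : PowerSeries ℂ)
    (hg : (p : PowerSeries ℂ) * g = 1) (n : ℕ) :
    ‖PowerSeries.coeff n g‖ ≤ ((n + 1 : ℕ) : ℝ) ^ D := by
  induction D generalizing p g n with
  | zero =>
    have hp : p = 1 := by
      have := Polynomial.eq_C_of_natDegree_le_zero hD
      rw [this, h0]
      simp
    have hg1 : g = 1 := by
      rw [hp] at hg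
      simpa using hg
    rw [hg1, PowerSeries.coeff_one]
    split_ifs <;> simp
  | succ D ih =>
    by_cases hD' : p.natDegree ≤ D
    · refine (ih p hD' h0 hz g hg n).trans ?_
      apply pow_le_pow_right₀ _ (Nat.le_succ D)
      push_cast
      linarith [(Nat.cast_nonneg n : (0 : ℝ) ≤ n)]
    · have hdeg : p.natDegree = D + 1 := by omega
      have hdeg' : p.degree ≠ 0 := by
        intro hh
        have := Polynomial.natDegree_eq_of_degree_eq_some (n := 0) (by simpa using hh)
        omega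
      obtain ⟨a, ha⟩ := IsAlgClosed.exists_root p hdeg'
      have ha1 : 1 ≤ ‖a‖ := by
        by_contra hlt
        exact hz a (not_le.mp hlt) ha
      have ha0 : a ≠ 0 := by
        intro h
        rw [h, norm_zero] at ha1
        linarith
      obtain ⟨q, hq⟩ := Polynomial.dvd_iff_isRoot.mpr ha
      set q' : Polynomial ℂ := Polynomial.C (-a) * q with hq'
      have hpq : p = (1 - Polynomial.C a⁻¹ * Polynomial.X) * q' := by
        rw [hq, hq', ← mul_assoc]
        congr 1
        have : (Polynomial.C a⁻¹ : Polynomial ℂ) * Polynomial.C a = 1 := by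
          rw [← Polynomial.C_mul, inv_mul_cancel₀ ha0, Polynomial.C_1]
        rw [Polynomial.C_neg]
        linear_combination (-Polynomial.X) * this
      have hp0 : p ≠ 0 := by
        intro h
        rw [h] at h0
        simp at h0
      have hq0 : q ≠ 0 := by
        intro h
        rw [h, mul_zero] at hq
        exact hp0 hq
      have hqdeg : q'.natDegree ≤ D := by
        have h1 : p.natDegree = 1 + q.natDegree := by
          rw [hq, Polynomial.natDegree_mul (Polynomial.X_sub_C_ne_zero a) hq0,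
            Polynomial.natDegree_X_sub_C]
        have h2 : q'.natDegree ≤ q.natDegree := Polynomial.natDegree_C_mul_le _ _
        omega
      have hq'0 : q'.coeff 0 = 1 := by
        have := congrArg (fun r => Polynomial.coeff r 0) hpq
        simp only [Polynomial.mul_coeff_zero, h0, Polynomial.coeff_sub,
          Polynomial.coeff_one_zero, Polynomial.coeff_X_zero, mul_zero, sub_zero, one_mul] at this
        exact this.symm
      have hzq : ∀ z : ℂ, ‖z‖ < 1 → q'.eval z ≠ 0 := by
        intro z hz' h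
        apply hz z hz'
        rw [hpq, Polynomial.eval_mul, h, mul_zero]
      set g' : PowerSeries ℂ := (1 - PowerSeries.C a⁻¹ * PowerSeries.X) * g with hg'
      have hpc : (p : PowerSeries ℂ)
          = (1 - PowerSeries.C a⁻¹ * PowerSeries.X) * (q' : PowerSeries ℂ) := by
        conv_lhs => rw [hpq]
        rw [Polynomial.coe_mul, Polynomial.coe_sub, Polynomial.coe_one, Polynomial.coe_mul,
          Polynomial.coe_C, Polynomial.coe_X]
      have hqg : (q' : PowerSeries ℂ) * g' = 1 := by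
        rw [hg', ← mul_assoc, mul_comm (q' : PowerSeries ℂ), ← hpc, hg]
      have hinv : ‖a⁻¹‖ ≤ 1 := by
        rw [norm_inv]
        exact inv_le_one_of_one_le₀ ha1
      exact oneVar_step a⁻¹ hinv D g g' hg' (fun k => ih q' hqdeg hq'0 hzq g' hqg k) n

end Pool.MP4ac1fb.Full
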