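import Pool.Agent.H.MP_4ac1fb_an.Full.Defs
import Pool.Agent.H.MP_4ac1fb_an.Grid

/-!
Coefficients of absolutely convergent series on the torus are bounded by the supremum.
-/

namespace Pool.MP4ac1fb.Full

open MvPolynomial

variable {d : ℕ}

theorem coeff_le_of_torus (a : (Fin d →₀ ℕ) → ℂ) (ha : Summable fun k => ‖a k‖) (B : ℝ)
    (hB : ∀ z : Fin d → ℂ, (∀ j, ‖z j‖ = 1) → ‖∑' k, a k * ∏ j, z j ^ k j‖ ≤ B)
    (k : Fin d →₀ ℕ) : ‖a k‖ ≤ B := by
  classical
  refine le_of_forall_pos_le_add fun ε hε => ?_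
  -- a finite set carrying almost all of the sum
  have hev : ∀ᶠ s : Finset (Fin d →₀ ℕ) in Filter.atTop,
      (∑' k, ‖a k‖) - ε < ∑ k ∈ s, ‖a k‖ :=
    ha.hasSum.eventually (lt_mem_nhds (by linarith))
  obtain ⟨s, hs1, hs2⟩ := (hev.and (Filter.eventually_ge_atTop {k})).exists
  have hks : k ∈ s := hs2 (Finset.mem_singleton_self k)
  set f : MvPolynomial (Fin d) ℂ := ∑ k ∈ s, monomial k (a k) with hf
  have hcoeff : ∀ l ∈ s, coeff l f = a l := by
    intro l hl
    rw [hf, coeff_sum]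
    simp only [coeff_monomial]
    rw [Finset.sum_ite_eq' s l]
    simp [hl]
  have heval : ∀ z : Fin d → ℂ, eval z f = ∑ k ∈ s, a k * ∏ j, z j ^ k j := by
    intro z
    rw [hf, map_sum]
    refine Finset.sum_congr rfl fun l _ => ?_
    rw [eval_monomial, Finsupp.prod_fintype _ _ (fun i => pow_zero _)]
  have hbound : ∀ z : Fin d → ℂ, (∀ j, ‖z j‖ = 1) → ‖eval z f‖ ≤ B + ε := by
    intro z hz
    have hn : ∀ l : Fin d →₀ ℕ, ‖a l * ∏ j, z j ^ l j‖ = ‖a l‖ := by
      intro l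
      rw [norm_mul, norm_prod]
      simp [norm_pow, hz]
    have hsum : Summable fun l : Fin d →₀ ℕ => a l * ∏ j, z j ^ l j := by
      apply Summable.of_norm
      simpa only [hn] using ha
    have h1 := hsum.sum_add_tsum_compl (s := s)
    have h2 := ha.sum_add_tsum_compl (s := s)
    have h3 : ‖∑' l : ↥((s : Set (Fin d →₀ ℕ))ᶜ), a l * ∏ j, z j ^ (l : Fin d →₀ ℕ) j‖
        ≤ ∑' l : ↥((s : Set (Fin d →₀ ℕ))ᶜ), ‖a l‖ := by
      have hs' : Summable fun l : ↥((s : Set (Fin d →₀ ℕ))ᶜ) =>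
          ‖a l * ∏ j, z j ^ (l : Fin d →₀ ℕ) j‖ := by
        simp only [hn]
        exact ha.subtype ((s : Set (Fin d →₀ ℕ))ᶜ)
      refine (norm_tsum_le_tsum_norm hs').trans ?_
      simp only [hn]
      exact le_rfl
    have h4 : eval z f = (∑' l, a l * ∏ j, z j ^ l j)
        - ∑' l : ↥((s : Set (Fin d →₀ ℕ))ᶜ), a l * ∏ j, z j ^ (l : Fin d →₀ ℕ) j := by
      rw [heval, ← h1]
      ring
    rw [h4]
    refine (norm_sub_le _ _).trans ?_
    have h5 := hB z hz
    linarith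
  have hfin := coeff_norm_le_sup f (B + ε) hbound
  have hB0 : 0 ≤ B + ε := by
    have := hbound (fun _ => 1) (fun _ => norm_one)
    exact (norm_nonneg _).trans this
  by_cases hzero : a k = 0
  · rw [hzero, norm_zero]
    exact hB0
  have hmem : k ∈ f.support := by
    rw [mem_support_iff, hcoeff k hks]
    exact hzero
  have h6 : ‖coeff k f‖ ^ 2 ≤ (B + ε) ^ 2 :=
    (Finset.single_le_sum (f := fun k => ‖coeff k f‖ ^ 2) (fun _ _ => by positivity) hmem).trans
      hfin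
  rw [hcoeff k hks] at h6
  exact le_of_sq_le_sq h6 hB0

end Pool.MP4ac1fb.Full
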