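import Pool.Agent.H.MP_4ac1fb_an.Full.SetZero
import Pool.Agent.H.MP_4ac1fb_an.Full.OneVar
import Pool.Agent.H.MP_4ac1fb_an.Full.TorAvg

/-!
Partial evaluation of power series in several variables: the power series in one variable whose
`n`-th coefficient is the part of weighted degree `n` evaluated at a point.
-/

namespace Pool.MP4ac1fb.Full

open MvPolynomial

variable {d : ℕ}

/-- The weighted degree. -/
def wdeg (δ : Fin d → ℕ) (k : Fin d →₀ ℕ) : ℕ := ∑ i, δ i * k i

lemma wdeg_add (δ : Fin d → ℕ) (a b : Fin d →₀ ℕ) : wdeg δ (a + b) = wdeg δ a + wdeg δ b := by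
  simp only [wdeg, Finsupp.add_apply, mul_add, Finset.sum_add_distrib]

/-- The value of a monomial. -/
noncomputable def mval (z : Fin d → ℂ) (k : Fin d →₀ ℕ) : ℂ := ∏ i, z i ^ k i

lemma mval_add (z : Fin d → ℂ) (a b : Fin d →₀ ℕ) : mval z (a + b) = mval z a * mval z b := by
  simp only [mval, Finsupp.add_apply, pow_add, Finset.prod_mul_distrib]

/-- The terms of weighted degree `n`. -/
noncomputable def tm (δ : Fin d → ℕ) (z : Fin d → ℂ) (f : MvPowerSeries (Fin d) ℂ) (n : ℕ)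
    (k : Fin d →₀ ℕ) : ℂ :=
  if wdeg δ k = n then MvPowerSeries.coeff k f * mval z k else 0

/-- Absolute summability of the terms of each weighted degree. -/
def AS (δ : Fin d → ℕ) (z : Fin d → ℂ) (f : MvPowerSeries (Fin d) ℂ) : Prop :=
  ∀ n, Summable fun k => ‖tm δ z f n k‖

/-- The partial evaluation. -/
noncomputable def pe (δ : Fin d → ℕ) (z : Fin d → ℂ) (f : MvPowerSeries (Fin d) ℂ) :
    PowerSeries ℂ :=
  PowerSeries.mk fun n => ∑' k, tm δ z f n k

lemma coeff_pe (δ : Fin d → ℕ) (z : Fin d → ℂ) (f : MvPowerSeries (Fin d) ℂ) (n : ℕ) :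
    PowerSeries.coeff n (pe δ z f) = ∑' k, tm δ z f n k := by
  rw [pe, PowerSeries.coeff_mk]

lemma tm_mul (δ : Fin d → ℕ) (z : Fin d → ℂ) (f g : MvPowerSeries (Fin d) ℂ) (n : ℕ)
    (k : Fin d →₀ ℕ) :
    tm δ z (f * g) n k = ∑ p ∈ Finset.HasAntidiagonal.antidiagonal n, ∑ q ∈ Finset.HasAntidiagonal.antidiagonal k,
      tm δ z f p.1 q.1 * tm δ z g p.2 q.2 := by
  rw [Finset.sum_comm]
  have h1 : ∀ q ∈ Finset.HasAntidiagonal.antidiagonal k, ∑ p ∈ Finset.HasAntidiagonal.antidiagonal n,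
      tm δ z f p.1 q.1 * tm δ z g p.2 q.2 =
      if wdeg δ k = n then MvPowerSeries.coeff q.1 f * MvPowerSeries.coeff q.2 g * mval z k
        else 0 := by
    intro q hq
    rw [Finset.HasAntidiagonal.mem_antidiagonal] at hq
    have h2 : wdeg δ k = wdeg δ q.1 + wdeg δ q.2 := by rw [← hq, wdeg_add]
    have h3 : mval z k = mval z q.1 * mval z q.2 := by rw [← hq, mval_add]
    by_cases h : wdeg δ k = n
    · rw [if_pos h, Finset.sum_eq_single (wdeg δ q.1, wdeg δ q.2)]
      · simp only [tm, if_true]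
        rw [h3]; ring
      · intro p _ hp
        simp only [tm]
        by_cases h4 : wdeg δ q.1 = p.1
        · by_cases h5 : wdeg δ q.2 = p.2
          · exact absurd (Prod.ext h4.symm h5.symm) hp
          · rw [if_neg h5, mul_zero]
        · rw [if_neg h4, zero_mul]
      · intro h4
        exact absurd (Finset.HasAntidiagonal.mem_antidiagonal.2 (by rw [← h2, h])) h4
    · rw [if_neg h]
      refine Finset.sum_eq_zero fun p hp => ?_
      rw [Finset.HasAntidiagonal.mem_antidiagonal] at hp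
      simp only [tm]
      by_cases h4 : wdeg δ q.1 = p.1
      · by_cases h5 : wdeg δ q.2 = p.2
        · exact absurd (by rw [h2, h4, h5, hp]) h
        · rw [if_neg h5, mul_zero]
      · rw [if_neg h4, zero_mul]
  rw [Finset.sum_congr rfl h1, tm]
  by_cases h : wdeg δ k = n
  · simp only [if_pos h, MvPowerSeries.coeff_mul, Finset.sum_mul]
  · simp only [if_neg h, Finset.sum_const_zero]

lemma summable_norm_cauchy {A : Type*} [AddCommMonoid A] [Finset.HasAntidiagonal A] {f g : A → ℂ}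
    (hf : Summable fun x => ‖f x‖) (hg : Summable fun x => ‖g x‖) :
    Summable fun n => ‖∑ q ∈ Finset.HasAntidiagonal.antidiagonal n, f q.1 * g q.2‖ := by
  have h := summable_sum_mul_antidiagonal_of_summable_mul
      (Summable.mul_of_nonneg hf hg (fun _ => norm_nonneg _) fun _ => norm_nonneg _)
  refine h.of_nonneg_of_le (fun _ => norm_nonneg _) (fun n => ?_)
  refine (norm_sum_le _ _).trans (Finset.sum_le_sum fun q _ => norm_mul_le _ _)

lemma tsum_cauchy {A : Type*} [AddCommMonoid A] [Finset.HasAntidiagonal A] {f g : A → ℂ}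
    (hf : Summable fun x => ‖f x‖) (hg : Summable fun x => ‖g x‖) :
    (∑' n, f n) * ∑' n, g n =
      ∑' n, ∑ q ∈ Finset.HasAntidiagonal.antidiagonal n, f q.1 * g q.2 :=
  hf.of_norm.tsum_mul_tsum_eq_tsum_sum_antidiagonal hg.of_norm (summable_mul_of_summable_norm hf hg)

lemma AS.mul {δ : Fin d → ℕ} {z : Fin d → ℂ} {f g : MvPowerSeries (Fin d) ℂ} (hf : AS δ z f)
    (hg : AS δ z g) : AS δ z (f * g) := by
  intro n
  have h1 : Summable fun k => ∑ p ∈ Finset.HasAntidiagonal.antidiagonal n,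
      ‖∑ q ∈ Finset.HasAntidiagonal.antidiagonal k, tm δ z f p.1 q.1 * tm δ z g p.2 q.2‖ :=
    summable_sum fun p _ => summable_norm_cauchy (hf p.1) (hg p.2)
  refine Summable.of_nonneg_of_le (fun k => norm_nonneg _) (fun k => ?_) h1
  rw [tm_mul]
  exact norm_sum_le _ _

lemma pe_mul {δ : Fin d → ℕ} {z : Fin d → ℂ} {f g : MvPowerSeries (Fin d) ℂ} (hf : AS δ z f)
    (hg : AS δ z g) : pe δ z (f * g) = pe δ z f * pe δ z g := by
  ext n
  rw [PowerSeries.coeff_mul]
  simp only [coeff_pe]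
  have h1 : ∀ p ∈ Finset.HasAntidiagonal.antidiagonal n, (∑' k, tm δ z f p.1 k) * (∑' k, tm δ z g p.2 k) =
      ∑' k, ∑ q ∈ Finset.HasAntidiagonal.antidiagonal k, tm δ z f p.1 q.1 * tm δ z g p.2 q.2 := fun p _ =>
    tsum_cauchy (hf p.1) (hg p.2)
  rw [Finset.sum_congr rfl h1, ← Summable.tsum_finsetSum]
  · exact tsum_congr fun k => tm_mul δ z f g n k
  · intro p _
    exact (summable_norm_cauchy (hf p.1) (hg p.2)).of_norm

lemma tm_poly_eq_zero {δ : Fin d → ℕ} {z : Fin d → ℂ} {P : MvPolynomial (Fin d) ℂ} {n : ℕ}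
    {k : Fin d →₀ ℕ} (hk : k ∉ P.support) : tm δ z (P : MvPowerSeries (Fin d) ℂ) n k = 0 := by
  rw [tm, MvPolynomial.coeff_coe, MvPolynomial.notMem_support_iff.1 hk, zero_mul, ite_self]

lemma AS_poly (δ : Fin d → ℕ) (z : Fin d → ℂ) (P : MvPolynomial (Fin d) ℂ) :
    AS δ z (P : MvPowerSeries (Fin d) ℂ) := by
  intro n
  refine summable_of_ne_finset_zero (s := P.support) fun k hk => ?_
  rw [tm_poly_eq_zero hk, norm_zero]

/-- The partial evaluation of a polynomial. -/
noncomputable def pp (δ : Fin d → ℕ) (z : Fin d → ℂ) (P : MvPolynomial (Fin d) ℂ) :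
    Polynomial ℂ :=
  ∑ a ∈ P.support, Polynomial.monomial (wdeg δ a) (coeff a P * mval z a)

lemma pe_poly (δ : Fin d → ℕ) (z : Fin d → ℂ) (P : MvPolynomial (Fin d) ℂ) :
    pe δ z (P : MvPowerSeries (Fin d) ℂ) = (pp δ z P : PowerSeries ℂ) := by
  ext n
  rw [coeff_pe, Polynomial.coeff_coe, pp, Polynomial.finsetSum_coeff,
    tsum_eq_sum (s := P.support) fun k hk => tm_poly_eq_zero hk]
  refine Finset.sum_congr rfl fun a _ => ?_
  rw [tm, Polynomial.coeff_monomial, MvPolynomial.coeff_coe]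

lemma eval_pp (δ : Fin d → ℕ) (z : Fin d → ℂ) (P : MvPolynomial (Fin d) ℂ) (w : ℂ) :
    (pp δ z P).eval w = eval (fun i => z i * w ^ δ i) P := by
  rw [pp, Polynomial.eval_finsetSum, MvPolynomial.eval_eq']
  refine Finset.sum_congr rfl fun a _ => ?_
  rw [Polynomial.eval_monomial, mul_assoc]
  congr 1
  rw [mval, wdeg, ← Finset.prod_pow_eq_pow_sum, ← Finset.prod_mul_distrib]
  refine Finset.prod_congr rfl fun i _ => ?_
  rw [mul_pow, pow_mul]

lemma natDegree_pp {δ : Fin d → ℕ} {z : Fin d → ℂ} {P : MvPolynomial (Fin d) ℂ} {D : ℕ}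
    (hD : ∀ a ∈ P.support, wdeg δ a ≤ D) : (pp δ z P).natDegree ≤ D := by
  refine Polynomial.natDegree_sum_le_of_forall_le _ _ fun a ha => ?_
  exact (Polynomial.natDegree_monomial_le _).trans (hD a ha)

/-- The bound for the coefficients of the partial evaluation of the inverse. -/
lemma inv_bound {δ : Fin d → ℕ} {z : Fin d → ℂ} {P : MvPolynomial (Fin d) ℂ}
    {Q : MvPowerSeries (Fin d) ℂ} (hPQ : (P : MvPowerSeries (Fin d) ℂ) * Q = 1) (hQ : AS δ z Q)
    (hz : ∀ w : ℂ, ‖w‖ < 1 → eval (fun i => z i * w ^ δ i) P ≠ 0) {D : ℕ}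
    (hD : ∀ a ∈ P.support, wdeg δ a ≤ D) (n : ℕ) :
    ‖eval (fun i => z i * (0 : ℂ) ^ δ i) P * PowerSeries.coeff n (pe δ z Q)‖ ≤
      ((n + 1 : ℕ) : ℝ) ^ D := by
  set α := eval (fun i => z i * (0 : ℂ) ^ δ i) P with hα
  have hα0 : α ≠ 0 := hz 0 (by simp)
  have h1 : pe δ z (1 : MvPowerSeries (Fin d) ℂ) = 1 := by
    have h2 : (1 : MvPowerSeries (Fin d) ℂ) = ((1 : MvPolynomial (Fin d) ℂ) : MvPowerSeries _ ℂ) :=
      by simp
    rw [h2, pe_poly]
    have h3 : pp δ z (1 : MvPolynomial (Fin d) ℂ) = 1 := by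
      rw [pp, MvPolynomial.support_one]
      simp [wdeg, mval]
    rw [h3]; simp
  have h2 : (pp δ z P : PowerSeries ℂ) * pe δ z Q = 1 := by
    rw [← pe_poly, ← pe_mul (AS_poly δ z P) hQ, hPQ, h1]
  have h3 := oneVar (Polynomial.C α⁻¹ * pp δ z P) D
    ((Polynomial.natDegree_C_mul_le _ _).trans (natDegree_pp hD))
    (by rw [Polynomial.coeff_C_mul, Polynomial.coeff_zero_eq_eval_zero, eval_pp, ← hα,
      inv_mul_cancel₀ hα0])
    (by
      intro w hw
      rw [Polynomial.eval_mul, Polynomial.eval_C, eval_pp]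
      exact mul_ne_zero (inv_ne_zero hα0) (hz w hw))
    (PowerSeries.C α * pe δ z Q)
    (by
      rw [Polynomial.coe_mul, Polynomial.coe_C]
      calc PowerSeries.C α⁻¹ * (pp δ z P : PowerSeries ℂ) * (PowerSeries.C α * pe δ z Q) =
          (PowerSeries.C α⁻¹ * PowerSeries.C α) * ((pp δ z P : PowerSeries ℂ) * pe δ z Q) := by
            ring
        _ = 1 := by
            rw [h2, ← map_mul, inv_mul_cancel₀ hα0, map_one, one_mul]) n
  rwa [PowerSeries.coeff_C_mul] at h3

end Pool.MP4ac1fb.Full
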