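import Pool.Agent.H.MP_4ac1fb_an.Full.CoeffBoundAux

/-!
Bounds for the Taylor coefficients of `1 / P` and of `P|_{z_j=0} / P`.
-/

namespace Pool.MP4ac1fb.Full

open MvPolynomial

variable {d : ℕ}

/-- Summability of products over exponent vectors. -/
lemma summable_prod_finsupp (u : Fin d → ℕ → ℝ) (hu0 : ∀ i n, 0 ≤ u i n)
    (hu : ∀ i, Summable (u i)) : Summable fun k : Fin d →₀ ℕ => ∏ i, u i (k i) := by
  have h : Summable fun k : Fin d → ℕ => ∏ i, u i (k i) := by
    refine summable_of_sum_le (c := ∏ i, ∑' n, u i n)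
      (fun k => Finset.prod_nonneg fun i _ => hu0 i _) fun s => ?_
    calc ∑ k ∈ s, ∏ i, u i (k i) ≤
        ∑ k ∈ Fintype.piFinset (fun i => s.image (fun k => k i)), ∏ i, u i (k i) :=
          Finset.sum_le_sum_of_subset_of_nonneg
            (fun k hk => Fintype.mem_piFinset.2 fun i => Finset.mem_image_of_mem _ hk)
            (fun k _ _ => Finset.prod_nonneg fun i _ => hu0 i _)
      _ = ∏ i, ∑ n ∈ s.image (fun k => k i), u i n := (Finset.prod_univ_sum _ _).symm
      _ ≤ ∏ i, ∑' n, u i n :=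
          Finset.prod_le_prod (fun i _ => Finset.sum_nonneg fun n _ => hu0 i n)
            (fun i _ => (hu i).sum_le_tsum _ (fun n _ => hu0 i n))
  exact (Finsupp.equivFunOnFinite.summable_iff (f := fun k : Fin d → ℕ => ∏ i, u i (k i))).2 h

lemma wdeg_le_totalDegree {P : MvPolynomial (Fin d) ℂ} {a : Fin d →₀ ℕ} (ha : a ∈ P.support)
    (δ : Fin d → ℕ) (hδ : ∀ i, δ i ≤ 1) : wdeg δ a ≤ P.totalDegree := by
  refine le_trans ?_ (MvPolynomial.le_totalDegree ha)
  rw [Finsupp.sum_fintype _ _ (fun _ => rfl), wdeg]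
  refine Finset.sum_le_sum fun i _ => ?_
  calc δ i * a i ≤ 1 * a i := Nat.mul_le_mul_right _ (hδ i)
    _ = a i := one_mul _

lemma AS_one (z : Fin d → ℂ) (f : MvPowerSeries (Fin d) ℂ) : AS (fun _ => 1) z f := by
  intro n
  refine summable_of_hasFiniteSupport ((Finsupp.finite_of_degree_le (σ := Fin d) n).subset ?_)
  intro k hk
  rw [Function.mem_support, tm] at hk
  by_contra h
  apply hk
  rw [if_neg, norm_zero]
  intro h2
  apply h
  show Finsupp.degree k ≤ n
  rw [Finsupp.degree_eq_sum, ← h2, wdeg]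
  simp

/-- Polynomial bounds for the coefficients of the inverse of a polynomial without zeros. -/
lemma inv_poly_bound {P : MvPolynomial (Fin d) ℂ} (hP : NZ P) {Q : MvPowerSeries (Fin d) ℂ}
    (hPQ : (P : MvPowerSeries (Fin d) ℂ) * Q = 1) (k : Fin d →₀ ℕ) :
    ‖eval (fun _ => 0) P‖ * ‖MvPowerSeries.coeff k Q‖ ≤
      (1 + ∑ i, (k i : ℝ)) ^ P.totalDegree := by
  have h0 : eval (fun _ => 0) P ≠ 0 := hP _ (by simp)
  set n := wdeg (fun _ => 1) k with hn
  have hnn : ((n + 1 : ℕ) : ℝ) = 1 + ∑ i, (k i : ℝ) := by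
    rw [hn, wdeg]; push_cast; simp only [one_mul]; ring
  set a : (Fin d →₀ ℕ) → ℂ := fun l => if wdeg (fun _ => 1) l = n then
    MvPowerSeries.coeff l Q * eval (fun _ => 0) P else 0 with ha
  have hterm : ∀ (ζ : Fin d → ℂ) (l : Fin d →₀ ℕ), a l * ∏ i, ζ i ^ l i =
      eval (fun _ => 0) P * tm (fun _ => 1) ζ Q n l := by
    intro ζ l
    simp only [ha, tm, mval]
    split_ifs
    · ring
    · simp
  have hs : Summable fun l => ‖a l‖ := by
    have h1 := (AS_one (fun _ => (1 : ℂ)) Q n).mul_left ‖eval (fun _ => (0 : ℂ)) P‖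
    refine h1.congr fun l => ?_
    rw [← norm_mul, ← hterm]
    simp
  have h2 := coeff_le_of_torus a hs (((n + 1 : ℕ) : ℝ) ^ P.totalDegree) (fun ζ hζ => by
    have h3 := inv_bound (δ := fun _ => 1) (z := ζ) hPQ (AS_one ζ Q)
      (fun w hw => hP _ fun i => by rw [pow_one, norm_mul, hζ i, one_mul]; exact hw)
      (fun a ha => wdeg_le_totalDegree ha _ fun _ => le_rfl) n
    rw [coeff_pe] at h3
    have h4 : (fun i => ζ i * (0 : ℂ) ^ 1) = fun _ : Fin d => (0 : ℂ) := by
      funext i; simp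
    rw [h4] at h3
    rw [tsum_congr (hterm ζ), tsum_mul_left]
    exact h3) k
  rw [hnn] at h2
  simp only [ha, ← hn, if_true, norm_mul] at h2
  linarith [mul_comm ‖MvPowerSeries.coeff k Q‖ ‖eval (fun _ => (0 : ℂ)) P‖]

lemma summable_one_add_pow_mul_geometric (m : ℕ) {ρ : ℝ} (h0 : 0 < ρ) (h1 : ρ < 1) :
    Summable fun n : ℕ => (1 + (n : ℝ)) ^ m * ρ ^ n := by
  have h2 : Summable fun n : ℕ => (n : ℝ) ^ m * ρ ^ n :=
    summable_pow_mul_geometric_of_norm_lt_one m (by rw [Real.norm_eq_abs, abs_of_pos h0]; exact h1)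
  have h3 := ((summable_nat_add_iff 1).2 h2).mul_left ρ⁻¹
  refine h3.congr fun n => ?_
  push_cast
  rw [pow_succ]
  field_simp
  ring

lemma one_add_sum_le_prod (s : Finset (Fin d)) (x : Fin d → ℝ) (hx : ∀ i, 0 ≤ x i) :
    1 + ∑ i ∈ s, x i ≤ ∏ i ∈ s, (1 + x i) := by
  classical
  induction s using Finset.induction_on with
  | empty => simp
  | insert a s ha ih =>
    rw [Finset.sum_insert ha, Finset.prod_insert ha]
    have h1 : 0 ≤ ∑ i ∈ s, x i := Finset.sum_nonneg fun i _ => hx i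
    have h2 : (1 + x a) * (1 + ∑ i ∈ s, x i) ≤ (1 + x a) * ∏ i ∈ s, (1 + x i) :=
      mul_le_mul_of_nonneg_left ih (by linarith [hx a])
    nlinarith [mul_nonneg (hx a) h1]

/-- The radius vector. -/
def rad (j : Fin d) (ρ : ℝ) : Fin d → ℝ := fun i => if i = j then 1 else ρ

lemma wdeg_single (j : Fin d) (k : Fin d →₀ ℕ) : wdeg (Pi.single j 1) k = k j := by
  rw [wdeg, Finset.sum_eq_single j]
  · simp
  · intro i _ hi
    rw [Pi.single_eq_of_ne hi, zero_mul]
  · intro h; exact absurd (Finset.mem_univ j) h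

lemma AS_single {P : MvPolynomial (Fin d) ℂ} (hP : NZ P) {Q : MvPowerSeries (Fin d) ℂ}
    (hPQ : (P : MvPowerSeries (Fin d) ℂ) * Q = 1) (j : Fin d) {ρ : ℝ} (h0 : 0 < ρ) (h1 : ρ < 1)
    {z : Fin d → ℂ} (hz : ∀ i, ‖z i‖ = rad j ρ i) : AS (Pi.single j 1) z Q := by
  intro n
  have hP0 : 0 < ‖eval (fun _ => (0 : ℂ)) P‖ := norm_pos_iff.2 (hP _ (by simp))
  set m := P.totalDegree with hm
  set u : Fin d → ℕ → ℝ := fun i x => if i = j then (if x = n then (1 + (x : ℝ)) ^ m else 0)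
    else (1 + (x : ℝ)) ^ m * ρ ^ x with hu
  have hu0 : ∀ i x, 0 ≤ u i x := by
    intro i x
    simp only [hu]
    split_ifs <;> positivity
  have hus : ∀ i, Summable (u i) := by
    intro i
    by_cases hi : i = j
    · refine summable_of_ne_finset_zero (s := {n}) fun x hx => ?_
      rw [Finset.mem_singleton] at hx
      simp only [hu, if_pos hi, if_neg hx]
    · refine (summable_one_add_pow_mul_geometric m h0 h1).congr fun x => ?_
      simp only [hu, if_neg hi]
  have h2 := (summable_prod_finsupp u hu0 hus).mul_left ‖eval (fun _ => (0 : ℂ)) P‖⁻¹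
  refine h2.of_nonneg_of_le (fun k => norm_nonneg _) fun k => ?_
  rw [tm, wdeg_single]
  by_cases hk : k j = n
  · rw [if_pos hk, norm_mul]
    have h3 : ‖mval z k‖ = ∏ i, rad j ρ i ^ k i := by
      rw [mval, norm_prod]
      exact Finset.prod_congr rfl fun i _ => by rw [norm_pow, hz i]
    have h4 : ‖MvPowerSeries.coeff k Q‖ ≤ ‖eval (fun _ => (0 : ℂ)) P‖⁻¹ *
        ∏ i, (1 + (k i : ℝ)) ^ m := by
      rw [inv_mul_eq_div, le_div_iff₀ hP0, mul_comm]
      refine (inv_poly_bound hP hPQ k).trans ?_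
      rw [Finset.prod_pow]
      refine pow_le_pow_left₀ (by positivity) ?_ _
      exact one_add_sum_le_prod _ _ fun i => by positivity
    rw [h3]
    calc ‖MvPowerSeries.coeff k Q‖ * ∏ i, rad j ρ i ^ k i ≤
        (‖eval (fun _ => (0 : ℂ)) P‖⁻¹ * ∏ i, (1 + (k i : ℝ)) ^ m) * ∏ i, rad j ρ i ^ k i := by
          refine mul_le_mul_of_nonneg_right h4 (Finset.prod_nonneg fun i _ => ?_)
          rw [rad]; split_ifs <;> positivity
      _ = ‖eval (fun _ => (0 : ℂ)) P‖⁻¹ * ∏ i, u i (k i) := by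
          rw [mul_assoc, ← Finset.prod_mul_distrib]
          congr 1
          refine Finset.prod_congr rfl fun i _ => ?_
          simp only [hu, rad]
          by_cases hi : i = j
          · simp [hi, hk]
          · simp [hi]
  · rw [if_neg hk, norm_zero]
    exact mul_nonneg (by positivity) (Finset.prod_nonneg fun i _ => hu0 i _)

lemma pp_setZero (j : Fin d) (z : Fin d → ℂ) (P : MvPolynomial (Fin d) ℂ) :
    pp (Pi.single j 1) z (setZero j P) = Polynomial.C (eval z (setZero j P)) := by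
  have h1 : (pp (Pi.single j 1) z (setZero j P)).natDegree = 0 := by
    refine Nat.le_zero.1 (natDegree_pp fun a ha => ?_)
    rw [wdeg_single]
    rw [MvPolynomial.mem_support_iff, coeff_setZero] at ha
    by_contra h
    apply ha
    rw [if_neg (by omega)]
  rw [Polynomial.eq_C_of_natDegree_eq_zero h1]
  congr 1
  rw [Polynomial.coeff_zero_eq_eval_zero, eval_pp, eval_setZero, eval_setZero]
  congr 2
  funext i
  by_cases hi : i = j
  · rw [hi, Function.update_self, Function.update_self]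
  · rw [Function.update_of_ne hi, Function.update_of_ne hi, Pi.single_eq_of_ne hi, pow_zero, mul_one]

lemma R_bound_aux {P : MvPolynomial (Fin d) ℂ} (hP : NZ P) {Q : MvPowerSeries (Fin d) ℂ}
    (hPQ : (P : MvPowerSeries (Fin d) ℂ) * Q = 1) (j : Fin d) {ρ : ℝ} (h0 : 0 < ρ) (h1 : ρ < 1)
    (k : Fin d →₀ ℕ) :
    ‖MvPowerSeries.coeff k (((setZero j P : MvPolynomial (Fin d) ℂ) : MvPowerSeries (Fin d) ℂ) *
      Q)‖ * ∏ i, rad j ρ i ^ k i ≤ (1 + (k j : ℝ)) ^ P.totalDegree := by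
  set R : MvPowerSeries (Fin d) ℂ :=
    ((setZero j P : MvPolynomial (Fin d) ℂ) : MvPowerSeries (Fin d) ℂ) * Q with hR
  have hrad : ∀ i, 0 < rad j ρ i := by
    intro i; rw [rad]; split_ifs <;> positivity
  set n := k j with hn
  set a : (Fin d →₀ ℕ) → ℂ := fun l => tm (Pi.single j 1) (fun i => (rad j ρ i : ℂ)) R n l with ha
  have hzr : ∀ ζ : Fin d → ℂ, (∀ i, ‖ζ i‖ = 1) → ∀ i, ‖(rad j ρ i : ℂ) * ζ i‖ = rad j ρ i := by
    intro ζ hζ i
    rw [norm_mul, hζ i, mul_one, Complex.norm_real, Real.norm_eq_abs, abs_of_pos (hrad i)]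
  have hs : Summable fun l => ‖a l‖ :=
    ((AS_poly _ _ _).mul (AS_single hP hPQ j h0 h1 (fun i => by
      rw [Complex.norm_real, Real.norm_eq_abs, abs_of_pos (hrad i)]))) n
  have hterm : ∀ (ζ : Fin d → ℂ) (l : Fin d →₀ ℕ), a l * ∏ i, ζ i ^ l i =
      tm (Pi.single j 1) (fun i => (rad j ρ i : ℂ) * ζ i) R n l := by
    intro ζ l
    simp only [ha, tm, mval]
    split_ifs
    · rw [mul_assoc, ← Finset.prod_mul_distrib]
      congr 1
      exact Finset.prod_congr rfl fun i _ => by rw [mul_pow]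
    · simp
  have h2 := coeff_le_of_torus a hs (((n + 1 : ℕ) : ℝ) ^ P.totalDegree) (fun ζ hζ => by
    have hAS := AS_single hP hPQ j h0 h1 (hzr ζ hζ)
    have h3 := inv_bound (δ := Pi.single j 1) (z := fun i => (rad j ρ i : ℂ) * ζ i) hPQ hAS
      (fun w hw => hP _ fun i => by
        by_cases hi : i = j
        · rw [hi, Pi.single_eq_same, pow_one, norm_mul, hzr ζ hζ, rad, if_pos rfl, one_mul]
          exact hw
        · rw [Pi.single_eq_of_ne hi, pow_zero, mul_one, hzr ζ hζ, rad, if_neg hi]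
          exact h1)
      (fun a ha => wdeg_le_totalDegree ha _ fun i => by
        by_cases hi : i = j
        · rw [hi, Pi.single_eq_same]
        · rw [Pi.single_eq_of_ne hi]; exact Nat.zero_le _) n
    have h4 : PowerSeries.coeff n (pe (Pi.single j 1) (fun i => (rad j ρ i : ℂ) * ζ i) R) =
        eval (fun i => (rad j ρ i : ℂ) * ζ i * (0 : ℂ) ^ (Pi.single j 1 : Fin d → ℕ) i) P *
          PowerSeries.coeff n (pe (Pi.single j 1) (fun i => (rad j ρ i : ℂ) * ζ i) Q) := by
      rw [hR, pe_mul (AS_poly _ _ _) hAS, pe_poly, pp_setZero, Polynomial.coe_C,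
        PowerSeries.coeff_C_mul, eval_setZero]
      congr 3
      funext i
      by_cases hi : i = j
      · rw [hi, Function.update_self]; simp
      · rw [Function.update_of_ne hi, Pi.single_eq_of_ne hi, pow_zero, mul_one]
    rw [tsum_congr (hterm ζ), ← coeff_pe, h4]
    exact h3) k
  have h5 : ‖a k‖ = ‖MvPowerSeries.coeff k R‖ * ∏ i, rad j ρ i ^ k i := by
    simp only [ha, tm, wdeg_single, ← hn, if_true, norm_mul, mval, norm_prod, norm_pow,
      Complex.norm_real, Real.norm_eq_abs, abs_of_pos (hrad _)]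
  rw [h5] at h2
  refine h2.trans (le_of_eq ?_)
  push_cast
  rw [add_comm]

/-- The coefficients of `P|_{z_j=0} / P` grow at most polynomially in `k_j`, uniformly in the other
coordinates. -/
lemma R_bound {P : MvPolynomial (Fin d) ℂ} (hP : NZ P) {Q : MvPowerSeries (Fin d) ℂ}
    (hPQ : (P : MvPowerSeries (Fin d) ℂ) * Q = 1) (j : Fin d) (k : Fin d →₀ ℕ) :
    ‖MvPowerSeries.coeff k (((setZero j P : MvPolynomial (Fin d) ℂ) : MvPowerSeries (Fin d) ℂ) *
      Q)‖ ≤ (1 + (k j : ℝ)) ^ P.totalDegree := by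
  set c := ‖MvPowerSeries.coeff k (((setZero j P : MvPolynomial (Fin d) ℂ) :
    MvPowerSeries (Fin d) ℂ) * Q)‖ with hc
  have hcont : Continuous fun ρ : ℝ => c * ∏ i, rad j ρ i ^ k i := by
    refine continuous_const.mul (continuous_finsetProd _ fun i _ => ?_)
    refine Continuous.pow ?_ _
    simp only [rad]
    split_ifs
    · exact continuous_const
    · exact continuous_id
  have h1 : Filter.Tendsto (fun ρ : ℝ => c * ∏ i, rad j ρ i ^ k i) (nhdsWithin 1 (Set.Iio 1))
      (nhds (c * ∏ i, rad j 1 i ^ k i)) :=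
    (hcont.tendsto 1).mono_left nhdsWithin_le_nhds
  have h2 : c * ∏ i, rad j 1 i ^ k i = c := by
    simp [rad]
  rw [h2] at h1
  refine le_of_tendsto h1 ?_
  filter_upwards [Ioo_mem_nhdsLT (show (0 : ℝ) < 1 by norm_num)] with ρ hρ
  exact R_bound_aux hP hPQ j hρ.1 hρ.2 k

end Pool.MP4ac1fb.Full
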