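import Pool.Agent.H.MP_4ac1fb_an.Full.Defs

/-!
Combinatorics of level sets and greedy bases.
-/

namespace Pool.MP4ac1fb.Full

variable {d : ℕ}

lemma rkk_eq_card {m : ℕ} (R : Fin d → (Fin m → ℝ)) {s T : Finset (Fin d)} (hTs : T ⊆ s)
    (hT : LinearIndepOn ℝ R (T : Set (Fin d)))
    (hsp : ∀ j ∈ s, R j ∈ Submodule.span ℝ (R '' (T : Set (Fin d)))) : rkk R s = T.card := by
  have h1 : Submodule.span ℝ (R '' (s : Set (Fin d))) =
      Submodule.span ℝ (R '' (T : Set (Fin d))) := by
    apply le_antisymm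
    · rw [Submodule.span_le]
      rintro _ ⟨j, hj, rfl⟩
      exact hsp j hj
    · exact Submodule.span_mono (Set.image_mono (by exact_mod_cast hTs))
  have h2 : R '' (T : Set (Fin d)) = Set.range (fun i : T => R i) := by
    ext x
    simp
  unfold rkk
  rw [h1, h2, finrank_span_eq_card (b := fun i : T => R i) hT]
  simp

lemma exists_greedy_step {m : ℕ} (R : Fin d → (Fin m → ℝ)) {s T : Finset (Fin d)} (hTs : T ⊆ s)
    (hT : LinearIndepOn ℝ R (T : Set (Fin d)))
    (hsp : ∀ j ∈ s, R j ∈ Submodule.span ℝ (R '' (T : Set (Fin d)))) (a : Fin d) (ha : a ∉ s) :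
    ∃ T' : Finset (Fin d), T' ⊆ insert a s ∧ (T' = T ∨ T' = insert a T) ∧
      LinearIndepOn ℝ R (T' : Set (Fin d)) ∧
      (∀ j ∈ insert a s, R j ∈ Submodule.span ℝ (R '' (T' : Set (Fin d)))) := by
  by_cases h : R a ∈ Submodule.span ℝ (R '' (T : Set (Fin d)))
  · refine ⟨T, hTs.trans (Finset.subset_insert _ _), Or.inl rfl, hT, ?_⟩
    intro j hj
    rcases Finset.mem_insert.mp hj with rfl | hj
    · exact h
    · exact hsp j hj
  · refine ⟨insert a T, Finset.insert_subset_insert _ hTs, Or.inr rfl, ?_, ?_⟩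
    · rw [Finset.coe_insert]
      exact hT.insert h
    · intro j hj
      rcases Finset.mem_insert.mp hj with rfl | hj
      · exact Submodule.subset_span ⟨j, by simp, rfl⟩
      · exact Submodule.span_mono (Set.image_mono (by simp)) (hsp j hj)

lemma exists_spanning {m : ℕ} (R : Fin d → (Fin m → ℝ)) (s : Finset (Fin d)) :
    ∃ T ⊆ s, LinearIndepOn ℝ R (T : Set (Fin d)) ∧
      ∀ j ∈ s, R j ∈ Submodule.span ℝ (R '' (T : Set (Fin d))) := by
  induction s using Finset.induction_on with
  | empty => exact ⟨∅, by simp, by simp, by simp⟩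
  | insert a s ha ih =>
    obtain ⟨T, hTs, hT, hsp⟩ := ih
    obtain ⟨T', h1, -, h3, h4⟩ := exists_greedy_step R hTs hT hsp a ha
    exact ⟨T', h1, h3, h4⟩

lemma greedy {m : ℕ} (R : Fin d → (Fin m → ℝ)) (t : ℝ) (e : Fin d → ℝ) (g η M : ℝ) (hg : 0 ≤ g)
    (hη : 0 < η)
    (hA1 : ∀ S : Finset (Fin d), PosSup R S → η ≤ rkk R S - (1 - t) * S.card)
    (hA2 : ∀ S : Finset (Fin d), -M ≤ rkk R S - (1 - t) * S.card) (s : Finset (Fin d)) :
    ∀ x E : ℝ, (∀ j ∈ s, x ≤ e j) → (E ≤ x ∨ ∃ j ∈ s, E ≤ e j) →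
      (∃ S ⊆ s, S.Nonempty ∧ ¬ PosSup R S ∧ ∃ y, (∀ i ∈ S, y ≤ e i) ∧
        (∀ j ∈ s, j ∉ S → e j ≤ y - g) ∧ x ≤ y - g) ∨
      (∃ T ⊆ s, LinearIndepOn ℝ R (T : Set (Fin d)) ∧
        (∀ j ∈ s, R j ∈ Submodule.span ℝ (R '' (T : Set (Fin d)))) ∧
        x * (rkk R s - (1 - t) * s.card) + η * (E - x) - s.card * ((M + η) * g) ≤
          ∑ j ∈ T, e j - (1 - t) * ∑ j ∈ s, e j) := by
  induction s using Finset.induction_on_min_value e with
  | empty =>
    intro x E _ hE
    right
    refine ⟨∅, by simp, by simp, by simp, ?_⟩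
    have h1 : rkk R ∅ = 0 := by
      have := rkk_eq_card R (s := ∅) (T := ∅) (by simp) (by simp) (by simp)
      simpa using this
    have h2 : E ≤ x := by
      rcases hE with h | ⟨j, hj, -⟩
      · exact h
      · simp at hj
    simp only [h1, Finset.card_empty, Finset.sum_empty]
    have := mul_nonneg hη.le (sub_nonneg.mpr h2)
    norm_num
    nlinarith
  | insert a s ha hmin ih =>
    intro x E hx hE
    have hxa : x ≤ e a := hx a (Finset.mem_insert_self _ _)
    have hE' : E ≤ e a ∨ ∃ j ∈ s, E ≤ e j := by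
      rcases hE with h | ⟨j, hj, hj'⟩
      · exact Or.inl (h.trans hxa)
      · rcases Finset.mem_insert.mp hj with rfl | hj
        · exact Or.inl hj'
        · exact Or.inr ⟨j, hj, hj'⟩
    rcases ih (e a) E hmin hE' with ⟨S, hSs, hSne, hSP, y, hy1, hy2, hy3⟩ | ⟨T, hTs, hT, hsp, hT'⟩
    · left
      refine ⟨S, hSs.trans (Finset.subset_insert _ _), hSne, hSP, y, hy1, ?_, hxa.trans hy3⟩
      intro j hj hjS
      rcases Finset.mem_insert.mp hj with rfl | hj
      · exact hy3
      · exact hy2 j hj hjS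
    · obtain ⟨T', h1, h2, h3, h4⟩ := exists_greedy_step R hTs hT hsp a ha
      have hr : rkk R s = T.card := rkk_eq_card R hTs hT hsp
      have hr' : rkk R (insert a s) = T'.card := rkk_eq_card R h1 h3 h4
      have haT : a ∉ T := fun h => ha (hTs h)
      -- the sum over `T'`
      have hsumT : ∑ j ∈ T', e j = ∑ j ∈ T, e j + e a * ((rkk R (insert a s) : ℝ) - rkk R s) := by
        rw [hr, hr']
        rcases h2 with rfl | rfl
        · simp
        · rw [Finset.sum_insert haT, Finset.card_insert_of_notMem haT]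
          push_cast
          ring
      have hcard : ((insert a s).card : ℝ) = s.card + 1 := by
        rw [Finset.card_insert_of_notMem ha]; push_cast; ring
      have hsum : ∑ j ∈ insert a s, e j = e a + ∑ j ∈ s, e j := Finset.sum_insert ha
      by_cases hP : PosSup R (insert a s) ∨ e a - x ≤ g
      · right
        refine ⟨T', h1, h3, h4, ?_⟩
        have key : (e a - x) * ((rkk R (insert a s) : ℝ) - (1 - t) * (insert a s).card) ≥
            η * (e a - x) - (M + η) * g := by
          rcases hP with hP | hP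
          · have := hA1 _ hP
            have hM : 0 ≤ (M + η) * g := by
              have h5 := hA2 ∅
              have h6 : rkk R ∅ = 0 := by
                have := rkk_eq_card R (s := ∅) (T := ∅) (by simp) (by simp) (by simp)
                simpa using this
              rw [h6] at h5
              norm_num at h5
              positivity
            nlinarith [mul_nonneg (sub_nonneg.mpr hxa) (sub_nonneg.mpr this)]
          · have h5 := hA2 (insert a s)
            have h6 : 0 ≤ e a - x := sub_nonneg.mpr hxa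
            have h7 : 0 ≤ M + η := by
              have h5 := hA2 ∅
              have h6 : rkk R ∅ = 0 := by
                have := rkk_eq_card R (s := ∅) (T := ∅) (by simp) (by simp) (by simp)
                simpa using this
              rw [h6] at h5
              norm_num at h5
              positivity
            nlinarith [mul_nonneg h6 (sub_nonneg.mpr h5), mul_nonneg h7 (sub_nonneg.mpr hP)]
        rw [hsumT, hsum, hcard]
        rw [hcard] at key
        nlinarith
      · push Not at hP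
        left
        refine ⟨insert a s, le_rfl, Finset.insert_nonempty _ _, hP.1, e a, ?_, ?_, by linarith⟩
        · intro i hi
          rcases Finset.mem_insert.mp hi with rfl | hi
          · exact le_rfl
          · exact hmin i hi
        · intro j hj hj'
          exact absurd hj hj'

lemma inv_wt_eq (t : ℝ) (k : Fin d →₀ ℕ) :
    (wt t k)⁻¹ = Real.exp (-(t * ∑ j, Real.log ((k j : ℝ) + 1))) := by
  unfold wt
  rw [Real.exp_neg, Finset.mul_sum, Real.exp_sum]
  congr 1
  apply Finset.prod_congr rfl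
  intro j _
  rw [Real.rpow_def_of_pos (by positivity), mul_comm]

lemma prod_rpow_eq (η : ℝ) (k : Fin d →₀ ℕ) (T : Finset (Fin d)) :
    ∏ j ∈ Finset.univ \ T, ((k j : ℝ) + 1) ^ (-(1 + η) : ℝ) =
      Real.exp (-((1 + η) * ∑ j ∈ Finset.univ \ T, Real.log ((k j : ℝ) + 1))) := by
  rw [← neg_mul, Finset.mul_sum, Real.exp_sum]
  apply Finset.prod_congr rfl
  intro j _
  rw [Real.rpow_def_of_pos (by positivity), mul_comm]

theorem comb {m : ℕ} (R : Fin d → (Fin m → ℝ)) (hspan : rkk R Finset.univ = m) (t : ℝ)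
    (hbad : ∀ S, PosSup R S → (1 - t) * S.card < rkk R S) (ε : ℝ) (hε : 0 < ε) :
    ∃ η > 0, ∃ δ > 0, ∃ C > 0, ∀ k : Fin d →₀ ℕ,
      (∃ T : Finset (Fin d), T.card = m ∧ LinearIndepOn ℝ R (T : Set (Fin d)) ∧
        (wt t k)⁻¹ ≤ C * ∏ j ∈ Finset.univ \ T, ((k j : ℝ) + 1) ^ (-(1 + η) : ℝ)) ∨
      (∃ S : Finset (Fin d), S.Nonempty ∧ ¬ PosSup R S ∧ ∃ K : ℝ, 0 < K ∧ (∀ i ∈ S, K ≤ k i) ∧
        (∀ j ∉ S, (k j : ℝ) ≤ ε * K) ∧ (1 + ∑ j, (k j : ℝ)) ^ (δ : ℝ) ≤ C * K) := by
  classical
  -- the gap `η₀`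
  obtain ⟨η₀, hη₀, hA1⟩ : ∃ η₀ : ℝ, 0 < η₀ ∧
      ∀ S : Finset (Fin d), PosSup R S → η₀ ≤ rkk R S - (1 - t) * S.card := by
    by_cases hne : (Finset.univ.filter fun S : Finset (Fin d) => PosSup R S).Nonempty
    · obtain ⟨S₀, hS₀, hmin⟩ := Finset.exists_min_image _
        (fun S : Finset (Fin d) => (rkk R S : ℝ) - (1 - t) * S.card) hne
      refine ⟨_, sub_pos.mpr (hbad S₀ (Finset.mem_filter.mp hS₀).2), fun S hS => ?_⟩
      exact hmin S (Finset.mem_filter.mpr ⟨Finset.mem_univ _, hS⟩)
    · refine ⟨1, one_pos, fun S hS => ?_⟩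
      exact absurd ⟨S, Finset.mem_filter.mpr ⟨Finset.mem_univ _, hS⟩⟩ hne
  set M : ℝ := |1 - t| * d with hM
  have hM0 : 0 ≤ M := by positivity
  have hA2 : ∀ S : Finset (Fin d), -M ≤ rkk R S - (1 - t) * S.card := by
    intro S
    have h1 : (1 - t) * S.card ≤ M := by
      calc (1 - t) * S.card ≤ |1 - t| * S.card :=
            mul_le_mul_of_nonneg_right (le_abs_self _) (by positivity)
        _ ≤ |1 - t| * d := by
            apply mul_le_mul_of_nonneg_left _ (abs_nonneg _)
            have := Finset.card_le_univ S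
            simp only [Fintype.card_fin] at this
            exact_mod_cast this
    have h2 : (0 : ℝ) ≤ rkk R S := by positivity
    linarith
  -- constants
  set δ : ℝ := η₀ / (2 * (d + 1) * (M + η₀)) with hδdef
  have hMη : 0 < M + η₀ := by positivity
  have hδ : 0 < δ := by positivity
  have hδ' : (d : ℝ) * ((M + η₀) * δ) ≤ η₀ / 2 := by
    have : (d : ℝ) * ((M + η₀) * δ) = d / (d + 1) * (η₀ / 2) := by
      rw [hδdef]; field_simp
    rw [this]
    have h1 : (d : ℝ) / (d + 1) ≤ 1 := by
      rw [div_le_one (by positivity)]; linarith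
    nlinarith
  set η : ℝ := η₀ / (2 * (d + 1)) with hηdef
  have hη : 0 < η := by positivity
  have hη' : η * d ≤ η₀ / 2 := by
    have : η * d = d / (d + 1) * (η₀ / 2) := by
      rw [hηdef]; field_simp
    rw [this]
    have h1 : (d : ℝ) / (d + 1) ≤ 1 := by
      rw [div_le_one (by positivity)]; linarith
    nlinarith
  set ε' : ℝ := min ε 1 with hε'def
  have hε' : 0 < ε' := lt_min hε one_pos
  have hε'1 : ε' ≤ 1 := min_le_right _ _
  have hlogε : Real.log ε' ≤ 0 := Real.log_nonpos hε'.le hε'1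
  have hlog2 : 0 < Real.log 2 := Real.log_pos (by norm_num)
  set E₀ : ℝ := (Real.log 2 - Real.log ε') / δ with hE₀def
  have hE₀ : 0 < E₀ := by
    apply div_pos _ hδ
    linarith
  have hδE₀ : δ * E₀ = Real.log 2 - Real.log ε' := by
    rw [hE₀def]; field_simp
  set C : ℝ := Real.exp ((|t| + 1 + η) * (d * E₀)) + 2 * ((d : ℝ) + 1) ^ δ with hCdef
  have hC1 : 0 < 2 * ((d : ℝ) + 1) ^ δ := by positivity
  have hC2 : 0 < Real.exp ((|t| + 1 + η) * (d * E₀)) := Real.exp_pos _
  refine ⟨η, hη, δ, hδ, C, by positivity, fun k => ?_⟩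
  set e : Fin d → ℝ := fun j => Real.log ((k j : ℝ) + 1) with hedef
  have he0 : ∀ j, 0 ≤ e j := fun j => Real.log_nonneg (by
    have : (0 : ℝ) ≤ k j := by positivity
    linarith)
  have hexp : ∀ j, Real.exp (e j) = (k j : ℝ) + 1 := fun j => Real.exp_log (by positivity)
  -- the maximum
  obtain ⟨E, hE0, hEle, hEex⟩ : ∃ E : ℝ, 0 ≤ E ∧ (∀ j, e j ≤ E) ∧
      (E ≤ 0 ∨ ∃ j ∈ (Finset.univ : Finset (Fin d)), E ≤ e j) := by
    by_cases hne : (Finset.univ : Finset (Fin d)).Nonempty
    · obtain ⟨j₀, -, hj₀⟩ := Finset.exists_max_image Finset.univ e hne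
      exact ⟨e j₀, he0 j₀, fun j => hj₀ j (Finset.mem_univ _), Or.inr ⟨j₀, Finset.mem_univ _, le_rfl⟩⟩
    · refine ⟨0, le_rfl, fun j => ?_, Or.inl le_rfl⟩
      exact absurd ⟨j, Finset.mem_univ _⟩ hne
  have hsumle : ∀ U : Finset (Fin d), ∑ j ∈ U, e j ≤ d * E := by
    intro U
    calc ∑ j ∈ U, e j ≤ ∑ j ∈ U, E := Finset.sum_le_sum fun j _ => hEle j
      _ = U.card * E := by simp
      _ ≤ d * E := by
          apply mul_le_mul_of_nonneg_right _ hE0
          have := Finset.card_le_univ U
          simp only [Fintype.card_fin] at this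
          exact_mod_cast this
  have hsum0 : ∀ U : Finset (Fin d), 0 ≤ ∑ j ∈ U, e j := fun U => Finset.sum_nonneg fun j _ => he0 j
  by_cases hEE : E < E₀
  · -- bounded case
    left
    obtain ⟨T, -, hT, hsp⟩ := exists_spanning R Finset.univ
    refine ⟨T, ?_, hT, ?_⟩
    · rw [← hspan]
      exact (rkk_eq_card R (Finset.subset_univ T) hT hsp).symm
    · rw [inv_wt_eq, prod_rpow_eq]
      have h1 : Real.exp (-(t * ∑ j, e j)) ≤ Real.exp (|t| * (d * E₀)) := by
        apply Real.exp_le_exp.mpr
        have h2 : -(t * ∑ j, e j) ≤ |t| * ∑ j, e j := by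
          rw [← neg_mul]
          exact mul_le_mul_of_nonneg_right (neg_le_abs t) (hsum0 _)
        have h3 : |t| * ∑ j, e j ≤ |t| * (d * E₀) :=
          mul_le_mul_of_nonneg_left ((hsumle _).trans
            (mul_le_mul_of_nonneg_left hEE.le (by positivity))) (abs_nonneg _)
        linarith
      have h2 : Real.exp (-((1 + η) * (d * E₀))) ≤
          Real.exp (-((1 + η) * ∑ j ∈ Finset.univ \ T, e j)) := by
        apply Real.exp_le_exp.mpr
        have h3 : (1 + η) * ∑ j ∈ Finset.univ \ T, e j ≤ (1 + η) * (d * E₀) :=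
          mul_le_mul_of_nonneg_left ((hsumle _).trans
            (mul_le_mul_of_nonneg_left hEE.le (by positivity))) (by positivity)
        linarith
      calc Real.exp (-(t * ∑ j, e j)) ≤ Real.exp (|t| * (d * E₀)) := h1
        _ = Real.exp ((|t| + 1 + η) * (d * E₀)) * Real.exp (-((1 + η) * (d * E₀))) := by
            rw [← Real.exp_add]; congr 1; ring
        _ ≤ C * Real.exp (-((1 + η) * ∑ j ∈ Finset.univ \ T, e j)) := by
            apply mul_le_mul _ h2 (Real.exp_pos _).le (by positivity)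
            rw [hCdef]; linarith
  · push Not at hEE
    have hEpos : 0 < E := hE₀.trans_le hEE
    have hδE : Real.log 2 - Real.log ε' ≤ δ * E := by
      rw [← hδE₀]; exact mul_le_mul_of_nonneg_left hEE hδ.le
    rcases greedy R t e (δ * E) η₀ M (by positivity) hη₀ hA1 hA2 Finset.univ 0 E
      (fun j _ => he0 j) hEex with ⟨S, -, hSne, hSP, y, hy1, hy2, hy3⟩ | ⟨T, -, hT, hsp, hTle⟩
    · right
      have hyE : y ≤ E := by
        obtain ⟨i, hi⟩ := hSne
        exact (hy1 i hi).trans (hEle i)
      have hy : 0 < y := by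
        have : 0 < δ * E := by positivity
        linarith
      have hey : 2 ≤ Real.exp y := by
        rw [← Real.log_le_iff_le_exp (by norm_num)]
        linarith
      refine ⟨S, hSne, hSP, Real.exp y - 1, by linarith, ?_, ?_, ?_⟩
      · intro i hi
        have := Real.exp_le_exp.mpr (hy1 i hi)
        rw [hexp] at this
        linarith
      · intro j hj
        have h1 := Real.exp_le_exp.mpr (hy2 j (Finset.mem_univ _) hj)
        rw [hexp, Real.exp_sub] at h1
        have h2 : 1 / Real.exp (δ * E) ≤ ε' := by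
          rw [div_le_iff₀ (Real.exp_pos _)]
          have h3 : 1 / ε' ≤ Real.exp (δ * E) := by
            rw [← Real.log_le_iff_le_exp (by positivity), one_div, Real.log_inv]
            linarith
          rw [div_le_iff₀ hε'] at h3
          linarith
        have h3 : Real.exp y / Real.exp (δ * E) ≤ ε' * Real.exp y := by
          calc Real.exp y / Real.exp (δ * E) = (1 / Real.exp (δ * E)) * Real.exp y := by ring
            _ ≤ ε' * Real.exp y := mul_le_mul_of_nonneg_right h2 (Real.exp_pos _).le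
        have h4 : ε' * (Real.exp y - 1) ≤ ε * (Real.exp y - 1) :=
          mul_le_mul_of_nonneg_right (min_le_left _ _) (by linarith)
        nlinarith
      · have h1 : 1 + ∑ j, (k j : ℝ) ≤ ((d : ℝ) + 1) * Real.exp E := by
          have h2 : ∑ j, (k j : ℝ) ≤ ∑ _j : Fin d, Real.exp E := by
            apply Finset.sum_le_sum
            intro j _
            have h3 := Real.exp_le_exp.mpr (hEle j)
            rw [hexp] at h3
            linarith
          have h3 : 1 ≤ Real.exp E := Real.one_le_exp hE0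
          simp only [Finset.sum_const, Finset.card_univ, Fintype.card_fin, nsmul_eq_mul] at h2
          nlinarith
        have h2 : (0 : ℝ) ≤ 1 + ∑ j, (k j : ℝ) := by positivity
        calc (1 + ∑ j, (k j : ℝ)) ^ (δ : ℝ) ≤ (((d : ℝ) + 1) * Real.exp E) ^ (δ : ℝ) :=
              Real.rpow_le_rpow h2 h1 hδ.le
          _ = ((d : ℝ) + 1) ^ δ * Real.exp (δ * E) := by
              rw [Real.mul_rpow (by positivity) (Real.exp_pos _).le, ← Real.exp_mul]
              congr 2
              ring
          _ ≤ ((d : ℝ) + 1) ^ δ * Real.exp y := by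
              apply mul_le_mul_of_nonneg_left _ (by positivity)
              apply Real.exp_le_exp.mpr
              linarith
          _ ≤ ((d : ℝ) + 1) ^ δ * (2 * (Real.exp y - 1)) := by
              apply mul_le_mul_of_nonneg_left _ (by positivity)
              linarith
          _ = 2 * ((d : ℝ) + 1) ^ δ * (Real.exp y - 1) := by ring
          _ ≤ C * (Real.exp y - 1) := by
              apply mul_le_mul_of_nonneg_right _ (by linarith)
              rw [hCdef]; linarith
    · left
      refine ⟨T, ?_, hT, ?_⟩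
      · rw [← hspan]
        exact (rkk_eq_card R (Finset.subset_univ T) hT hsp).symm
      · rw [inv_wt_eq, prod_rpow_eq]
        have hsplit : ∑ j ∈ Finset.univ \ T, e j + ∑ j ∈ T, e j = ∑ j, e j :=
          Finset.sum_sdiff (Finset.subset_univ T)
        have h1 : ((Finset.univ : Finset (Fin d)).card : ℝ) = d := by simp
        rw [h1] at hTle
        have h2 : η * ∑ j ∈ Finset.univ \ T, e j ≤ η₀ / 2 * E := by
          calc η * ∑ j ∈ Finset.univ \ T, e j ≤ η * (d * E) :=
                mul_le_mul_of_nonneg_left (hsumle _) hη.le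
            _ = (η * d) * E := by ring
            _ ≤ η₀ / 2 * E := mul_le_mul_of_nonneg_right hη' hE0
        have h3 : (d : ℝ) * ((M + η₀) * (δ * E)) ≤ η₀ / 2 * E := by
          calc (d : ℝ) * ((M + η₀) * (δ * E)) = ((d : ℝ) * ((M + η₀) * δ)) * E := by ring
            _ ≤ η₀ / 2 * E := mul_le_mul_of_nonneg_right hδ' hE0
        have h4 : Real.exp (-(t * ∑ j, e j)) ≤
            Real.exp (-((1 + η) * ∑ j ∈ Finset.univ \ T, e j)) := by
          apply Real.exp_le_exp.mpr
          nlinarith
        have hC3 : 1 ≤ C := by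
          have : 1 ≤ Real.exp ((|t| + 1 + η) * (d * E₀)) := Real.one_le_exp (by positivity)
          rw [hCdef]; linarith
        calc Real.exp (-(t * ∑ j, e j)) ≤ Real.exp (-((1 + η) * ∑ j ∈ Finset.univ \ T, e j)) := h4
          _ ≤ C * Real.exp (-((1 + η) * ∑ j ∈ Finset.univ \ T, e j)) :=
            le_mul_of_one_le_left (Real.exp_pos _).le hC3

end Pool.MP4ac1fb.Full
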