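import Pool.Agent.H.MP_4ac1fb_an.Full.Defs

/-!
Fourier series of functions supported in a small cube.
-/

namespace Pool.MP4ac1fb.Full

open MeasureTheory Set

variable {ι : Type*} [Fintype ι]

/-- The representative of `y` in `(x - 1/2, x + 1/2]`. -/
noncomputable def cubeRep (x : ℝ) (y : UnitAddCircle) : ℝ :=
  (AddCircle.equivIoc (1 : ℝ) (x - 1 / 2) y : ℝ)

theorem coe_cubeRep (x : ℝ) (y : UnitAddCircle) : ((cubeRep x y : ℝ) : UnitAddCircle) = y :=
  AddCircle.coe_equivIoc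

theorem cubeRep_mem (x : ℝ) (y : UnitAddCircle) :
    cubeRep x y ∈ Ioc (x - 1 / 2) (x - 1 / 2 + 1) :=
  (AddCircle.equivIoc (1 : ℝ) (x - 1 / 2) y).2

theorem cubeRep_coe (x : ℝ) {v : ℝ} (hv : v ∈ Ioc (x - 1 / 2) (x - 1 / 2 + 1)) :
    cubeRep x (v : UnitAddCircle) = v :=
  AddCircle.equivIoc_coe_of_mem hv

theorem continuousAt_cubeRep {x : ℝ} {y : UnitAddCircle}
    (hy : y ≠ ((x - 1 / 2 : ℝ) : UnitAddCircle)) : ContinuousAt (cubeRep x) y :=
  continuousAt_subtype_val.comp (AddCircle.continuousAt_equivIoc (1 : ℝ) (x - 1 / 2) hy)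

/-- Near the point `x - 1/2` the representative is far from `x`. -/
theorem cubeRep_far (x : ℝ) : ∀ᶠ y in nhds ((x - 1 / 2 : ℝ) : UnitAddCircle),
    1 / 4 < |cubeRep x y - x| := by
  have hopen : IsOpen ((fun s : ℝ => (s : UnitAddCircle)) '' Ioo (x - 3 / 4) (x - 1 / 4)) :=
    QuotientAddGroup.isOpenMap_coe _ isOpen_Ioo
  have hmem : ((x - 1 / 2 : ℝ) : UnitAddCircle) ∈
      ((fun s : ℝ => (s : UnitAddCircle)) '' Ioo (x - 3 / 4) (x - 1 / 4)) :=
    ⟨x - 1 / 2, ⟨by linarith, by linarith⟩, rfl⟩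
  filter_upwards [hopen.mem_nhds hmem] with y hy
  obtain ⟨s, hs, rfl⟩ := hy
  by_cases h : x - 1 / 2 < s
  · have h1 : cubeRep x (s : UnitAddCircle) = s :=
      cubeRep_coe x ⟨h, by linarith [hs.2]⟩
    rw [h1, abs_of_neg (by linarith [hs.2])]
    linarith [hs.2]
  · have h2 : ((s : ℝ) : UnitAddCircle) = ((s + 1 : ℝ) : UnitAddCircle) := by
      rw [AddCircle.coe_add_period]
    have h1 : cubeRep x (s : UnitAddCircle) = s + 1 := by
      rw [h2]
      exact cubeRep_coe x ⟨by linarith [hs.1], by linarith⟩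
    rw [h1, abs_of_pos (by linarith [hs.1])]
    linarith [hs.1]

/-- The function on the torus. -/
noncomputable def cubeFun (f : (ι → ℝ) → ℂ) (x : ι → ℝ) (y : UnitAddTorus ι) : ℂ :=
  f fun i => cubeRep (x i) (y i)

theorem continuous_cubeFun {f : (ι → ℝ) → ℂ} (hf : Continuous f) {x : ι → ℝ}
    (hsupp : ∀ v, (∃ i, 1 / 4 < |v i - x i|) → f v = 0) : Continuous (cubeFun f x) := by
  rw [continuous_iff_continuousAt]
  intro y
  by_cases h : ∃ i, y i = ((x i - 1 / 2 : ℝ) : UnitAddCircle)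
  · obtain ⟨i, hi⟩ := h
    have h1 : ∀ᶠ y' in nhds y, 1 / 4 < |cubeRep (x i) (y' i) - x i| := by
      have h2 : Filter.Tendsto (fun y' : UnitAddTorus ι => y' i) (nhds y)
          (nhds ((x i - 1 / 2 : ℝ) : UnitAddCircle)) := by
        rw [← hi]
        exact (continuous_apply i).continuousAt
      exact h2.eventually (cubeRep_far (x i))
    have h3 : (fun _ => (0 : ℂ)) =ᶠ[nhds y] cubeFun f x := by
      filter_upwards [h1] with y' hy'
      exact (hsupp _ ⟨i, hy'⟩).symm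
    exact continuousAt_const.congr h3
  · push Not at h
    have h1 : ContinuousAt (fun y' : UnitAddTorus ι => fun i => cubeRep (x i) (y' i)) y := by
      rw [continuousAt_pi]
      intro i
      exact ContinuousAt.comp (f := fun y' : UnitAddTorus ι => y' i) (g := cubeRep (x i))
        (continuousAt_cubeRep (h i)) (continuous_apply i).continuousAt
    exact hf.continuousAt.comp h1

omit [Fintype ι] in
theorem cubeFun_coe (f : (ι → ℝ) → ℂ) (x : ι → ℝ) {v : ι → ℝ}
    (hv : ∀ i, v i ∈ Ioc (x i - 1 / 2) (x i - 1 / 2 + 1)) :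
    cubeFun f x (fun i => (v i : UnitAddCircle)) = f v := by
  unfold cubeFun
  congr 1
  funext i
  exact cubeRep_coe (x i) (hv i)

theorem mFourier_coe (n : ι → ℤ) (v : ι → ℝ) :
    UnitAddTorus.mFourier n (fun i => (v i : UnitAddCircle)) = chz n v := by
  unfold UnitAddTorus.mFourier chz
  simp only [ContinuousMap.coe_mk, fourier_coe_apply]
  rw [← Complex.exp_sum]
  congr 1
  rw [Finset.mul_sum]
  refine Finset.sum_congr rfl fun i _ => ?_
  push_cast
  ring

theorem box_eq_integral {E : Type*} [NormedAddCommGroup E] [NormedSpace ℝ E]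
    (x : ι → ℝ) (h : (ι → ℝ) → E) (h0 : ∀ v, (∃ i, 1 / 4 < |v i - x i|) → h v = 0) :
    ∫ v in {v : ι → ℝ | ∀ i, v i ∈ Ioc (x i - 1 / 2) (x i - 1 / 2 + 1)}, h v = ∫ v, h v := by
  refine setIntegral_eq_integral_of_forall_compl_eq_zero fun v hv => h0 v ?_
  simp only [Set.mem_ofPred_eq, not_forall] at hv
  obtain ⟨i, hi⟩ := hv
  refine ⟨i, ?_⟩
  by_contra hcon
  push Not at hcon
  have := abs_le.1 hcon
  exact hi ⟨by linarith [this.1], by linarith [this.2]⟩

section torus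

/-- Normalised measure. -/
noncomputable local instance cubeMeasureSpace : MeasureSpace UnitAddCircle :=
  ⟨AddCircle.haarAddCircle⟩

local instance cubeHaar : Measure.IsAddHaarMeasure (volume : Measure UnitAddCircle) :=
  inferInstanceAs (Measure.IsAddHaarMeasure AddCircle.haarAddCircle)

local instance cubeProb : IsProbabilityMeasure (volume : Measure UnitAddCircle) :=
  inferInstanceAs (IsProbabilityMeasure AddCircle.haarAddCircle)

theorem mFourierCoeff_cubeFun {f : (ι → ℝ) → ℂ} {x : ι → ℝ}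
    (hsupp : ∀ v, (∃ i, 1 / 4 < |v i - x i|) → f v = 0) (n : ι → ℤ) :
    UnitAddTorus.mFourierCoeff (cubeFun f x) n = FT f n := by
  rw [UnitAddTorus.mFourierCoeff_eq_integral _ _ (fun i => x i - 1 / 2)]
  have h1 : ∫ v in {v : ι → ℝ | ∀ i, v i ∈ Ioc (x i - 1 / 2) (x i - 1 / 2 + 1)},
      (UnitAddTorus.mFourier (-n)) (fun i => (v i : UnitAddCircle)) •
        cubeFun f x (fun i => (v i : UnitAddCircle)) =
      ∫ v in {v : ι → ℝ | ∀ i, v i ∈ Ioc (x i - 1 / 2) (x i - 1 / 2 + 1)}, chz (-n) v * f v := by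
    refine setIntegral_congr_fun (MeasurableSet.univ_pi' fun i => measurableSet_Ioc) ?_
    intro v hv
    show (UnitAddTorus.mFourier (-n)) (fun i => (v i : UnitAddCircle)) •
        cubeFun f x (fun i => (v i : UnitAddCircle)) = chz (-n) v * f v
    rw [mFourier_coe, cubeFun_coe f x hv, smul_eq_mul]
  rw [h1, box_eq_integral x (fun v => chz (-n) v * f v) fun v hv => by rw [hsupp v hv, mul_zero]]
  rfl

theorem cube_bessel (f : (ι → ℝ) → ℂ) (hf : Continuous f) (x : ι → ℝ)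
    (hsupp : ∀ v, (∃ i, 1 / 4 < |v i - x i|) → f v = 0) :
    Summable (fun l : ι → ℤ => ‖FT f l‖ ^ 2) ∧
      ∑' l : ι → ℤ, ‖FT f l‖ ^ 2 ≤ ∫ v, ‖f v‖ ^ 2 := by
  set g : C(UnitAddTorus ι, ℂ) := ⟨cubeFun f x, continuous_cubeFun hf hsupp⟩ with hg
  have h1 := UnitAddTorus.hasSum_sq_mFourierCoeff (g.toLp 2 volume ℂ)
  have h2 : ∀ l, UnitAddTorus.mFourierCoeff (g.toLp 2 volume ℂ) l = FT f l := by
    intro l
    rw [UnitAddTorus.mFourierCoeff_toLp]
    exact mFourierCoeff_cubeFun hsupp l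
  have h3 : ∫ t, ‖(g.toLp 2 volume ℂ) t‖ ^ 2 = ∫ v, ‖f v‖ ^ 2 := by
    have h4 : ∫ t, ‖(g.toLp 2 volume ℂ) t‖ ^ 2 = ∫ t, ‖cubeFun f x t‖ ^ 2 := by
      refine integral_congr_ae ?_
      filter_upwards [ContinuousMap.coeFn_toLp (p := 2) (𝕜 := ℂ) volume g] with t ht
      rw [ht]
      rfl
    rw [h4, UnitAddTorus.integral_preimage _ (fun i => x i - 1 / 2)]
    rw [← box_eq_integral x (fun v => ‖f v‖ ^ 2) fun v hv => by rw [hsupp v hv]; simp]
    refine setIntegral_congr_fun (MeasurableSet.univ_pi' fun i => measurableSet_Ioc) ?_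
    intro v hv
    show ‖cubeFun f x (fun i => (v i : UnitAddCircle))‖ ^ 2 = ‖f v‖ ^ 2
    rw [cubeFun_coe f x hv]
  simp only [h2, h3] at h1
  exact ⟨h1.summable, h1.tsum_eq.le⟩

theorem cube_fourier (f : (ι → ℝ) → ℂ) (hf : Continuous f) (x : ι → ℝ)
    (hsupp : ∀ v, (∃ i, 1 / 4 < |v i - x i|) → f v = 0) (hs : Summable (fun l => ‖FT f l‖))
    (v : ι → ℝ) (hv : ∀ i, |v i - x i| < 1 / 2) :
    f v = ∑' l : ι → ℤ, FT f l * chz l v := by
  set g : C(UnitAddTorus ι, ℂ) := ⟨cubeFun f x, continuous_cubeFun hf hsupp⟩ with hg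
  have h2 : ∀ l, UnitAddTorus.mFourierCoeff g l = FT f l := fun l => mFourierCoeff_cubeFun hsupp l
  have hs' : Summable (UnitAddTorus.mFourierCoeff g) := by
    have : UnitAddTorus.mFourierCoeff g = FT f := funext h2
    rw [this]
    exact hs.of_norm
  have h3 := UnitAddTorus.hasSum_mFourier_series_apply_of_summable hs'
    (fun i => (v i : UnitAddCircle))
  simp only [h2, mFourier_coe, smul_eq_mul] at h3
  rw [h3.tsum_eq]
  have hmem : ∀ i, v i ∈ Ioc (x i - 1 / 2) (x i - 1 / 2 + 1) := fun i => by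
    have := abs_lt.1 (hv i)
    exact ⟨by linarith [this.1], by linarith [this.2]⟩
  exact (cubeFun_coe f x hmem).symm

end torus

end Pool.MP4ac1fb.Full
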