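import Pool.Agent.H.MP_4ac1fb_an.Defs

/-!
Definitions for the classification of the shift-cyclic polynomials in `D_t(D^d)` (all `d`, all `t`).
-/

namespace Pool.MP4ac1fb.Full

open MvPolynomial
open scoped ContDiff

variable {d : ℕ}

/-! ### Definitions used in the statement of the theorem -/

/-- The point `(e^{2πiθ_1}, …, e^{2πiθ_d})` of the torus. -/
noncomputable def tor (θ : Fin d → ℝ) : Fin d → ℂ :=
  fun j => Complex.exp (2 * Real.pi * Complex.I * θ j)

/-- `ψ : U → ℝ^d` (angles) is a real-analytic immersed patch of the zero set of `P` on the torus. -/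
structure IsPatch (P : MvPolynomial (Fin d) ℂ) {m : ℕ} (U : Set (Fin m → ℝ))
    (ψ : (Fin m → ℝ) → (Fin d → ℝ)) : Prop where
  isOpen : IsOpen U
  nonempty : U.Nonempty
  analytic : AnalyticOnNhd ℝ ψ U
  immersion : ∀ u ∈ U, Function.Injective (fderiv ℝ ψ u)
  zero : ∀ u ∈ U, eval (tor (ψ u)) P = 0

/-- The tangent space of the patch `ψ` at the parameter `u`. -/
noncomputable def tangent {m : ℕ} (ψ : (Fin m → ℝ) → (Fin d → ℝ)) (u : Fin m → ℝ) :
    Submodule ℝ (Fin d → ℝ) :=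
  LinearMap.range (fderiv ℝ ψ u : (Fin m → ℝ) →ₗ[ℝ] (Fin d → ℝ))

/-- `S` is exactly the support of some nonzero vector with nonnegative entries that is orthogonal
to `T`. -/
def NormalSupport (T : Submodule ℝ (Fin d → ℝ)) (S : Finset (Fin d)) : Prop :=
  S.Nonempty ∧ ∃ n : Fin d → ℝ, (∀ j ∈ S, 0 < n j) ∧ (∀ j ∉ S, n j = 0) ∧
    ∀ v ∈ T, ∑ j, n j * v j = 0

/-- The dimension of the projection of `T` to the coordinates in `S`. -/
noncomputable def projDim (T : Submodule ℝ (Fin d → ℝ)) (S : Finset (Fin d)) : ℕ :=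
  Module.finrank ℝ (T.map (LinearMap.funLeft ℝ ℝ (Subtype.val : S → Fin d)))

/-- The geometric criterion. -/
def GoodPatches (t : ℝ) (P : MvPolynomial (Fin d) ℂ) : Prop :=
  ∀ (m : ℕ) (U : Set (Fin m → ℝ)) (ψ : (Fin m → ℝ) → (Fin d → ℝ)), IsPatch P U ψ →
    ∃ u ∈ U, ∃ S : Finset (Fin d), NormalSupport (tangent ψ u) S ∧
      (projDim (tangent ψ u) S : ℝ) ≤ (1 - t) * S.card

/-! ### Internal definitions: polynomials and sequences -/

/-- `P` has no zeros in the open polydisc. -/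
def NZ (P : MvPolynomial (Fin d) ℂ) : Prop :=
  ∀ z : Fin d → ℂ, (∀ j, ‖z j‖ < 1) → eval z P ≠ 0

/-- `P` with the variable `z_j` replaced by `0`. -/
noncomputable def setZero (j : Fin d) (P : MvPolynomial (Fin d) ℂ) : MvPolynomial (Fin d) ℂ :=
  bind₁ (fun i => if i = j then 0 else X i) P

/-- The sequences representing the functionals on `D_t` that annihilate the multiples of `P`. -/
def Ann (t : ℝ) (P : MvPolynomial (Fin d) ℂ) (b : (Fin d →₀ ℕ) → ℂ) : Prop :=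
  Summable (fun k => ‖b k‖ ^ 2 / wt t k) ∧
    ∀ k, ∑ a ∈ P.support, coeff a P * b (k + a) = 0

/-- The size of an integer vector. -/
def sz {ι : Type*} [Fintype ι] (l : ι → ℤ) : ℝ := 1 + ∑ j, |(l j : ℝ)|

/-- The recurrence given by `P` on `ℤ^d`. -/
def RecZ (P : MvPolynomial (Fin d) ℂ) (g : (Fin d → ℤ) → ℂ) : Prop :=
  ∀ l, ∑ a ∈ P.support, coeff a P * g (l + toZ a) = 0

/-- All translates of `g` are functionals on `D_t`, with polynomially growing norms. -/
def Temp (t : ℝ) (g : (Fin d → ℤ) → ℂ) : Prop :=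
  ∃ (C : ℝ) (q : ℕ), ∀ l : Fin d → ℤ,
    Summable (fun k : Fin d →₀ ℕ => ‖g (toZ k + l)‖ ^ 2 / wt t k) ∧
      ∑' k : Fin d →₀ ℕ, ‖g (toZ k + l)‖ ^ 2 / wt t k ≤ C * sz l ^ q

/-- Polynomial growth. -/
def PolyGr (g : (Fin d → ℤ) → ℂ) : Prop :=
  ∃ (C : ℝ) (q : ℕ), ∀ l, ‖g l‖ ≤ C * sz l ^ q

/-! ### Internal definitions: test functions and periodic distributions on `ℝ^d` -/

section
variable {ι : Type*} [Fintype ι]

/-- The character `θ ↦ e^{2πi⟨k,θ⟩}`. -/
noncomputable def chz (k : ι → ℤ) (θ : ι → ℝ) : ℂ :=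
  Complex.exp (2 * Real.pi * Complex.I * ∑ i, (k i : ℂ) * (θ i : ℂ))

/-- Smooth compactly supported functions. -/
def IsTest (F : (ι → ℝ) → ℂ) : Prop := ContDiff ℝ ∞ F ∧ HasCompactSupport F

/-- The Fourier transform at integer points. -/
noncomputable def FT (F : (ι → ℝ) → ℂ) (k : ι → ℤ) : ℂ := ∫ θ, chz (-k) θ * F θ

end

/-- The periodic distribution with Fourier coefficients `g`: `θ ↦ e^{2πi⟨k,θ⟩}` is mapped to `g k`. -/
noncomputable def Gf (g : (Fin d → ℤ) → ℂ) (F : (Fin d → ℝ) → ℂ) : ℂ :=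
  ∑' k : Fin d → ℤ, g k * FT F k

/-- The support of the distribution `Gf g`: the common zeros of the smooth functions `Θ` that
annihilate it. -/
def gsupp (g : (Fin d → ℤ) → ℂ) : Set (Fin d → ℝ) :=
  {x | ∀ Θ : (Fin d → ℝ) → ℂ, ContDiff ℝ ∞ Θ →
    (∀ F, IsTest F → Gf g (fun θ => Θ θ * F θ) = 0) → Θ x = 0}

/-! ### Internal definitions: rows, matroids, charts -/

/-- The `j`-th row of the Jacobian of `ψ` at `u`. -/
noncomputable def row {m : ℕ} (ψ : (Fin m → ℝ) → (Fin d → ℝ)) (u : Fin m → ℝ) (j : Fin d) :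
    Fin m → ℝ :=
  fun i => fderiv ℝ ψ u (Pi.single i 1) j

/-- `S` is the support of a positive linear relation between the vectors `R j`. -/
def PosSup {m : ℕ} (R : Fin d → (Fin m → ℝ)) (S : Finset (Fin d)) : Prop :=
  S.Nonempty ∧ ∃ n : Fin d → ℝ, (∀ j ∈ S, 0 < n j) ∧ ∑ j ∈ S, n j • R j = 0

/-- The rank of the vectors `R j`, `j ∈ S`. -/
noncomputable def rkk {m : ℕ} (R : Fin d → (Fin m → ℝ)) (S : Finset (Fin d)) : ℕ :=
  Module.finrank ℝ (Submodule.span ℝ (R '' (S : Set (Fin d))))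

/-- The matroid of the rows of the Jacobian is constant on `U`. -/
def MatroidConst {m : ℕ} (U : Set (Fin m → ℝ)) (ψ : (Fin m → ℝ) → (Fin d → ℝ)) : Prop :=
  ∀ T : Finset (Fin d), (∀ u ∈ U, LinearIndepOn ℝ (row ψ u) (T : Set (Fin d))) ∨
    (∀ u ∈ U, ¬ LinearIndepOn ℝ (row ψ u) (T : Set (Fin d)))

/-- `ψ` is, on the open set `U`, an analytic graph over the coordinates `B`. -/
structure GraphChart {m : ℕ} (U : Set (Fin m → ℝ)) (ψ : (Fin m → ℝ) → (Fin d → ℝ))
    (B : Fin m → Fin d) : Prop where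
  isOpen : IsOpen U
  analytic : AnalyticOnNhd ℝ ψ U
  graph : ∀ u ∈ U, ∀ i, ψ u (B i) = u i

end Pool.MP4ac1fb.Full
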