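import Pool.Agent.H.MP_4ac1fb_an.Full.Defs
import Pool.Agent.H.MP_4ac1fb_an.Products

/-!
Duality: `P` is shift-cyclic iff every annihilating sequence vanishes at `0`.
-/

namespace Pool.MP4ac1fb.Full

open MvPolynomial

variable {d : ℕ}

theorem Ann.shift {t : ℝ} {P : MvPolynomial (Fin d) ℂ} {b : (Fin d →₀ ℕ) → ℂ} (h : Ann t P b)
    (l : Fin d →₀ ℕ) : Ann t P (fun k => b (k + l)) := by
  constructor
  · set D := ∏ j, ((l j : ℝ) + 1) ^ (max t 0) with hD
    have h1 : ∀ k, ‖b (k + l)‖ ^ 2 / wt t k ≤ D * (‖b (k + l)‖ ^ 2 / wt t (k + l)) := by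
      intro k
      have h2 : wt t (k + l) ≤ D * wt t k := by
        rw [add_comm k l]
        exact wt_add_le t l k
      rw [div_le_iff₀ (wt_pos t k), mul_assoc, div_mul_eq_mul_div, mul_div_assoc',
        le_div_iff₀ (wt_pos t _)]
      nlinarith [mul_le_mul_of_nonneg_left h2 (sq_nonneg ‖b (k + l)‖)]
    have hinj : Function.Injective fun k : Fin d →₀ ℕ => k + l := fun a b h => add_right_cancel h
    have hs : Summable fun k => ‖b (k + l)‖ ^ 2 / wt t (k + l) := h.1.comp_injective hinj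
    have hs' : Summable fun k => D * (‖b (k + l)‖ ^ 2 / wt t (k + l)) := hs.mul_left D
    exact Summable.of_nonneg_of_le (fun k => div_nonneg (by positivity) (wt_pos t k).le) h1 hs'
  · intro k
    have h2 := h.2 (k + l)
    rw [← h2]
    apply Finset.sum_congr rfl
    intro a _
    simp only
    rw [add_right_comm]

/-- the linear functional with prescribed values on the monomials -/
noncomputable def ell (b : (Fin d →₀ ℕ) → ℂ) : MvPolynomial (Fin d) ℂ →ₗ[ℂ] ℂ :=
  (basisMonomials (Fin d) ℂ).constr ℂ b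

lemma ell_monomial (b : (Fin d →₀ ℕ) → ℂ) (k : Fin d →₀ ℕ) (c : ℂ) :
    ell b (monomial k c) = c * b k := by
  have h1 : (monomial k c : MvPolynomial (Fin d) ℂ) = c • basisMonomials (Fin d) ℂ k := by
    rw [coe_basisMonomials, smul_monomial, smul_eq_mul, mul_one]
  rw [h1, map_smul, ell, Module.Basis.constr_basis, smul_eq_mul]

lemma ell_eq_sum (b : (Fin d →₀ ℕ) → ℂ) (f : MvPolynomial (Fin d) ℂ) :
    ell b f = ∑ k ∈ f.support, coeff k f * b k := by
  conv_lhs => rw [f.as_sum]
  rw [map_sum]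
  exact Finset.sum_congr rfl fun k _ => ell_monomial b k _

lemma ell_monomial_mul (b : (Fin d →₀ ℕ) → ℂ) (k : Fin d →₀ ℕ) (c : ℂ)
    (P : MvPolynomial (Fin d) ℂ) :
    ell b (monomial k c * P) = c * ∑ a ∈ P.support, coeff a P * b (k + a) := by
  conv_lhs => rw [P.as_sum]
  rw [Finset.mul_sum, map_sum, Finset.mul_sum]
  apply Finset.sum_congr rfl
  intro a _
  rw [monomial_mul, ell_monomial]; ring

lemma ell_mul_eq_zero {b : (Fin d →₀ ℕ) → ℂ} {P : MvPolynomial (Fin d) ℂ}
    (h : ∀ k, ∑ a ∈ P.support, coeff a P * b (k + a) = 0) (Q : MvPolynomial (Fin d) ℂ) :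
    ell b (Q * P) = 0 := by
  rw [Q.as_sum, Finset.sum_mul, map_sum]
  apply Finset.sum_eq_zero
  intro k _
  rw [ell_monomial_mul, h k, mul_zero]

lemma ell_bound {t : ℝ} {b : (Fin d →₀ ℕ) → ℂ} (hb : Summable fun k => ‖b k‖ ^ 2 / wt t k)
    (f : MvPolynomial (Fin d) ℂ) :
    ‖ell b f‖ ^ 2 ≤ ‖W t f‖ ^ 2 * ∑' k, ‖b k‖ ^ 2 / wt t k := by
  rw [ell_eq_sum, norm_W_sq]
  have h1 : ‖∑ k ∈ f.support, coeff k f * b k‖ ≤ ∑ k ∈ f.support, ‖coeff k f‖ * ‖b k‖ := by
    refine (norm_sum_le _ _).trans (le_of_eq ?_)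
    exact Finset.sum_congr rfl fun k _ => norm_mul _ _
  have h2 : (∑ k ∈ f.support, ‖coeff k f‖ * ‖b k‖) ^ 2 ≤
      (∑ k ∈ f.support, wt t k * ‖coeff k f‖ ^ 2) * ∑ k ∈ f.support, ‖b k‖ ^ 2 / wt t k := by
    apply Finset.sum_sq_le_sum_mul_sum_of_sq_le_mul
    · intro k _; have := wt_pos t k; positivity
    · intro k _; have := wt_pos t k; positivity
    · intro k _
      have h3 := wt_pos t k
      apply le_of_eq
      field_simp
  calc ‖∑ k ∈ f.support, coeff k f * b k‖ ^ 2
      ≤ (∑ k ∈ f.support, ‖coeff k f‖ * ‖b k‖) ^ 2 := pow_le_pow_left₀ (norm_nonneg _) h1 2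
    _ ≤ _ := h2
    _ ≤ _ := by
        apply mul_le_mul_of_nonneg_left
        · exact hb.sum_le_tsum _ fun k _ => div_nonneg (by positivity) (wt_pos t k).le
        · exact Finset.sum_nonneg fun k _ => mul_nonneg (wt_pos t k).le (by positivity)

lemma inner_W (t : ℝ) (x : E d) (f : MvPolynomial (Fin d) ℂ) :
    inner ℂ x (W t f) = ell (fun k => ((sw t k : ℝ) : ℂ) * (starRingEnd ℂ) (x k)) f := by
  rw [ell_eq_sum, lp.inner_eq_tsum, tsum_eq_sum (s := f.support)]
  · apply Finset.sum_congr rfl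
    intro k _
    rw [W_apply, RCLike.inner_apply]
    ring
  · intro k hk
    rw [W_apply, MvPolynomial.notMem_support_iff.mp hk, mul_zero, inner_zero_right]

theorem shiftCyclic_iff_ann (t : ℝ) (P : MvPolynomial (Fin d) ℂ) :
    ShiftCyclic t P ↔ ∀ b, Ann t P b → b 0 = 0 := by
  constructor
  · intro h b hb
    rw [shiftCyclic_iff] at h
    by_contra h0
    set B := ∑' k, ‖b k‖ ^ 2 / wt t k with hB
    have hB0 : 0 ≤ B := tsum_nonneg fun k => div_nonneg (by positivity) (wt_pos t k).le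
    have hpos : 0 < ‖b 0‖ := norm_pos_iff.mpr h0
    obtain ⟨Q, hQ⟩ := mem_cl.mp h (‖b 0‖ / (Real.sqrt (B + 1))) (by positivity)
    have h1 : ell b (1 - Q * P) = b 0 := by
      rw [map_sub, ell_mul_eq_zero hb.2, sub_zero]
      have h2 := ell_monomial b (0 : Fin d →₀ ℕ) 1
      rw [one_mul] at h2
      exact h2
    have h2 := ell_bound hb.1 (1 - Q * P)
    rw [h1, ← hB] at h2
    have h3 : ‖W t (1 - Q * P)‖ ^ 2 < (‖b 0‖ / (Real.sqrt (B + 1))) ^ 2 :=
      pow_lt_pow_left₀ hQ (norm_nonneg _) two_ne_zero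
    rw [div_pow, Real.sq_sqrt (by linarith), lt_div_iff₀ (by linarith)] at h3
    nlinarith [sq_nonneg ‖W t (1 - Q * P)‖]
  · intro h
    by_contra hnc
    rw [shiftCyclic_iff] at hnc
    set K₀ : Submodule ℂ (E d) :=
      LinearMap.range ((W t).comp (LinearMap.mulRight ℂ P)) with hK₀
    have hmem : ∀ Q, W t (Q * P) ∈ K₀ := fun Q => ⟨Q, rfl⟩
    have h1 : W t 1 ∉ K₀.topologicalClosure := by
      intro h2
      apply hnc
      intro ε hε
      have h3 : W t 1 ∈ closure (K₀ : Set (E d)) := h2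
      obtain ⟨y, ⟨Q, rfl⟩, hy⟩ := Metric.mem_closure_iff.mp h3 ε hε
      refine ⟨Q, ?_⟩
      rw [map_sub, ← dist_eq_norm]
      exact hy
    have h2 : ∃ x ∈ K₀ᗮ, inner ℂ x (W t 1) ≠ 0 := by
      by_contra h3
      push Not at h3
      apply h1
      rw [← Submodule.orthogonal_orthogonal_eq_closure, Submodule.mem_orthogonal]
      exact h3
    obtain ⟨x, hxK, hx1⟩ := h2
    rw [inner_W] at hx1
    apply hx1
    have h3 : ell (fun k => ((sw t k : ℝ) : ℂ) * (starRingEnd ℂ) (x k))
        (1 : MvPolynomial (Fin d) ℂ) = (fun k => ((sw t k : ℝ) : ℂ) * (starRingEnd ℂ) (x k)) 0 := by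
      have h4 := ell_monomial (fun k => ((sw t k : ℝ) : ℂ) * (starRingEnd ℂ) (x k))
        (0 : Fin d →₀ ℕ) 1
      rw [one_mul] at h4
      exact h4
    rw [h3]
    apply h (fun k => ((sw t k : ℝ) : ℂ) * (starRingEnd ℂ) (x k))
    constructor
    · refine (summable_E x).congr fun k => ?_
      have h5 := wt_pos t k
      rw [norm_mul, mul_pow, Complex.norm_real, Real.norm_eq_abs, sq_abs, sw_sq, RCLike.norm_conj]
      field_simp
    · intro k
      have h5 := ell_monomial_mul (fun k => ((sw t k : ℝ) : ℂ) * (starRingEnd ℂ) (x k)) k 1 P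
      rw [one_mul] at h5
      rw [← h5, ← inner_W]
      have h6 := (Submodule.mem_orthogonal K₀ x).mp hxK _ (hmem (monomial k 1))
      rw [← inner_conj_symm, h6, map_zero]

theorem not_cyclic_of_zero (t : ℝ) (P : MvPolynomial (Fin d) ℂ) (z : Fin d → ℂ)
    (hz : ∀ j, ‖z j‖ < 1) (h0 : eval z P = 0) : ¬ ShiftCyclic t P := by
  rw [shiftCyclic_iff_ann]
  intro h
  have hann : Ann t P (fun k => ∏ j, z j ^ k j) := by
    constructor
    · set m := ⌈|t|⌉₊ with hm
      set g : ℕ → ℝ := fun n => ∑ j : Fin d, ((n : ℝ) + 1) ^ m * (‖z j‖ ^ 2) ^ n with hg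
      have hg0 : ∀ n, 0 ≤ g n := fun n => Finset.sum_nonneg fun j _ => by positivity
      have hgs : Summable g := by
        apply summable_sum
        intro j _
        have hr : ‖z j‖ ^ 2 < 1 := by
          have := hz j
          have h1 := norm_nonneg (z j)
          nlinarith
        rcases eq_or_ne (‖z j‖ ^ 2) 0 with hr0 | hr0
        · apply summable_of_ne_finset_zero (s := {0})
          intro n hn
          rw [Finset.mem_singleton] at hn
          rw [hr0, zero_pow hn, mul_zero]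
        · have h1 : Summable fun n : ℕ => ((n : ℝ) ^ m * (‖z j‖ ^ 2) ^ n) :=
            summable_pow_mul_geometric_of_norm_lt_one m (by
              rw [Real.norm_eq_abs, abs_of_nonneg (by positivity)]; exact hr)
          have h2 := (summable_nat_add_iff 1).mpr h1
          refine (h2.mul_left (‖z j‖ ^ 2)⁻¹).congr fun n => ?_
          push_cast
          rw [pow_succ]
          have h3 : (‖z j‖ ^ 2)⁻¹ * ‖z j‖ ^ 2 = 1 := inv_mul_cancel₀ hr0
          linear_combination (((n : ℝ) + 1) ^ m * (‖z j‖ ^ 2) ^ n) * h3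
      have hpi := summable_pi (ι := Fin d) g hg0 hgs
      have hpi' : Summable fun k : Fin d →₀ ℕ => ∏ i, g (k i) :=
        hpi.comp_injective (i := fun k : Fin d →₀ ℕ => (k : Fin d → ℕ)) DFunLike.coe_injective
      refine Summable.of_nonneg_of_le
        (fun k => div_nonneg (by positivity) (wt_pos t k).le) (fun k => ?_) hpi'
      rw [norm_prod, ← Finset.prod_pow, wt, ← Finset.prod_div_distrib]
      apply Finset.prod_le_prod
      · intro j _; positivity
      · intro j _
        have h1 : ‖z j ^ k j‖ ^ 2 / ((k j : ℝ) + 1) ^ t ≤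
            ((k j : ℝ) + 1) ^ m * (‖z j‖ ^ 2) ^ k j := by
          rw [norm_pow, div_eq_mul_inv, ← Real.rpow_neg (by positivity), mul_comm, ← pow_mul,
            ← pow_mul, mul_comm (k j) 2]
          apply mul_le_mul_of_nonneg_right _ (by positivity)
          rw [← Real.rpow_natCast]
          apply Real.rpow_le_rpow_of_exponent_le
          · linarith [Nat.cast_nonneg (α := ℝ) (k j)]
          · exact (neg_le_abs t).trans (Nat.le_ceil _)
        refine h1.trans ?_
        exact Finset.single_le_sum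
          (f := fun i : Fin d => (((k j : ℕ) : ℝ) + 1) ^ m * (‖z i‖ ^ 2) ^ (k j))
          (fun i _ => by positivity) (Finset.mem_univ j)
    · intro k
      have h1 : ∀ a ∈ P.support, coeff a P * ∏ j, z j ^ (k + a) j =
          (∏ j, z j ^ k j) * (coeff a P * ∏ j, z j ^ a j) := by
        intro a _
        have : ∏ j, z j ^ (k + a) j = (∏ j, z j ^ k j) * ∏ j, z j ^ a j := by
          rw [← Finset.prod_mul_distrib]
          apply Finset.prod_congr rfl
          intro j _
          rw [Finsupp.add_apply, pow_add]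
        rw [this]; ring
      rw [Finset.sum_congr rfl h1, ← Finset.mul_sum, ← MvPolynomial.eval_eq', h0, mul_zero]
  have h1 := h _ hann
  simp at h1

end Pool.MP4ac1fb.Full
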