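import Pool.Agent.H.MP_4ac1fb_an.Full.Main
import Pool.Agent.H.MP_4ac1fb_an.Upper

/-!
The critical exponent of a polynomial is a rational number `c / s` with `1 ≤ c ≤ s ≤ d`.
-/

namespace Pool.MP4ac1fb.Full

open MvPolynomial

variable {d : ℕ}

lemma projDim_lt {T : Submodule ℝ (Fin d → ℝ)} {S : Finset (Fin d)} (h : NormalSupport T S) :
    projDim T S < S.card := by
  classical
  obtain ⟨hS, n, hn, hn0, hT⟩ := h
  -- the functional `x ↦ ∑ n_j x_j` on `ℝ^S` vanishes on the projection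
  let f : (S → ℝ) →ₗ[ℝ] ℝ := ∑ j : S, n j • LinearMap.proj j
  have hf : f ≠ 0 := by
    obtain ⟨j, hj⟩ := hS
    intro h0
    have h1 : f (Pi.single ⟨j, hj⟩ 1) = n j := by
      simp only [f, LinearMap.sum_apply, LinearMap.smul_apply, LinearMap.proj_apply, smul_eq_mul]
      rw [Finset.sum_eq_single ⟨j, hj⟩]
      · simp
      · intro b _ hb
        rw [Pi.single_eq_of_ne hb, mul_zero]
      · simp
    rw [h0] at h1
    exact (hn j hj).ne' (by simpa using h1.symm)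
  have hle : T.map (LinearMap.funLeft ℝ ℝ (Subtype.val : S → Fin d)) ≤ LinearMap.ker f := by
    rintro _ ⟨v, hv, rfl⟩
    rw [LinearMap.mem_ker]
    simp only [f, LinearMap.sum_apply, LinearMap.smul_apply, LinearMap.proj_apply, smul_eq_mul,
      LinearMap.funLeft_apply]
    have h1 := hT v hv
    rw [← Finset.sum_subset (Finset.subset_univ S) (fun j _ hj => by rw [hn0 j hj, zero_mul])] at h1
    rw [← h1]
    exact Finset.sum_coe_sort S (fun j => n j * v j)
  have h1 : Module.finrank ℝ (LinearMap.ker f) < Module.finrank ℝ (S → ℝ) := by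
    apply Submodule.finrank_lt
    intro htop
    exact hf (LinearMap.ker_eq_top.mp htop)
  calc projDim T S ≤ Module.finrank ℝ (LinearMap.ker f) := Submodule.finrank_mono hle
    _ < Module.finrank ℝ (S → ℝ) := h1
    _ = S.card := by simp

lemma goodPatches_iff (t : ℝ) (P : MvPolynomial (Fin d) ℂ) : GoodPatches t P ↔
    ∀ (m : ℕ) (U : Set (Fin m → ℝ)) (ψ : (Fin m → ℝ) → (Fin d → ℝ)), IsPatch P U ψ →
      ∃ c s : ℕ, 1 ≤ c ∧ c ≤ s ∧ s ≤ d ∧ t ≤ (c : ℝ) / s ∧
        ∃ u ∈ U, ∃ S : Finset (Fin d), NormalSupport (tangent ψ u) S ∧ S.card = s ∧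
          projDim (tangent ψ u) S + c = s := by
  constructor
  · intro h m U ψ hp
    obtain ⟨u, hu, S, hS, hle⟩ := h m U ψ hp
    have hlt := projDim_lt hS
    refine ⟨S.card - projDim (tangent ψ u) S, S.card, by omega, by omega, ?_, ?_, u, hu, S, hS, rfl,
      by omega⟩
    · simpa using Finset.card_le_univ S
    · have hpos : (0 : ℝ) < S.card := by exact_mod_cast (Nat.zero_le _).trans_lt hlt
      rw [le_div_iff₀ hpos, Nat.cast_sub hlt.le]
      linarith
  · intro h m U ψ hp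
    obtain ⟨c, s, hc, hcs, hsd, ht, u, hu, S, hS, hcard, hsum⟩ := h m U ψ hp
    refine ⟨u, hu, S, hS, ?_⟩
    have hpos : (0 : ℝ) < s := by exact_mod_cast (by omega : 0 < s)
    rw [le_div_iff₀ hpos] at ht
    have h2 : (projDim (tangent ψ u) S : ℝ) + c = s := by exact_mod_cast hsum
    rw [hcard]
    linarith

lemma exists_patch {P : MvPolynomial (Fin d) ℂ} {θ : Fin d → ℝ} (h : eval (tor θ) P = 0) :
    IsPatch P (Set.univ : Set (Fin 0 → ℝ)) (fun _ => θ) where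
  isOpen := isOpen_univ
  nonempty := Set.univ_nonempty
  analytic := fun _ _ => analyticAt_const
  immersion := fun _ _ => Function.injective_of_subsingleton _
  zero := fun _ _ => h

/-- The critical exponent is a fraction `c / s` with `1 ≤ c ≤ s ≤ d`. -/
theorem critical_exponent (P : MvPolynomial (Fin d) ℂ)
    (hP : ∀ z : Fin d → ℂ, (∀ j, ‖z j‖ < 1) → eval z P ≠ 0)
    (hT : ∃ z : Fin d → ℂ, (∀ j, ‖z j‖ = 1) ∧ eval z P = 0) :
    ∃ c s : ℕ, 1 ≤ c ∧ c ≤ s ∧ s ≤ d ∧ ∀ t : ℝ, ShiftCyclic t P ↔ t ≤ (c : ℝ) / s := by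
  classical
  -- a torus zero in angles
  obtain ⟨z, hz, hz0⟩ := hT
  obtain ⟨θ, hθ⟩ : ∃ θ : Fin d → ℝ, tor θ = z := by
    refine ⟨fun j => Complex.arg (z j) / (2 * Real.pi), funext fun j => ?_⟩
    unfold tor
    have h1 : (2 * (Real.pi : ℂ) * Complex.I * ((Complex.arg (z j) / (2 * Real.pi) : ℝ) : ℂ)) =
        (Complex.arg (z j) : ℂ) * Complex.I := by
      push_cast
      have : (Real.pi : ℂ) ≠ 0 := by exact_mod_cast Real.pi_ne_zero
      field_simp
    rw [h1]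
    have h2 := Complex.norm_mul_exp_arg_mul_I (z j)
    rw [hz j] at h2
    simpa using h2
  have hd : 0 < d := by
    rcases Nat.eq_zero_or_pos d with rfl | h
    · exact absurd hz0 (hP z (fun j => j.elim0))
    · exact h
  have hpt : IsPatch P (Set.univ : Set (Fin 0 → ℝ)) (fun _ => θ) := exists_patch (by rw [hθ]; exact hz0)
  have hcl : ∀ t, ShiftCyclic t P ↔ GoodPatches t P := fun t => by
    rw [classification]; exact and_iff_right hP
  have hmono : ∀ t t', t' ≤ t → GoodPatches t P → GoodPatches t' P := by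
    intro t t' htt h m U ψ hp
    obtain ⟨u, hu, S, hS, hle⟩ := h m U ψ hp
    refine ⟨u, hu, S, hS, hle.trans ?_⟩
    have : (0 : ℝ) ≤ S.card := Nat.cast_nonneg _
    nlinarith
  -- the finite set of candidates
  set 𝒯 : Finset (ℕ × ℕ) := ((Finset.range (d + 1)) ×ˢ (Finset.range (d + 1))).filter
    (fun p => 1 ≤ p.1 ∧ p.1 ≤ p.2) with h𝒯
  have hmem : ∀ c s : ℕ, 1 ≤ c → c ≤ s → s ≤ d → (c, s) ∈ 𝒯 := by
    intro c s h1 h2 h3
    simp only [h𝒯, Finset.mem_filter, Finset.mem_product, Finset.mem_range]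
    omega
  have hG1 : GoodPatches ((1 : ℕ) / (d : ℝ)) P := by
    rw [← hcl]
    apply cyclic_of_few_vars _ P hP
    have h1 : (P.vars.card : ℝ) ≤ d := by
      exact_mod_cast (by simpa using Finset.card_le_univ P.vars : P.vars.card ≤ d)
    have h2 : (0 : ℝ) < d := by exact_mod_cast hd
    rw [Nat.cast_one, one_div, inv_mul_le_iff₀ h2]
    simpa using h1
  set 𝒢 := 𝒯.filter (fun p => GoodPatches ((p.1 : ℝ) / p.2) P) with h𝒢
  have h𝒢ne : 𝒢.Nonempty := ⟨(1, d), by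
    rw [h𝒢, Finset.mem_filter]
    exact ⟨hmem 1 d le_rfl hd le_rfl, hG1⟩⟩
  obtain ⟨q, hq, hqmax⟩ := Finset.exists_max_image 𝒢 (fun p => (p.1 : ℝ) / p.2) h𝒢ne
  rw [h𝒢, Finset.mem_filter] at hq
  obtain ⟨hqT, hqG⟩ := hq
  have hq' : 1 ≤ q.1 ∧ q.1 ≤ q.2 ∧ q.2 ≤ d := by
    simp only [h𝒯, Finset.mem_filter, Finset.mem_product, Finset.mem_range] at hqT
    omega
  refine ⟨q.1, q.2, hq'.1, hq'.2.1, hq'.2.2, fun t => ?_⟩
  rw [hcl]
  constructor
  · intro hG
    have hG' := (goodPatches_iff t P).mp hG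
    set 𝒮 := 𝒯.filter (fun p => t ≤ (p.1 : ℝ) / p.2) with h𝒮
    have h𝒮ne : 𝒮.Nonempty := by
      obtain ⟨c, s, h1, h2, h3, h4, _⟩ := hG' 0 _ _ hpt
      exact ⟨(c, s), by rw [h𝒮, Finset.mem_filter]; exact ⟨hmem c s h1 h2 h3, h4⟩⟩
    obtain ⟨r, hr, hrmin⟩ := Finset.exists_min_image 𝒮 (fun p => (p.1 : ℝ) / p.2) h𝒮ne
    rw [h𝒮, Finset.mem_filter] at hr
    have hGr : GoodPatches ((r.1 : ℝ) / r.2) P := by
      rw [goodPatches_iff]
      intro m U ψ hp
      obtain ⟨c, s, h1, h2, h3, h4, h5⟩ := hG' m U ψ hp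
      exact ⟨c, s, h1, h2, h3, hrmin (c, s) (by
        rw [h𝒮, Finset.mem_filter]; exact ⟨hmem c s h1 h2 h3, h4⟩), h5⟩
    exact hr.2.trans (hqmax r (by rw [h𝒢, Finset.mem_filter]; exact ⟨hr.1, hGr⟩))
  · intro ht
    exact hmono _ _ ht hqG

end Pool.MP4ac1fb.Full
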