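import Pool.Agent.H.MP_4ac1fb_an.Full.WAlg
import Pool.Agent.H.MP_4ac1fb_an.Full.CoeffBound

/-!
The factors `E_j(n)` extending `u_j z_j^n` (`u_j` a power of `P|_{z_j=0}`) to negative `n`.
-/

namespace Pool.MP4ac1fb.Full

open MvPolynomial

variable {d : ℕ}

/-- The shift `f ↦ (f_{k + m e_j})_k`. -/
noncomputable def Shp (j : Fin d) (m : ℕ) (f : MvPowerSeries (Fin d) ℂ) :
    MvPowerSeries (Fin d) ℂ :=
  fun k => MvPowerSeries.coeff (k + Finsupp.single j m) f

/-- The part of `Shp j m f` without `z_j`. -/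
noncomputable def cp (j : Fin d) (m : ℕ) (f : MvPowerSeries (Fin d) ℂ) :
    MvPowerSeries (Fin d) ℂ :=
  fun k => if k j = 0 then MvPowerSeries.coeff (k + Finsupp.single j m) f else 0

lemma coeff_Shp (j : Fin d) (m : ℕ) (f : MvPowerSeries (Fin d) ℂ) (k : Fin d →₀ ℕ) :
    MvPowerSeries.coeff k (Shp j m f) = MvPowerSeries.coeff (k + Finsupp.single j m) f := rfl

lemma coeff_cp (j : Fin d) (m : ℕ) (f : MvPowerSeries (Fin d) ℂ) (k : Fin d →₀ ℕ) :
    MvPowerSeries.coeff k (cp j m f) =
      if k j = 0 then MvPowerSeries.coeff (k + Finsupp.single j m) f else 0 := rfl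

lemma Shp_zero (j : Fin d) (f : MvPowerSeries (Fin d) ℂ) : Shp j 0 f = f := by
  ext k
  rw [coeff_Shp, Finsupp.single_zero, add_zero]

lemma Shp_succ_mul (j : Fin d) (m : ℕ) (f : MvPowerSeries (Fin d) ℂ) :
    Shp j (m + 1) f * MvPowerSeries.X j = Shp j m f - cp j m f := by
  ext k
  rw [MvPowerSeries.X, MvPowerSeries.coeff_mul_monomial, map_sub, coeff_Shp, coeff_cp, mul_one]
  by_cases hk : k j = 0
  · have : ¬ Finsupp.single j 1 ≤ k := by
      intro h
      have := h j
      rw [Finsupp.single_eq_same] at this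
      omega
    rw [if_neg this, if_pos hk, coeff_Shp, sub_self]
  · have h1 : Finsupp.single j 1 ≤ k := by
      rw [Finsupp.single_le_iff]
      omega
    have h2 : k - Finsupp.single j 1 + Finsupp.single j (m + 1) = k + Finsupp.single j m := by
      ext i
      rw [Finsupp.add_apply, Finsupp.add_apply, Finsupp.tsub_apply]
      by_cases hi : i = j
      · subst hi
        rw [Finsupp.single_eq_same, Finsupp.single_eq_same, Finsupp.single_eq_same]
        omega
      · rw [Finsupp.single_eq_of_ne hi, Finsupp.single_eq_of_ne hi, Finsupp.single_eq_of_ne hi]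
        omega
    rw [if_pos h1, if_neg hk, sub_zero, coeff_Shp, h2]

lemma coeff_poly_mul (P : MvPolynomial (Fin d) ℂ) (g : MvPowerSeries (Fin d) ℂ)
    (k : Fin d →₀ ℕ) :
    MvPowerSeries.coeff k ((P : MvPowerSeries (Fin d) ℂ) * g) =
      ∑ a ∈ P.support, if a ≤ k then coeff a P * MvPowerSeries.coeff (k - a) g else 0 := by
  have h : (P : MvPowerSeries (Fin d) ℂ) =
      ∑ a ∈ P.support, MvPowerSeries.monomial a (coeff a P) := by
    ext m
    rw [map_sum, coeff_coe]
    simp only [MvPowerSeries.coeff_monomial]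
    rw [Finset.sum_ite_eq]
    split_ifs with hm
    · rfl
    · exact MvPolynomial.notMem_support_iff.mp hm
  rw [h, Finset.sum_mul, map_sum]
  refine Finset.sum_congr rfl fun a _ => ?_
  rw [MvPowerSeries.coeff_monomial_mul]

/-- The extension of `n ↦ u z_j^n` to negative `n`. -/
noncomputable def Efac (P u : MvPolynomial (Fin d) ℂ) (f : MvPowerSeries (Fin d) ℂ) (j : Fin d) :
    ℤ → MvPowerSeries (Fin d) ℂ
  | Int.ofNat n => (u : MvPowerSeries (Fin d) ℂ) * MvPowerSeries.X j ^ n
  | Int.negSucc m => (P : MvPowerSeries (Fin d) ℂ) * Shp j (m + 1) f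

lemma Efac_zero (P u : MvPolynomial (Fin d) ℂ) (f : MvPowerSeries (Fin d) ℂ) (j : Fin d) :
    Efac P u f j 0 = u := by
  change (u : MvPowerSeries (Fin d) ℂ) * (MvPowerSeries.X j : MvPowerSeries (Fin d) ℂ) ^ 0 = u
  rw [pow_zero, mul_one]

lemma one_le_wsz (k : Fin d →₀ ℕ) : 1 ≤ wsz k := by
  have : 0 ≤ ∑ i, (k i : ℝ) := Finset.sum_nonneg fun i _ => by positivity
  unfold wsz
  linarith

lemma wsz_eq (j : Fin d) (k : Fin d →₀ ℕ) :
    wsz k = 1 + (k j : ℝ) + ∑ i ∈ Finset.univ.erase j, (k i : ℝ) := by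
  unfold wsz
  rw [← Finset.add_sum_erase _ _ (Finset.mem_univ j), ← add_assoc]

theorem exists_Efac (P : MvPolynomial (Fin d) ℂ) (hP : NZ P) (j : Fin d) (q : ℕ) :
    ∃ (N q' : ℕ) (C : ℝ) (E : ℤ → MvPowerSeries (Fin d) ℂ), 0 ≤ C ∧
      E 0 = ((setZero j P ^ N : MvPolynomial (Fin d) ℂ) : MvPowerSeries (Fin d) ℂ) ∧
      (∀ n : ℤ, WS q (E n) ∧ nrm q (E n) ≤ C * (1 + |(n : ℝ)|) ^ q') ∧
      (∀ n : ℤ, ∃ c, WS q c ∧
        E n * MvPowerSeries.X j = E (n + 1) + (P : MvPowerSeries (Fin d) ℂ) * c) := by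
  obtain ⟨N, r, C, hC⟩ := coeff_bound P hP j (q + 2 * d)
  set u : MvPolynomial (Fin d) ℂ := setZero j P ^ N with hu
  have hP0 : MvPowerSeries.constantCoeff (P : MvPowerSeries (Fin d) ℂ) ≠ 0 := by
    have h := hP 0 (fun j => by simp)
    rw [← MvPowerSeries.coeff_zero_eq_constantCoeff_apply, coeff_coe]
    rwa [MvPolynomial.eval_zero, MvPolynomial.constantCoeff_eq] at h
  set Q : MvPowerSeries (Fin d) ℂ := (P : MvPowerSeries (Fin d) ℂ)⁻¹ with hQ
  have hPQ : (P : MvPowerSeries (Fin d) ℂ) * Q = 1 := MvPowerSeries.mul_inv_cancel _ hP0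
  set f : MvPowerSeries (Fin d) ℂ := (u : MvPowerSeries (Fin d) ℂ) * Q with hf
  have hPf : (P : MvPowerSeries (Fin d) ℂ) * f = u := by
    rw [hf, mul_left_comm, hPQ, mul_one]
  have hfb : ∀ k : Fin d →₀ ℕ, ‖MvPowerSeries.coeff k f‖ *
      (1 + ∑ i ∈ Finset.univ.erase j, (k i : ℝ)) ^ (q + 2 * d) ≤ C * (1 + (k j : ℝ)) ^ r := by
    intro k
    have := hC Q hPQ k
    rw [← coe_pow] at this
    exact this
  have hC0 : 0 ≤ C := by
    have := hfb 0
    have h0 : 0 ≤ ‖MvPowerSeries.coeff (0 : Fin d →₀ ℕ) f‖ *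
      (1 + ∑ i ∈ Finset.univ.erase j, ((0 : Fin d →₀ ℕ) i : ℝ)) ^ (q + 2 * d) := by positivity
    have h1 := h0.trans this
    simpa using h1
  -- the bound for the sequence `c`
  set Z0 : ℝ := ∑' k : Fin d →₀ ℕ, (wsz k ^ (2 * d))⁻¹ with hZ
  have hZ0 : 0 ≤ Z0 := tsum_nonneg fun k => by
    have := one_le_wsz k
    positivity
  have hcp : ∀ m : ℕ, WS q (cp j m f) := by
    intro m
    refine (WS_of_bound (A := C * (1 + (m : ℝ)) ^ r) fun k => ?_).1
    rw [coeff_cp]
    split_ifs with hk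
    · have := hfb (k + Finsupp.single j m)
      rw [Finsupp.add_apply, hk, Finsupp.single_eq_same, zero_add] at this
      refine le_trans (le_of_eq ?_) this
      rw [wsz_eq j, hk]
      congr 2
      rw [Nat.cast_zero, add_zero]
      congr 1
      refine Finset.sum_congr rfl fun i hi => ?_
      rw [Finsupp.add_apply, Finsupp.single_eq_of_ne (Finset.ne_of_mem_erase hi), add_zero]
    · rw [norm_zero, zero_mul]
      positivity
  -- `u` has no `z_j`
  have huj : ∀ k : Fin d →₀ ℕ, k j ≠ 0 → coeff k u = 0 := by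
    intro k hk
    by_contra h
    have hv : j ∈ u.vars := by
      rw [MvPolynomial.mem_vars]
      exact ⟨k, MvPolynomial.mem_support_iff.mpr h, by simpa using hk⟩
    have h1 : u.vars ⊆ (setZero j P).vars := MvPolynomial.vars_pow _ _
    exact Finset.notMem_erase j _ (vars_setZero j P (h1 hv))
  set D : ℕ := degreeOf j P with hD
  have hdeg : ∀ a ∈ P.support, a j ≤ D := fun a ha => MvPolynomial.monomial_le_degreeOf j ha
  -- vanishing
  have hvan : ∀ (m : ℕ) (k : Fin d →₀ ℕ), 1 ≤ m → D ≤ k j →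
      MvPowerSeries.coeff k ((P : MvPowerSeries (Fin d) ℂ) * Shp j m f) = 0 := by
    intro m k hm hk
    have h1 : MvPowerSeries.coeff (k + Finsupp.single j m)
        ((P : MvPowerSeries (Fin d) ℂ) * f) = 0 := by
      rw [hPf, coeff_coe]
      apply huj
      rw [Finsupp.add_apply, Finsupp.single_eq_same]
      omega
    rw [← h1, coeff_poly_mul, coeff_poly_mul]
    refine Finset.sum_congr rfl fun a ha => ?_
    have haD := hdeg a ha
    have hiff : a ≤ k ↔ a ≤ k + Finsupp.single j m := by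
      constructor
      · intro h
        exact h.trans (le_self_add)
      · intro h i
        have := h i
        rw [Finsupp.add_apply] at this
        by_cases hi : i = j
        · subst hi; omega
        · rwa [Finsupp.single_eq_of_ne hi, add_zero] at this
    by_cases hak : a ≤ k
    · rw [if_pos hak, if_pos (hiff.mp hak), coeff_Shp]
      rw [tsub_add_eq_add_tsub hak]
    · rw [if_neg hak, if_neg (fun h => hak (hiff.mpr h))]
  -- the bound
  set B : ℝ := ∑ a ∈ P.support, ‖coeff a P‖ *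
    (C * (1 + (D : ℝ)) ^ r * ((1 + (D : ℝ)) * wsz a) ^ (q + 2 * d)) with hB
  have hB0 : 0 ≤ B := Finset.sum_nonneg fun a _ => by
    have := one_le_wsz a
    positivity
  have hneg : ∀ (m : ℕ), 1 ≤ m → ∀ k : Fin d →₀ ℕ,
      ‖MvPowerSeries.coeff k ((P : MvPowerSeries (Fin d) ℂ) * Shp j m f)‖ *
        wsz k ^ (q + 2 * d) ≤ B * (1 + (m : ℝ)) ^ r := by
    intro m hm k
    by_cases hk : D ≤ k j
    · rw [hvan m k hm hk, norm_zero, zero_mul]
      positivity
    push Not at hk
    rw [coeff_poly_mul, hB, Finset.sum_mul]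
    have hw0 : 0 ≤ wsz k ^ (q + 2 * d) := by
      have := one_le_wsz k
      positivity
    refine (mul_le_mul_of_nonneg_right (norm_sum_le _ _) hw0).trans ?_
    rw [Finset.sum_mul]
    refine Finset.sum_le_sum fun a ha => ?_
    split_ifs with hak
    · rw [norm_mul, coeff_Shp]
      have h1 := hfb (k - a + Finsupp.single j m)
      have h2 : wsz k ≤ (1 + (D : ℝ)) * wsz a *
          (1 + ∑ i ∈ Finset.univ.erase j, ((k - a + Finsupp.single j m) i : ℝ)) := by
        have e1 : ∑ i ∈ Finset.univ.erase j, ((k - a + Finsupp.single j m) i : ℝ) =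
            ∑ i ∈ Finset.univ.erase j, (((k i : ℝ)) - (a i : ℝ)) := by
          refine Finset.sum_congr rfl fun i hi => ?_
          rw [Finsupp.add_apply, Finsupp.single_eq_of_ne (Finset.ne_of_mem_erase hi), add_zero,
            Finsupp.tsub_apply, Nat.cast_sub (hak i)]
        rw [e1, Finset.sum_sub_distrib, wsz_eq j k, wsz_eq j a]
        have hs : 0 ≤ ∑ i ∈ Finset.univ.erase j, (a i : ℝ) :=
          Finset.sum_nonneg fun i _ => by positivity
        have hs2 : ∑ i ∈ Finset.univ.erase j, (a i : ℝ) ≤ ∑ i ∈ Finset.univ.erase j, (k i : ℝ) :=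
          Finset.sum_le_sum fun i _ => by exact_mod_cast hak i
        have hkD : (k j : ℝ) ≤ D := by exact_mod_cast hk.le
        have haj : (0 : ℝ) ≤ a j := by positivity
        have hkj : (0 : ℝ) ≤ k j := by positivity
        set s := ∑ i ∈ Finset.univ.erase j, (a i : ℝ)
        set S := ∑ i ∈ Finset.univ.erase j, (k i : ℝ)
        have hd0 : 0 ≤ S - s := by linarith
        have key : 1 + S ≤ (1 + (a j : ℝ) + s) * (1 + (S - s)) := by
          nlinarith [mul_nonneg hs hd0, mul_nonneg haj hd0]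
        have hD0 : (0 : ℝ) ≤ D := by positivity
        have : 1 + (k j : ℝ) + S ≤ (1 + D) * (1 + S) := by
          nlinarith [mul_nonneg hD0 (le_trans hs hs2)]
        calc 1 + (k j : ℝ) + S ≤ (1 + D) * (1 + S) := this
          _ ≤ (1 + D) * ((1 + (a j : ℝ) + s) * (1 + (S - s))) := by
            apply mul_le_mul_of_nonneg_left key (by positivity)
          _ = _ := by ring
      have h3 : wsz k ^ (q + 2 * d) ≤ ((1 + (D : ℝ)) * wsz a) ^ (q + 2 * d) *
          (1 + ∑ i ∈ Finset.univ.erase j, ((k - a + Finsupp.single j m) i : ℝ)) ^ (q + 2 * d) := by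
        rw [← mul_pow]
        exact pow_le_pow_left₀ (by have := one_le_wsz k; linarith) h2 _
      have h4 : C * (1 + (((k - a + Finsupp.single j m) j : ℕ) : ℝ)) ^ r ≤
          C * ((1 + (D : ℝ)) ^ r * (1 + (m : ℝ)) ^ r) := by
        refine mul_le_mul_of_nonneg_left ?_ hC0
        rw [← mul_pow]
        refine pow_le_pow_left₀ (by positivity) ?_ _
        rw [Finsupp.add_apply, Finsupp.single_eq_same, Finsupp.tsub_apply]
        have h5 : k j - a j ≤ D := by omega
        have h6 : (((k j - a j : ℕ)) : ℝ) ≤ D := by exact_mod_cast h5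
        push_cast
        push_cast at h6
        nlinarith [mul_nonneg (Nat.cast_nonneg D : (0 : ℝ) ≤ D) (Nat.cast_nonneg m : (0 : ℝ) ≤ m)]
      have hwa := one_le_wsz a
      calc ‖coeff a P‖ * ‖MvPowerSeries.coeff (k - a + Finsupp.single j m) f‖ *
            wsz k ^ (q + 2 * d)
          ≤ ‖coeff a P‖ * ‖MvPowerSeries.coeff (k - a + Finsupp.single j m) f‖ *
            (((1 + (D : ℝ)) * wsz a) ^ (q + 2 * d) *
          (1 + ∑ i ∈ Finset.univ.erase j,
            ((k - a + Finsupp.single j m) i : ℝ)) ^ (q + 2 * d)) := by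
            apply mul_le_mul_of_nonneg_left h3 (by positivity)
        _ = ‖coeff a P‖ * ((1 + (D : ℝ)) * wsz a) ^ (q + 2 * d) *
            (‖MvPowerSeries.coeff (k - a + Finsupp.single j m) f‖ *
          (1 + ∑ i ∈ Finset.univ.erase j,
            ((k - a + Finsupp.single j m) i : ℝ)) ^ (q + 2 * d)) := by ring
        _ ≤ ‖coeff a P‖ * ((1 + (D : ℝ)) * wsz a) ^ (q + 2 * d) *
            (C * ((1 + (D : ℝ)) ^ r * (1 + (m : ℝ)) ^ r)) := by
            apply mul_le_mul_of_nonneg_left (h1.trans h4) (by positivity)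
        _ = _ := by ring
    · rw [norm_zero, zero_mul]
      have hwa := one_le_wsz a
      positivity
  have hnegW : ∀ m : ℕ, 1 ≤ m → WS q ((P : MvPowerSeries (Fin d) ℂ) * Shp j m f) ∧
      nrm q ((P : MvPowerSeries (Fin d) ℂ) * Shp j m f) ≤ B * (1 + (m : ℝ)) ^ r * Z0 :=
    fun m hm => WS_of_bound (hneg m hm)
  have hX : ∀ n : ℕ, WS q ((MvPowerSeries.X j : MvPowerSeries (Fin d) ℂ) ^ n) ∧
      nrm q ((MvPowerSeries.X j : MvPowerSeries (Fin d) ℂ) ^ n) ≤
        (1 + (n : ℝ)) ^ (q + 2 * d) * Z0 := by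
    intro n
    refine WS_of_bound fun k => ?_
    rw [MvPowerSeries.coeff_X_pow]
    split_ifs with hk
    · rw [hk, norm_one, one_mul]
      refine le_of_eq ?_
      congr 1
      rw [wsz_eq j, Finsupp.single_eq_same, Finset.sum_eq_zero, add_zero]
      intro i hi
      rw [Finsupp.single_eq_of_ne (Finset.ne_of_mem_erase hi), Nat.cast_zero]
    · rw [norm_zero, zero_mul]
      positivity
  have hu1 : WS q (u : MvPowerSeries (Fin d) ℂ) := WS_poly q u
  refine ⟨N, r + (q + 2 * d), B * Z0 + nrm q (u : MvPowerSeries (Fin d) ℂ) * Z0, Efac P u f j,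
    ?_, Efac_zero _ _ _ _, ?_, ?_⟩
  · have := nrm_nonneg q (u : MvPowerSeries (Fin d) ℂ)
    positivity
  · have hu0 := nrm_nonneg q (u : MvPowerSeries (Fin d) ℂ)
    intro n
    rcases n with n | m
    · refine ⟨hu1.mul (hX n).1, (nrm_mul_le hu1 (hX n).1).trans ?_⟩
      have e : |((Int.ofNat n : ℤ) : ℝ)| = n := by simp
      rw [e]
      have h1 : (1 : ℝ) ≤ (1 + (n : ℝ)) ^ r := one_le_pow₀ (by simp)
      have h2 : (0 : ℝ) ≤ (1 + (n : ℝ)) ^ (q + 2 * d) := by positivity
      calc nrm q (u : MvPowerSeries (Fin d) ℂ) *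
            nrm q ((MvPowerSeries.X j : MvPowerSeries (Fin d) ℂ) ^ n)
          ≤ nrm q (u : MvPowerSeries (Fin d) ℂ) * ((1 + (n : ℝ)) ^ (q + 2 * d) * Z0) :=
            mul_le_mul_of_nonneg_left (hX n).2 hu0
        _ = (nrm q (u : MvPowerSeries (Fin d) ℂ) * Z0) * (1 * (1 + (n : ℝ)) ^ (q + 2 * d)) := by
            ring
        _ ≤ (B * Z0 + nrm q (u : MvPowerSeries (Fin d) ℂ) * Z0) *
              ((1 + (n : ℝ)) ^ r * (1 + (n : ℝ)) ^ (q + 2 * d)) := by
            apply mul_le_mul
            · have : 0 ≤ B * Z0 := by positivity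
              linarith
            · exact mul_le_mul_of_nonneg_right h1 h2
            · positivity
            · positivity
        _ = _ := by rw [pow_add (1 + (n : ℝ)) r]
    · refine ⟨(hnegW (m + 1) (by omega)).1, (hnegW (m + 1) (by omega)).2.trans ?_⟩
      have e : |((Int.negSucc m : ℤ) : ℝ)| = m + 1 := by
        rw [Int.cast_negSucc, abs_neg]
        push_cast
        exact abs_of_nonneg (by positivity)
      rw [e, pow_add]
      push_cast
      have h1 : (1 : ℝ) ≤ (1 + ((m : ℝ) + 1)) ^ (q + 2 * d) :=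
        one_le_pow₀ (by have : (0 : ℝ) ≤ m := by positivity
                        linarith)
      have h2 : (0 : ℝ) ≤ (1 + ((m : ℝ) + 1)) ^ r := by positivity
      calc B * (1 + ((m : ℝ) + 1)) ^ r * Z0 = (B * Z0) * ((1 + ((m : ℝ) + 1)) ^ r * 1) := by ring
        _ ≤ (B * Z0 + nrm q (u : MvPowerSeries (Fin d) ℂ) * Z0) *
            ((1 + ((m : ℝ) + 1)) ^ r * (1 + ((m : ℝ) + 1)) ^ (q + 2 * d)) := by
            apply mul_le_mul
            · have : 0 ≤ nrm q (u : MvPowerSeries (Fin d) ℂ) * Z0 := by positivity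
              linarith
            · exact mul_le_mul_of_nonneg_left h1 h2
            · positivity
            · positivity
  · intro n
    rcases n with n | m
    · refine ⟨0, ?_, ?_⟩
      · unfold WS
        simpa using summable_zero
      · have : (Int.ofNat n + 1 : ℤ) = Int.ofNat (n + 1) := rfl
        rw [this, mul_zero, add_zero]
        change (u : MvPowerSeries (Fin d) ℂ) * MvPowerSeries.X j ^ n * MvPowerSeries.X j =
          (u : MvPowerSeries (Fin d) ℂ) * MvPowerSeries.X j ^ (n + 1)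
        rw [pow_succ, mul_assoc]
    · refine ⟨-cp j m f, ?_, ?_⟩
      · have := hcp m
        unfold WS at this ⊢
        refine this.congr fun k => ?_
        rw [map_neg, norm_neg]
      · change (P : MvPowerSeries (Fin d) ℂ) * Shp j (m + 1) f * MvPowerSeries.X j = _
        rw [mul_assoc, Shp_succ_mul, mul_sub]
        have : Efac P u f j (Int.negSucc m + 1) = (P : MvPowerSeries (Fin d) ℂ) * Shp j m f := by
          rcases m with _ | m
          · change Efac P u f j 0 = _
            rw [Efac_zero, Shp_zero, hPf]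
          · rfl
        rw [this]
        ring

end Pool.MP4ac1fb.Full
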