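import Pool.Agent.H.MP_4ac1fb_an.Full.WAlg
import Pool.Agent.H.MP_4ac1fb_an.Full.CoeffBound
import Pool.Agent.H.MP_4ac1fb_an.Full.Dual
import Pool.Agent.H.MP_4ac1fb_an.Full.ExtensionAux

/-!
Extension of an annihilating functional to a tempered solution on `ℤ^d`.
-/

namespace Pool.MP4ac1fb.Full

open MvPolynomial

variable {d : ℕ}

lemma WS_nrm_prod {ι : Type*} [DecidableEq ι] (q : ℕ) (s : Finset ι)
    (F : ι → MvPowerSeries (Fin d) ℂ) (hF : ∀ j ∈ s, WS q (F j)) :
    WS q (∏ j ∈ s, F j) ∧
      nrm q (∏ j ∈ s, F j) ≤ nrm q (1 : MvPowerSeries (Fin d) ℂ) * ∏ j ∈ s, nrm q (F j) := by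
  induction s using Finset.induction_on with
  | empty =>
    have h1 : WS q (1 : MvPowerSeries (Fin d) ℂ) := by
      have := WS_poly (d := d) q 1
      rwa [MvPolynomial.coe_one] at this
    simp only [Finset.prod_empty, mul_one, le_refl, and_true]
    exact h1
  | insert a s ha ih =>
    have h1 := ih fun j hj => hF j (Finset.mem_insert_of_mem hj)
    have h2 := hF a (Finset.mem_insert_self a s)
    rw [Finset.prod_insert ha, Finset.prod_insert ha]
    refine ⟨h2.mul h1.1, (nrm_mul_le h2 h1.1).trans ?_⟩
    calc nrm q (F a) * nrm q (∏ j ∈ s, F j)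
        ≤ nrm q (F a) * (nrm q (1 : MvPowerSeries (Fin d) ℂ) * ∏ j ∈ s, nrm q (F j)) :=
          mul_le_mul_of_nonneg_left h1.2 (nrm_nonneg _ _)
      _ = _ := by ring

lemma one_le_sz {ι : Type*} [Fintype ι] (l : ι → ℤ) : 1 ≤ sz l := by
  have : 0 ≤ ∑ j, |(l j : ℝ)| := Finset.sum_nonneg fun i _ => abs_nonneg _
  unfold sz
  linarith

lemma one_add_abs_le_sz {ι : Type*} [Fintype ι] (l : ι → ℤ) (j : ι) : 1 + |(l j : ℝ)| ≤ sz l := by
  have : |(l j : ℝ)| ≤ ∑ j, |(l j : ℝ)| :=
    Finset.single_le_sum (f := fun j => |(l j : ℝ)|) (fun i _ => abs_nonneg _) (Finset.mem_univ j)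
  unfold sz
  linarith

theorem extension (t : ℝ) (P : MvPolynomial (Fin d) ℂ) (hP : NZ P)
    (hj : ∀ j ∈ P.vars, ShiftCyclic t (setZero j P)) (hnc : ¬ ShiftCyclic t P) :
    ∃ g : (Fin d → ℤ) → ℂ, g ≠ 0 ∧ RecZ P g ∧ Temp t g := by
  classical
  rw [shiftCyclic_iff_ann] at hnc
  push Not at hnc
  obtain ⟨b, hb, hb0⟩ := hnc
  set q : ℕ := q0 d t with hq
  have hqq : q0 d t ≤ q := le_rfl
  choose N q' C E hC0 hE0 hEb hEr using fun j => exists_Efac P hP j q
  set V : Finset (Fin d) := P.vars with hV
  have hDb : DualSp t b := hb.1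
  set H : (Fin d → ℤ) → MvPowerSeries (Fin d) ℂ := fun l => ∏ j ∈ V, E j (l j) with hHdef
  have hHW : ∀ l, WS q (H l) := fun l => (WS_nrm_prod q V _ fun j _ => (hEb j (l j)).1).1
  -- annihilation
  have hPb : conv (P : MvPowerSeries (Fin d) ℂ) b = 0 := by
    funext l
    rw [conv_poly]
    exact hb.2 l
  have hconv0 : ∀ f : MvPowerSeries (Fin d) ℂ, conv f (0 : (Fin d →₀ ℕ) → ℂ) = 0 := by
    intro f
    funext l
    unfold conv
    simp
  have hann : ∀ f : MvPowerSeries (Fin d) ℂ, WS q f →
      conv ((P : MvPowerSeries (Fin d) ℂ) * f) b = 0 := by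
    intro f hf
    rw [mul_comm, conv_mul hqq hf (WS_poly q P) hDb, hPb, hconv0]
  have hshift : ∀ f : MvPowerSeries (Fin d) ℂ, WS q f → ∀ j l,
      conv (f * MvPowerSeries.X j) b l = conv f b (l + Finsupp.single j 1) := by
    intro f hf j l
    rw [mul_comm, ← MvPolynomial.coe_X, conv_mul hqq (WS_poly q (X j)) hf hDb, conv_poly,
      MvPolynomial.support_X, Finset.sum_singleton, MvPolynomial.coeff_X, if_pos rfl, one_mul]
  have hstep : ∀ j ∈ V, ∀ l i, conv (H (l + Pi.single j 1)) b i =
      conv (H l) b (i + Finsupp.single j 1) := by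
    intro j hjV l i
    set R : MvPowerSeries (Fin d) ℂ := ∏ i ∈ V.erase j, E i (l i) with hR
    have hRW : WS q R := (WS_nrm_prod q _ _ fun j _ => (hEb j (l j)).1).1
    have h1 : H l = R * E j (l j) := by
      rw [hHdef, hR]
      exact (Finset.prod_erase_mul _ _ hjV).symm
    have h2 : H (l + Pi.single j 1) = R * E j (l j + 1) := by
      have e : ∏ i ∈ V, E i ((l + Pi.single j 1 : Fin d → ℤ) i) =
          (∏ i ∈ V.erase j, E i ((l + Pi.single j 1 : Fin d → ℤ) i)) *
            E j ((l + Pi.single j 1 : Fin d → ℤ) j) :=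
        (Finset.prod_erase_mul _ _ hjV).symm
      change ∏ i ∈ V, E i ((l + Pi.single j 1 : Fin d → ℤ) i) = _
      rw [e, Pi.add_apply, Pi.single_eq_same]
      congr 1
      refine Finset.prod_congr rfl fun i hi => ?_
      rw [Pi.add_apply, Pi.single_eq_of_ne (Finset.ne_of_mem_erase hi), add_zero]
    obtain ⟨c, hcW, hc⟩ := hEr j (l j)
    have h3 : H l * MvPowerSeries.X j = H (l + Pi.single j 1) +
        (P : MvPowerSeries (Fin d) ℂ) * (R * c) := by
      rw [h1, h2, mul_assoc, hc]
      ring
    rw [← hshift _ (hHW l) j i, h3,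
      conv_add hqq (hHW _) ((WS_poly q P).mul (hRW.mul hcW)) hDb, hann _ (hRW.mul hcW), add_zero]
  have hk : ∀ (n : ℕ) (k : Fin d →₀ ℕ), (∑ j, k j = n) → (∀ j ∉ V, k j = 0) → ∀ l i,
      conv (H (l + toZ k)) b i = conv (H l) b (i + k) := by
    intro n
    induction n with
    | zero =>
      intro k hk _ l i
      have : k = 0 := by
        ext j
        have := (Finset.sum_eq_zero_iff.mp hk) j (Finset.mem_univ j)
        simpa using this
      subst this
      have e : toZ (0 : Fin d →₀ ℕ) = 0 := by funext j; simp [toZ]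
      rw [e, add_zero, add_zero]
    | succ n ih =>
      intro k hk hkV l i
      have hex : ∃ j, k j ≠ 0 := by
        by_contra h
        push Not at h
        rw [Finset.sum_eq_zero fun j _ => h j] at hk
        omega
      obtain ⟨j, hkj⟩ := hex
      have hjV : j ∈ V := by
        by_contra h
        exact hkj (hkV j h)
      have hkk : k - Finsupp.single j 1 + Finsupp.single j 1 = k :=
        tsub_add_cancel_of_le (by rw [Finsupp.single_le_iff]; omega)
      set k' := k - Finsupp.single j 1 with hk'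
      have hs : ∑ i, k' i = n := by
        have h1 : ∑ i, k i = ∑ i, k' i + 1 := by
          rw [← hkk]
          simp only [Finsupp.add_apply]
          rw [Finset.sum_add_distrib]
          congr 1
          rw [Finset.sum_eq_single j]
          · exact Finsupp.single_eq_same
          · intro i _ hi
            exact Finsupp.single_eq_of_ne hi
          · intro h
            exact absurd (Finset.mem_univ j) h
        omega
      have hV' : ∀ j ∉ V, k' j = 0 := by
        intro i hi
        rw [hk', Finsupp.tsub_apply, hkV i hi, zero_tsub]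
      have e : toZ k = toZ k' + Pi.single j 1 := by
        funext i
        rw [← hkk]
        change (((k' + Finsupp.single j 1 : Fin d →₀ ℕ) i : ℕ) : ℤ) =
          ((k' i : ℕ) : ℤ) + (Pi.single j 1 : Fin d → ℤ) i
        rw [Finsupp.add_apply]
        by_cases hi : i = j
        · subst hi
          rw [Finsupp.single_eq_same, Pi.single_eq_same]
          push_cast
          ring
        · rw [Finsupp.single_eq_of_ne hi, Pi.single_eq_of_ne hi]
          push_cast
          ring
      rw [e, ← add_assoc, hstep j hjV, ih k' hs hV', ← hkk]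
      congr 1
      rw [hkk, add_assoc, add_comm (Finsupp.single j 1) k', hkk]
  have hk2 : ∀ (k : Fin d →₀ ℕ), (∀ j ∉ V, k j = 0) → ∀ l i,
      conv (H (l + toZ k)) b i = conv (H l) b (i + k) := fun k hkV => hk _ k rfl hkV
  have hHdep : ∀ l l' : Fin d → ℤ, (∀ j ∈ V, l j = l' j) → H l = H l' := by
    intro l l' h
    exact Finset.prod_congr rfl fun j hj => by rw [h j hj]
  have hsuppP : ∀ a ∈ P.support, ∀ j ∉ V, a j = 0 := by
    intro a ha j hj
    by_contra h
    exact hj (MvPolynomial.mem_vars j |>.mpr ⟨a, ha, by simpa using h⟩)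
  refine ⟨fun l => if ∀ j ∉ V, l j = 0 then conv (H l) b 0 else 0, ?_, ?_, ?_⟩
  · intro hg
    set u : MvPolynomial (Fin d) ℂ := ∏ j ∈ V, setZero j P ^ N j with hu
    have hH0 : H 0 = (u : MvPowerSeries (Fin d) ℂ) := by
      have : (u : MvPowerSeries (Fin d) ℂ) =
          ∏ j ∈ V, ((setZero j P ^ N j : MvPolynomial (Fin d) ℂ) : MvPowerSeries (Fin d) ℂ) := by
        exact map_prod (MvPolynomial.coeToMvPowerSeries.ringHom) _ _
      rw [this]
      exact Finset.prod_congr rfl fun j _ => hE0 j
    have huV : ∀ a ∈ u.support, ∀ j ∉ V, a j = 0 := by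
      intro a ha j hj
      by_contra h
      have hv : j ∈ u.vars := MvPolynomial.mem_vars j |>.mpr ⟨a, ha, by simpa using h⟩
      have h1 := MvPolynomial.vars_prod (s := V) (fun j => setZero j P ^ N j) hv
      rw [Finset.mem_biUnion] at h1
      obtain ⟨i, _, hi⟩ := h1
      exact hj (Finset.erase_subset _ _ (vars_setZero i P (MvPolynomial.vars_pow _ _ hi)))
    have hz : ∀ k : Fin d →₀ ℕ, (∀ j ∉ V, k j = 0) →
        ∑ a ∈ u.support, coeff a u * b (k + a) = 0 := by
      intro k hkV
      rw [← conv_poly, ← hH0]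
      have h1 := hk2 k hkV 0 0
      rw [zero_add, zero_add] at h1
      rw [← h1]
      have h2 := congrFun hg (toZ k)
      simp only [Pi.zero_apply] at h2
      rw [if_pos] at h2
      · exact h2
      · intro j hj
        change ((k j : ℕ) : ℤ) = 0
        rw [hkV j hj]
        rfl
    have hcyc : ShiftCyclic t u := by
      rw [hu, shiftCyclic_prod_iff]
      intro j hjV
      have hpow : ∀ n : ℕ, ShiftCyclic t (setZero j P ^ n) := by
        intro n
        induction n with
        | zero => rw [pow_zero]; exact shiftCyclic_one t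
        | succ n ih => rw [pow_succ, shiftCyclic_mul_iff]; exact ⟨ih, hj j hjV⟩
      exact hpow _
    rw [shiftCyclic_iff_ann] at hcyc
    have := hcyc (fun k => if ∀ j ∉ V, k j = 0 then b k else 0) ⟨?_, ?_⟩
    · have h0 : ∀ j ∉ V, (0 : Fin d →₀ ℕ) j = 0 := fun _ _ => rfl
      rw [if_pos h0] at this
      exact hb0 this
    · refine Summable.of_nonneg_of_le (fun k => ?_) (fun k => ?_) hb.1
      · have := wt_pos t k
        positivity
      · have := wt_pos t k
        beta_reduce
        split_ifs
        · exact le_rfl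
        · rw [norm_zero, zero_pow two_ne_zero, zero_div]
          positivity
    · intro k
      by_cases hkV : ∀ j ∉ V, k j = 0
      · refine (Finset.sum_congr rfl fun a ha => ?_).trans (hz k hkV)
        beta_reduce
        rw [if_pos]
        intro j hj
        rw [Finsupp.add_apply, hkV j hj, huV a ha j hj]
      · refine Finset.sum_eq_zero fun a _ => ?_
        beta_reduce
        rw [if_neg, mul_zero]
        intro h
        apply hkV
        intro j hj
        have := h j hj
        rw [Finsupp.add_apply] at this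
        omega
  · intro l
    by_cases hl : ∀ j ∉ V, l j = 0
    · have e : ∀ a ∈ P.support, coeff a P * (if ∀ j ∉ V, (l + toZ a) j = 0 then
          conv (H (l + toZ a)) b 0 else 0) = coeff a P * conv (H l) b (0 + a) := by
        intro a ha
        rw [if_pos, hk2 a (hsuppP a ha)]
        intro j hj
        rw [Pi.add_apply, hl j hj, zero_add]
        change ((a j : ℕ) : ℤ) = 0
        rw [hsuppP a ha j hj]
        rfl
      rw [Finset.sum_congr rfl e, ← conv_poly, ← conv_mul hqq (WS_poly q P) (hHW l) hDb,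
        hann _ (hHW l)]
      rfl
    · refine Finset.sum_eq_zero fun a ha => ?_
      beta_reduce
      rw [if_neg, mul_zero]
      intro h
      apply hl
      intro j hj
      have h1 := h j hj
      rw [Pi.add_apply] at h1
      change l j + ((a j : ℕ) : ℤ) = 0 at h1
      rw [hsuppP a ha j hj] at h1
      simpa using h1
  · -- `Temp`
    set S : ℝ := ∑' k, ‖b k‖ ^ 2 / wt t k with hS
    have hS0 : 0 ≤ S := tsum_nonneg fun k => by
      have := wt_pos t k
      positivity
    set K : ℝ := nrm q (1 : MvPowerSeries (Fin d) ℂ) * ∏ j ∈ V, C j with hK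
    have hK1 : 0 ≤ nrm q (1 : MvPowerSeries (Fin d) ℂ) := nrm_nonneg _ _
    have hK0 : 0 ≤ K := mul_nonneg hK1 (Finset.prod_nonneg fun j _ => hC0 j)
    set e0 : ℕ := ∑ j ∈ V, q' j with he0
    set m0 : ℕ := ⌈|t|⌉₊ with hm0
    refine ⟨K ^ 2 * S, d * m0 + 2 * e0, fun l => ?_⟩
    have hsz := one_le_sz l
    set l' : Fin d → ℤ := fun j => if j ∈ V then l j else 0 with hl'
    have hnH : nrm q (H l') ≤ K * sz l ^ e0 := by
      refine (WS_nrm_prod q V _ fun j _ => (hEb j (l' j)).1).2.trans ?_
      rw [hK, mul_assoc]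
      refine mul_le_mul_of_nonneg_left ?_ hK1
      rw [he0, ← Finset.prod_pow_eq_pow_sum, ← Finset.prod_mul_distrib]
      refine Finset.prod_le_prod (fun j _ => nrm_nonneg _ _) fun j hj => ?_
      refine (hEb j (l' j)).2.trans ?_
      refine mul_le_mul_of_nonneg_left ?_ (hC0 j)
      refine pow_le_pow_left₀ (by positivity) ?_ _
      have : l' j = l j := if_pos hj
      rw [this]
      exact one_add_abs_le_sz l j
    obtain ⟨hG, hGle⟩ := conv_mem hqq (hHW l') hDb
    set G : (Fin d →₀ ℕ) → ℝ := fun i => ‖conv (H l') b i‖ ^ 2 / wt t i with hGdef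
    have hG0 : ∀ i, 0 ≤ G i := fun i => by
      have := wt_pos t i
      simp only [hGdef]
      positivity
    -- the pointwise bound
    set r : (Fin d →₀ ℕ) → (Fin d →₀ ℕ) := fun k => Finsupp.filter (· ∈ V) k with hr
    have hpt : ∀ k : Fin d →₀ ℕ, (∀ j ∉ V, (toZ k + l) j = 0) →
        ‖conv (H (toZ k + l)) b 0‖ ^ 2 / wt t k ≤ sz l ^ (d * m0) * G (r k) := by
      intro k hkl
      have h1 : H (toZ k + l) = H (l' + toZ (r k)) := by
        apply hHdep
        intro j hj
        rw [Pi.add_apply, Pi.add_apply]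
        have e1 : l' j = l j := if_pos hj
        have e2 : toZ (r k) j = toZ k j := by
          change ((r k j : ℕ) : ℤ) = ((k j : ℕ) : ℤ)
          rw [hr]
          simp only [Finsupp.filter_apply, if_pos hj]
        rw [e1, e2, add_comm]
      have h2 : ∀ j ∉ V, r k j = 0 := by
        intro j hj
        simp only [hr, Finsupp.filter_apply, if_neg hj]
      rw [h1, hk2 (r k) h2, zero_add]
      have h3 : wt t (r k) ≤ sz l ^ (d * m0) * wt t k := by
        have hc : sz l ^ (d * m0) = ∏ _j : Fin d, sz l ^ m0 := by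
          rw [Finset.prod_const, Finset.card_univ, Fintype.card_fin, ← pow_mul, mul_comm]
        rw [hc]
        unfold wt
        rw [← Finset.prod_mul_distrib]
        refine Finset.prod_le_prod (fun j _ => by positivity) fun j _ => ?_
        have hszm : (1 : ℝ) ≤ sz l ^ m0 := one_le_pow₀ hsz
        by_cases hjV : j ∈ V
        · have : r k j = k j := by simp only [hr, Finsupp.filter_apply, if_pos hjV]
          rw [this]
          exact le_mul_of_one_le_left (by positivity) hszm
        · rw [h2 j hjV]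
          have hkj : (k j : ℝ) = |(l j : ℝ)| := by
            have h4 := hkl j hjV
            rw [Pi.add_apply] at h4
            change ((k j : ℕ) : ℤ) + l j = 0 at h4
            have h5 : (l j : ℝ) = -(k j : ℝ) := by
              have : (l j) = -((k j : ℕ) : ℤ) := by omega
              rw [this]
              push_cast
              ring
            rw [h5, abs_neg, abs_of_nonneg (by positivity)]
          rw [hkj, Nat.cast_zero, zero_add, Real.one_rpow]
          have h6 := one_add_abs_le_sz l j
          have h7 : (1 : ℝ) ≤ |(l j : ℝ)| + 1 := by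
            have := abs_nonneg (l j : ℝ)
            linarith
          have h8 : (|(l j : ℝ)| + 1) ^ (-t) ≤ sz l ^ m0 := by
            calc (|(l j : ℝ)| + 1) ^ (-t) ≤ (|(l j : ℝ)| + 1) ^ (m0 : ℝ) := by
                  apply Real.rpow_le_rpow_of_exponent_le h7
                  exact (neg_le_abs t).trans (Nat.le_ceil _)
              _ = (|(l j : ℝ)| + 1) ^ m0 := Real.rpow_natCast _ _
              _ ≤ sz l ^ m0 := pow_le_pow_left₀ (by positivity) (by linarith) _
          have h9 : (0 : ℝ) < (|(l j : ℝ)| + 1) ^ t := by positivity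
          have h10 : (|(l j : ℝ)| + 1) ^ (-t) * (|(l j : ℝ)| + 1) ^ t = 1 := by
            rw [← Real.rpow_add (by positivity)]
            simp
          calc (1 : ℝ) = (|(l j : ℝ)| + 1) ^ (-t) * (|(l j : ℝ)| + 1) ^ t := h10.symm
            _ ≤ sz l ^ m0 * (|(l j : ℝ)| + 1) ^ t := mul_le_mul_of_nonneg_right h8 h9.le
      have hw1 := wt_pos t k
      have hw2 := wt_pos t (r k)
      simp only [hGdef]
      rw [div_le_iff₀ hw1, ← mul_div_assoc, div_mul_eq_mul_div, le_div_iff₀ hw2]
      have hnn : 0 ≤ ‖conv (H l') b (r k)‖ ^ 2 := by positivity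
      nlinarith [mul_le_mul_of_nonneg_left h3 hnn]
    have hinj : ∀ k k' : Fin d →₀ ℕ, (∀ j ∉ V, (toZ k + l) j = 0) →
        (∀ j ∉ V, (toZ k' + l) j = 0) → r k = r k' → k = k' := by
      intro k k' h1 h2 h
      ext j
      by_cases hjV : j ∈ V
      · have := DFunLike.congr_fun h j
        simpa only [hr, Finsupp.filter_apply, if_pos hjV] using this
      · have a1 := h1 j hjV
        have a2 := h2 j hjV
        rw [Pi.add_apply] at a1 a2
        change ((k j : ℕ) : ℤ) + l j = 0 at a1
        change ((k' j : ℕ) : ℤ) + l j = 0 at a2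
        omega
    have hF0 : ∀ k : Fin d →₀ ℕ, 0 ≤ ‖(if ∀ j ∉ V, (toZ k + l) j = 0 then
        conv (H (toZ k + l)) b 0 else 0)‖ ^ 2 / wt t k := fun k => by
      have := wt_pos t k
      positivity
    have hsum : ∀ s : Finset (Fin d →₀ ℕ), ∑ k ∈ s, ‖(if ∀ j ∉ V, (toZ k + l) j = 0 then
        conv (H (toZ k + l)) b 0 else 0)‖ ^ 2 / wt t k ≤ K ^ 2 * S * sz l ^ (d * m0 + 2 * e0) := by
      intro s
      calc ∑ k ∈ s, ‖(if ∀ j ∉ V, (toZ k + l) j = 0 then
            conv (H (toZ k + l)) b 0 else 0)‖ ^ 2 / wt t k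
          = ∑ k ∈ s with (∀ j ∉ V, (toZ k + l) j = 0),
              ‖conv (H (toZ k + l)) b 0‖ ^ 2 / wt t k := by
            rw [Finset.sum_filter]
            refine Finset.sum_congr rfl fun k _ => ?_
            split_ifs
            · rfl
            · rw [norm_zero]; simp
        _ ≤ ∑ k ∈ s with (∀ j ∉ V, (toZ k + l) j = 0), sz l ^ (d * m0) * G (r k) := by
            refine Finset.sum_le_sum fun k hk => ?_
            exact hpt k (Finset.mem_filter.mp hk).2
        _ = sz l ^ (d * m0) *
              ∑ k ∈ s with (∀ j ∉ V, (toZ k + l) j = 0), G (r k) := by rw [Finset.mul_sum]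
        _ = sz l ^ (d * m0) *
              ∑ i ∈ (s.filter fun k => (∀ j ∉ V, (toZ k + l) j = 0)).image r, G i := by
            rw [Finset.sum_image]
            intro k hk k' hk' h
            exact hinj k k' (Finset.mem_filter.mp hk).2 (Finset.mem_filter.mp hk').2 h
        _ ≤ sz l ^ (d * m0) * ∑' i, G i := by
            apply mul_le_mul_of_nonneg_left _ (by positivity)
            exact hG.sum_le_tsum _ fun i _ => hG0 i
        _ ≤ sz l ^ (d * m0) * (nrm q (H l') ^ 2 * S) := by
            apply mul_le_mul_of_nonneg_left hGle (by positivity)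
        _ ≤ sz l ^ (d * m0) * ((K * sz l ^ e0) ^ 2 * S) := by
            apply mul_le_mul_of_nonneg_left _ (by positivity)
            apply mul_le_mul_of_nonneg_right _ hS0
            exact pow_le_pow_left₀ (nrm_nonneg _ _) hnH 2
        _ = K ^ 2 * S * sz l ^ (d * m0 + 2 * e0) := by
            rw [pow_add, pow_mul' (sz l) 2 e0]
            ring
    exact ⟨summable_of_sum_le hF0 hsum, Real.tsum_le_of_sum_le hF0 hsum⟩

end Pool.MP4ac1fb.Full
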