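import Pool.Agent.H.MP_4ac1fb_an.Full.Defs

/-!
Basic facts on `sz`, characters, test functions, Fourier transforms at integer points, and the
functional `Gf`.
-/

namespace Pool.MP4ac1fb.Full

open MvPolynomial MeasureTheory
open scoped ContDiff

section
variable {ι : Type*} [Fintype ι]

theorem one_le_sz (l : ι → ℤ) : 1 ≤ sz l := by
  unfold sz
  have : 0 ≤ ∑ j, |(l j : ℝ)| := Finset.sum_nonneg fun j _ => abs_nonneg _
  linarith

theorem sz_pos (l : ι → ℤ) : 0 < sz l := lt_of_lt_of_le one_pos (one_le_sz l)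

theorem sz_neg (l : ι → ℤ) : sz (-l) = sz l := by
  unfold sz
  simp

theorem sz_add_le (k l : ι → ℤ) : sz (k + l) ≤ sz k * sz l := by
  unfold sz
  have h1 : ∑ j, |((k + l) j : ℝ)| ≤ ∑ j, |(k j : ℝ)| + ∑ j, |(l j : ℝ)| := by
    rw [← Finset.sum_add_distrib]
    refine Finset.sum_le_sum fun j _ => ?_
    rw [Pi.add_apply]
    push_cast
    exact abs_add_le _ _
  have h2 : 0 ≤ ∑ j, |(k j : ℝ)| := Finset.sum_nonneg fun j _ => abs_nonneg _
  have h3 : 0 ≤ ∑ j, |(l j : ℝ)| := Finset.sum_nonneg fun j _ => abs_nonneg _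
  nlinarith [mul_nonneg h2 h3]

/-- Products of nonnegative summable functions are summable over `ι → ℤ`. -/
theorem summable_pi_prod {f : ℤ → ℝ} (hf0 : ∀ n, 0 ≤ f n) (hf : Summable f) :
    Summable fun k : ι → ℤ => ∏ i, f (k i) := by
  classical
  refine summable_of_sum_le (c := (∑' n, f n) ^ Fintype.card ι)
    (fun k => Finset.prod_nonneg fun i _ => hf0 _) fun u => ?_
  have hsub : u ⊆ Fintype.piFinset fun i => u.image fun k => k i := by
    intro k hk
    rw [Fintype.mem_piFinset]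
    exact fun i => Finset.mem_image_of_mem _ hk
  calc ∑ k ∈ u, ∏ i, f (k i)
      ≤ ∑ k ∈ Fintype.piFinset fun i => u.image fun k => k i, ∏ i, f (k i) :=
        Finset.sum_le_sum_of_subset_of_nonneg hsub fun k _ _ =>
          Finset.prod_nonneg fun i _ => hf0 _
    _ = ∏ i, ∑ n ∈ u.image fun k => k i, f n := by
        rw [Finset.prod_univ_sum]
    _ ≤ ∏ _i : ι, ∑' n, f n :=
        Finset.prod_le_prod (fun i _ => Finset.sum_nonneg fun n _ => hf0 n)
          fun i _ => hf.sum_le_tsum _ fun n _ => hf0 n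
    _ = (∑' n, f n) ^ Fintype.card ι := by
        rw [Finset.prod_const, Finset.card_univ]

theorem summable_one_add_abs : Summable fun n : ℤ => ((1 + |(n : ℝ)|) ^ 2)⁻¹ := by
  have h1 : Summable fun n : ℤ => 1 / (n : ℝ) ^ 2 := Real.summable_one_div_int_pow.2 one_lt_two
  have h2 : Summable fun n : ℤ => if n = 0 then (1 : ℝ) else 0 := (hasSum_ite_eq 0 1).summable
  refine Summable.of_nonneg_of_le (fun n => by positivity) (fun n => ?_) (h1.add h2)
  by_cases hn : n = 0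
  · subst hn
    simp
  · simp only [hn, if_false, add_zero, one_div]
    apply inv_anti₀
    · have : (n : ℝ) ≠ 0 := by exact_mod_cast hn
      positivity
    · rw [← sq_abs (n : ℝ)]
      exact pow_le_pow_left₀ (abs_nonneg _) (by linarith) 2

theorem summable_sz {N : ℕ} (hN : 2 * Fintype.card ι ≤ N) :
    Summable fun k : ι → ℤ => (sz k ^ N)⁻¹ := by
  refine Summable.of_nonneg_of_le (fun k => inv_nonneg.2 (pow_nonneg (sz_pos k).le _))
    (fun k => ?_) (summable_pi_prod (ι := ι) (fun n => by positivity) summable_one_add_abs)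
  rw [Finset.prod_inv_distrib]
  apply inv_anti₀
  · exact Finset.prod_pos fun i _ => by positivity
  calc ∏ i, (1 + |(k i : ℝ)|) ^ 2 ≤ ∏ _i : ι, sz k ^ 2 := by
        refine Finset.prod_le_prod (fun i _ => by positivity) fun i _ => ?_
        apply pow_le_pow_left₀ (by positivity)
        unfold sz
        have : |(k i : ℝ)| ≤ ∑ j, |(k j : ℝ)| :=
          Finset.single_le_sum (f := fun j => |(k j : ℝ)|) (fun _ _ => abs_nonneg _)
            (Finset.mem_univ i)
        linarith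
    _ = sz k ^ (2 * Fintype.card ι) := by
        rw [Finset.prod_const, Finset.card_univ, pow_mul]
    _ ≤ sz k ^ N := pow_le_pow_right₀ (one_le_sz k) hN

theorem chz_add (k l : ι → ℤ) (θ : ι → ℝ) : chz (k + l) θ = chz k θ * chz l θ := by
  unfold chz
  rw [← Complex.exp_add]
  congr 1
  rw [← mul_add, ← Finset.sum_add_distrib]
  congr 1
  refine Finset.sum_congr rfl fun i _ => ?_
  rw [Pi.add_apply]
  push_cast
  ring

theorem norm_chz (k : ι → ℤ) (θ : ι → ℝ) : ‖chz k θ‖ = 1 := by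
  unfold chz
  have : 2 * (Real.pi : ℂ) * Complex.I * ∑ i, (k i : ℂ) * (θ i : ℂ) =
      ((2 * Real.pi * ∑ i, (k i : ℝ) * θ i : ℝ) : ℂ) * Complex.I := by
    push_cast
    ring
  rw [this, Complex.norm_exp_ofReal_mul_I]

theorem contDiff_chz (k : ι → ℤ) : ContDiff ℝ ∞ (chz k : (ι → ℝ) → ℂ) := by
  unfold chz
  apply ContDiff.cexp
  apply contDiff_const.mul
  apply ContDiff.sum
  intro i _
  apply contDiff_const.mul
  exact Complex.ofRealCLM.contDiff.comp (contDiff_apply ℝ ℝ i)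

theorem IsTest.smul {F : (ι → ℝ) → ℂ} (hF : IsTest F) {Θ : (ι → ℝ) → ℂ} (hΘ : ContDiff ℝ ∞ Θ) :
    IsTest (fun θ => Θ θ * F θ) :=
  ⟨hΘ.mul hF.1, hF.2.mul_left⟩

theorem IsTest.integrable {F : (ι → ℝ) → ℂ} (hF : IsTest F) : Integrable F :=
  hF.1.continuous.integrable_of_hasCompactSupport hF.2

theorem IsTest.chz {F : (ι → ℝ) → ℂ} (hF : IsTest F) (k : ι → ℤ) :
    IsTest (fun θ => chz k θ * F θ) := hF.smul (contDiff_chz k)

theorem IsTest.add {F F' : (ι → ℝ) → ℂ} (hF : IsTest F) (hF' : IsTest F') :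
    IsTest (fun θ => F θ + F' θ) :=
  ⟨hF.1.add hF'.1, hF.2.add hF'.2⟩

theorem IsTest.zero : IsTest (fun _ : ι → ℝ => (0 : ℂ)) :=
  ⟨contDiff_const, HasCompactSupport.zero⟩

theorem FT_chz_mul (F : (ι → ℝ) → ℂ) (k l : ι → ℤ) :
    FT (fun θ => chz l θ * F θ) k = FT F (k - l) := by
  unfold FT
  congr 1
  funext θ
  rw [← mul_assoc, ← chz_add, neg_sub, sub_eq_neg_add]

theorem FT_add {F F' : (ι → ℝ) → ℂ} (hF : IsTest F) (hF' : IsTest F') (k : ι → ℤ) :
    FT (fun θ => F θ + F' θ) k = FT F k + FT F' k := by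
  unfold FT
  rw [← integral_add (hF.chz _).integrable (hF'.chz _).integrable]
  congr 1
  funext θ
  ring

theorem FT_const_mul (c : ℂ) (F : (ι → ℝ) → ℂ) (k : ι → ℤ) :
    FT (fun θ => c * F θ) k = c * FT F k := by
  unfold FT
  rw [← integral_const_mul]
  congr 1
  funext θ
  ring

/-- The dot product as a continuous bilinear map. -/
noncomputable def dotL (ι : Type*) [Fintype ι] : (ι → ℝ) →L[ℝ] (ι → ℝ) →L[ℝ] ℝ :=
  ∑ i, (ContinuousLinearMap.proj i : (ι → ℝ) →L[ℝ] ℝ).smulRight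
    (ContinuousLinearMap.proj i : (ι → ℝ) →L[ℝ] ℝ)

theorem dotL_apply (v w : ι → ℝ) : dotL ι v w = ∑ i, v i * w i := by
  unfold dotL
  simp

theorem FT_eq_fourier (F : (ι → ℝ) → ℂ) (k : ι → ℤ) :
    FT F k = VectorFourier.fourierIntegral Real.fourierChar volume (dotL ι).toLinearMap₁₂ F
      (fun i => (k i : ℝ)) := by
  unfold FT VectorFourier.fourierIntegral
  congr 1
  funext θ
  rw [Circle.smul_def, Real.fourierChar_apply, smul_eq_mul]
  congr 1
  unfold chz
  congr 1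
  have h1 : (dotL ι).toLinearMap₁₂ θ (fun i => (k i : ℝ)) = ∑ i, θ i * (k i : ℝ) :=
    dotL_apply _ _
  rw [h1]
  push_cast
  simp only [Pi.neg_apply, Int.cast_neg]
  have h2 : ∑ i, -(k i : ℂ) * (θ i : ℂ) = -∑ i, (θ i : ℂ) * (k i : ℂ) := by
    rw [← Finset.sum_neg_distrib]
    refine Finset.sum_congr rfl fun i _ => by ring
  rw [h2]
  ring

theorem IsTest.integrable_iter {F : (ι → ℝ) → ℂ} (hF : IsTest F) (n : ℕ) :
    Integrable fun θ => ‖iteratedFDeriv ℝ n F θ‖ := by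
  have h1 : Continuous (iteratedFDeriv ℝ n F) :=
    hF.1.continuous_iteratedFDeriv (by exact_mod_cast le_top)
  exact (h1.integrable_of_hasCompactSupport (hF.2.iteratedFDeriv n)).norm

/-- Decay of the Fourier transform, uniformly in `F`. -/
theorem FT_decay (ι : Type*) [Fintype ι] (N : ℕ) : ∃ C : ℝ, ∀ F : (ι → ℝ) → ℂ, IsTest F →
    ∀ k : ι → ℤ, ‖FT F k‖ * sz k ^ N ≤
      C * ∑ n ∈ Finset.range (N + 1), ∫ θ, ‖iteratedFDeriv ℝ n F θ‖ := by
  classical
  refine ⟨((Fintype.card ι : ℝ) + 1) ^ N * 2 ^ N, fun F hF k => ?_⟩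
  set S := ∑ n ∈ Finset.range (N + 1), ∫ θ, ‖iteratedFDeriv ℝ n F θ‖ with hS
  have hS0 : ∀ n ∈ Finset.range (N + 1), 0 ≤ ∫ θ, ‖iteratedFDeriv ℝ n F θ‖ := fun n _ =>
    integral_nonneg fun θ => norm_nonneg _
  -- bounds in the coordinate directions
  have hkey : ∀ i : ι, |(k i : ℝ)| ^ N * ‖FT F k‖ ≤ 2 ^ N * S := by
    intro i
    have h1 := VectorFourier.pow_mul_norm_iteratedFDeriv_fourierIntegral_le (μ := volume)
      (dotL ι) (f := F) (K := 0) (N := (N : ℕ∞)) (hF.1.of_le (by exact_mod_cast le_top))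
      (fun k' n hk' _ => by
        have hk0 : k' = 0 := by simpa using hk'
        subst hk0
        simpa using hF.integrable_iter n) (k := 0) (n := N) le_rfl le_rfl (Pi.single i 1)
      (fun i => (k i : ℝ))
    rw [dotL_apply] at h1
    have h2 : ∑ j, (Pi.single i (1 : ℝ) : ι → ℝ) j * (k j : ℝ) = (k i : ℝ) := by
      rw [Finset.sum_eq_single i]
      · simp
      · intro j _ hj
        simp [hj]
      · simp
    rw [h2, norm_iteratedFDeriv_zero, ← FT_eq_fourier] at h1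
    have h3 : ‖(Pi.single i (1 : ℝ) : ι → ℝ)‖ = 1 := by
      rw [Pi.norm_single]; simp
    rw [h3] at h1
    refine h1.trans (le_of_eq ?_)
    simp only [one_pow, pow_zero, mul_one, one_mul, Nat.cast_zero, mul_zero, zero_add,
      Finset.range_one, Finset.singleton_product, Finset.sum_map, Function.Embedding.coeFn_mk]
    rfl
  have hkey0 : ‖FT F k‖ ≤ 2 ^ N * S := by
    have h1 : ‖FT F k‖ ≤ ∫ θ, ‖iteratedFDeriv ℝ 0 F θ‖ := by
      unfold FT
      refine (norm_integral_le_integral_norm _).trans (le_of_eq ?_)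
      congr 1
      funext θ
      rw [norm_mul, norm_chz, one_mul, norm_iteratedFDeriv_zero]
    have h2 : ∫ θ, ‖iteratedFDeriv ℝ 0 F θ‖ ≤ S :=
      Finset.single_le_sum hS0 (Finset.mem_range.2 (Nat.succ_pos N))
    have h3 : 0 ≤ S := Finset.sum_nonneg hS0
    have h4 : (1 : ℝ) ≤ 2 ^ N := one_le_pow₀ (by norm_num)
    nlinarith
  have hS' : 0 ≤ 2 ^ N * S := mul_nonneg (by positivity) (Finset.sum_nonneg hS0)
  have hc : (0 : ℝ) ≤ (Fintype.card ι : ℝ) := Nat.cast_nonneg _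
  by_cases hbig : ∃ i, 1 < |(k i : ℝ)|
  · obtain ⟨i0, hi0⟩ := hbig
    obtain ⟨i, _, hi⟩ := Finset.exists_max_image Finset.univ (fun i => |(k i : ℝ)|)
      ⟨i0, Finset.mem_univ _⟩
    have h1 : 1 < |(k i : ℝ)| := hi0.trans_le (hi i0 (Finset.mem_univ _))
    have h2 : sz k ≤ ((Fintype.card ι : ℝ) + 1) * |(k i : ℝ)| := by
      unfold sz
      have : ∑ j, |(k j : ℝ)| ≤ (Fintype.card ι : ℝ) * |(k i : ℝ)| := by
        calc ∑ j, |(k j : ℝ)| ≤ ∑ _j : ι, |(k i : ℝ)| := Finset.sum_le_sum fun j hj => hi j hj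
          _ = _ := by rw [Finset.sum_const, Finset.card_univ, nsmul_eq_mul]
      nlinarith
    calc ‖FT F k‖ * sz k ^ N
        ≤ ‖FT F k‖ * (((Fintype.card ι : ℝ) + 1) * |(k i : ℝ)|) ^ N :=
          mul_le_mul_of_nonneg_left (pow_le_pow_left₀ (sz_pos k).le h2 N) (norm_nonneg _)
      _ = ((Fintype.card ι : ℝ) + 1) ^ N * (|(k i : ℝ)| ^ N * ‖FT F k‖) := by
          rw [mul_pow]; ring
      _ ≤ ((Fintype.card ι : ℝ) + 1) ^ N * (2 ^ N * S) :=
          mul_le_mul_of_nonneg_left (hkey i) (by positivity)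
      _ = _ := by ring
  · push Not at hbig
    have h2 : sz k ≤ (Fintype.card ι : ℝ) + 1 := by
      unfold sz
      have : ∑ j, |(k j : ℝ)| ≤ (Fintype.card ι : ℝ) := by
        calc ∑ j, |(k j : ℝ)| ≤ ∑ _j : ι, (1 : ℝ) := Finset.sum_le_sum fun j _ => hbig j
          _ = _ := by rw [Finset.sum_const, Finset.card_univ, nsmul_eq_mul, mul_one]
      linarith
    calc ‖FT F k‖ * sz k ^ N
        ≤ (2 ^ N * S) * ((Fintype.card ι : ℝ) + 1) ^ N :=
          mul_le_mul hkey0 (pow_le_pow_left₀ (sz_pos k).le h2 N)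
            (pow_nonneg (sz_pos k).le _) hS'
      _ = _ := by ring

/-- Decay of the Fourier transform of a single test function. -/
theorem FT_decay' {F : (ι → ℝ) → ℂ} (hF : IsTest F) (N : ℕ) :
    ∃ C : ℝ, ∀ k : ι → ℤ, ‖FT F k‖ * sz k ^ N ≤ C := by
  obtain ⟨C, hC⟩ := FT_decay ι N
  exact ⟨_, hC F hF⟩

end

variable {d : ℕ}

theorem Temp.polyGr {t : ℝ} {g : (Fin d → ℤ) → ℂ} (hg : Temp t g) : PolyGr g := by
  obtain ⟨C, q, h⟩ := hg
  refine ⟨|C| + 1, q, fun l => ?_⟩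
  obtain ⟨h1, h2⟩ := h l
  have h3 : ‖g l‖ ^ 2 ≤ ∑' k : Fin d →₀ ℕ, ‖g (toZ k + l)‖ ^ 2 / wt t k := by
    have h4 := h1.le_tsum (0 : Fin d →₀ ℕ) fun k _ => div_nonneg (sq_nonneg _) (wt_pos t k).le
    have h5 : toZ (0 : Fin d →₀ ℕ) + l = l := by
      funext j; simp [toZ]
    have h6 : wt t (0 : Fin d →₀ ℕ) = 1 := by
      unfold wt; simp
    rwa [h5, h6, div_one] at h4
  have h4 : 1 ≤ sz l ^ q := one_le_pow₀ (one_le_sz l)
  have h5 : 1 ≤ (|C| + 1) * sz l ^ q := by nlinarith [abs_nonneg C]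
  have h6 : ‖g l‖ ^ 2 ≤ (|C| + 1) * sz l ^ q := by
    refine (h3.trans h2).trans ?_
    apply mul_le_mul_of_nonneg_right _ (by linarith)
    linarith [le_abs_self C]
  have h7 : ‖g l‖ ^ 2 ≤ ((|C| + 1) * sz l ^ q) ^ 2 := by nlinarith
  exact le_of_sq_le_sq h7 (by linarith)

/-- The main summability statement. -/
theorem summable_pow_FT {F : (Fin d → ℝ) → ℂ} (hF : IsTest F) (q : ℕ) :
    Summable fun k => sz k ^ q * ‖FT F k‖ := by
  obtain ⟨C, hC⟩ := FT_decay' hF (q + 2 * Fintype.card (Fin d))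
  refine Summable.of_nonneg_of_le
    (fun k => mul_nonneg (pow_nonneg (sz_pos k).le _) (norm_nonneg _)) (fun k => ?_)
    ((summable_sz (ι := Fin d) le_rfl).mul_left C)
  have h1 := hC k
  have h2 : 0 < sz k ^ (2 * Fintype.card (Fin d)) := pow_pos (sz_pos k) _
  rw [← div_eq_mul_inv, le_div_iff₀ h2]
  calc sz k ^ q * ‖FT F k‖ * sz k ^ (2 * Fintype.card (Fin d))
      = ‖FT F k‖ * sz k ^ (q + 2 * Fintype.card (Fin d)) := by rw [pow_add]; ring
    _ ≤ C := h1

theorem summable_Gf {g : (Fin d → ℤ) → ℂ} (hg : PolyGr g) {F : (Fin d → ℝ) → ℂ} (hF : IsTest F) :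
    Summable fun k => ‖g k * FT F k‖ := by
  obtain ⟨C, q, h⟩ := hg
  refine Summable.of_nonneg_of_le (fun k => norm_nonneg _) (fun k => ?_)
    ((summable_pow_FT hF q).mul_left C)
  rw [norm_mul, ← mul_assoc]
  exact mul_le_mul_of_nonneg_right (h k) (norm_nonneg _)

theorem Gf_add {g : (Fin d → ℤ) → ℂ} (hg : PolyGr g) {F F' : (Fin d → ℝ) → ℂ} (hF : IsTest F)
    (hF' : IsTest F') : Gf g (fun θ => F θ + F' θ) = Gf g F + Gf g F' := by
  unfold Gf
  rw [← (summable_Gf hg hF).of_norm.tsum_add (summable_Gf hg hF').of_norm]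
  congr 1
  funext k
  rw [FT_add hF hF', mul_add]

theorem Gf_const_mul (g : (Fin d → ℤ) → ℂ) (c : ℂ) (F : (Fin d → ℝ) → ℂ) :
    Gf g (fun θ => c * F θ) = c * Gf g F := by
  unfold Gf
  rw [← tsum_mul_left]
  congr 1
  funext k
  rw [FT_const_mul]
  ring

theorem Gf_chz_mul (g : (Fin d → ℤ) → ℂ) (F : (Fin d → ℝ) → ℂ) (l : Fin d → ℤ) :
    Gf g (fun θ => chz l θ * F θ) = ∑' k, g (k + l) * FT F k := by
  unfold Gf
  rw [← (Equiv.addRight l).tsum_eq]
  congr 1
  funext k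
  rw [FT_chz_mul, Equiv.coe_addRight, add_sub_cancel_right]

theorem Gf_zero (g : (Fin d → ℤ) → ℂ) : Gf g (fun _ => 0) = 0 := by
  unfold Gf FT
  simp

theorem isTest_sum {κ : Type*} (s : Finset κ) (F : κ → (Fin d → ℝ) → ℂ)
    (hF : ∀ i ∈ s, IsTest (F i)) : IsTest (fun θ => ∑ i ∈ s, F i θ) := by
  classical
  induction s using Finset.induction_on with
  | empty => simpa using IsTest.zero
  | insert a s ha ih =>
    simp_rw [Finset.sum_insert ha]
    exact (hF a (Finset.mem_insert_self a s)).add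
      (ih fun i hi => hF i (Finset.mem_insert_of_mem hi))

theorem Gf_sum {κ : Type*} {g : (Fin d → ℤ) → ℂ} (hg : PolyGr g) (s : Finset κ)
    (F : κ → (Fin d → ℝ) → ℂ) (hF : ∀ i ∈ s, IsTest (F i)) :
    Gf g (fun θ => ∑ i ∈ s, F i θ) = ∑ i ∈ s, Gf g (F i) := by
  classical
  induction s using Finset.induction_on with
  | empty => simpa using Gf_zero g
  | insert a s ha ih =>
    simp_rw [Finset.sum_insert ha]
    rw [Gf_add hg (hF a (Finset.mem_insert_self a s))
      (isTest_sum s F fun i hi => hF i (Finset.mem_insert_of_mem hi)),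
      ih fun i hi => hF i (Finset.mem_insert_of_mem hi)]

/-- `Gf g` is of finite order. -/
theorem Gf_bound {g : (Fin d → ℤ) → ℂ} (hg : PolyGr g) :
    ∃ (N : ℕ) (C : ℝ), ∀ F : (Fin d → ℝ) → ℂ, IsTest F →
      ‖Gf g F‖ ≤ C * ∑ n ∈ Finset.range (N + 1), ∫ θ, ‖iteratedFDeriv ℝ n F θ‖ := by
  have hg' := hg
  obtain ⟨C, q, h⟩ := hg
  obtain ⟨C1, hC1⟩ := FT_decay (Fin d) (q + 2 * Fintype.card (Fin d))
  refine ⟨q + 2 * Fintype.card (Fin d),
    |C| * C1 * ∑' k : Fin d → ℤ, (sz k ^ (2 * Fintype.card (Fin d)))⁻¹, fun F hF => ?_⟩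
  set S := ∑ n ∈ Finset.range (q + 2 * Fintype.card (Fin d) + 1),
    ∫ θ, ‖iteratedFDeriv ℝ n F θ‖ with hS
  unfold Gf
  refine (norm_tsum_le_tsum_norm (summable_Gf hg' hF)).trans ?_
  have h1 : |C| * C1 * (∑' k : Fin d → ℤ, (sz k ^ (2 * Fintype.card (Fin d)))⁻¹) * S =
      ∑' k : Fin d → ℤ, |C| * C1 * S * (sz k ^ (2 * Fintype.card (Fin d)))⁻¹ := by
    rw [tsum_mul_left]; ring
  rw [h1]
  refine (summable_Gf hg' hF).tsum_le_tsum (fun k => ?_)
    ((summable_sz (ι := Fin d) le_rfl).mul_left _)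
  have h2 : 0 < sz k ^ (2 * Fintype.card (Fin d)) := pow_pos (sz_pos k) _
  rw [← div_eq_mul_inv, le_div_iff₀ h2, norm_mul]
  have h3 : ‖g k‖ ≤ |C| * sz k ^ q :=
    (h k).trans (mul_le_mul_of_nonneg_right (le_abs_self C) (pow_nonneg (sz_pos k).le _))
  calc ‖g k‖ * ‖FT F k‖ * sz k ^ (2 * Fintype.card (Fin d))
      ≤ |C| * sz k ^ q * ‖FT F k‖ * sz k ^ (2 * Fintype.card (Fin d)) := by
        gcongr
    _ = |C| * (‖FT F k‖ * sz k ^ (q + 2 * Fintype.card (Fin d))) := by rw [pow_add]; ring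
    _ ≤ |C| * (C1 * S) := mul_le_mul_of_nonneg_left (hC1 F hF k) (abs_nonneg C)
    _ = |C| * C1 * S := by ring

theorem PolyGr.nonneg {g : (Fin d → ℤ) → ℂ} (hg : PolyGr g) :
    ∃ (C : ℝ) (q : ℕ), 0 ≤ C ∧ ∀ l, ‖g l‖ ≤ C * sz l ^ q := by
  obtain ⟨C, q, h⟩ := hg
  exact ⟨|C|, q, abs_nonneg C, fun l =>
    (h l).trans (mul_le_mul_of_nonneg_right (le_abs_self C) (pow_nonneg (sz_pos l).le _))⟩

/-- Summability and bound for the translates. -/
theorem summable_translate {C : ℝ} {q : ℕ} (hC : 0 ≤ C) {g : (Fin d → ℤ) → ℂ}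
    (h : ∀ l, ‖g l‖ ≤ C * sz l ^ q) {F : (Fin d → ℝ) → ℂ} (hF : IsTest F) (l : Fin d → ℤ) :
    (Summable fun k => ‖g (k + l) * FT F k‖) ∧
      ∑' k, ‖g (k + l) * FT F k‖ ≤ (C * ∑' k, sz k ^ q * ‖FT F k‖) * sz l ^ q := by
  have hs := summable_pow_FT hF q
  have hle : ∀ k, ‖g (k + l) * FT F k‖ ≤ C * sz l ^ q * (sz k ^ q * ‖FT F k‖) := by
    intro k
    rw [norm_mul]
    have h1 : ‖g (k + l)‖ ≤ C * (sz k * sz l) ^ q :=
      (h _).trans (mul_le_mul_of_nonneg_left
        (pow_le_pow_left₀ (sz_pos _).le (sz_add_le k l) q) hC)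
    calc ‖g (k + l)‖ * ‖FT F k‖ ≤ C * (sz k * sz l) ^ q * ‖FT F k‖ :=
          mul_le_mul_of_nonneg_right h1 (norm_nonneg _)
      _ = C * sz l ^ q * (sz k ^ q * ‖FT F k‖) := by rw [mul_pow]; ring
  have hsum : Summable fun k => ‖g (k + l) * FT F k‖ :=
    Summable.of_nonneg_of_le (fun k => norm_nonneg _) hle (hs.mul_left _)
  refine ⟨hsum, ?_⟩
  calc ∑' k, ‖g (k + l) * FT F k‖ ≤ ∑' k, C * sz l ^ q * (sz k ^ q * ‖FT F k‖) :=
        hsum.tsum_le_tsum hle (hs.mul_left _)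
    _ = (C * ∑' k, sz k ^ q * ‖FT F k‖) * sz l ^ q := by rw [tsum_mul_left]; ring

/-- `l ↦ Gf g (z^l F)` has polynomial growth. -/
theorem polyGr_Gf {g : (Fin d → ℤ) → ℂ} (hg : PolyGr g) {F : (Fin d → ℝ) → ℂ} (hF : IsTest F) :
    PolyGr (fun l => Gf g (fun θ => chz l θ * F θ)) := by
  obtain ⟨C, q, hC, h⟩ := hg.nonneg
  refine ⟨C * ∑' k, sz k ^ q * ‖FT F k‖, q, fun l => ?_⟩
  show ‖Gf g (fun θ => chz l θ * F θ)‖ ≤ _
  rw [Gf_chz_mul]
  exact (norm_tsum_le_tsum_norm (summable_translate hC h hF l).1).trans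
    (summable_translate hC h hF l).2

theorem Gf_tsum_countable {κ : Type*} [Countable κ] {g : (Fin d → ℤ) → ℂ} (hg : PolyGr g)
    {F : (Fin d → ℝ) → ℂ} (hF : IsTest F) (e : κ → (Fin d → ℤ)) (a : κ → ℂ)
    (ha : ∀ N : ℕ, Summable fun i => ‖a i‖ * sz (e i) ^ N) {H : (Fin d → ℝ) → ℂ}
    (hH : ∀ θ, H θ = (∑' i, a i * chz (e i) θ) * F θ) :
    Gf g H = ∑' i, a i * Gf g (fun θ => chz (e i) θ * F θ) := by
  have ha0 : Summable fun i => ‖a i‖ := by simpa using ha 0
  have hFT : ∀ k, FT H k = ∑' i, a i * FT (fun θ => chz (e i) θ * F θ) k := by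
    intro k
    have h1 : ∀ i, Integrable fun θ => chz (-k) θ * (a i * (chz (e i) θ * F θ)) := by
      intro i
      have h2 : IsTest fun θ => a i * (chz (e i) θ * F θ) :=
        (hF.chz (e i)).smul (Θ := fun _ => a i) contDiff_const
      exact (h2.chz (-k)).integrable
    have h2 : Summable fun i => ∫ θ, ‖chz (-k) θ * (a i * (chz (e i) θ * F θ))‖ := by
      have : ∀ i, ∫ θ, ‖chz (-k) θ * (a i * (chz (e i) θ * F θ))‖ = ‖a i‖ * ∫ θ, ‖F θ‖ := by
        intro i
        rw [← integral_const_mul]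
        congr 1
        funext θ
        rw [norm_mul, norm_chz, norm_mul, norm_mul, norm_chz, one_mul, one_mul]
      simp_rw [this]
      exact ha0.mul_right _
    have h3 := integral_tsum_of_summable_integral_norm h1 h2
    have h4 : FT H k = ∫ θ, ∑' i, chz (-k) θ * (a i * (chz (e i) θ * F θ)) := by
      unfold FT
      congr 1
      funext θ
      rw [hH, tsum_mul_left, ← tsum_mul_right]
      congr 1
      congr 1
      funext i
      ring
    rw [h4, ← h3]
    congr 1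
    funext i
    unfold FT
    rw [← integral_const_mul]
    congr 1
    funext θ
    ring
  obtain ⟨C, q, hC, h⟩ := hg.nonneg
  have hsum : Summable fun p : κ × (Fin d → ℤ) =>
      g p.2 * (a p.1 * FT (fun θ => chz (e p.1) θ * F θ) p.2) := by
    apply Summable.of_norm
    rw [summable_prod_of_nonneg fun p => norm_nonneg _]
    have h1 : ∀ i, (fun k => ‖g k * (a i * FT (fun θ => chz (e i) θ * F θ) k)‖) ∘
        (Equiv.addRight (e i)) = fun k => ‖a i‖ * ‖g (k + e i) * FT F k‖ := by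
      intro i
      funext k
      simp only [Function.comp, Equiv.coe_addRight, FT_chz_mul, add_sub_cancel_right, norm_mul]
      ring
    constructor
    · intro i
      rw [← (Equiv.addRight (e i)).summable_iff, h1]
      exact (summable_translate hC h hF (e i)).1.mul_left _
    · refine Summable.of_nonneg_of_le (fun i => tsum_nonneg fun k => norm_nonneg _) (fun i => ?_)
        ((ha q).mul_left (C * ∑' k, sz k ^ q * ‖FT F k‖))
      have h2 : ∑' k, ‖g k * (a i * FT (fun θ => chz (e i) θ * F θ) k)‖ =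
          ‖a i‖ * ∑' k, ‖g (k + e i) * FT F k‖ := by
        rw [← tsum_mul_left, ← (Equiv.addRight (e i)).tsum_eq]
        congr 1
        exact h1 i
      rw [h2]
      calc ‖a i‖ * ∑' k, ‖g (k + e i) * FT F k‖
          ≤ ‖a i‖ * ((C * ∑' k, sz k ^ q * ‖FT F k‖) * sz (e i) ^ q) :=
            mul_le_mul_of_nonneg_left (summable_translate hC h hF (e i)).2 (norm_nonneg _)
        _ = _ := by ring
  have h5 : ∑' i, a i * Gf g (fun θ => chz (e i) θ * F θ) =
      ∑' i, ∑' k, g k * (a i * FT (fun θ => chz (e i) θ * F θ) k) := by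
    congr 1
    funext i
    unfold Gf
    rw [← tsum_mul_left]
    congr 1
    funext k
    ring
  have h6 := Summable.tsum_comm
    (f := fun i k => g k * (a i * FT (fun θ => chz (e i) θ * F θ) k)) hsum
  rw [h5, ← h6]
  unfold Gf
  congr 1
  funext k
  rw [hFT, tsum_mul_left]

/-- Interchange with absolutely convergent trigonometric series. -/
theorem Gf_tsum {κ : Type*} {g : (Fin d → ℤ) → ℂ} (hg : PolyGr g) {F : (Fin d → ℝ) → ℂ}
    (hF : IsTest F) (e : κ → (Fin d → ℤ)) (a : κ → ℂ)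
    (ha : ∀ N : ℕ, Summable fun i => ‖a i‖ * sz (e i) ^ N) {H : (Fin d → ℝ) → ℂ}
    (hH : ∀ θ, H θ = (∑' i, a i * chz (e i) θ) * F θ) :
    Gf g H = ∑' i, a i * Gf g (fun θ => chz (e i) θ * F θ) := by
  have ha0 : Summable fun i => ‖a i‖ := by simpa using ha 0
  have hcount : (Function.support a).Countable := by
    have := ha0.countable_support
    have h2 : Function.support (fun i => ‖a i‖) = Function.support a := by
      ext i; simp
    rwa [h2] at this
  have : Countable (Function.support a) := hcount.to_subtype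
  have h1 : ∀ f : κ → ℂ, ∑' i, a i * f i = ∑' i : Function.support a, a i * f i := by
    intro f
    symm
    apply tsum_subtype_eq_of_support_subset (f := fun i => a i * f i)
    intro i hi
    rw [Function.mem_support] at hi ⊢
    exact left_ne_zero_of_mul hi
  rw [h1]
  apply Gf_tsum_countable hg hF (fun i : Function.support a => e i)
    (fun i : Function.support a => a i)
  · intro N
    exact (ha N).subtype (Function.support a)
  · intro θ
    rw [hH, h1]

/-- Weighted Cauchy-Schwarz for series. -/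
theorem sq_tsum_le {κ : Type*} {a b : κ → ℝ} (ha : ∀ i, 0 ≤ a i) (hsa : Summable a)
    (hsb : Summable fun i => a i * b i ^ 2) :
    (Summable fun i => a i * b i) ∧
      (∑' i, a i * b i) ^ 2 ≤ (∑' i, a i) * ∑' i, a i * b i ^ 2 := by
  have h1 : Summable fun i => a i * b i := by
    refine Summable.of_norm_bounded (g := fun i => a i + a i * b i ^ 2) (hsa.add hsb) fun i => ?_
    rw [Real.norm_eq_abs, abs_mul, abs_of_nonneg (ha i)]
    have : |b i| ≤ 1 + b i ^ 2 := by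
      rw [← sq_abs]; nlinarith [sq_nonneg (|b i| - 1), abs_nonneg (b i)]
    nlinarith [mul_le_mul_of_nonneg_left this (ha i)]
  refine ⟨h1, ?_⟩
  set A := ∑' i, a i with hA
  set B := ∑' i, a i * b i with hB
  set D := ∑' i, a i * b i ^ 2 with hD
  have hA0 : 0 ≤ A := tsum_nonneg ha
  have hD0 : 0 ≤ D := tsum_nonneg fun i => mul_nonneg (ha i) (sq_nonneg _)
  have h2 : ∀ m : ℝ, 0 ≤ D - 2 * m * B + m ^ 2 * A := by
    intro m
    have h3 : D - 2 * m * B + m ^ 2 * A = ∑' i, a i * (b i - m) ^ 2 := by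
      have h4 : ∀ i, a i * (b i - m) ^ 2 = a i * b i ^ 2 - 2 * m * (a i * b i) + m ^ 2 * a i := by
        intro i; ring
      simp_rw [h4]
      rw [(hsb.sub (h1.mul_left (2 * m))).tsum_add (hsa.mul_left (m ^ 2)),
        hsb.tsum_sub (h1.mul_left (2 * m)), tsum_mul_left, tsum_mul_left]
    rw [h3]
    exact tsum_nonneg fun i => mul_nonneg (ha i) (sq_nonneg _)
  by_cases hA1 : A = 0
  · have h5 := h2 ((D + 1) / (2 * B))
    by_cases hB0 : B = 0
    · rw [hB0, hA1]; simp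
    · exfalso
      rw [hA1] at h5
      have h6 : 2 * ((D + 1) / (2 * B)) * B = D + 1 := by field_simp
      rw [h6] at h5
      linarith
  · have hA2 : 0 < A := lt_of_le_of_ne hA0 (Ne.symm hA1)
    have h5 := h2 (B / A)
    have h6 : D - 2 * (B / A) * B + (B / A) ^ 2 * A = D - B ^ 2 / A := by
      field_simp
      ring
    rw [h6] at h5
    have h7 : B ^ 2 / A ≤ D := by linarith
    rw [div_le_iff₀ hA2] at h7
    linarith

/-- Local boundedness on `D_t`. -/
theorem local_bound {t : ℝ} {g : (Fin d → ℤ) → ℂ} (hg : Temp t g) {F : (Fin d → ℝ) → ℂ}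
    (hF : IsTest F) :
    Summable fun k : Fin d →₀ ℕ => ‖Gf g (fun θ => chz (toZ k) θ * F θ)‖ ^ 2 / wt t k := by
  have hpg := hg.polyGr
  obtain ⟨C, q, h⟩ := hg
  -- the double series
  have hdouble : Summable fun p : (Fin d → ℤ) × (Fin d →₀ ℕ) =>
      ‖FT F p.1‖ * (‖g (toZ p.2 + p.1)‖ ^ 2 / wt t p.2) := by
    rw [summable_prod_of_nonneg fun p =>
      mul_nonneg (norm_nonneg _) (div_nonneg (sq_nonneg _) (wt_pos t p.2).le)]
    constructor
    · intro l
      have h1 := (h l).1.mul_left ‖FT F l‖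
      exact h1
    · refine Summable.of_nonneg_of_le (fun l => tsum_nonneg fun k =>
        mul_nonneg (norm_nonneg _) (div_nonneg (sq_nonneg _) (wt_pos t k).le)) (fun l => ?_)
        ((summable_pow_FT hF q).mul_left C)
      show ∑' k : Fin d →₀ ℕ, ‖FT F l‖ * (‖g (toZ k + l)‖ ^ 2 / wt t k) ≤ _
      rw [tsum_mul_left]
      calc ‖FT F l‖ * ∑' k : Fin d →₀ ℕ, ‖g (toZ k + l)‖ ^ 2 / wt t k
          ≤ ‖FT F l‖ * (C * sz l ^ q) := mul_le_mul_of_nonneg_left (h l).2 (norm_nonneg _)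
        _ = C * (sz l ^ q * ‖FT F l‖) := by ring
  have hswap : Summable fun p : (Fin d →₀ ℕ) × (Fin d → ℤ) =>
      ‖FT F p.2‖ * (‖g (toZ p.1 + p.2)‖ ^ 2 / wt t p.1) := by
    rw [← (Equiv.prodComm _ _).summable_iff]
    exact hdouble
  have hFTs : Summable fun l => ‖FT F l‖ := by simpa using summable_pow_FT hF 0
  have hmain := (summable_prod_of_nonneg (fun p =>
      mul_nonneg (norm_nonneg _) (div_nonneg (sq_nonneg _) (wt_pos t p.1).le))).1 hswap
  refine Summable.of_nonneg_of_le (fun k => div_nonneg (sq_nonneg _) (wt_pos t k).le)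
    (fun k => ?_) (hmain.2.mul_left (∑' l, ‖FT F l‖))
  have hk : Summable fun l => ‖FT F l‖ * ‖g (toZ k + l)‖ ^ 2 := by
    have h1 := (hmain.1 k).mul_right (wt t k)
    refine h1.congr fun l => ?_
    have := (wt_pos t k).ne'
    field_simp
  obtain ⟨h1, h2⟩ := sq_tsum_le (fun l => norm_nonneg (FT F l)) hFTs hk
  have h3 : ‖Gf g (fun θ => chz (toZ k) θ * F θ)‖ ≤ ∑' l, ‖FT F l‖ * ‖g (toZ k + l)‖ := by
    rw [Gf_chz_mul]
    have h4 : ∀ l, ‖g (l + toZ k) * FT F l‖ = ‖FT F l‖ * ‖g (toZ k + l)‖ := by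
      intro l; rw [norm_mul, add_comm l, mul_comm]
    have h5 : Summable fun l => ‖g (l + toZ k) * FT F l‖ := by
      simp_rw [h4]; exact h1
    refine (norm_tsum_le_tsum_norm h5).trans (le_of_eq ?_)
    congr 1
    funext l
    exact h4 l
  have h4 : ∑' l, ‖FT F l‖ * (‖g (toZ k + l)‖ ^ 2 / wt t k) =
      (∑' l, ‖FT F l‖ * ‖g (toZ k + l)‖ ^ 2) / wt t k := by
    rw [← tsum_div_const]
    congr 1
    funext l
    ring
  show _ ≤ (∑' l, ‖FT F l‖) * ∑' l, ‖FT F l‖ * (‖g (toZ k + l)‖ ^ 2 / wt t k)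
  rw [h4, ← mul_div_assoc]
  apply div_le_div_of_nonneg_right _ (wt_pos t k).le
  refine le_trans ?_ h2
  exact pow_le_pow_left₀ (norm_nonneg _) h3 2

end Pool.MP4ac1fb.Full
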