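import Pool.Agent.H.MP_4ac1fb_an.Full.Defs

/-!
The zero set of a nonzero real-analytic function is a countable union of pieces of analytic graphs
of codimension one.
-/

namespace Pool.MP4ac1fb.Full

open Filter Topology Set

/-- iterated partial derivatives -/
noncomputable def ipd {m : ℕ} (g : (Fin (m + 1) → ℝ) → ℝ) (a : Σ n : ℕ, (Fin n → Fin (m + 1)))
    (x : Fin (m + 1) → ℝ) : ℝ :=
  iteratedFDeriv ℝ a.1 g x (fun i => Pi.single (a.2 i) 1)

theorem ipd_analytic {m : ℕ} {U : Set (Fin (m + 1) → ℝ)} {g : (Fin (m + 1) → ℝ) → ℝ}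
    (hg : AnalyticOnNhd ℝ g U) (a : Σ n : ℕ, (Fin n → Fin (m + 1))) :
    AnalyticOnNhd ℝ (ipd g a) U := by
  intro x hx
  have h1 := hg.iteratedFDeriv a.1 x hx
  exact ((ContinuousMultilinearMap.apply ℝ (fun _ : Fin a.1 => (Fin (m + 1) → ℝ)) ℝ
    (fun i => Pi.single (a.2 i) 1)).analyticAt _).comp h1

theorem ipd_succ {m : ℕ} {U : Set (Fin (m + 1) → ℝ)} {g : (Fin (m + 1) → ℝ) → ℝ}
    (hg : AnalyticOnNhd ℝ g U) {x : Fin (m + 1) → ℝ} (hx : x ∈ U) (n : ℕ)
    (v : Fin (n + 1) → Fin (m + 1)) :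
    ipd g ⟨n + 1, v⟩ x = fderiv ℝ (ipd g ⟨n, Fin.tail v⟩) x (Pi.single (v 0) 1) := by
  have h1 := (hg.iteratedFDeriv n x hx).differentiableAt
  exact h1.iteratedFDeriv_succ_apply_left'

theorem exists_ipd {m : ℕ} {U : Set (Fin (m + 1) → ℝ)} (hUc : IsPreconnected U)
    {g : (Fin (m + 1) → ℝ) → ℝ} (hg : AnalyticOnNhd ℝ g U) (hne : ∃ u ∈ U, g u ≠ 0)
    {x : Fin (m + 1) → ℝ} (hx : x ∈ U) (hx0 : g x = 0) :
    ∃ a j, ipd g a x = 0 ∧ fderiv ℝ (ipd g a) x (Pi.single j 1) ≠ 0 := by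
  by_contra hcon
  push Not at hcon
  have h1 : ∀ n (v : Fin n → Fin (m + 1)), ipd g ⟨n, v⟩ x = 0 := by
    intro n
    induction n with
    | zero => intro v; simpa [ipd] using hx0
    | succ n ih =>
      intro v
      rw [ipd_succ hg hx]
      exact hcon _ _ (ih _)
  have h2 : ∀ n, iteratedFDeriv ℝ n g x = 0 := by
    intro n
    apply ContinuousMultilinearMap.toMultilinearMap_injective
    refine Module.Basis.ext_multilinear (fun _ => Pi.basisFun ℝ (Fin (m + 1))) ?_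
    intro v
    have := h1 n v
    simpa [ipd] using this
  obtain ⟨p, r, hp⟩ := hg x hx
  have h3 : g =ᶠ[𝓝 x] 0 := by
    have h4 : Metric.eball x r ∈ 𝓝 x := Metric.eball_mem_nhds x hp.r_pos
    filter_upwards [h4] with y hy
    have h5 : y - x ∈ Metric.eball (0 : Fin (m + 1) → ℝ) r := by
      rw [Metric.mem_eball] at hy ⊢
      rwa [edist_zero_right, ← edist_eq_enorm_sub]
    have h6 := hp.hasSum_iteratedFDeriv h5
    simp only [h2, _root_.zero_apply, smul_zero, add_sub_cancel] at h6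
    exact h6.unique hasSum_zero
  obtain ⟨u, hu, hgu⟩ := hne
  exact hgu (hg.eqOn_zero_of_preconnected_of_eventuallyEq_zero hUc hx h3 hu)

/-- the inclusion of the coordinate hyperplane -/
noncomputable def emb {m : ℕ} (j : Fin (m + 1)) : (Fin m → ℝ) →L[ℝ] (Fin (m + 1) → ℝ) :=
  ContinuousLinearMap.pi (Fin.insertNth j (0 : (Fin m → ℝ) →L[ℝ] ℝ)
    (fun k => ContinuousLinearMap.proj k))

theorem emb_same {m : ℕ} (j : Fin (m + 1)) (v : Fin m → ℝ) : emb j v j = 0 := by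
  simp [emb]

theorem emb_succAbove {m : ℕ} (j : Fin (m + 1)) (v : Fin m → ℝ) (k : Fin m) :
    emb j v (j.succAbove k) = v k := by
  simp [emb]

theorem local_chart {m : ℕ} {U : Set (Fin (m + 1) → ℝ)} (hU : IsOpen U)
    {h : (Fin (m + 1) → ℝ) → ℝ} {x : Fin (m + 1) → ℝ} (hx : x ∈ U) (hh : AnalyticAt ℝ h x)
    {j : Fin (m + 1)} (hj : fderiv ℝ h x (Pi.single j 1) ≠ 0) :
    ∃ (V : Set (Fin m → ℝ)) (φ : (Fin m → ℝ) → (Fin (m + 1) → ℝ)) (B : Fin m → Fin (m + 1))
      (W : Set (Fin (m + 1) → ℝ)), GraphChart V φ B ∧ φ '' V ⊆ U ∧ W ∈ 𝓝 x ∧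
        {y | y ∈ W ∧ h y = 0} ⊆ φ '' V := by
  -- the map
  set H : (Fin (m + 1) → ℝ) → (Fin (m + 1) → ℝ) := fun y i => if i = j then h y else y i with hH
  set L : (Fin (m + 1) → ℝ) →L[ℝ] (Fin (m + 1) → ℝ) := ContinuousLinearMap.pi
    (fun i => if i = j then fderiv ℝ h x else ContinuousLinearMap.proj i) with hL
  have hLapp : ∀ v i, L v i = if i = j then fderiv ℝ h x v else v i := by
    intro v i
    rw [hL, ContinuousLinearMap.pi_apply]
    split_ifs <;> rfl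
  have hLinj : Function.Injective (L : (Fin (m + 1) → ℝ) →ₗ[ℝ] (Fin (m + 1) → ℝ)) := by
    rw [← LinearMap.ker_eq_bot, LinearMap.ker_eq_bot']
    intro v hv
    have h1 : ∀ i, L v i = 0 := fun i => congrFun hv i
    have h2 : ∀ i, i ≠ j → v i = 0 := by
      intro i hi
      have := h1 i
      rwa [hLapp, if_neg hi] at this
    have h3 : v = v j • Pi.single j (1 : ℝ) := by
      ext i
      by_cases hi : i = j
      · subst hi; simp
      · simp [h2 i hi, hi]
    have h4 : fderiv ℝ h x v = 0 := by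
      have := h1 j
      rwa [hLapp, if_pos rfl] at this
    rw [h3, map_smul, smul_eq_mul, mul_eq_zero] at h4
    rcases h4 with h4 | h4
    · rw [h3, h4, zero_smul]
    · exact absurd h4 hj
  set eL : (Fin (m + 1) → ℝ) ≃L[ℝ] (Fin (m + 1) → ℝ) := (LinearEquiv.ofInjectiveEndo (L : (Fin (m + 1) → ℝ) →ₗ[ℝ] (Fin (m + 1) → ℝ)) hLinj).toContinuousLinearEquiv
    with heL
  have heLL : (eL : (Fin (m + 1) → ℝ) →L[ℝ] (Fin (m + 1) → ℝ)) = L := by
    ext v i
    rfl
  have hstrict : HasStrictFDerivAt H (eL : (Fin (m + 1) → ℝ) →L[ℝ] (Fin (m + 1) → ℝ)) x := by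
    rw [heLL]
    rw [hasStrictFDerivAt_pi']
    intro i
    by_cases hi : i = j
    · have e1 : (fun y => H y i) = h := by funext y; simp [hH, hi]
      have e2 : (ContinuousLinearMap.proj i).comp L = fderiv ℝ h x := by
        ext v
        simp [hLapp, hi]
      rw [e1, e2]
      exact hh.hasStrictFDerivAt
    · have e1 : (fun y => H y i) = fun y => y i := by funext y; simp [hH, hi]
      have e2 : (ContinuousLinearMap.proj i).comp L = ContinuousLinearMap.proj i := by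
        ext v
        simp [hLapp, hi]
      rw [e1, e2]
      exact (ContinuousLinearMap.proj (R := ℝ) (φ := fun _ : Fin (m + 1) => ℝ) i).hasStrictFDerivAt
  have hHan : AnalyticAt ℝ H x := by
    rw [analyticAt_pi_iff]
    intro i
    by_cases hi : i = j
    · have e1 : (fun y => H y i) = h := by funext y; simp [hH, hi]
      rw [e1]; exact hh
    · have e1 : (fun y => H y i) = fun y => y i := by funext y; simp [hH, hi]
      rw [e1]
      exact (ContinuousLinearMap.proj (R := ℝ) (φ := fun _ : Fin (m + 1) => ℝ) i).analyticAt x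
  set e := hstrict.toOpenPartialHomeomorph H with he
  have hecoe : ∀ y, e y = H y := fun y => rfl
  have hxs : x ∈ e.source := hstrict.mem_toOpenPartialHomeomorph_source
  have hsymm : AnalyticAt ℝ e.symm (e x) :=
    e.analyticAt_symm' hxs hHan hstrict.hasFDerivAt.fderiv
  -- a good neighbourhood of `e x`
  have hex : e.symm (e x) = x := e.left_inv hxs
  have hgood : ∀ᶠ z in 𝓝 (e x), AnalyticAt ℝ e.symm z ∧ z ∈ e.target ∧ e.symm z ∈ U := by
    have ht : ∀ᶠ z in 𝓝 (e x), z ∈ e.target := e.open_target.mem_nhds (e.map_source hxs)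
    refine hsymm.eventually_analyticAt.and (ht.and ?_)
    have : Tendsto e.symm (𝓝 (e x)) (𝓝 x) := by
      have := hsymm.continuousAt.tendsto
      rwa [hex] at this
    exact this (hU.mem_nhds hx)
  obtain ⟨T, hTsub, hTo, hTx⟩ := eventually_nhds_iff.1 hgood
  refine ⟨(emb j) ⁻¹' T, fun v => e.symm (emb j v), fun k => j.succAbove k,
    e.source ∩ e ⁻¹' T, ⟨hTo.preimage (emb j).continuous, ?_, ?_⟩, ?_, ?_, ?_⟩
  · intro v hv
    exact (hTsub _ hv).1.comp ((emb j).analyticAt v)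
  · intro v hv k
    have h1 := (hTsub _ hv).2.1
    have h2 : e (e.symm (emb j v)) = emb j v := e.right_inv h1
    have h3 := congrFun h2 (j.succAbove k)
    rw [emb_succAbove, hecoe] at h3
    simpa [hH, Fin.succAbove_ne j k] using h3
  · rintro _ ⟨v, hv, rfl⟩
    exact (hTsub _ hv).2.2
  · refine inter_mem (e.open_source.mem_nhds hxs) ?_
    exact (e.continuousAt hxs).preimage_mem_nhds (hTo.mem_nhds hTx)
  · rintro y ⟨⟨hys, hyT⟩, hy0⟩
    have h1 : emb j (fun k => y (j.succAbove k)) = e y := by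
      ext i
      refine Fin.succAboveCases j ?_ ?_ i
      · rw [emb_same, hecoe]; simp [hH, hy0]
      · intro k
        rw [emb_succAbove, hecoe]
        simp [hH, Fin.succAbove_ne j k]
    refine ⟨fun k => y (j.succAbove k), ?_, ?_⟩
    · change emb j (fun k => y (j.succAbove k)) ∈ T
      rw [h1]; exact hyT
    · change e.symm (emb j (fun k => y (j.succAbove k))) = y
      rw [h1]; exact e.left_inv hys

theorem hypersurface {m : ℕ} (U : Set (Fin (m + 1) → ℝ)) (hU : IsOpen U)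
    (hUc : IsPreconnected U) (g : (Fin (m + 1) → ℝ) → ℝ) (hg : AnalyticOnNhd ℝ g U)
    (hne : ∃ u ∈ U, g u ≠ 0) :
    ∃ (V : ℕ → Set (Fin m → ℝ)) (φ : ℕ → (Fin m → ℝ) → (Fin (m + 1) → ℝ))
      (B : ℕ → Fin m → Fin (m + 1)),
      (∀ n, GraphChart (V n) (φ n) (B n) ∧ φ n '' V n ⊆ U) ∧
        {u ∈ U | g u = 0} ⊆ ⋃ n, φ n '' V n := by
  classical
  let Ch := {c : Set (Fin m → ℝ) × ((Fin m → ℝ) → (Fin (m + 1) → ℝ)) × (Fin m → Fin (m + 1)) //
    GraphChart c.1 c.2.1 c.2.2 ∧ c.2.1 '' c.1 ⊆ U}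
  have dummy : Ch := ⟨(∅, fun _ _ => 0, fun _ => 0),
    ⟨isOpen_empty, fun x hx => absurd hx (notMem_empty x), fun x hx => absurd hx (notMem_empty x)⟩,
    by simp⟩
  let im : Ch → Set (Fin (m + 1) → ℝ) := fun c => c.1.2.1 '' c.1.1
  let Z : (Σ n : ℕ, (Fin n → Fin (m + 1))) → Set (Fin (m + 1) → ℝ) := fun a =>
    {x | x ∈ U ∧ ipd g a x = 0 ∧ ∃ j, fderiv ℝ (ipd g a) x (Pi.single j 1) ≠ 0}
  have hchart : ∀ a x, ∃ c : Ch, ∃ W : Set (Fin (m + 1) → ℝ), x ∈ Z a →
      W ∈ 𝓝 x ∧ {y | y ∈ W ∧ ipd g a y = 0} ⊆ im c := by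
    intro a x
    by_cases hx : x ∈ Z a
    · obtain ⟨hxU, _, j, hj⟩ := hx
      obtain ⟨V, φ, B, W, h1, h2, h3, h4⟩ := local_chart hU hxU (ipd_analytic hg a x hxU) hj
      exact ⟨⟨(V, φ, B), h1, h2⟩, W, fun _ => ⟨h3, h4⟩⟩
    · exact ⟨dummy, univ, fun h => absurd h hx⟩
  choose c W hcW using hchart
  have hcov : ∀ a, ∃ t : Set (Fin (m + 1) → ℝ), t.Countable ∧ Z a ⊆ ⋃ x ∈ t, im (c a x) := by
    intro a
    obtain ⟨t, ht, htc, htcov⟩ := TopologicalSpace.countable_cover_nhdsWithin (s := Z a)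
      (f := fun x => {y | y ∈ W a x ∧ ipd g a y = 0}) (by
        intro x hx
        have h1 := (hcW a x hx).1
        have h2 : Z a ⊆ {y | ipd g a y = 0} := fun y hy => hy.2.1
        exact inter_mem (mem_nhdsWithin_of_mem_nhds h1)
          (mem_of_superset self_mem_nhdsWithin h2))
    refine ⟨t, htc, htcov.trans ?_⟩
    apply iUnion₂_mono
    intro x hx
    exact (hcW a x (ht hx)).2
  choose t htc htcov using hcov
  let 𝒞 : Set Ch := insert dummy (⋃ a, (c a) '' (t a))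
  have h𝒞 : 𝒞.Countable := (countable_iUnion fun a => (htc a).image _).insert _
  obtain ⟨f, hf⟩ := h𝒞.exists_eq_range ⟨dummy, mem_insert _ _⟩
  refine ⟨fun n => (f n).1.1, fun n => (f n).1.2.1, fun n => (f n).1.2.2, fun n => (f n).2, ?_⟩
  rintro x ⟨hxU, hx0⟩
  obtain ⟨a, j, h1, h2⟩ := exists_ipd hUc hg hne hxU hx0
  have h3 : x ∈ Z a := ⟨hxU, h1, j, h2⟩
  obtain ⟨y, hy, hxy⟩ := mem_iUnion₂.1 (htcov a h3)
  have h4 : c a y ∈ 𝒞 := mem_insert_of_mem _ (mem_iUnion.2 ⟨a, y, hy, rfl⟩)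
  rw [hf] at h4
  obtain ⟨n, hn⟩ := h4
  refine mem_iUnion.2 ⟨n, ?_⟩
  rw [← hn] at hxy
  exact hxy

end Pool.MP4ac1fb.Full
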