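import Mathlib

/-!
Non-stationary phase: repeated integration by parts along a vector field, uniformly in parameters.
-/

namespace Pool.MP4ac1fb.Full

open scoped ContDiff
open MeasureTheory

namespace IBPAux

set_option linter.unusedSectionVars false

variable {ι : Type*} [Fintype ι] {V : Type*} [NormedAddCommGroup V] [NormedSpace ℝ V]

/-- the integral of a derivative of a `C¹` function with compact support is zero -/
lemma integral_fderiv_zero {P : (ι → ℝ) → ℂ} (hP : ContDiff ℝ 1 P) (hc : HasCompactSupport P)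
    (v : ι → ℝ) : ∫ u, fderiv ℝ P u v = 0 := by
  have h1 : Continuous fun u => fderiv ℝ P u v :=
    (hP.continuous_fderiv (by norm_num)).clm_apply continuous_const
  have hc1 : HasCompactSupport fun u => fderiv ℝ P u v := hc.fderiv_apply ℝ v
  have hi1 : Integrable (fun u => fderiv ℝ P u v) := h1.integrable_of_hasCompactSupport hc1
  have hi0 : Integrable P := hP.continuous.integrable_of_hasCompactSupport hc
  have := integral_mul_fderiv_eq_neg_fderiv_mul_of_integrable (μ := (volume : Measure (ι → ℝ)))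
    (f := fun _ : ι → ℝ => (1 : ℂ)) (g := P) (v := v) (by simp) (by simpa using hi1)
    (by simpa using hi0) (fun x _ => differentiableAt_const _)
    (fun x _ => (hP.differentiable (by norm_num)).differentiableAt)
  simpa using this

/-- the good region -/
def Om (O : Set (ι → ℝ)) (h : (ι → ℝ) × V → ℝ) : Set ((ι → ℝ) × V) :=
  {x | x ∈ O ×ˢ (Set.univ : Set V) ∧ h x ≠ 0}

lemma isOpen_Om {O : Set (ι → ℝ)} (hO : IsOpen O) {h : (ι → ℝ) × V → ℝ}
    (hh : ContDiffOn ℝ ∞ h (O ×ˢ Set.univ)) : IsOpen (Om O h) := by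
  have h1 : IsOpen (O ×ˢ (Set.univ : Set V)) := hO.prod isOpen_univ
  have h2 := hh.continuousOn.isOpen_inter_preimage h1 (isOpen_compl_singleton (x := (0 : ℝ)))
  exact h2

/-- the class of amplitudes -/
structure Cls (K O : Set (ι → ℝ)) (h : (ι → ℝ) × V → ℝ) (G : (ι → ℝ) × V → ℂ) : Prop where
  sm : ContDiffOn ℝ ∞ G (Om O h)
  zr : ∀ x, x.1 ∉ K → G x = 0

/-- one component of the amplitude -/
noncomputable def Fi (w : (ι → ℝ) → (ι → ℝ)) (h : (ι → ℝ) × V → ℝ) (G : (ι → ℝ) × V → ℂ) (i : ι)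
    (x : (ι → ℝ) × V) : ℂ :=
  ((w x.1 i : ℝ) : ℂ) * (G x / ((h x : ℝ) : ℂ))

/-- the transformed amplitude -/
noncomputable def T [DecidableEq ι] (w : (ι → ℝ) → (ι → ℝ)) (h : (ι → ℝ) × V → ℝ)
    (G : (ι → ℝ) × V → ℂ) (x : (ι → ℝ) × V) : ℂ :=
  ∑ i, fderiv ℝ (Fi w h G i) x (Pi.single i 1, 0)

lemma Fi_smooth {K O : Set (ι → ℝ)} {w : (ι → ℝ) → (ι → ℝ)}
    (hw : ContDiffOn ℝ ∞ w O) {h : (ι → ℝ) × V → ℝ} (hh : ContDiffOn ℝ ∞ h (O ×ˢ Set.univ))
    {G : (ι → ℝ) × V → ℂ} (hG : Cls K O h G) (i : ι) :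
    ContDiffOn ℝ ∞ (Fi w h G i) (Om O h) := by
  have h1 : ContDiffOn ℝ ∞ (fun x : (ι → ℝ) × V => w x.1) (Om O h) :=
    hw.comp contDiff_fst.contDiffOn (fun x hx => hx.1.1)
  have h2 : ContDiffOn ℝ ∞ (fun x : (ι → ℝ) × V => w x.1 i) (Om O h) :=
    (contDiff_apply ℝ ℝ i).comp_contDiffOn h1
  have h3 : ContDiffOn ℝ ∞ (fun x : (ι → ℝ) × V => ((w x.1 i : ℝ) : ℂ)) (Om O h) :=
    Complex.ofRealCLM.contDiff.comp_contDiffOn h2
  have h4 : ContDiffOn ℝ ∞ (fun x : (ι → ℝ) × V => ((h x : ℝ) : ℂ)) (Om O h) :=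
    Complex.ofRealCLM.contDiff.comp_contDiffOn (hh.mono (fun x hx => hx.1))
  have h5 : ContDiffOn ℝ ∞ (fun x : (ι → ℝ) × V => (((h x : ℝ) : ℂ))⁻¹) (Om O h) :=
    h4.inv (fun x hx => by
      have := hx.2
      exact_mod_cast this)
  have h6 : ContDiffOn ℝ ∞ (fun x : (ι → ℝ) × V => G x * (((h x : ℝ) : ℂ))⁻¹) (Om O h) :=
    hG.sm.mul h5
  have h7 := h3.mul h6
  refine h7.congr fun x _ => ?_
  simp [Fi, div_eq_mul_inv]

lemma Fi_zero {K O : Set (ι → ℝ)} {w : (ι → ℝ) → (ι → ℝ)} {h : (ι → ℝ) × V → ℝ}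
    {G : (ι → ℝ) × V → ℂ} (hG : Cls K O h G) (i : ι) {x : (ι → ℝ) × V} (hx : x.1 ∉ K) :
    Fi w h G i x = 0 := by
  simp [Fi, hG.zr x hx]

lemma T_cls [DecidableEq ι] {K O : Set (ι → ℝ)} (hK : IsCompact K) (hO : IsOpen O)
    {w : (ι → ℝ) → (ι → ℝ)}
    (hw : ContDiffOn ℝ ∞ w O) {h : (ι → ℝ) × V → ℝ} (hh : ContDiffOn ℝ ∞ h (O ×ˢ Set.univ))
    {G : (ι → ℝ) × V → ℂ} (hG : Cls K O h G) : Cls K O h (T w h G) := by
  constructor
  · unfold T
    apply ContDiffOn.sum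
    intro i _
    have h1 := (Fi_smooth hw hh hG i).fderiv_of_isOpen (isOpen_Om hO hh)
      (m := ∞) (by simp)
    exact h1.clm_apply contDiffOn_const
  · intro x hx
    unfold T
    apply Finset.sum_eq_zero
    intro i _
    have : Fi w h G i =ᶠ[nhds x] fun _ => 0 := by
      have ho : IsOpen {y : (ι → ℝ) × V | y.1 ∉ K} :=
        (hK.isClosed.isOpen_compl).preimage continuous_fst
      filter_upwards [ho.mem_nhds hx] with y hy
      exact Fi_zero hG i hy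
    rw [this.fderiv_eq]
    simp

lemma slice_smooth {K O : Set (ι → ℝ)} (hK : IsCompact K) (hO : IsOpen O) (hKO : K ⊆ O)
    {h : (ι → ℝ) × V → ℝ} (hh : ContDiffOn ℝ ∞ h (O ×ˢ Set.univ))
    {F : (ι → ℝ) × V → ℂ} (hF : ContDiffOn ℝ ∞ F (Om O h)) (hF0 : ∀ x, x.1 ∉ K → F x = 0)
    {p : V} (hne : ∀ u ∈ K, h (u, p) ≠ 0) {φ : (ι → ℝ) → ℝ} (hφ : ContDiffOn ℝ 1 φ O) :
    ContDiff ℝ 1 fun u => F (u, p) * Complex.exp (Complex.I * φ u) := by
  rw [contDiff_iff_contDiffAt]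
  intro u
  by_cases hu : u ∈ K
  · have hx : (u, p) ∈ Om O h := ⟨⟨hKO hu, trivial⟩, hne u hu⟩
    have h1 : ContDiffAt ℝ 1 F (u, p) :=
      (hF.contDiffAt ((isOpen_Om hO hh).mem_nhds hx)).of_le (by exact_mod_cast le_top)
    have h2 : ContDiffAt ℝ 1 (fun u : ι → ℝ => F (u, p)) u :=
      ContDiffAt.comp u h1 (by fun_prop)
    have h3 : ContDiffAt ℝ 1 φ u := hφ.contDiffAt (hO.mem_nhds (hKO hu))
    have h4 : ContDiffAt ℝ 1 (fun u => Complex.I * ((φ u : ℝ) : ℂ)) u :=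
      contDiffAt_const.mul (Complex.ofRealCLM.contDiff.contDiffAt.comp u h3)
    exact h2.mul h4.cexp
  · have : (fun u => F (u, p) * Complex.exp (Complex.I * φ u)) =ᶠ[nhds u] fun _ => 0 := by
      filter_upwards [hK.isClosed.isOpen_compl.mem_nhds hu] with y hy
      simp [hF0 (y, p) hy]
    exact (contDiffAt_const (c := (0 : ℂ))).congr_of_eventuallyEq this

lemma compSupp {K : Set (ι → ℝ)} (hK : IsCompact K)
    {F : (ι → ℝ) × V → ℂ} (hF0 : ∀ x, x.1 ∉ K → F x = 0)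
    (p : V) (φ : (ι → ℝ) → ℝ) :
    HasCompactSupport fun u => F (u, p) * Complex.exp (Complex.I * φ u) :=
  HasCompactSupport.intro hK (fun u hu => by simp [hF0 (u, p) hu])

/-- derivative of one product at a point of `K` -/
lemma fderiv_prod {K O : Set (ι → ℝ)} (hO : IsOpen O) (hKO : K ⊆ O)
    {h : (ι → ℝ) × V → ℝ} (hh : ContDiffOn ℝ ∞ h (O ×ˢ Set.univ))
    {F : (ι → ℝ) × V → ℂ} (hF : ContDiffOn ℝ ∞ F (Om O h))
    {p : V} (hne : ∀ u ∈ K, h (u, p) ≠ 0) {φ : (ι → ℝ) → ℝ} (hφ : ContDiffOn ℝ 1 φ O)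
    {u : ι → ℝ} (hu : u ∈ K) (v : ι → ℝ) :
    fderiv ℝ (fun u => F (u, p) * Complex.exp (Complex.I * φ u)) u v
      = fderiv ℝ F (u, p) (v, 0) * Complex.exp (Complex.I * φ u)
        + F (u, p) * (Complex.I * ((fderiv ℝ φ u v : ℝ) : ℂ) * Complex.exp (Complex.I * φ u)) := by
  have hx : (u, p) ∈ Om O h := ⟨⟨hKO hu, trivial⟩, hne u hu⟩
  have h1 : HasFDerivAt F (fderiv ℝ F (u, p)) (u, p) :=
    ((hF.contDiffAt ((isOpen_Om hO hh).mem_nhds hx)).differentiableAt (by simp)).hasFDerivAt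
  have h2 : HasFDerivAt (fun u : ι → ℝ => (u, p)) (ContinuousLinearMap.inl ℝ (ι → ℝ) V) u :=
    hasFDerivAt_prodMk_left u p
  have h3 : HasFDerivAt (fun u : ι → ℝ => F (u, p))
      ((fderiv ℝ F (u, p)).comp (ContinuousLinearMap.inl ℝ (ι → ℝ) V)) u := h1.comp u h2
  have h4 : HasFDerivAt φ (fderiv ℝ φ u) u :=
    ((hφ.contDiffAt (hO.mem_nhds (hKO hu))).differentiableAt (by simp)).hasFDerivAt
  have h5 : HasFDerivAt (fun u => ((φ u : ℝ) : ℂ)) (Complex.ofRealCLM.comp (fderiv ℝ φ u)) u :=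
    Complex.ofRealCLM.hasFDerivAt.comp u h4
  have h6 := (h5.const_mul Complex.I).cexp
  have h7 : HasFDerivAt (fun u => F (u, p) * Complex.exp (Complex.I * φ u)) _ u := h3.mul h6
  rw [h7.fderiv]
  simp
  ring

/-- the key identity -/
lemma key [DecidableEq ι] {K O : Set (ι → ℝ)} (hK : IsCompact K) (hO : IsOpen O) (hKO : K ⊆ O)
    {w : (ι → ℝ) → (ι → ℝ)} (hw : ContDiffOn ℝ ∞ w O)
    {h : (ι → ℝ) × V → ℝ} (hh : ContDiffOn ℝ ∞ h (O ×ˢ Set.univ))
    {G : (ι → ℝ) × V → ℂ} (hG : Cls K O h G)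
    {p : V} (hne : ∀ u ∈ K, h (u, p) ≠ 0) {φ : (ι → ℝ) → ℝ} (hφ : ContDiffOn ℝ 1 φ O)
    {lam : ℝ} (hφw : ∀ u ∈ K, fderiv ℝ φ u (w u) = lam * h (u, p)) :
    (∫ u, T w h G (u, p) * Complex.exp (Complex.I * φ u))
      + Complex.I * lam * (∫ u, G (u, p) * Complex.exp (Complex.I * φ u)) = 0 := by
  have hTc := T_cls hK hO hw hh hG
  have hcT : Integrable fun u => T w h G (u, p) * Complex.exp (Complex.I * φ u) :=
    (slice_smooth hK hO hKO hh hTc.sm hTc.zr hne hφ).continuous.integrable_of_hasCompactSupport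
      (compSupp hK hTc.zr p φ)
  have hcG : Integrable fun u => G (u, p) * Complex.exp (Complex.I * φ u) :=
    (slice_smooth hK hO hKO hh hG.sm hG.zr hne hφ).continuous.integrable_of_hasCompactSupport
      (compSupp hK hG.zr p φ)
  have hz : ∀ i : ι, ∀ x : (ι → ℝ) × V, x.1 ∉ K → Fi w h G i x = 0 :=
    fun i x hx => Fi_zero hG i hx
  have hsm : ∀ i : ι, ContDiff ℝ 1 fun u => Fi w h G i (u, p) * Complex.exp (Complex.I * φ u) :=
    fun i => slice_smooth hK hO hKO hh (Fi_smooth hw hh hG i) (hz i) hne hφ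
  have hcs : ∀ i : ι, HasCompactSupport fun u =>
      Fi w h G i (u, p) * Complex.exp (Complex.I * φ u) := fun i => compSupp hK (hz i) p φ
  have h0 : ∑ i, ∫ u, fderiv ℝ (fun u => Fi w h G i (u, p) * Complex.exp (Complex.I * φ u)) u
      (Pi.single i 1) = 0 :=
    Finset.sum_eq_zero fun i _ => integral_fderiv_zero (hsm i) (hcs i) _
  have hint : ∀ i : ι, Integrable fun u =>
      fderiv ℝ (fun u => Fi w h G i (u, p) * Complex.exp (Complex.I * φ u)) u (Pi.single i 1) := by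
    intro i
    apply Continuous.integrable_of_hasCompactSupport
    · exact ((hsm i).continuous_fderiv (by norm_num)).clm_apply continuous_const
    · exact (hcs i).fderiv_apply ℝ _
  rw [← integral_finsetSum _ (fun i _ => hint i)] at h0
  rw [← integral_const_mul, ← integral_add hcT (hcG.const_mul _), ← h0]
  congr 1
  ext u
  by_cases hu : u ∈ K
  · have e1 : ∀ i, fderiv ℝ (fun u => Fi w h G i (u, p) * Complex.exp (Complex.I * φ u)) u
        (Pi.single i 1) = fderiv ℝ (Fi w h G i) (u, p) (Pi.single i 1, 0)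
          * Complex.exp (Complex.I * φ u)
        + Fi w h G i (u, p) * (Complex.I * ((fderiv ℝ φ u (Pi.single i 1) : ℝ) : ℂ)
          * Complex.exp (Complex.I * φ u)) := fun i =>
      fderiv_prod hO hKO hh (Fi_smooth hw hh hG i) hne hφ hu _
    simp_rw [e1]
    rw [Finset.sum_add_distrib, ← Finset.sum_mul]
    have e2 : fderiv ℝ φ u (w u) = ∑ i, w u i * fderiv ℝ φ u (Pi.single i 1) := by
      conv_lhs => rw [show w u = ∑ i, w u i • (Pi.single i (1 : ℝ) : ι → ℝ) by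
        ext j; simp [Finset.sum_apply, Pi.single_apply]]
      rw [map_sum]
      simp
    have hne' : ((h (u, p) : ℝ) : ℂ) ≠ 0 := by exact_mod_cast hne u hu
    have e3 : ∑ i, Fi w h G i (u, p) * (Complex.I * ((fderiv ℝ φ u (Pi.single i 1) : ℝ) : ℂ)
          * Complex.exp (Complex.I * φ u))
        = Complex.I * lam * (G (u, p) * Complex.exp (Complex.I * φ u)) := by
      have : ∀ i, Fi w h G i (u, p) * (Complex.I * ((fderiv ℝ φ u (Pi.single i 1) : ℝ) : ℂ)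
          * Complex.exp (Complex.I * φ u))
          = (G (u, p) / ((h (u, p) : ℝ) : ℂ) * Complex.I * Complex.exp (Complex.I * φ u))
            * (((w u i * fderiv ℝ φ u (Pi.single i 1) : ℝ)) : ℂ) := by
        intro i
        simp only [Fi]
        push_cast
        ring
      simp_rw [this]
      rw [← Finset.mul_sum]
      have e4 : ∑ i, (((w u i * fderiv ℝ φ u (Pi.single i 1) : ℝ)) : ℂ)
          = ((lam * h (u, p) : ℝ) : ℂ) := by
        rw [← hφw u hu, e2]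
        push_cast
        rfl
      rw [e4]
      push_cast
      field_simp
    rw [e3]
    rfl
  · have e1 : ∀ i, fderiv ℝ (fun u => Fi w h G i (u, p) * Complex.exp (Complex.I * φ u)) u = 0 := by
      intro i
      have : (fun u => Fi w h G i (u, p) * Complex.exp (Complex.I * φ u)) =ᶠ[nhds u]
          fun _ => 0 := by
        filter_upwards [hK.isClosed.isOpen_compl.mem_nhds hu] with y hy
        simp [hz i (y, p) hy]
      rw [this.fderiv_eq]
      simp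
    simp [e1, hG.zr (u, p) hu, hTc.zr (u, p) hu]

/-- uniform bound for amplitudes -/
lemma bound0 {K O : Set (ι → ℝ)} (hK : IsCompact K) (hKO : K ⊆ O)
    {h : (ι → ℝ) × V → ℝ} {G : (ι → ℝ) × V → ℂ} (hG : Cls K O h G)
    {Q : Set V} (hQ : IsCompact Q) (hne : ∀ u ∈ K, ∀ p ∈ Q, h (u, p) ≠ 0) :
    ∃ C : ℝ, 0 ≤ C ∧ ∀ p ∈ Q, ∀ φ : (ι → ℝ) → ℝ,
      ‖∫ u, G (u, p) * Complex.exp (Complex.I * φ u)‖ ≤ C := by
  have hsub : K ×ˢ Q ⊆ Om O h := fun x hx => ⟨⟨hKO hx.1, trivial⟩, hne x.1 hx.1 x.2 hx.2⟩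
  obtain ⟨B, hB⟩ := (hK.prod hQ).exists_bound_of_continuousOn (hG.sm.continuousOn.mono hsub)
  refine ⟨|B| * (volume : Measure (ι → ℝ)).real K, by positivity, ?_⟩
  intro p hp φ
  have h1 : ∫ u, G (u, p) * Complex.exp (Complex.I * φ u)
      = ∫ u in K, G (u, p) * Complex.exp (Complex.I * φ u) := by
    symm
    apply setIntegral_eq_integral_of_forall_compl_eq_zero
    intro u hu
    simp [hG.zr (u, p) hu]
  rw [h1]
  apply norm_setIntegral_le_of_norm_le_const hK.measure_lt_top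
  intro u hu
  have h2 : ‖Complex.exp (Complex.I * φ u)‖ = 1 := by
    rw [mul_comm]; exact Complex.norm_exp_ofReal_mul_I _
  rw [norm_mul, h2, mul_one]
  exact (hB (u, p) ⟨hu, hp⟩).trans (le_abs_self B)

lemma claim [DecidableEq ι] {K O : Set (ι → ℝ)} (hK : IsCompact K) (hO : IsOpen O) (hKO : K ⊆ O)
    {w : (ι → ℝ) → (ι → ℝ)} (hw : ContDiffOn ℝ ∞ w O)
    {h : (ι → ℝ) × V → ℝ} (hh : ContDiffOn ℝ ∞ h (O ×ˢ Set.univ))
    {Q : Set V} (hQ : IsCompact Q) (hne : ∀ u ∈ K, ∀ p ∈ Q, h (u, p) ≠ 0) (N : ℕ) :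
    ∀ G : (ι → ℝ) × V → ℂ, Cls K O h G →
    ∃ C : ℝ, ∀ p ∈ Q, ∀ lam : ℝ, 0 < lam → ∀ φ : (ι → ℝ) → ℝ, ContDiffOn ℝ 1 φ O →
      (∀ u ∈ K, fderiv ℝ φ u (w u) = lam * h (u, p)) →
      ‖∫ u, G (u, p) * Complex.exp (Complex.I * φ u)‖ ≤ C / lam ^ N := by
  induction N with
  | zero =>
    intro G hG
    obtain ⟨C, hC0, hC⟩ := bound0 hK hKO hG hQ hne
    refine ⟨C, fun p hp lam _ φ _ _ => ?_⟩
    simpa using hC p hp φ
  | succ N ih =>
    intro G hG
    obtain ⟨C, hC⟩ := ih (T w h G) (T_cls hK hO hw hh hG)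
    refine ⟨C, fun p hp lam hlam φ hφ hφw => ?_⟩
    have h1 := hC p hp lam hlam φ hφ hφw
    have h2 := key hK hO hKO hw hh hG (fun u hu => hne u hu p hp) hφ hφw
    have h3 : ‖Complex.I * lam * (∫ u, G (u, p) * Complex.exp (Complex.I * φ u))‖
        ≤ C / lam ^ N := by
      have : Complex.I * lam * (∫ u, G (u, p) * Complex.exp (Complex.I * φ u))
          = -(∫ u, T w h G (u, p) * Complex.exp (Complex.I * φ u)) := by
        linear_combination h2
      rw [this, norm_neg]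
      exact h1
    rw [norm_mul, norm_mul, Complex.norm_I, one_mul, Complex.norm_real, Real.norm_eq_abs,
      abs_of_pos hlam] at h3
    rw [pow_succ, ← div_div, le_div_iff₀ hlam]
    linarith

end IBPAux

theorem ibp {ι : Type*} [Fintype ι] {V : Type*} [NormedAddCommGroup V] [NormedSpace ℝ V]
    [FiniteDimensional ℝ V] {K O : Set (ι → ℝ)} (hK : IsCompact K) (hO : IsOpen O) (hKO : K ⊆ O)
    {w : (ι → ℝ) → (ι → ℝ)} (hw : ContDiffOn ℝ ∞ w O)
    {h : (ι → ℝ) × V → ℝ} (hh : ContDiffOn ℝ ∞ h (O ×ˢ Set.univ))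
    {g : (ι → ℝ) → ℂ} (hg : ContDiff ℝ ∞ g) (hgK : ∀ u ∉ K, g u = 0)
    {Q : Set V} (hQ : IsCompact Q) (hne : ∀ u ∈ K, ∀ p ∈ Q, h (u, p) ≠ 0) (N : ℕ) :
    ∃ C : ℝ, ∀ p ∈ Q, ∀ lam : ℝ, 0 < lam → ∀ φ : (ι → ℝ) → ℝ, ContDiffOn ℝ 1 φ O →
      (∀ u ∈ K, fderiv ℝ φ u (w u) = lam * h (u, p)) →
      ‖∫ u, g u * Complex.exp (Complex.I * φ u)‖ ≤ C / lam ^ N := by
  classical
  have hG : IBPAux.Cls K O h (fun x : (ι → ℝ) × V => g x.1) :=
    ⟨(hg.comp contDiff_fst).contDiffOn, fun x hx => hgK x.1 hx⟩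
  exact IBPAux.claim hK hO hKO hw hh hQ hne N _ hG

end Pool.MP4ac1fb.Full
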