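import Mathlib

/-!
The averaging kernel.
-/

namespace Pool.MP4ac1fb.Full

open MvPolynomial

variable {d : ℕ}

namespace KernelAux

/-- Sum of the absolute values of the coefficients. -/
noncomputable def S (f : MvPolynomial (Fin d) ℂ) : ℝ := ∑ n ∈ f.support, ‖coeff n f‖

theorem S_eq (f : MvPolynomial (Fin d) ℂ) (s : Finset (Fin d →₀ ℕ)) (h : f.support ⊆ s) :
    S f = ∑ n ∈ s, ‖coeff n f‖ := by
  unfold S
  refine Finset.sum_subset h ?_
  intro n _ hn
  rw [MvPolynomial.notMem_support_iff.mp hn, norm_zero]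

theorem S_nonneg (f : MvPolynomial (Fin d) ℂ) : 0 ≤ S f :=
  Finset.sum_nonneg fun _ _ => norm_nonneg _

theorem S_add (f g : MvPolynomial (Fin d) ℂ) : S (f + g) ≤ S f + S g := by
  rw [S_eq (f + g) (f.support ∪ g.support) MvPolynomial.support_add,
    S_eq f (f.support ∪ g.support) Finset.subset_union_left,
    S_eq g (f.support ∪ g.support) Finset.subset_union_right, ← Finset.sum_add_distrib]
  refine Finset.sum_le_sum fun n _ => ?_
  rw [coeff_add]
  exact norm_add_le _ _

theorem S_zero : S (0 : MvPolynomial (Fin d) ℂ) = 0 := by simp [S]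

theorem S_sum {ι : Type*} (s : Finset ι) (f : ι → MvPolynomial (Fin d) ℂ) :
    S (∑ i ∈ s, f i) ≤ ∑ i ∈ s, S (f i) := by
  classical
  induction s using Finset.induction_on with
  | empty => simp [S_zero]
  | insert a s ha ih =>
    rw [Finset.sum_insert ha, Finset.sum_insert ha]
    exact (S_add _ _).trans (by linarith)

theorem S_monomial (n : Fin d →₀ ℕ) (c : ℂ) : S (monomial n c) ≤ ‖c‖ := by
  classical
  rw [S_eq (monomial n c) {n} support_monomial_subset]
  simp

theorem S_monomial_mul (n : Fin d →₀ ℕ) (c : ℂ) (g : MvPolynomial (Fin d) ℂ) :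
    S (monomial n c * g) ≤ ‖c‖ * S g := by
  classical
  conv_lhs => rw [g.as_sum]
  rw [Finset.mul_sum]
  refine (S_sum _ _).trans ?_
  unfold S
  rw [Finset.mul_sum]
  refine Finset.sum_le_sum fun m _ => ?_
  rw [monomial_mul]
  refine (S_monomial _ _).trans ?_
  rw [norm_mul]

theorem S_mul (f g : MvPolynomial (Fin d) ℂ) : S (f * g) ≤ S f * S g := by
  classical
  conv_lhs => rw [f.as_sum]
  rw [Finset.sum_mul]
  refine (S_sum _ _).trans ?_
  have : S f * S g = ∑ n ∈ f.support, ‖coeff n f‖ * S g := by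
    rw [S, Finset.sum_mul]
  rw [this]
  exact Finset.sum_le_sum fun m _ => S_monomial_mul _ _ _

theorem coeff_mul_le (f g : MvPolynomial (Fin d) ℂ) (B : ℝ) (hB : ∀ n, ‖coeff n f‖ ≤ B)
    (n : Fin d →₀ ℕ) : ‖coeff n (f * g)‖ ≤ B * S g := by
  classical
  have hB0 : 0 ≤ B := (norm_nonneg _).trans (hB 0)
  conv_lhs => rw [g.as_sum]
  rw [Finset.mul_sum, coeff_sum]
  refine (norm_sum_le _ _).trans ?_
  unfold S
  rw [Finset.mul_sum]
  refine Finset.sum_le_sum fun m _ => ?_
  rw [coeff_mul_monomial']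
  split_ifs with h
  · rw [norm_mul]
    exact mul_le_mul_of_nonneg_right (hB _) (norm_nonneg _)
  · rw [norm_zero]
    positivity

theorem S_one_le : S (1 : MvPolynomial (Fin d) ℂ) ≤ 1 := by
  have h := S_monomial (0 : Fin d →₀ ℕ) (1 : ℂ)
  simpa using h

/-- One factor of the kernel. -/
noncomputable def U (b L : ℕ) (j : Fin d) : MvPolynomial (Fin d) ℂ :=
  ∑ r ∈ Finset.range L, monomial (Finsupp.single j (b + r)) ((1 : ℂ) / (L : ℂ))

theorem eval_U (b L : ℕ) (hL : 0 < L) (j : Fin d) (z : Fin d → ℂ) (hz : z j = 1) :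
    eval z (U b L j) = 1 := by
  have hL' : (L : ℂ) ≠ 0 := by exact_mod_cast hL.ne'
  unfold U
  rw [map_sum]
  have : ∀ r ∈ Finset.range L, eval z (monomial (Finsupp.single j (b + r)) ((1 : ℂ) / (L : ℂ)))
      = 1 / (L : ℂ) := by
    intro r _
    rw [eval_monomial, Finsupp.prod_single_index (by simp), hz, one_pow, mul_one]
  rw [Finset.sum_congr rfl this, Finset.sum_const, Finset.card_range, nsmul_eq_mul]
  field_simp

theorem S_U (b L : ℕ) (hL : 0 < L) (j : Fin d) : S (U b L j) ≤ 1 := by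
  have hL' : (0 : ℝ) < L := by exact_mod_cast hL
  unfold U
  refine (S_sum _ _).trans ?_
  have : ∀ r ∈ Finset.range L, S (monomial (Finsupp.single j (b + r)) ((1 : ℂ) / (L : ℂ)))
      ≤ 1 / (L : ℝ) := by
    intro r _
    refine (S_monomial _ _).trans ?_
    simp
  refine (Finset.sum_le_sum this).trans ?_
  rw [Finset.sum_const, Finset.card_range, nsmul_eq_mul]
  field_simp
  exact le_refl _

theorem support_U (b L : ℕ) (j : Fin d) (n : Fin d →₀ ℕ) (hn : n ∈ (U b L j).support) :
    ∃ r < L, n = Finsupp.single j (b + r) := by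
  classical
  unfold U at hn
  have h := support_sum hn
  rw [Finset.mem_biUnion] at h
  obtain ⟨r, hr, hn'⟩ := h
  have h2 := support_monomial_subset hn'
  rw [Finset.mem_singleton] at h2
  exact ⟨r, Finset.mem_range.mp hr, h2⟩

/-- The kernel. -/
noncomputable def D (η : Fin d → ℕ) (T L : ℕ) (C : Finset (Fin d)) : MvPolynomial (Fin d) ℂ :=
  ∏ j ∈ C, U (η j * T * L) L j

theorem eval_D (η : Fin d → ℕ) (T L : ℕ) (hL : 0 < L) (C : Finset (Fin d)) (z : Fin d → ℂ)
    (hz : ∀ j ∈ C, z j = 1) : eval z (D η T L C) = 1 := by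
  unfold D
  rw [map_prod]
  exact Finset.prod_eq_one fun j hj => eval_U _ _ hL _ _ (hz j hj)

theorem S_D (η : Fin d → ℕ) (T L : ℕ) (hL : 0 < L) (C : Finset (Fin d)) :
    S (D η T L C) ≤ 1 := by
  classical
  unfold D
  induction C using Finset.induction_on with
  | empty => simpa using S_one_le
  | insert a s ha ih =>
    rw [Finset.prod_insert ha]
    refine (S_mul _ _).trans ?_
    exact mul_le_one₀ (S_U _ _ hL _) (S_nonneg _) ih

theorem support_D (η : Fin d → ℕ) (T L : ℕ) (C : Finset (Fin d)) (n : Fin d →₀ ℕ)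
    (hn : n ∈ (D η T L C).support) :
    (∀ j ∉ C, n j = 0) ∧ ∀ j ∈ C, η j * T * L ≤ n j ∧ n j ≤ (η j * T + 1) * L := by
  classical
  unfold D at hn
  induction C using Finset.induction_on generalizing n with
  | empty =>
    rw [Finset.prod_empty] at hn
    have h2 : n ∈ ({0} : Finset (Fin d →₀ ℕ)) := by
      have : (1 : MvPolynomial (Fin d) ℂ) = monomial 0 1 := rfl
      rw [this] at hn
      exact support_monomial_subset hn
    rw [Finset.mem_singleton] at h2
    subst h2
    simp
  | insert a s ha ih =>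
    rw [Finset.prod_insert ha] at hn
    have h := support_mul _ _ hn
    rw [Finset.mem_add] at h
    obtain ⟨x, hx, y, hy, rfl⟩ := h
    obtain ⟨r, hr, rfl⟩ := support_U _ _ _ _ hx
    obtain ⟨h1, h2⟩ := ih y hy
    constructor
    · intro j hj
      rw [Finset.mem_insert, not_or] at hj
      simp [h1 j hj.2, Ne.symm hj.1]
    · intro j hj
      rw [Finset.mem_insert] at hj
      by_cases hja : j = a
      · subst hja
        rw [Finsupp.add_apply, Finsupp.single_eq_same, h1 j ha]
        constructor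
        · omega
        · have : (η j * T + 1) * L = η j * T * L + L := by ring
          rw [this]; omega
      · have hjs : j ∈ s := by tauto
        rw [Finsupp.add_apply, Finsupp.single_apply, if_neg (Ne.symm hja), zero_add]
        exact h2 j hjs

theorem coeff_D (η : Fin d → ℕ) (T L : ℕ) (hL : 0 < L) (C : Finset (Fin d)) (n : Fin d →₀ ℕ) :
    ‖coeff n (D η T L C)‖ ≤ 1 / (L : ℝ) ^ C.card := by
  classical
  have hL' : (0 : ℝ) < L := by exact_mod_cast hL
  induction C using Finset.induction_on generalizing n with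
  | empty =>
    unfold D
    rw [Finset.prod_empty, Finset.card_empty, pow_zero, div_one, coeff_one]
    split_ifs <;> simp
  | insert a s ha ih =>
    have hD : D η T L (insert a s) = U (η a * T * L) L a * D η T L s := by
      unfold D; rw [Finset.prod_insert ha]
    rw [hD, Finset.card_insert_of_notMem ha]
    have hU : U (η a * T * L) L a * D η T L s = ∑ r ∈ Finset.range L,
        monomial (Finsupp.single a (η a * T * L + r)) ((1 : ℂ) / (L : ℂ)) * D η T L s := by
      unfold U; rw [Finset.sum_mul]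
    rw [hU, coeff_sum]
    have key : ∀ r ∈ Finset.range L, η a * T * L + r ≠ n a →
        coeff n (monomial (Finsupp.single a (η a * T * L + r)) ((1 : ℂ) / (L : ℂ)) * D η T L s)
          = 0 := by
      intro r _ hr
      rw [coeff_monomial_mul']
      split_ifs with h
      · have : coeff (n - Finsupp.single a (η a * T * L + r)) (D η T L s) = 0 := by
          by_contra hne
          have hmem := MvPolynomial.mem_support_iff.mpr hne
          have h0 := (support_D η T L s _ hmem).1 a ha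
          rw [Finsupp.tsub_apply, Finsupp.single_eq_same] at h0
          have hle := h a
          rw [Finsupp.single_eq_same] at hle
          omega
        rw [this, mul_zero]
      · rfl
    by_cases hex : ∃ r ∈ Finset.range L, η a * T * L + r = n a
    · obtain ⟨r, hr, hrn⟩ := hex
      rw [Finset.sum_eq_single_of_mem r hr]
      · rw [coeff_monomial_mul']
        split_ifs with h
        · rw [norm_mul]
          have h1 : ‖(1 : ℂ) / (L : ℂ)‖ = 1 / (L : ℝ) := by simp
          rw [h1, pow_succ]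
          have h2 := ih (n - Finsupp.single a (η a * T * L + r))
          calc 1 / (L : ℝ) * ‖coeff (n - Finsupp.single a (η a * T * L + r)) (D η T L s)‖
              ≤ 1 / (L : ℝ) * (1 / (L : ℝ) ^ s.card) :=
                mul_le_mul_of_nonneg_left h2 (by positivity)
            _ = 1 / ((L : ℝ) ^ s.card * L) := by
                field_simp
        · rw [norm_zero]; positivity
      · intro r' hr' hne
        apply key r' hr'
        omega
    · push Not at hex
      rw [Finset.sum_eq_zero fun r hr => key r hr (hex r hr), norm_zero]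
      positivity

theorem S_D_pow (η : Fin d → ℕ) (T L : ℕ) (hL : 0 < L) (C : Finset (Fin d)) (i : ℕ) :
    S (D η T L C ^ i) ≤ 1 := by
  induction i with
  | zero => simpa using S_one_le
  | succ i ih =>
    rw [pow_succ]
    refine (S_mul _ _).trans ?_
    exact mul_le_one₀ ih (S_nonneg _) (S_D η T L hL C)

theorem coeff_D_pow (η : Fin d → ℕ) (T L : ℕ) (hL : 0 < L) (C : Finset (Fin d)) (i : ℕ)
    (n : Fin d →₀ ℕ) : ‖coeff n (D η T L C ^ (i + 1))‖ ≤ 1 / (L : ℝ) ^ C.card := by
  have hL' : (0 : ℝ) < L := by exact_mod_cast hL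
  rw [pow_succ, mul_comm]
  refine (coeff_mul_le _ _ _ (coeff_D η T L hL C) n).trans ?_
  have h := S_D_pow η T L hL C i
  calc 1 / (L : ℝ) ^ C.card * S (D η T L C ^ i) ≤ 1 / (L : ℝ) ^ C.card * 1 :=
        mul_le_mul_of_nonneg_left h (by positivity)
    _ = _ := by ring

theorem support_D_pow (η : Fin d → ℕ) (T L : ℕ) (C : Finset (Fin d)) (i : ℕ) (n : Fin d →₀ ℕ)
    (hn : n ∈ (D η T L C ^ i).support) :
    (∀ j ∉ C, n j = 0) ∧ ∀ j ∈ C, i * η j * T * L ≤ n j ∧ n j ≤ i * (η j * T + 1) * L := by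
  classical
  induction i generalizing n with
  | zero =>
    rw [pow_zero] at hn
    have h2 : n ∈ ({0} : Finset (Fin d →₀ ℕ)) := by
      have : (1 : MvPolynomial (Fin d) ℂ) = monomial 0 1 := rfl
      rw [this] at hn
      exact support_monomial_subset hn
    rw [Finset.mem_singleton] at h2
    subst h2
    simp
  | succ i ih =>
    rw [pow_succ] at hn
    have h := support_mul _ _ hn
    rw [Finset.mem_add] at h
    obtain ⟨x, hx, y, hy, rfl⟩ := h
    obtain ⟨h1, h2⟩ := ih x hx
    obtain ⟨h3, h4⟩ := support_D η T L C y hy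
    refine ⟨fun j hj => by simp [h1 j hj, h3 j hj], fun j hj => ?_⟩
    obtain ⟨a1, a2⟩ := h2 j hj
    obtain ⟨b1, b2⟩ := h4 j hj
    rw [Finsupp.add_apply]
    constructor
    · calc (i + 1) * η j * T * L = i * η j * T * L + η j * T * L := by ring
        _ ≤ _ := by omega
    · calc x j + y j ≤ i * (η j * T + 1) * L + (η j * T + 1) * L := by omega
        _ = _ := by ring

theorem expand (F : MvPolynomial (Fin d) ℂ) (Q : ℕ) :
    1 - (1 - F) ^ Q = ∑ i ∈ Finset.range Q,
      MvPolynomial.C ((-1 : ℂ) ^ i * (Q.choose (i + 1) : ℂ)) * F ^ (i + 1) := by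
  have h : (1 - F) ^ Q = ∑ i ∈ Finset.range (Q + 1), (-F) ^ i * (Q.choose i : MvPolynomial (Fin d) ℂ) := by
    have := add_pow (-F) 1 Q
    simp only [one_pow, mul_one] at this
    rw [← this]
    congr 1
    ring
  rw [h, Finset.sum_range_succ']
  simp only [pow_zero, Nat.choose_zero_right, Nat.cast_one, mul_one]
  have h2 : ∀ i ∈ Finset.range Q, (-F) ^ (i + 1) * ((Q.choose (i + 1) : ℕ) : MvPolynomial (Fin d) ℂ)
      = - (MvPolynomial.C ((-1 : ℂ) ^ i * (Q.choose (i + 1) : ℂ)) * F ^ (i + 1)) := by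
    intro i _
    rw [map_mul, map_pow, map_neg, map_one, map_natCast, neg_pow, pow_succ (-1 : MvPolynomial (Fin d) ℂ)]
    ring
  rw [Finset.sum_congr rfl h2, Finset.sum_neg_distrib]
  ring

theorem sum_choose_le (Q : ℕ) : ∑ i ∈ Finset.range Q, ((Q.choose (i + 1) : ℕ) : ℝ) ≤ 2 ^ Q := by
  have h := Nat.sum_range_choose Q
  rw [Finset.sum_range_succ'] at h
  have h2 : (∑ i ∈ Finset.range Q, Q.choose (i + 1)) ≤ 2 ^ Q := by omega
  exact_mod_cast h2

theorem norm_sign (i Q : ℕ) : ‖((-1 : ℂ) ^ i * (Q.choose (i + 1) : ℂ))‖ = (Q.choose (i + 1) : ℝ) := by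
  rw [norm_mul, norm_pow, norm_neg, norm_one, one_pow, one_mul]
  simp

end KernelAux

open KernelAux in
theorem kernel (C : Finset (Fin d)) (hC : C.Nonempty) (η : Fin d → ℕ) (T Q L : ℕ) (hL : 0 < L) :
    ∃ κ ω : MvPolynomial (Fin d) ℂ, κ = 1 - ω ^ Q ∧
      (∀ z : Fin d → ℂ, (∀ j ∈ C, z j = 1) → eval z ω = 0) ∧
      (∀ n ∈ κ.support, (∀ j ∉ C, n j = 0) ∧
        ∃ i : ℕ, 1 ≤ i ∧ i ≤ Q ∧ ∀ j ∈ C, i * η j * T * L ≤ n j ∧ n j ≤ i * (η j * T + 1) * L) ∧
      (∀ n ∈ ω.support, ∀ j ∉ C, n j = 0) ∧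
      (∑ n ∈ κ.support, ‖coeff n κ‖ ≤ 2 ^ Q) ∧
      (∀ n, ‖coeff n κ‖ ≤ 2 ^ Q / (L : ℝ) ^ C.card) := by
  classical
  have hL' : (0 : ℝ) < L := by exact_mod_cast hL
  refine ⟨1 - (1 - D η T L C) ^ Q, 1 - D η T L C, rfl, ?_, ?_, ?_, ?_, ?_⟩
  · intro z hz
    rw [map_sub, map_one, eval_D η T L hL C z hz, sub_self]
  · intro n hn
    rw [expand] at hn
    have h := support_sum hn
    rw [Finset.mem_biUnion] at h
    obtain ⟨i, hi, hn'⟩ := h
    have hn2 : n ∈ (D η T L C ^ (i + 1)).support := by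
      rw [MvPolynomial.mem_support_iff] at hn' ⊢
      intro h0
      apply hn'
      rw [coeff_C_mul, h0, mul_zero]
    obtain ⟨h1, h2⟩ := support_D_pow η T L C (i + 1) n hn2
    exact ⟨h1, i + 1, by omega, by rw [Finset.mem_range] at hi; omega, h2⟩
  · intro n hn j hj
    have h := MvPolynomial.support_sub (Fin d) (1 : MvPolynomial (Fin d) ℂ) (D η T L C) hn
    rw [Finset.mem_union] at h
    rcases h with h | h
    · have h2 : n ∈ ({0} : Finset (Fin d →₀ ℕ)) := by
        have : (1 : MvPolynomial (Fin d) ℂ) = monomial 0 1 := rfl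
        rw [this] at h
        exact support_monomial_subset h
      rw [Finset.mem_singleton] at h2
      subst h2
      simp
    · exact (support_D η T L C n h).1 j hj
  · change S (1 - (1 - D η T L C) ^ Q) ≤ 2 ^ Q
    rw [expand]
    refine (S_sum _ _).trans ?_
    refine le_trans (Finset.sum_le_sum fun i _ => ?_) (sum_choose_le Q)
    have h1 := S_monomial_mul 0 ((-1 : ℂ) ^ i * (Q.choose (i + 1) : ℂ)) (D η T L C ^ (i + 1))
    rw [norm_sign] at h1
    refine le_trans (le_of_eq ?_) (h1.trans ?_)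
    · rfl
    · have h2 := S_D_pow η T L hL C (i + 1)
      have h3 : (0 : ℝ) ≤ (Q.choose (i + 1) : ℝ) := by positivity
      nlinarith
  · intro n
    rw [expand, coeff_sum]
    refine (norm_sum_le _ _).trans ?_
    have h : ∀ i ∈ Finset.range Q,
        ‖coeff n (MvPolynomial.C ((-1 : ℂ) ^ i * (Q.choose (i + 1) : ℂ)) * D η T L C ^ (i + 1))‖
          ≤ (Q.choose (i + 1) : ℝ) * (1 / (L : ℝ) ^ C.card) := by
      intro i _
      rw [coeff_C_mul, norm_mul, norm_sign]
      exact mul_le_mul_of_nonneg_left (coeff_D_pow η T L hL C i n) (by positivity)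
    refine (Finset.sum_le_sum h).trans ?_
    rw [← Finset.sum_mul]
    calc (∑ i ∈ Finset.range Q, (Q.choose (i + 1) : ℝ)) * (1 / (L : ℝ) ^ C.card)
        ≤ 2 ^ Q * (1 / (L : ℝ) ^ C.card) :=
          mul_le_mul_of_nonneg_right (sum_choose_le Q) (by positivity)
      _ = 2 ^ Q / (L : ℝ) ^ C.card := by ring

end Pool.MP4ac1fb.Full
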