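import Mathlib

/-!
Stiemke's lemma.
-/

namespace Pool.MP4ac1fb.Full

/-- **Stiemke's lemma**: a subspace of `ℝ^ι` either has a strictly positive normal vector or
contains a nonzero nonnegative vector. -/
theorem stiemke {ι : Type*} [Fintype ι] (T : Submodule ℝ (ι → ℝ)) :
    (∃ n : ι → ℝ, (∀ j, 0 < n j) ∧ ∀ v ∈ T, ∑ j, n j * v j = 0) ∨
      (∃ v ∈ T, (∀ j, 0 ≤ v j) ∧ v ≠ 0) := by
  classical
  by_cases h : ∃ v ∈ T, (∀ j, 0 ≤ v j) ∧ v ≠ 0
  · exact Or.inr h
  left
  have hdisj : Disjoint (stdSimplex ℝ ι) (T : Set (ι → ℝ)) := by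
    rw [Set.disjoint_left]
    intro v hv hvT
    apply h
    refine ⟨v, hvT, hv.1, ?_⟩
    rintro rfl
    have := hv.2
    simp at this
  have hT : IsClosed (T : Set (ι → ℝ)) := T.closed_of_finiteDimensional
  obtain ⟨f, u, w, h1, h2, h3⟩ := geometric_hahn_banach_compact_closed (convex_stdSimplex ℝ ι)
    (isCompact_stdSimplex ℝ ι) T.convex hT hdisj
  have hw : w < 0 := by
    have := h3 0 T.zero_mem
    simpa using this
  have hfT : ∀ v ∈ T, f v = 0 := by
    intro v hv
    by_contra hne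
    have h4 := h3 (((w - 1) / f v) • v) (T.smul_mem _ hv)
    rw [map_smul, smul_eq_mul, div_mul_cancel₀ _ hne] at h4
    linarith
  refine ⟨fun j => - f (Pi.single j 1), fun j => ?_, fun v hv => ?_⟩
  · have h4 := h1 (Pi.single j 1) (single_mem_stdSimplex ℝ j)
    simp only [Left.neg_pos_iff]
    linarith
  · have h5 : v = ∑ j, v j • (Pi.single j (1:ℝ) : ι → ℝ) := by
      ext i
      simp [Finset.sum_apply, Pi.single_apply]
    have h6 := hfT v hv
    rw [h5, map_sum] at h6
    simp only [map_smul, smul_eq_mul] at h6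
    have h7 : ∑ j, -f (Pi.single j 1) * v j = - ∑ j, v j * f (Pi.single j 1) := by
      rw [← Finset.sum_neg_distrib]
      apply Finset.sum_congr rfl
      intro j _
      ring
    rw [h7, h6, neg_zero]

end Pool.MP4ac1fb.Full
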