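import Pool.Agent.H.MP_4ac1fb_an.Full.Defs
import Pool.Agent.H.MP_4ac1fb_an.Full.StiemkeSub

/-!
Linear algebra: normal supports, Stiemke's lemma, vector fields, constancy of the normal supports.
-/

namespace Pool.MP4ac1fb.Full

open scoped Matrix Topology

variable {d : ℕ}

theorem fderiv_apply_eq {m : ℕ} (ψ : (Fin m → ℝ) → (Fin d → ℝ)) (u w : Fin m → ℝ) (j : Fin d) :
    fderiv ℝ ψ u w j = row ψ u j ⬝ᵥ w := by
  have h : w = ∑ i, w i • (Pi.single i (1 : ℝ) : Fin m → ℝ) := by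
    ext i
    simp [Finset.sum_apply, Pi.single_apply]
  conv_lhs => rw [h, map_sum]
  rw [Finset.sum_apply, dotProduct]
  refine Finset.sum_congr rfl fun i _ => ?_
  rw [map_smul, Pi.smul_apply, smul_eq_mul, mul_comm]
  rfl

theorem normalSupport_iff {m : ℕ} (ψ : (Fin m → ℝ) → (Fin d → ℝ)) (u : Fin m → ℝ)
    (S : Finset (Fin d)) : NormalSupport (tangent ψ u) S ↔ PosSup (row ψ u) S := by
  classical
  constructor
  · rintro ⟨hS, n, h1, h2, h3⟩
    refine ⟨hS, n, h1, ?_⟩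
    ext i
    rw [Finset.sum_apply]
    have h := h3 (fderiv ℝ ψ u (Pi.single i 1)) ⟨Pi.single i 1, rfl⟩
    rw [← Finset.sum_subset (Finset.subset_univ S)] at h
    · simpa [row, Pi.smul_apply, smul_eq_mul] using h
    · intro j _ hj
      rw [h2 j hj, zero_mul]
  · rintro ⟨hS, n, h1, h2⟩
    refine ⟨hS, fun j => if j ∈ S then n j else 0, fun j hj => by simpa [hj] using h1 j hj,
      fun j hj => by simp [hj], ?_⟩
    rintro v ⟨w, rfl⟩
    have h : ∀ j, (if j ∈ S then n j else 0) *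
        (fderiv ℝ ψ u : (Fin m → ℝ) →ₗ[ℝ] (Fin d → ℝ)) w j =
        if j ∈ S then n j * (row ψ u j ⬝ᵥ w) else 0 := by
      intro j
      rw [ContinuousLinearMap.coe_coe, fderiv_apply_eq]
      split_ifs <;> simp
    simp_rw [h]
    rw [Finset.sum_ite_mem, Finset.univ_inter]
    have h4 : (∑ j ∈ S, n j • row ψ u j) ⬝ᵥ w = 0 := by rw [h2, zero_dotProduct]
    rw [sum_dotProduct] at h4
    simpa [smul_dotProduct, smul_eq_mul] using h4

theorem projDim_eq {m : ℕ} (ψ : (Fin m → ℝ) → (Fin d → ℝ)) (u : Fin m → ℝ)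
    (S : Finset (Fin d)) : projDim (tangent ψ u) S = rkk (row ψ u) S := by
  classical
  set M : Matrix S (Fin m) ℝ := Matrix.of fun j i => row ψ u j i with hM
  have h1 : (tangent ψ u).map (LinearMap.funLeft ℝ ℝ (Subtype.val : S → Fin d)) =
      LinearMap.range M.mulVecLin := by
    rw [tangent, ← LinearMap.range_comp]
    congr 1
    apply LinearMap.ext
    intro w
    ext j
    change fderiv ℝ ψ u w j = (M *ᵥ w) j
    rw [fderiv_apply_eq]
    rfl
  rw [projDim, h1, rkk]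
  have h2 := Matrix.rank_eq_finrank_span_row M
  rw [Matrix.rank] at h2
  rw [h2]
  have h3 : Set.range M.row = row ψ u '' (S : Set (Fin d)) := by
    ext x
    constructor
    · rintro ⟨j, rfl⟩
      exact ⟨j, j.2, rfl⟩
    · rintro ⟨j, hj, rfl⟩
      exact ⟨⟨j, hj⟩, rfl⟩
  rw [h3]

theorem rkk_univ {m : ℕ} (ψ : (Fin m → ℝ) → (Fin d → ℝ)) (u : Fin m → ℝ)
    (h : Function.Injective (fderiv ℝ ψ u)) : rkk (row ψ u) Finset.univ = m := by
  rw [← projDim_eq, projDim, tangent, ← LinearMap.range_comp, LinearMap.finrank_range_of_inj]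
  · simp
  · intro x y hxy
    apply h
    ext j
    exact congrFun hxy ⟨j, Finset.mem_univ j⟩

private theorem rkk_le_of_matroid {m : ℕ} {R R' : Fin d → (Fin m → ℝ)} (S : Finset (Fin d))
    (h : ∀ T ⊆ S, (LinearIndepOn ℝ R (T : Set (Fin d)) → LinearIndepOn ℝ R' (T : Set (Fin d)))) :
    rkk R S ≤ rkk R' S := by
  classical
  obtain ⟨b, hbS, -, hspan, hind⟩ := exists_linearIndepOn_extension
    (linearIndepOn_empty ℝ R) (Set.empty_subset (S : Set (Fin d)))
  have hbf : b = ((S.filter (· ∈ b) : Finset (Fin d)) : Set (Fin d)) := by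
    ext x
    simp only [Finset.coe_filter, Set.mem_ofPred_eq]
    exact ⟨fun hx => ⟨hbS hx, hx⟩, fun hx => hx.2⟩
  set T := S.filter (· ∈ b) with hT
  rw [hbf] at hspan hind
  have h1 : rkk R S = T.card := by
    have h2 : Submodule.span ℝ (R '' (S : Set (Fin d))) =
        Submodule.span ℝ (R '' (T : Set (Fin d))) := by
      apply le_antisymm
      · exact Submodule.span_le.2 hspan
      · exact Submodule.span_mono (Set.image_mono (by exact_mod_cast Finset.filter_subset _ _))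
    rw [rkk, h2, Set.image_eq_range, finrank_span_eq_card hind]
    simp
  have h3 : T.card ≤ rkk R' S := by
    have h4 := h T (Finset.filter_subset _ _) hind
    have h5 : Module.finrank ℝ (Submodule.span ℝ (R' '' (T : Set (Fin d)))) = T.card := by
      rw [Set.image_eq_range, finrank_span_eq_card h4]
      simp
    rw [← h5]
    exact Submodule.finrank_mono
      (Submodule.span_mono (Set.image_mono (by exact_mod_cast Finset.filter_subset _ _)))
  omega

/-- The rank only depends on the matroid. -/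
theorem rkk_eq_of_matroid {m : ℕ} {R R' : Fin d → (Fin m → ℝ)} (S : Finset (Fin d))
    (h : ∀ T ⊆ S, (LinearIndepOn ℝ R (T : Set (Fin d)) ↔ LinearIndepOn ℝ R' (T : Set (Fin d)))) :
    rkk R S = rkk R' S :=
  le_antisymm (rkk_le_of_matroid S fun T hT => (h T hT).1)
    (rkk_le_of_matroid S fun T hT => (h T hT).2)

theorem analyticOnNhd_row {m : ℕ} {U : Set (Fin m → ℝ)} {ψ : (Fin m → ℝ) → (Fin d → ℝ)}
    (hψ : AnalyticOnNhd ℝ ψ U) (j : Fin d) : AnalyticOnNhd ℝ (fun u => row ψ u j) U := by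
  have h : AnalyticOnNhd ℝ (fun (u : Fin m → ℝ) (i : Fin m) => row ψ u j i) U := by
    apply AnalyticOnNhd.pi
    intro i
    exact ((ContinuousLinearMap.proj (R := ℝ) (φ := fun _ : Fin d => ℝ) j).comp
      (ContinuousLinearMap.apply ℝ (Fin d → ℝ) (Pi.single i (1 : ℝ) : Fin m → ℝ))).comp_analyticOnNhd
      hψ.fderiv
  exact h

/-- Stiemke's lemma for the rows of a matrix. -/
theorem stiemke_rows {m : ℕ} (R : Fin d → (Fin m → ℝ)) (S : Finset (Fin d)) (hS : S.Nonempty)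
    (h : ¬ PosSup R S) : ∃ w : Fin m → ℝ, (∀ j ∈ S, 0 ≤ R j ⬝ᵥ w) ∧ ∃ j ∈ S, 0 < R j ⬝ᵥ w := by
  classical
  set M : Matrix S (Fin m) ℝ := Matrix.of fun j i => R j i with hM
  have hMw : ∀ (w : Fin m → ℝ) (j : S), (M *ᵥ w) j = R j ⬝ᵥ w := fun w j => rfl
  rcases stiemke (LinearMap.range M.mulVecLin) with ⟨n, h1, h2⟩ | ⟨v, ⟨w, rfl⟩, h1, h2⟩
  · exfalso
    apply h
    refine ⟨hS, fun j => if hj : j ∈ S then n ⟨j, hj⟩ else 0, fun j hj => by simp [hj, h1], ?_⟩
    have h3 : ∀ w : Fin m → ℝ,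
        (∑ j ∈ S, (if hj : j ∈ S then n ⟨j, hj⟩ else 0) • R j) ⬝ᵥ w = 0 := by
      intro w
      have h4 := h2 (M.mulVecLin w) ⟨w, rfl⟩
      rw [sum_dotProduct, ← Finset.sum_coe_sort]
      refine Eq.trans (Finset.sum_congr rfl fun j _ => ?_) h4
      rw [Matrix.mulVecLin_apply, hMw, smul_dotProduct, smul_eq_mul, dif_pos j.2]
    ext i
    have h5 := h3 (Pi.single i 1)
    simpa using h5
  · refine ⟨w, fun j hj => h1 ⟨j, hj⟩, ?_⟩
    by_contra hne
    push Not at hne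
    apply h2
    ext j
    exact le_antisymm (hne j j.2) (h1 j)

/-! ### Orthogonal projections with analytic parameters -/

private theorem analyticAt_dot {E : Type*} [NormedAddCommGroup E] [NormedSpace ℝ E] {m : ℕ}
    {f g : E → (Fin m → ℝ)} {x : E} (hf : AnalyticAt ℝ f x) (hg : AnalyticAt ℝ g x) :
    AnalyticAt ℝ (fun u => f u ⬝ᵥ g u) x := by
  simp only [dotProduct]
  refine Finset.analyticAt_fun_sum _ fun i _ => ?_
  have h : ∀ e : E → (Fin m → ℝ), AnalyticAt ℝ e x → AnalyticAt ℝ (fun u => e u i) x :=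
    fun e he => ((ContinuousLinearMap.proj (R := ℝ) (φ := fun _ : Fin m => ℝ) i).analyticAt _).comp he
  exact (h f hf).mul (h g hg)

private theorem analyticAt_det {E : Type*} [NormedAddCommGroup E] [NormedSpace ℝ E] {n : Type*}
    [Fintype n] [DecidableEq n] {M : E → Matrix n n ℝ} {x : E}
    (hM : ∀ i j, AnalyticAt ℝ (fun u => M u i j) x) : AnalyticAt ℝ (fun u => (M u).det) x := by
  simp_rw [Matrix.det_apply']
  refine Finset.analyticAt_fun_sum _ fun σ _ => ?_
  exact analyticAt_const.mul (Finset.analyticAt_fun_prod _ fun i _ => hM _ _)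

private theorem analyticAt_adjugate {E : Type*} [NormedAddCommGroup E] [NormedSpace ℝ E]
    {n : Type*} [Fintype n] [DecidableEq n] {M : E → Matrix n n ℝ} {x : E}
    (hM : ∀ i j, AnalyticAt ℝ (fun u => M u i j) x) (i j : n) :
    AnalyticAt ℝ (fun u => (M u).adjugate i j) x := by
  simp_rw [Matrix.adjugate_apply]
  refine analyticAt_det fun k l => ?_
  simp only [Matrix.updateRow_apply]
  split_ifs
  · exact analyticAt_const
  · exact hM _ _

/-- The orthogonal projection of `v u` to the span of `R u i`, `i ∈ T`, up to the factor `D u`. -/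
theorem exists_proj {m : ℕ} (R : (Fin m → ℝ) → Fin d → (Fin m → ℝ)) (u₀ : Fin m → ℝ)
    (hR : ∀ j, AnalyticAt ℝ (fun u => R u j) u₀) (T : Finset (Fin d))
    (hT : LinearIndepOn ℝ (R u₀) (T : Set (Fin d))) (v : (Fin m → ℝ) → (Fin m → ℝ))
    (hv : AnalyticAt ℝ v u₀) :
    ∃ (D : (Fin m → ℝ) → ℝ) (p : (Fin m → ℝ) → Fin d → ℝ), AnalyticAt ℝ D u₀ ∧ 0 < D u₀ ∧
      (∀ i, AnalyticAt ℝ (fun u => p u i) u₀) ∧
      (∀ u, ∀ k ∈ T, R u k ⬝ᵥ (D u • v u - ∑ i ∈ T, p u i • R u i) = 0) ∧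
      ((∀ k ∈ T, R u₀ k ⬝ᵥ v u₀ = 0) → ∀ i, p u₀ i = 0) := by
  classical
  set G : (Fin m → ℝ) → Matrix T T ℝ := fun u => Matrix.of fun i k => R u i ⬝ᵥ R u k with hG
  have hGan : ∀ i j, AnalyticAt ℝ (fun u => G u i j) u₀ := fun i j => analyticAt_dot (hR i) (hR j)
  set D₀ : (Fin m → ℝ) → ℝ := fun u => (G u).det with hD₀
  set p₀ : (Fin m → ℝ) → T → ℝ := fun u => (G u).adjugate *ᵥ (fun k => R u k ⬝ᵥ v u) with hp₀
  have hD₀an : AnalyticAt ℝ D₀ u₀ := analyticAt_det hGan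
  have hp₀an : ∀ i, AnalyticAt ℝ (fun u => p₀ u i) u₀ := by
    intro i
    simp only [hp₀, Matrix.mulVec, dotProduct]
    refine Finset.analyticAt_fun_sum _ fun k _ => ?_
    exact (analyticAt_adjugate hGan i k).mul (analyticAt_dot (hR k) hv)
  have hGp : ∀ u, G u *ᵥ p₀ u = D₀ u • (fun k : T => R u k ⬝ᵥ v u) := by
    intro u
    rw [hp₀, Matrix.mulVec_mulVec, Matrix.mul_adjugate, Matrix.smul_mulVec, Matrix.one_mulVec]
  have hdet : D₀ u₀ ≠ 0 := by
    intro h0
    obtain ⟨x, hx, hGx⟩ := Matrix.exists_mulVec_eq_zero_iff.2 h0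
    apply hx
    have h1 : (∑ i : T, x i • R u₀ i) ⬝ᵥ (∑ i : T, x i • R u₀ i) = 0 := by
      rw [sum_dotProduct]
      apply Finset.sum_eq_zero
      intro k _
      rw [smul_dotProduct, dotProduct_sum]
      have h2 := congrFun hGx k
      simp only [Matrix.mulVec, dotProduct, Pi.zero_apply] at h2
      rw [show (∑ i : T, R u₀ k ⬝ᵥ (x i • R u₀ i)) = ∑ i : T, G u₀ k i * x i from
        Finset.sum_congr rfl fun i _ => by
          rw [dotProduct_smul, smul_eq_mul, mul_comm]; rfl]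
      rw [h2, smul_zero]
    have h3 : ∑ i : T, x i • R u₀ i = 0 := dotProduct_self_eq_zero.1 h1
    have h4 := Fintype.linearIndependent_iff.1 hT x h3
    funext i
    exact h4 i
  refine ⟨fun u => D₀ u₀ * D₀ u, fun u i => if hi : i ∈ T then D₀ u₀ * p₀ u ⟨i, hi⟩ else 0,
    analyticAt_const.mul hD₀an, mul_self_pos.2 hdet, ?_, ?_, ?_⟩
  · intro i
    by_cases hi : i ∈ T
    · simp only [hi, dite_true]
      exact analyticAt_const.mul (hp₀an _)
    · simp only [hi, dite_false]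
      exact analyticAt_const
  · intro u k hk
    rw [dotProduct_sub, dotProduct_smul, dotProduct_sum, ← Finset.sum_coe_sort]
    have h1 := congrFun (hGp u) ⟨k, hk⟩
    simp only [Matrix.mulVec, dotProduct, Pi.smul_apply, smul_eq_mul] at h1
    have h2 : ∑ i : T, R u k ⬝ᵥ ((if hi : (i : Fin d) ∈ T then D₀ u₀ * p₀ u ⟨i, hi⟩ else 0) • R u i)
        = D₀ u₀ * ∑ i : T, G u ⟨k, hk⟩ i * p₀ u i := by
      rw [Finset.mul_sum]
      refine Finset.sum_congr rfl fun i _ => ?_
      rw [dotProduct_smul, smul_eq_mul, dif_pos i.2]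
      change D₀ u₀ * p₀ u i * (R u k ⬝ᵥ R u i) = D₀ u₀ * ((R u k ⬝ᵥ R u i) * p₀ u i)
      ring
    rw [h2, h1, smul_eq_mul]
    change D₀ u₀ * D₀ u * (R u k ⬝ᵥ v u) - D₀ u₀ * (D₀ u * (R u k ⬝ᵥ v u)) = 0
    ring
  · intro h i
    by_cases hi : i ∈ T
    · simp only [hi, dite_true, mul_eq_zero]
      right
      have h1 : (fun k : T => R u₀ k ⬝ᵥ v u₀) = 0 := by
        funext k
        exact h k k.2
      rw [hp₀]
      simp only
      rw [h1, Matrix.mulVec_zero]
      rfl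
    · simp [hi]

private theorem mem_span_of_matroid {m : ℕ} {R R' : Fin d → (Fin m → ℝ)}
    (h : ∀ T : Finset (Fin d),
      (LinearIndepOn ℝ R' (T : Set (Fin d)) ↔ LinearIndepOn ℝ R (T : Set (Fin d))))
    (T : Finset (Fin d)) (hT : LinearIndepOn ℝ R (T : Set (Fin d))) (j : Fin d)
    (hj : R j ∈ Submodule.span ℝ (R '' (T : Set (Fin d)))) :
    R' j ∈ Submodule.span ℝ (R' '' (T : Set (Fin d))) := by
  classical
  by_cases hjT : j ∈ T
  · exact Submodule.subset_span ⟨j, hjT, rfl⟩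
  by_contra hne
  have h1 : LinearIndepOn ℝ R' (insert j (T : Set (Fin d))) :=
    (linearIndepOn_insert (by simpa using hjT)).2 ⟨(h T).2 hT, hne⟩
  have h2 : LinearIndepOn ℝ R' ((insert j T : Finset (Fin d)) : Set (Fin d)) := by
    simpa using h1
  have h3 := (h _).1 h2
  rw [Finset.coe_insert, linearIndepOn_insert (by simpa using hjT)] at h3
  exact h3.2 hj

private theorem exists_basis_finset {m : ℕ} (R : Fin d → (Fin m → ℝ)) (Z : Finset (Fin d)) :
    ∃ T ⊆ Z, LinearIndepOn ℝ R (T : Set (Fin d)) ∧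
      ∀ j ∈ Z, R j ∈ Submodule.span ℝ (R '' (T : Set (Fin d))) := by
  classical
  obtain ⟨b, hbS, -, hspan, hind⟩ := exists_linearIndepOn_extension
    (linearIndepOn_empty ℝ R) (Set.empty_subset (Z : Set (Fin d)))
  have hbf : b = ((Z.filter (· ∈ b) : Finset (Fin d)) : Set (Fin d)) := by
    ext x
    simp only [Finset.coe_filter, Set.mem_ofPred_eq]
    exact ⟨fun hx => ⟨hbS hx, hx⟩, fun hx => hx.2⟩
  refine ⟨Z.filter (· ∈ b), Finset.filter_subset _ _, by rwa [← hbf], ?_⟩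
  rw [← hbf]
  exact fun j hj => hspan ⟨j, hj, rfl⟩

private theorem dot_eq_zero_of_mem_span {m : ℕ} {s : Set (Fin m → ℝ)} {w x : Fin m → ℝ}
    (hs : ∀ y ∈ s, y ⬝ᵥ w = 0) (hx : x ∈ Submodule.span ℝ s) : x ⬝ᵥ w = 0 := by
  induction hx using Submodule.span_induction with
  | mem y hy => exact hs y hy
  | zero => exact zero_dotProduct _
  | add y z _ _ hy hz => rw [add_dotProduct, hy, hz, add_zero]
  | smul a y _ hy => rw [smul_dotProduct, hy, smul_zero]

/-- Analytic version of Stiemke's lemma with parameters. -/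
theorem exists_field {m : ℕ} (R : (Fin m → ℝ) → Fin d → (Fin m → ℝ)) (u₀ : Fin m → ℝ)
    (hR : ∀ j, AnalyticAt ℝ (fun u => R u j) u₀)
    (hloc : ∀ T : Finset (Fin d), ∀ᶠ u in 𝓝 u₀,
      (LinearIndepOn ℝ (R u) (T : Set (Fin d)) ↔ LinearIndepOn ℝ (R u₀) (T : Set (Fin d))))
    (S : Finset (Fin d)) (hS : S.Nonempty) (h : ¬ PosSup (R u₀) S) :
    ∃ w : (Fin m → ℝ) → (Fin m → ℝ), AnalyticAt ℝ w u₀ ∧ ∃ Z ⊆ S, Z ≠ S ∧
      (∀ᶠ u in 𝓝 u₀, ∀ j ∈ Z, R u j ⬝ᵥ w u = 0) ∧ ∀ j ∈ S \ Z, 0 < R u₀ j ⬝ᵥ w u₀ := by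
  classical
  obtain ⟨w₀, h1, j₀, hj₀, h2⟩ := stiemke_rows (R u₀) S hS h
  set Z := S.filter (fun j => R u₀ j ⬝ᵥ w₀ = 0) with hZ
  obtain ⟨T, hTZ, hT, hspan⟩ := exists_basis_finset (R u₀) Z
  obtain ⟨D, p, hD, hD0, hp, hort, hp0⟩ :=
    exists_proj R u₀ hR T hT (fun _ => w₀) analyticAt_const
  have hall : ∀ᶠ u in 𝓝 u₀, ∀ T : Finset (Fin d),
      (LinearIndepOn ℝ (R u) (T : Set (Fin d)) ↔ LinearIndepOn ℝ (R u₀) (T : Set (Fin d))) :=
    Filter.eventually_all.2 hloc
  have hpz : ∀ i, p u₀ i = 0 := by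
    apply hp0
    intro k hk
    exact (Finset.mem_filter.1 (hTZ hk)).2
  refine ⟨fun u => D u • w₀ - ∑ i ∈ T, p u i • R u i, ?_, Z, Finset.filter_subset _ _, ?_, ?_, ?_⟩
  · refine (hD.smul analyticAt_const).sub ?_
    exact Finset.analyticAt_fun_sum _ fun i _ => (hp i).smul (hR i)
  · intro he
    have : j₀ ∈ Z := by rw [he]; exact hj₀
    rw [(Finset.mem_filter.1 this).2] at h2
    exact lt_irrefl _ h2
  · filter_upwards [hall] with u hu j hj
    apply dot_eq_zero_of_mem_span _ (mem_span_of_matroid hu T hT j (hspan j hj))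
    rintro y ⟨k, hk, rfl⟩
    exact hort u k hk
  · intro j hj
    rw [Finset.mem_sdiff, Finset.mem_filter, not_and] at hj
    have h3 : R u₀ j ⬝ᵥ (D u₀ • w₀ - ∑ i ∈ T, p u₀ i • R u₀ i) = D u₀ * (R u₀ j ⬝ᵥ w₀) := by
      simp [hpz, dotProduct_smul]
    simp only
    rw [h3]
    exact mul_pos hD0 (lt_of_le_of_ne (h1 j hj.1) (Ne.symm (hj.2 hj.1)))

/-- If the matroid is constant on a connected open set then so are the normal supports. -/
theorem posSup_const {m : ℕ} {U : Set (Fin m → ℝ)} (hU : IsOpen U) (hpre : IsPreconnected U)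
    (R : (Fin m → ℝ) → Fin d → (Fin m → ℝ)) (hR : ∀ j, AnalyticOnNhd ℝ (fun u => R u j) U)
    (hM : ∀ T : Finset (Fin d), (∀ u ∈ U, LinearIndepOn ℝ (R u) (T : Set (Fin d))) ∨
      (∀ u ∈ U, ¬ LinearIndepOn ℝ (R u) (T : Set (Fin d))))
    (S : Finset (Fin d)) {u u' : Fin m → ℝ} (hu : u ∈ U) (hu' : u' ∈ U) (h : PosSup (R u) S) :
    PosSup (R u') S := by
  classical
  have hS : S.Nonempty := h.1
  have hiff : ∀ x ∈ U, ∀ y ∈ U, ∀ T : Finset (Fin d),
      (LinearIndepOn ℝ (R y) (T : Set (Fin d)) ↔ LinearIndepOn ℝ (R x) (T : Set (Fin d))) := by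
    intro x hx y hy T
    rcases hM T with h1 | h1
    · exact iff_of_true (h1 y hy) (h1 x hx)
    · exact iff_of_false (h1 y hy) (h1 x hx)
  -- the set where `S` is a positive support is open
  have hA : IsOpen {x | x ∈ U ∧ PosSup (R x) S} := by
    rw [isOpen_iff_mem_nhds]
    rintro x ⟨hx, -, n, hn, hsum⟩
    obtain ⟨T, hTS, hT, hspan⟩ := exists_basis_finset (R x) S
    have hv : AnalyticAt ℝ (fun y => ∑ j ∈ S, n j • R y j) x :=
      Finset.analyticAt_fun_sum _ fun j _ => analyticAt_const.fun_smul (hR j x hx)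
    obtain ⟨D, p, hD, hD0, hp, hort, hp0⟩ :=
      exists_proj R x (fun j => hR j x hx) T hT (fun y => ∑ j ∈ S, n j • R y j) hv
    have hpz : ∀ i, p x i = 0 := by
      apply hp0
      intro k _
      rw [hsum, dotProduct_zero]
    have hpos : ∀ᶠ y in 𝓝 x, ∀ j ∈ S, 0 < D y * n j - p y j := by
      rw [Finset.eventually_all]
      intro j hj
      have hc : ContinuousAt (fun y => D y * n j - p y j) x :=
        ((hD.continuousAt.mul continuousAt_const)).sub (hp j).continuousAt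
      apply hc.eventually_const_lt
      simp only [hpz, sub_zero]
      exact mul_pos hD0 (hn j hj)
    have hDpos : ∀ᶠ y in 𝓝 x, 0 < D y := hD.continuousAt.eventually_const_lt hD0
    filter_upwards [hpos, hDpos, hU.mem_nhds hx] with y hy hDy hyU
    refine ⟨hyU, hS, fun j => D y * n j - (if j ∈ T then p y j else 0), ?_, ?_⟩
    · intro j hj
      by_cases hjT : j ∈ T
      · simpa [hjT] using hy j hj
      · simpa [hjT] using mul_pos hDy (hn j hj)
    · set δ : Fin m → ℝ := D y • (∑ j ∈ S, n j • R y j) - ∑ i ∈ T, p y i • R y i with hδ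
      have h1 : ∑ j ∈ S, (D y * n j - (if j ∈ T then p y j else 0)) • R y j = δ := by
        rw [hδ, Finset.smul_sum]
        simp_rw [sub_smul, Finset.sum_sub_distrib, mul_smul, ite_smul, zero_smul]
        rw [Finset.sum_ite_mem, Finset.inter_eq_right.2 hTS]
      rw [h1]
      have h2 : ∀ k ∈ T, R y k ⬝ᵥ δ = 0 := hort y
      have h3 : δ ∈ Submodule.span ℝ (R y '' (T : Set (Fin d))) := by
        apply Submodule.sub_mem
        · apply Submodule.smul_mem
          apply Submodule.sum_mem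
          intro j hj
          exact Submodule.smul_mem _ _ (mem_span_of_matroid (hiff x hx y hyU) T hT j (hspan j hj))
        · apply Submodule.sum_mem
          intro j hj
          exact Submodule.smul_mem _ _ (Submodule.subset_span ⟨j, hj, rfl⟩)
      have h4 : δ ⬝ᵥ δ = 0 := by
        apply dot_eq_zero_of_mem_span _ h3
        rintro z ⟨k, hk, rfl⟩
        exact h2 k hk
      exact dotProduct_self_eq_zero.1 h4
  -- the complement is open too
  have hB : IsOpen {x | x ∈ U ∧ ¬ PosSup (R x) S} := by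
    rw [isOpen_iff_mem_nhds]
    rintro x ⟨hx, hn⟩
    obtain ⟨w, hw, Z, hZS, hne, hzero, hpos⟩ := exists_field R x (fun j => hR j x hx)
      (fun T => Filter.mem_of_superset (hU.mem_nhds hx) fun y hy => hiff x hx y hy T) S hS hn
    have hpos' : ∀ᶠ y in 𝓝 x, ∀ j ∈ S \ Z, 0 < R y j ⬝ᵥ w y := by
      rw [Finset.eventually_all]
      intro j hj
      exact (analyticAt_dot (hR j x hx) hw).continuousAt.eventually_const_lt (hpos j hj)
    filter_upwards [hzero, hpos', hU.mem_nhds hx] with y hy1 hy2 hyU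
    refine ⟨hyU, ?_⟩
    rintro ⟨-, n, hn1, hn2⟩
    obtain ⟨j₁, hj₁⟩ : (S \ Z).Nonempty := by
      rw [Finset.sdiff_nonempty]
      intro hsub
      exact hne (Finset.Subset.antisymm hZS hsub)
    have h1 : (∑ j ∈ S, n j • R y j) ⬝ᵥ w y = 0 := by rw [hn2, zero_dotProduct]
    rw [sum_dotProduct] at h1
    have h2 : 0 < ∑ j ∈ S, (n j • R y j) ⬝ᵥ w y := by
      apply Finset.sum_pos'
      · intro j hj
        rw [smul_dotProduct, smul_eq_mul]
        by_cases hjZ : j ∈ Z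
        · rw [hy1 j hjZ, mul_zero]
        · exact (mul_pos (hn1 j hj) (hy2 j (Finset.mem_sdiff.2 ⟨hj, hjZ⟩))).le
      · refine ⟨j₁, (Finset.mem_sdiff.1 hj₁).1, ?_⟩
        rw [smul_dotProduct, smul_eq_mul]
        exact mul_pos (hn1 j₁ (Finset.mem_sdiff.1 hj₁).1) (hy2 j₁ hj₁)
    rw [h1] at h2
    exact lt_irrefl _ h2
  rcases isPreconnected_iff_subset_of_disjoint.1 hpre _ _ hA hB
    (fun x hx => by
      by_cases hp : PosSup (R x) S
      · exact Or.inl ⟨hx, hp⟩
      · exact Or.inr ⟨hx, hp⟩)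
    (by
      ext x
      simp only [Set.mem_inter_iff, Set.mem_ofPred_eq, Set.mem_empty_iff_false, iff_false, not_and]
      rintro _ ⟨_, h1⟩ _
      exact absurd h1) with h1 | h1
  · exact (h1 hu').2
  · exact absurd h (h1 hu).2

end Pool.MP4ac1fb.Full
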