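import Pool.Agent.H.MP_4ac1fb_an.Full.Defs

/-!
Local structure of a chart with constant matroid in the coordinates of a normal support.
-/

namespace Pool.MP4ac1fb.Full

open scoped Topology

variable {d : ℕ}

namespace LG

/-- expansion of the derivative by rows -/
lemma fderiv_apply_row {m : ℕ} (ψ : (Fin m → ℝ) → (Fin d → ℝ)) (u w : Fin m → ℝ) (j : Fin d) :
    fderiv ℝ ψ u w j = ∑ k, w k * row ψ u j k := by
  have h : w = ∑ k, w k • (Pi.single k (1 : ℝ) : Fin m → ℝ) := by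
    funext i
    simp [Finset.sum_apply, Pi.single_apply]
  conv_lhs => rw [h]
  rw [map_sum, Finset.sum_apply]
  refine Finset.sum_congr rfl fun k _ => ?_
  rw [map_smul, Pi.smul_apply, smul_eq_mul]
  rfl

lemma exists_max_indep {m : ℕ} (R : Fin d → (Fin m → ℝ)) (B₁ S : Finset (Fin d)) (hBS : B₁ ⊆ S)
    (hB₁ : LinearIndepOn ℝ R (B₁ : Set (Fin d))) :
    ∃ B : Finset (Fin d), B₁ ⊆ B ∧ B ⊆ S ∧ LinearIndepOn ℝ R (B : Set (Fin d)) ∧
      ∀ j ∈ S, R j ∈ Submodule.span ℝ (R '' (B : Set (Fin d))) := by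
  classical
  obtain ⟨B, hB, hmax⟩ := Finset.exists_max_image
    (S.powerset.filter fun B => B₁ ⊆ B ∧ LinearIndepOn ℝ R (B : Set (Fin d))) Finset.card
    ⟨B₁, by
      simp only [Finset.mem_filter, Finset.mem_powerset]
      exact ⟨hBS, Finset.Subset.refl _, hB₁⟩⟩
  simp only [Finset.mem_filter, Finset.mem_powerset] at hB hmax
  refine ⟨B, hB.2.1, hB.1, hB.2.2, fun j hj => ?_⟩
  by_cases hjB : j ∈ B
  · exact Submodule.subset_span ⟨j, hjB, rfl⟩
  by_contra hn
  have h1 : LinearIndepOn ℝ R ((insert j B : Finset (Fin d)) : Set (Fin d)) := by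
    rw [Finset.coe_insert, linearIndepOn_insert (by simpa using hjB)]
    exact ⟨hB.2.2, hn⟩
  have h2 := hmax (insert j B)
    ⟨Finset.insert_subset hj hB.1, hB.2.1.trans (Finset.subset_insert _ _), h1⟩
  rw [Finset.card_insert_of_notMem hjB] at h2
  omega

lemma rkk_of_max {m : ℕ} (R : Fin d → (Fin m → ℝ)) (B S : Finset (Fin d)) (hBS : B ⊆ S)
    (hB : LinearIndepOn ℝ R (B : Set (Fin d)))
    (hsp : ∀ j ∈ S, R j ∈ Submodule.span ℝ (R '' (B : Set (Fin d)))) :
    rkk R S = B.card := by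
  unfold rkk
  have h1 : Submodule.span ℝ (R '' (S : Set (Fin d))) =
      Submodule.span ℝ (R '' (B : Set (Fin d))) := by
    apply le_antisymm
    · rw [Submodule.span_le]
      rintro _ ⟨j, hj, rfl⟩
      exact hsp j hj
    · exact Submodule.span_mono (Set.image_mono hBS)
  rw [h1, Set.image_eq_range]
  have h2 := finrank_span_eq_card (R := ℝ)
    (hB : LinearIndependent ℝ fun x : (B : Set (Fin d)) => R x)
  rw [h2]
  simp

/-- a function with zero derivative along a segment -/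
lemma const_of_fderiv {m : ℕ} (F : (Fin m → ℝ) → (Fin d → ℝ)) (v₀ : Fin m → ℝ) (r : ℝ)
    (hF : ∀ v ∈ Metric.ball v₀ r, DifferentiableAt ℝ F v) (j : Fin d) (v v' : Fin m → ℝ)
    (hv : v ∈ Metric.ball v₀ r) (hv' : v' ∈ Metric.ball v₀ r)
    (h0 : ∀ y ∈ Metric.ball v₀ r, fderiv ℝ F y (v' - v) j = 0) : F v j = F v' j := by
  have hseg : ∀ s ∈ Set.Icc (0 : ℝ) 1, v + s • (v' - v) ∈ Metric.ball v₀ r := by
    intro s hs
    exact (convex_ball v₀ r).add_smul_sub_mem hv hv' hs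
  have hder : ∀ s ∈ Set.Icc (0 : ℝ) 1,
      HasDerivAt (fun s : ℝ => F (v + s • (v' - v)) j) 0 s := by
    intro s hs
    have h1 : HasFDerivAt F (fderiv ℝ F (v + s • (v' - v))) (v + s • (v' - v)) :=
      (hF _ (hseg s hs)).hasFDerivAt
    have h2 : HasDerivAt (fun s : ℝ => v + s • (v' - v)) (v' - v) s := by
      simpa using ((hasDerivAt_id s).smul_const (v' - v)).const_add v
    have h3 := h1.comp_hasDerivAt s h2
    have h4 := (hasDerivAt_pi.mp h3) j
    rw [h0 _ (hseg s hs)] at h4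
    exact h4
  have h1 := constant_of_has_deriv_right_zero (f := fun s : ℝ => F (v + s • (v' - v)) j)
    (a := 0) (b := 1) (fun s hs => (hder s hs).continuousAt.continuousWithinAt)
    (fun s hs => (hder s ⟨hs.1, hs.2.le⟩).hasDerivWithinAt) 1 ⟨zero_le_one, le_rfl⟩
  simpa using h1.symm

end LG

open LG in
theorem local_graph {m : ℕ} {U : Set (Fin m → ℝ)} {ψ : (Fin m → ℝ) → (Fin d → ℝ)}
    {B₀ : Fin m → Fin d} (hc : GraphChart U ψ B₀) (hM : MatroidConst U ψ) {u₀ : Fin m → ℝ}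
    (hu₀ : u₀ ∈ U) (S : Finset (Fin d)) (hS : PosSup (row ψ u₀) S) (t : ℝ)
    (ht : (rkk (row ψ u₀) S : ℝ) ≤ (1 - t) * S.card) :
    ∃ B C : Finset (Fin d), Disjoint B C ∧ C.Nonempty ∧ t * (B.card + C.card) ≤ C.card ∧
      ∃ Ψ : (Fin d → ℝ) → (Fin d → ℝ), AnalyticAt ℝ Ψ (ψ u₀) ∧
        (∀ j ∈ C, ∀ θ θ' : Fin d → ℝ, (∀ i ∈ B, θ i = θ' i) → Ψ θ j = Ψ θ' j) ∧
        (∃ O ∈ nhds (ψ u₀), ∀ θ ∈ O ∩ ψ '' U, ∀ j ∈ C, θ j = Ψ θ j) ∧
        ∃ η : Fin d → ℝ, (∀ j ∈ C, 0 < η j) ∧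
          ∀ i ∈ B, 0 < -∑ j ∈ C, η j * fderiv ℝ Ψ (ψ u₀) (Pi.single i 1) j := by
  classical
  obtain ⟨hSne, n, hn, hn0⟩ := hS
  have hψ₀ : AnalyticAt ℝ ψ u₀ := hc.analytic u₀ hu₀
  have hψd : HasFDerivAt ψ (fderiv ℝ ψ u₀) u₀ := hψ₀.differentiableAt.hasFDerivAt
  have hUn : U ∈ 𝓝 u₀ := hc.isOpen.mem_nhds hu₀
  obtain ⟨B, -, hBS, hB, hBsp⟩ := exists_max_indep (row ψ u₀) ∅ S (Finset.empty_subset _)
    (by simp)
  obtain ⟨B2, hBB2, -, hB2, hB2sp⟩ := exists_max_indep (row ψ u₀) B Finset.univ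
    (Finset.subset_univ _) hB
  -- the chart is a graph
  have hgr : ∀ w : Fin m → ℝ, ∀ i, fderiv ℝ ψ u₀ w (B₀ i) = w i := by
    intro w i
    have h1 : HasFDerivAt (fun u => ψ u (B₀ i))
        ((ContinuousLinearMap.proj (R := ℝ) (φ := fun _ : Fin d => ℝ) (B₀ i)).comp
          (fderiv ℝ ψ u₀)) u₀ :=
      (ContinuousLinearMap.proj (R := ℝ) (φ := fun _ : Fin d => ℝ) (B₀ i)).hasFDerivAt.comp u₀ hψd
    have h2 : (fun u => ψ u (B₀ i)) =ᶠ[𝓝 u₀] fun u => u i := by
      filter_upwards [hUn] with u hu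
      exact hc.graph u hu i
    have h3 : HasFDerivAt (fun u : Fin m → ℝ => u i)
        (ContinuousLinearMap.proj (R := ℝ) (φ := fun _ : Fin m => ℝ) i) u₀ :=
      (ContinuousLinearMap.proj (R := ℝ) (φ := fun _ : Fin m => ℝ) i).hasFDerivAt
    have h4 := h1.unique (h3.congr_of_eventuallyEq h2)
    have h5 := DFunLike.congr_fun h4 w
    simpa using h5
  have hrow : ∀ i, row ψ u₀ (B₀ i) = Pi.single i 1 := by
    intro i
    funext k
    show fderiv ℝ ψ u₀ (Pi.single k 1) (B₀ i) = _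
    rw [hgr, Pi.single_apply, Pi.single_apply]
    simp [eq_comm]
  have hcard : B2.card = m := by
    rw [← rkk_of_max (row ψ u₀) B2 Finset.univ (Finset.subset_univ _) hB2 hB2sp]
    unfold rkk
    have h1 : Submodule.span ℝ (row ψ u₀ '' ((Finset.univ : Finset (Fin d)) : Set (Fin d))) = ⊤ := by
      rw [eq_top_iff]
      intro w _
      have h2 : w = ∑ k, w k • (Pi.single k (1 : ℝ) : Fin m → ℝ) := by
        funext i
        simp [Finset.sum_apply, Pi.single_apply]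
      rw [h2]
      refine Submodule.sum_mem _ fun k _ => Submodule.smul_mem _ _ ?_
      rw [← hrow k]
      exact Submodule.subset_span ⟨B₀ k, by simp, rfl⟩
    rw [h1, finrank_top, Module.finrank_fin_fun]
  -- dependence of the rows of `S` on those of `B`
  have hdep : ∀ u ∈ U, ∀ j ∈ S \ B, ∀ w : Fin m → ℝ, (∀ i ∈ B, fderiv ℝ ψ u w i = 0) →
      fderiv ℝ ψ u w j = 0 := by
    intro u hu j hj w hw
    rw [Finset.mem_sdiff] at hj
    have hBu : LinearIndepOn ℝ (row ψ u) (B : Set (Fin d)) := by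
      rcases hM B with h | h
      · exact h u hu
      · exact absurd hB (h u₀ hu₀)
    have hju : row ψ u j ∈ Submodule.span ℝ (row ψ u '' (B : Set (Fin d))) := by
      by_contra hcon
      have h1 : LinearIndepOn ℝ (row ψ u) ((insert j B : Finset (Fin d)) : Set (Fin d)) := by
        rw [Finset.coe_insert, linearIndepOn_insert (by simpa using hj.2)]
        exact ⟨hBu, hcon⟩
      have h2 : LinearIndepOn ℝ (row ψ u₀) ((insert j B : Finset (Fin d)) : Set (Fin d)) := by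
        rcases hM (insert j B) with h | h
        · exact h u₀ hu₀
        · exact absurd h1 (h u hu)
      rw [Finset.coe_insert, linearIndepOn_insert (by simpa using hj.2)] at h2
      exact h2.2 (hBsp j hj.1)
    rw [Submodule.mem_span_image_finset_iff_exists_fun'] at hju
    obtain ⟨c, hcj⟩ := hju
    rw [fderiv_apply_row, ← hcj]
    have h1 : ∑ k, w k * (∑ i ∈ B, c i • row ψ u i) k = ∑ i ∈ B, c i * fderiv ℝ ψ u w i := by
      simp only [Finset.sum_apply, Pi.smul_apply, smul_eq_mul, Finset.mul_sum, fderiv_apply_row]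
      rw [Finset.sum_comm]
      refine Finset.sum_congr rfl fun i _ => Finset.sum_congr rfl fun k _ => ?_
      ring
    rw [h1]
    exact Finset.sum_eq_zero fun i hi => by rw [hw i hi, mul_zero]
  -- the coordinates of `B2`
  let e' : Fin m ≃ B2 := (B2.equivFinOfCardEq hcard).symm
  obtain ⟨e, he⟩ : ∃ e : Fin m → Fin d, e = fun k => (e' k : Fin d) := ⟨_, rfl⟩
  have hesurj : ∀ i ∈ B2, ∃ k, e k = i := by
    intro i hi
    exact ⟨e'.symm ⟨i, hi⟩, by rw [he]; simp⟩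
  have heind : LinearIndependent ℝ fun k => row ψ u₀ (e k) := by
    have h1 : LinearIndependent ℝ fun x : (B2 : Set (Fin d)) => row ψ u₀ x := hB2
    have h2 := h1.comp (fun k : Fin m => (e' k : B2)) e'.injective
    rw [he]
    exact h2
  let L : (Fin d → ℝ) →L[ℝ] (Fin m → ℝ) := ContinuousLinearMap.pi fun k =>
    ContinuousLinearMap.proj (R := ℝ) (φ := fun _ : Fin d => ℝ) (e k)
  have hLk : ∀ θ k, L θ k = θ (e k) := fun θ k => rfl
  let H' : (Fin m → ℝ) →L[ℝ] (Fin m → ℝ) := L.comp (fderiv ℝ ψ u₀)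
  have hH'inj : Function.Injective H' := by
    rw [injective_iff_map_eq_zero]
    intro w hw
    have h1 : Function.Injective (Matrix.mulVec (Matrix.of fun k l => row ψ u₀ (e k) l)) := by
      rw [Matrix.mulVec_injective_iff_isUnit, ← Matrix.linearIndependent_rows_iff_isUnit]
      exact heind
    apply h1
    rw [Matrix.mulVec_zero]
    funext k
    have h2 := congrFun hw k
    have h3 : H' w k = fderiv ℝ ψ u₀ w (e k) := rfl
    rw [h3, fderiv_apply_row] at h2
    simp only [Matrix.mulVec, dotProduct, Matrix.of_apply, Pi.zero_apply] at h2 ⊢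
    rw [← h2]
    exact Finset.sum_congr rfl fun l _ => mul_comm _ _
  let f' : (Fin m → ℝ) ≃L[ℝ] (Fin m → ℝ) :=
    (LinearEquiv.ofInjectiveEndo (H' : (Fin m → ℝ) →ₗ[ℝ] (Fin m → ℝ)) hH'inj).toContinuousLinearEquiv
  have hf'coe : (f' : (Fin m → ℝ) →L[ℝ] (Fin m → ℝ)) = H' := by
    ext w k
    rfl
  obtain ⟨H, hHdef⟩ : ∃ H : (Fin m → ℝ) → (Fin m → ℝ), H = fun u => L (ψ u) := ⟨_, rfl⟩
  have hHk : ∀ u k, H u k = ψ u (e k) := fun u k => by rw [hHdef]; rfl
  have hHan : AnalyticAt ℝ H u₀ := by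
    rw [hHdef]
    exact (L.analyticAt _).comp hψ₀
  have hHfd : fderiv ℝ H u₀ = H' := by
    rw [hHdef]
    exact (L.hasFDerivAt.comp u₀ hψd).fderiv
  have hHs : HasStrictFDerivAt H (f' : (Fin m → ℝ) →L[ℝ] (Fin m → ℝ)) u₀ := by
    rw [hf'coe, ← hHfd]
    exact hHan.hasStrictFDerivAt
  obtain ⟨v₀, hv₀⟩ : ∃ v₀, v₀ = H u₀ := ⟨_, rfl⟩
  obtain ⟨G, hGleft, hGright, hGan, hGv₀⟩ : ∃ G : (Fin m → ℝ) → (Fin m → ℝ),
      (∀ᶠ u in 𝓝 u₀, G (H u) = u) ∧ (∀ᶠ v in 𝓝 v₀, H (G v) = v) ∧ AnalyticAt ℝ G v₀ ∧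
      G v₀ = u₀ := by
    refine ⟨hHs.localInverse H f' u₀, hHs.eventually_left_inverse, ?_, ?_, ?_⟩
    · rw [hv₀]; exact hHs.eventually_right_inverse
    · rw [hv₀, HasStrictFDerivAt.localInverse_def]
      exact (hHs.toOpenPartialHomeomorph H).analyticAt_symm' (i := f')
        hHs.mem_toOpenPartialHomeomorph_source hHan (by rw [hf'coe]; exact hHfd)
    · rw [hv₀]; exact hHs.localInverse_apply_image
  -- a good ball
  have hball : ∀ᶠ v in 𝓝 v₀, G v ∈ U ∧ AnalyticAt ℝ G v ∧ ∀ᶠ v' in 𝓝 v, H (G v') = v' := by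
    refine Filter.Eventually.and ?_ (hGan.eventually_analyticAt.and
      (eventually_eventually_nhds.mpr hGright))
    have h1 : Filter.Tendsto G (𝓝 v₀) (𝓝 u₀) := by
      have := hGan.continuousAt.tendsto
      rwa [hGv₀] at this
    exact h1 hUn
  obtain ⟨r, hr, hball⟩ := Metric.eventually_nhds_iff_ball.mp hball
  have hFd : ∀ v ∈ Metric.ball v₀ r, DifferentiableAt ℝ (fun v => ψ (G v)) v := by
    intro v hv
    obtain ⟨h1, h2, -⟩ := hball v hv
    exact ((hc.analytic _ h1).differentiableAt).comp v h2.differentiableAt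
  have hFe : ∀ v ∈ Metric.ball v₀ r, ∀ w k, fderiv ℝ (fun v => ψ (G v)) v w (e k) = w k := by
    intro v hv w k
    have h1 : HasFDerivAt (fun v => ψ (G v) (e k))
        ((ContinuousLinearMap.proj (R := ℝ) (φ := fun _ : Fin d => ℝ) (e k)).comp
          (fderiv ℝ (fun v => ψ (G v)) v)) v :=
      (ContinuousLinearMap.proj (R := ℝ) (φ := fun _ : Fin d => ℝ) (e k)).hasFDerivAt.comp v
        (hFd v hv).hasFDerivAt
    have h2 : (fun v => ψ (G v) (e k)) =ᶠ[𝓝 v] fun v => v k := by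
      filter_upwards [(hball v hv).2.2] with v' hv'
      rw [← hHk, hv']
    have h3 : HasFDerivAt (fun u : Fin m → ℝ => u k)
        (ContinuousLinearMap.proj (R := ℝ) (φ := fun _ : Fin m => ℝ) k) v :=
      (ContinuousLinearMap.proj (R := ℝ) (φ := fun _ : Fin m => ℝ) k).hasFDerivAt
    have h4 := h1.unique (h3.congr_of_eventuallyEq h2)
    have h5 := DFunLike.congr_fun h4 w
    simpa using h5
  have hF0 : ∀ v ∈ Metric.ball v₀ r, ∀ w : Fin m → ℝ, (∀ k, e k ∈ B → w k = 0) →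
      ∀ j ∈ S \ B, fderiv ℝ (fun v => ψ (G v)) v w j = 0 := by
    intro v hv w hw j hj
    obtain ⟨h1, h2, -⟩ := hball v hv
    have h3 : fderiv ℝ (fun v => ψ (G v)) v w = fderiv ℝ ψ (G v) (fderiv ℝ G v w) := by
      have h4 : HasFDerivAt (fun v => ψ (G v)) ((fderiv ℝ ψ (G v)).comp (fderiv ℝ G v)) v :=
        ((hc.analytic _ h1).differentiableAt.hasFDerivAt).comp v h2.differentiableAt.hasFDerivAt
      rw [h4.fderiv]
      rfl
    rw [h3]
    apply hdep _ h1 j hj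
    intro i hi
    rw [← h3]
    obtain ⟨k, rfl⟩ := hesurj i (hBB2 hi)
    rw [hFe v hv, hw k hi]
  have hconst : ∀ j ∈ S \ B, ∀ v ∈ Metric.ball v₀ r, ∀ v' ∈ Metric.ball v₀ r,
      (∀ k, e k ∈ B → v k = v' k) → ψ (G v) j = ψ (G v') j := by
    intro j hj v hv v' hv' hvv
    refine const_of_fderiv (fun v => ψ (G v)) v₀ r hFd j v v' hv hv' fun y hy => ?_
    refine hF0 y hy (v' - v) (fun k hk => ?_) j hj
    rw [Pi.sub_apply, hvv k hk, sub_self]
  -- the function `Ψ`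
  obtain ⟨vm, hvm⟩ : ∃ vm : (Fin d → ℝ) → (Fin m → ℝ),
      vm = fun θ k => if e k ∈ B then θ (e k) else v₀ k := ⟨_, rfl⟩
  have hvmx : vm (ψ u₀) = v₀ := by
    rw [hvm]
    funext k
    by_cases hk : e k ∈ B
    · simp only [hk, if_true]
      rw [hv₀, hHk]
    · simp only [hk, if_false]
  have hvman : AnalyticAt ℝ vm (ψ u₀) := by
    rw [hvm, analyticAt_pi_iff]
    intro k
    by_cases hk : e k ∈ B
    · simp only [hk, if_true]
      exact (ContinuousLinearMap.proj (R := ℝ) (φ := fun _ : Fin d => ℝ) (e k)).analyticAt _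
    · simp only [hk, if_false]
      exact analyticAt_const
  obtain ⟨Ψ, hΨ⟩ : ∃ Ψ : (Fin d → ℝ) → (Fin d → ℝ), Ψ = fun θ => ψ (G (vm θ)) := ⟨_, rfl⟩
  have hvmcongr : ∀ θ θ' : Fin d → ℝ, (∀ i ∈ B, θ i = θ' i) → vm θ = vm θ' := by
    intro θ θ' h
    rw [hvm]
    funext k
    by_cases hk : e k ∈ B
    · simp only [hk, if_true]
      exact h _ hk
    · simp only [hk, if_false]
  have hΨan : AnalyticAt ℝ Ψ (ψ u₀) := by
    rw [hΨ]
    have h1 : AnalyticAt ℝ (fun θ => G (vm θ)) (ψ u₀) := by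
      apply AnalyticAt.fun_comp _ hvman
      rw [hvmx]
      exact hGan
    apply AnalyticAt.fun_comp _ h1
    rw [hvmx, hGv₀]
    exact hψ₀
  -- the set where everything works
  have hW : ∀ᶠ u in 𝓝 u₀, G (H u) = u ∧ H u ∈ Metric.ball v₀ r := by
    refine hGleft.and ?_
    have h1 : Filter.Tendsto H (𝓝 u₀) (𝓝 v₀) := by
      rw [hv₀]
      exact hHan.continuousAt.tendsto
    exact h1 (Metric.ball_mem_nhds v₀ hr)
  have hkey : ∀ u, G (H u) = u → H u ∈ Metric.ball v₀ r → ∀ j ∈ S \ B, ψ u j = Ψ (ψ u) j := by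
    intro u h1 h2 j hj
    have h3 : vm (ψ u) ∈ Metric.ball v₀ r := by
      rw [Metric.mem_ball, dist_pi_lt_iff hr] at h2 ⊢
      intro k
      rw [hvm]
      by_cases hk : e k ∈ B
      · simp only [hk, if_true]
        have := h2 k
        rwa [hHk] at this
      · simp only [hk, if_false, dist_self]
        exact hr
    rw [hΨ]
    show ψ u j = ψ (G (vm (ψ u))) j
    rw [hconst j hj (vm (ψ u)) h3 (H u) h2 ?_, h1]
    intro k hk
    rw [hvm, hHk]
    simp only [hk, if_true]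
  have hnS : ∀ w, ∑ j ∈ S, n j * fderiv ℝ ψ u₀ w j = 0 := by
    intro w
    have h1 : ∀ k, ∑ j ∈ S, n j * row ψ u₀ j k = 0 := by
      intro k
      have := congrFun hn0 k
      simpa [Finset.sum_apply] using this
    simp only [fderiv_apply_row, Finset.mul_sum]
    rw [Finset.sum_comm]
    refine Finset.sum_eq_zero fun k _ => ?_
    calc ∑ j ∈ S, n j * (w k * row ψ u₀ j k) = w k * ∑ j ∈ S, n j * row ψ u₀ j k := by
          rw [Finset.mul_sum]
          exact Finset.sum_congr rfl fun j _ => by ring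
      _ = 0 := by rw [h1 k, mul_zero]
  have hdisj : Disjoint B (S \ B) := Finset.disjoint_sdiff
  refine ⟨B, S \ B, hdisj, ?_, ?_, Ψ, hΨan, ?_, ?_, n, ?_, ?_⟩
  · -- nonempty
    rw [Finset.sdiff_nonempty]
    intro hSB
    have hSeq : S = B := Finset.Subset.antisymm hSB hBS
    rw [hSeq] at hn0 hn hSne
    obtain ⟨i, hi⟩ := hSne
    have := (linearIndepOn_finset_iff.mp hB) n hn0 i hi
    exact absurd this (hn i hi).ne'
  · -- the count
    rw [rkk_of_max (row ψ u₀) B S hBS hB hBsp] at ht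
    have h1 : ((S \ B).card : ℝ) = S.card - B.card := by
      rw [Finset.card_sdiff_of_subset hBS, Nat.cast_sub (Finset.card_le_card hBS)]
    rw [h1]
    linarith
  · intro j _ θ θ' h
    rw [hΨ]
    show ψ (G (vm θ)) j = ψ (G (vm θ')) j
    rw [hvmcongr θ θ' h]
  · refine ⟨{θ | G (H fun i => θ (B₀ i)) = (fun i => θ (B₀ i)) ∧
      H (fun i => θ (B₀ i)) ∈ Metric.ball v₀ r}, ?_, ?_⟩
    · have h1 : Filter.Tendsto (fun θ : Fin d → ℝ => fun i => θ (B₀ i)) (𝓝 (ψ u₀)) (𝓝 u₀) := by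
        have h2 : ContinuousAt (fun θ : Fin d → ℝ => fun i => θ (B₀ i)) (ψ u₀) :=
          (continuous_pi fun i => continuous_apply (B₀ i)).continuousAt
        have h3 : (fun i => ψ u₀ (B₀ i)) = u₀ := funext fun i => hc.graph u₀ hu₀ i
        have h4 := h2.tendsto
        rwa [h3] at h4
      exact h1 hW
    · rintro _ ⟨⟨h1, h2⟩, u, hu, rfl⟩ j hj
      have h3 : (fun i => ψ u (B₀ i)) = u := funext fun i => hc.graph u hu i
      rw [h3] at h1 h2
      exact hkey u h1 h2 j hj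
  · intro j hj
    exact hn j (Finset.mem_sdiff.mp hj).1
  · -- positivity
    have hΨd : HasFDerivAt Ψ (fderiv ℝ Ψ (ψ u₀)) (ψ u₀) := hΨan.differentiableAt.hasFDerivAt
    have hz : ∀ i, i ∉ B → fderiv ℝ Ψ (ψ u₀) (Pi.single i 1) = 0 := by
      intro i hi
      have h1 : HasDerivAt (fun s : ℝ => ψ u₀ + s • (Pi.single i (1 : ℝ) : Fin d → ℝ))
          (Pi.single i 1) 0 := by
        simpa using ((hasDerivAt_id (0 : ℝ)).smul_const
          (Pi.single i (1 : ℝ) : Fin d → ℝ)).const_add (ψ u₀)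
      have h2 : HasFDerivAt Ψ (fderiv ℝ Ψ (ψ u₀))
          (ψ u₀ + (0 : ℝ) • (Pi.single i (1 : ℝ) : Fin d → ℝ)) := by
        simpa using hΨd
      have h3 := h2.comp_hasDerivAt (0 : ℝ) h1
      have h4 : (Ψ ∘ fun s : ℝ => ψ u₀ + s • (Pi.single i (1 : ℝ) : Fin d → ℝ)) =
          fun _ => Ψ (ψ u₀) := by
        funext s
        show Ψ (ψ u₀ + s • (Pi.single i (1 : ℝ) : Fin d → ℝ)) = Ψ (ψ u₀)
        rw [hΨ]
        show ψ (G (vm _)) = ψ (G (vm _))
        rw [hvmcongr (ψ u₀ + s • (Pi.single i (1 : ℝ) : Fin d → ℝ)) (ψ u₀) fun i' hi' => ?_]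
        have hne : i' ≠ i := fun h => hi (h ▸ hi')
        simp [hne]
      rw [h4] at h3
      exact h3.unique (hasDerivAt_const (0 : ℝ) (Ψ (ψ u₀)))
    have hchain : ∀ j ∈ S \ B, ∀ w, fderiv ℝ ψ u₀ w j =
        ∑ i ∈ B, fderiv ℝ ψ u₀ w i * fderiv ℝ Ψ (ψ u₀) (Pi.single i 1) j := by
      intro j hj w
      have h1 : HasFDerivAt (fun u => Ψ (ψ u) j)
          ((ContinuousLinearMap.proj (R := ℝ) (φ := fun _ : Fin d => ℝ) j).comp
            ((fderiv ℝ Ψ (ψ u₀)).comp (fderiv ℝ ψ u₀))) u₀ :=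
        (ContinuousLinearMap.proj (R := ℝ) (φ := fun _ : Fin d => ℝ) j).hasFDerivAt.comp u₀
          (hΨd.comp u₀ hψd)
      have h2 : HasFDerivAt (fun u => ψ u j)
          ((ContinuousLinearMap.proj (R := ℝ) (φ := fun _ : Fin d => ℝ) j).comp
            (fderiv ℝ ψ u₀)) u₀ :=
        (ContinuousLinearMap.proj (R := ℝ) (φ := fun _ : Fin d => ℝ) j).hasFDerivAt.comp u₀ hψd
      have h3 : (fun u => ψ u j) =ᶠ[𝓝 u₀] fun u => Ψ (ψ u) j := by
        filter_upwards [hW] with u hu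
        exact hkey u hu.1 hu.2 j hj
      have h4 := h2.unique (h1.congr_of_eventuallyEq h3)
      have h5 : fderiv ℝ ψ u₀ w j = fderiv ℝ Ψ (ψ u₀) (fderiv ℝ ψ u₀ w) j := by
        have := DFunLike.congr_fun h4 w
        simpa using this
      rw [h5]
      have h6 : fderiv ℝ ψ u₀ w =
          ∑ i, fderiv ℝ ψ u₀ w i • (Pi.single i (1 : ℝ) : Fin d → ℝ) := by
        funext i
        simp [Finset.sum_apply, Pi.single_apply]
      conv_lhs => rw [h6]
      rw [map_sum, Finset.sum_apply]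
      symm
      refine Finset.sum_subset_zero_on_sdiff (Finset.subset_univ B) (fun i hi => ?_)
        (fun i _ => ?_)
      · rw [Finset.mem_sdiff] at hi
        rw [map_smul, hz i hi.2]
        simp
      · rw [map_smul, Pi.smul_apply, smul_eq_mul]
    -- coefficients
    have hcoef : ∀ i ∈ B, n i + ∑ j ∈ S \ B, n j * fderiv ℝ Ψ (ψ u₀) (Pi.single i 1) j = 0 := by
      apply linearIndepOn_finset_iff.mp hB
      funext k
      have h1 := hnS (Pi.single k 1)
      rw [← Finset.sum_sdiff hBS] at h1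
      have h2 : ∑ j ∈ S \ B, n j * fderiv ℝ ψ u₀ (Pi.single k 1) j =
          ∑ i ∈ B, (∑ j ∈ S \ B, n j * fderiv ℝ Ψ (ψ u₀) (Pi.single i 1) j) *
            fderiv ℝ ψ u₀ (Pi.single k 1) i := by
        calc ∑ j ∈ S \ B, n j * fderiv ℝ ψ u₀ (Pi.single k 1) j
            = ∑ j ∈ S \ B, ∑ i ∈ B, n j * (fderiv ℝ ψ u₀ (Pi.single k 1) i *
                fderiv ℝ Ψ (ψ u₀) (Pi.single i 1) j) := by
              refine Finset.sum_congr rfl fun j hj => ?_
              rw [hchain j hj, Finset.mul_sum]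
          _ = _ := by
              rw [Finset.sum_comm]
              refine Finset.sum_congr rfl fun i _ => ?_
              rw [Finset.sum_mul]
              exact Finset.sum_congr rfl fun j _ => by ring
      rw [h2, ← Finset.sum_add_distrib] at h1
      rw [Finset.sum_apply, Pi.zero_apply, ← h1]
      refine Finset.sum_congr rfl fun i _ => ?_
      show _ * row ψ u₀ i k = _
      have h3 : row ψ u₀ i k = fderiv ℝ ψ u₀ (Pi.single k 1) i := rfl
      rw [h3]
      ring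
    intro i hi
    have h1 := hcoef i hi
    have h2 := hn i (hBS hi)
    linarith

end Pool.MP4ac1fb.Full
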