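import Pool.Agent.H.MP_4ac1fb_an.Full.PatchDefs
import Pool.Agent.H.MP_4ac1fb_an.Full.LinAlg
import Pool.Agent.H.MP_4ac1fb_an.Full.IBP

/-!
Rapid decay of the Fourier coefficients of a patch when a well separated level set is not a normal
support.
-/

namespace Pool.MP4ac1fb.Full

open scoped ContDiff Topology

variable {d : ℕ}

/-- The derivative in the direction `w` in terms of the rows of the Jacobian. -/
lemma fderiv_apply_eq_row {m : ℕ} (ψ : (Fin m → ℝ) → (Fin d → ℝ)) (u w : Fin m → ℝ) (j : Fin d) :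
    fderiv ℝ ψ u w j = row ψ u j ⬝ᵥ w := by
  conv_lhs => rw [pi_eq_sum_univ' w]
  rw [map_sum, Finset.sum_apply]
  unfold dotProduct row
  refine Finset.sum_congr rfl fun i _ => ?_
  rw [map_smul, Pi.smul_apply, smul_eq_mul, mul_comm]

lemma fderiv_phase {m : ℕ} {ψ : (Fin m → ℝ) → (Fin d → ℝ)} {u : Fin m → ℝ}
    (h : DifferentiableAt ℝ ψ u) (a : Fin d → ℝ) (w : Fin m → ℝ) :
    fderiv ℝ (fun u => ∑ j, a j * ψ u j) u w = ∑ j, a j * (row ψ u j ⬝ᵥ w) := by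
  have h1 : ∀ j, HasFDerivAt (fun u => ψ u j)
      ((ContinuousLinearMap.proj j : (Fin d → ℝ) →L[ℝ] ℝ) ∘L fderiv ℝ ψ u) u := fun j =>
    ((ContinuousLinearMap.proj j : (Fin d → ℝ) →L[ℝ] ℝ).hasFDerivAt).comp u h.hasFDerivAt
  have h2 : HasFDerivAt (fun u => ∑ j, a j * ψ u j)
      (∑ j, a j • ((ContinuousLinearMap.proj j : (Fin d → ℝ) →L[ℝ] ℝ) ∘L fderiv ℝ ψ u)) u :=
    HasFDerivAt.fun_sum fun j _ => (h1 j).const_mul (a j)
  rw [h2.fderiv, sum_apply]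
  refine Finset.sum_congr rfl fun j _ => ?_
  simp [fderiv_apply_eq_row]

/-- A good neighbourhood. -/
lemma exists_good_nhd {m : ℕ} (ψ : (Fin m → ℝ) → (Fin d → ℝ)) (u₀ : Fin m → ℝ)
    (hψ : AnalyticAt ℝ ψ u₀)
    (hloc : ∀ T : Finset (Fin d), ∀ᶠ u in 𝓝 u₀,
      (LinearIndepOn ℝ (row ψ u) (T : Set (Fin d)) ↔ LinearIndepOn ℝ (row ψ u₀) (T : Set (Fin d))))
    (S : Finset (Fin d)) (hS : S.Nonempty) (hnp : ¬ PosSup (row ψ u₀) S) :
    ∃ O : Set (Fin m → ℝ), IsOpen O ∧ u₀ ∈ O ∧ AnalyticOnNhd ℝ ψ O ∧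
      ∃ w : (Fin m → ℝ) → (Fin m → ℝ), AnalyticOnNhd ℝ w O ∧ ∃ Z ⊆ S, Z ≠ S ∧
      (∀ j, AnalyticOnNhd ℝ (fun u => row ψ u j ⬝ᵥ w u) O) ∧
      (∀ u ∈ O, ∀ j ∈ Z, row ψ u j ⬝ᵥ w u = 0) ∧
      ∃ c₀ > 0, (∀ u ∈ O, ∀ j ∈ S \ Z, c₀ ≤ row ψ u j ⬝ᵥ w u) ∧
      ∃ C₀ : ℝ, 0 ≤ C₀ ∧ ∀ u ∈ O, ∀ j, |row ψ u j ⬝ᵥ w u| ≤ C₀ := by
  obtain ⟨r, hr, hψr⟩ := hψ.exists_ball_analyticOnNhd
  have hrow : ∀ j, AnalyticAt ℝ (fun u => row ψ u j) u₀ := fun j =>
    analyticOnNhd_row hψr j u₀ (Metric.mem_ball_self hr)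
  obtain ⟨w, hw, Z, hZS, hZne, hZ, hpos⟩ := exists_field (row ψ) u₀ hrow hloc S hS hnp
  have hdot : ∀ j, AnalyticAt ℝ (fun u => row ψ u j ⬝ᵥ w u) u₀ := by
    intro j
    unfold dotProduct
    apply Finset.analyticAt_fun_sum
    intro i _
    have h1 : AnalyticAt ℝ (fun u => row ψ u j i) u₀ :=
      ((ContinuousLinearMap.proj i : (Fin m → ℝ) →L[ℝ] ℝ).analyticAt _).comp (hrow j)
    have h2 : AnalyticAt ℝ (fun u => w u i) u₀ :=
      ((ContinuousLinearMap.proj i : (Fin m → ℝ) →L[ℝ] ℝ).analyticAt _).comp hw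
    exact h1.mul h2
  obtain ⟨c, hc, hcS⟩ : ∃ c > 0, ∀ j ∈ S \ Z, c < row ψ u₀ j ⬝ᵥ w u₀ := by
    rcases (S \ Z).eq_empty_or_nonempty with he | hne
    · exact ⟨1, one_pos, fun j hj => by rw [he] at hj; simp at hj⟩
    · obtain ⟨j₁, hj₁, hmin⟩ := Finset.exists_min_image (S \ Z) (fun j => row ψ u₀ j ⬝ᵥ w u₀) hne
      refine ⟨(row ψ u₀ j₁ ⬝ᵥ w u₀) / 2, half_pos (hpos j₁ hj₁), fun j hj => ?_⟩
      have := hmin j hj
      have := hpos j₁ hj₁
      linarith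
  have e1 : ∀ᶠ u in 𝓝 u₀, ∀ j ∈ S \ Z, c < row ψ u j ⬝ᵥ w u := by
    rw [Filter.eventually_all_finset]
    intro j hj
    exact (hdot j).continuousAt.eventually (lt_mem_nhds (hcS j hj))
  set C₀ : ℝ := (∑ j, |row ψ u₀ j ⬝ᵥ w u₀|) + 1 with hC₀
  have e2 : ∀ᶠ u in 𝓝 u₀, ∀ j, |row ψ u j ⬝ᵥ w u| < C₀ := by
    rw [Filter.eventually_all]
    intro j
    have h1 : |row ψ u₀ j ⬝ᵥ w u₀| < C₀ := by
      have := Finset.single_le_sum (f := fun j => |row ψ u₀ j ⬝ᵥ w u₀|)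
        (fun i _ => abs_nonneg _) (Finset.mem_univ j)
      linarith
    exact (hdot j).continuousAt.abs.eventually (gt_mem_nhds h1)
  have e3 : ∀ᶠ u in 𝓝 u₀, AnalyticAt ℝ ψ u := hψ.eventually_analyticAt
  have e4 : ∀ᶠ u in 𝓝 u₀, AnalyticAt ℝ w u := hw.eventually_analyticAt
  have e5 : ∀ᶠ u in 𝓝 u₀, ∀ j, AnalyticAt ℝ (fun u => row ψ u j ⬝ᵥ w u) u := by
    rw [Filter.eventually_all]
    exact fun j => (hdot j).eventually_analyticAt
  obtain ⟨O, hO, hOo, hu₀⟩ := eventually_nhds_iff.1 (e1.and (e2.and (e3.and (e4.and (e5.and hZ)))))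
  refine ⟨O, hOo, hu₀, fun u hu => (hO u hu).2.2.1, w, fun u hu => (hO u hu).2.2.2.1, Z, hZS, hZne,
    fun j u hu => (hO u hu).2.2.2.2.1 j, fun u hu => (hO u hu).2.2.2.2.2, c, hc,
    fun u hu j hj => ((hO u hu).1 j hj).le, C₀, by positivity, fun u hu j => ((hO u hu).2.1 j).le⟩

theorem patch_decay {m : ℕ} (ψ : (Fin m → ℝ) → (Fin d → ℝ)) (u₀ : Fin m → ℝ)
    (hψ : AnalyticAt ℝ ψ u₀)
    (hloc : ∀ T : Finset (Fin d), ∀ᶠ u in 𝓝 u₀,
      (LinearIndepOn ℝ (row ψ u) (T : Set (Fin d)) ↔ LinearIndepOn ℝ (row ψ u₀) (T : Set (Fin d))))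
    (S : Finset (Fin d)) (hS : S.Nonempty) (hnp : ¬ PosSup (row ψ u₀) S) :
    ∃ O ∈ 𝓝 u₀, ∃ ε > 0, ∀ χ : (Fin m → ℝ) → ℝ, ContDiff ℝ ∞ χ → HasCompactSupport χ →
      tsupport χ ⊆ O → ∀ N : ℕ, ∃ C : ℝ, ∀ (k : Fin d →₀ ℕ) (K : ℝ), 0 < K →
        (∀ i ∈ S, K ≤ k i) → (∀ j ∉ S, (k j : ℝ) ≤ ε * K) → ‖pc ψ χ (toZ k)‖ ≤ C / K ^ N := by
  classical
  obtain ⟨O, hOo, hu₀, hψO, w, hw, Z, hZS, hZne, hdot, hZ, c₀, hc₀, hcS, C₀, hC₀, hC⟩ :=
    exists_good_nhd ψ u₀ hψ hloc S hS hnp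
  have hSZ : (S \ Z).Nonempty := by
    rw [Finset.nonempty_iff_ne_empty]
    intro h
    rw [Finset.sdiff_eq_empty_iff_subset] at h
    exact hZne (Finset.Subset.antisymm hZS h)
  set ε : ℝ := min 1 (c₀ / (2 * (d * C₀ + 1))) with hε
  have hdC : (0 : ℝ) < d * C₀ + 1 := by positivity
  have hεpos : 0 < ε := lt_min one_pos (by positivity)
  have hε1 : ε ≤ 1 := min_le_left _ _
  have hεc : ε * (d * C₀ + 1) ≤ c₀ / 2 := by
    have h1 : ε ≤ c₀ / (2 * (d * C₀ + 1)) := min_le_right _ _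
    calc ε * (d * C₀ + 1) ≤ c₀ / (2 * (d * C₀ + 1)) * (d * C₀ + 1) := by gcongr
      _ = c₀ / 2 := by field_simp
  refine ⟨O, hOo.mem_nhds hu₀, ε, hεpos, fun χ hχ hχc hχO N => ?_⟩
  -- the compact parameter set
  set Q : Set (Fin d → ℝ) := {p | (∀ j, p j ∈ Set.Icc (0 : ℝ) 1) ∧ (∀ j ∈ Z, p j = 0) ∧
    (∀ j ∉ S, p j ≤ ε) ∧ 1 ≤ ∑ j ∈ S \ Z, p j} with hQ
  have hQc : IsCompact Q := by
    have h1 : IsCompact (Set.pi Set.univ fun _ : Fin d => Set.Icc (0 : ℝ) 1) :=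
      isCompact_univ_pi fun _ => isCompact_Icc
    refine h1.of_isClosed_subset ?_ (fun p hp j _ => hp.1 j)
    have h2 : Q = {p | ∀ j, p j ∈ Set.Icc (0 : ℝ) 1} ∩ ({p | ∀ j ∈ Z, p j = 0} ∩
        ({p | ∀ j ∉ S, p j ≤ ε} ∩ {p | 1 ≤ ∑ j ∈ S \ Z, p j})) := by
      ext p; simp [hQ]
    rw [h2]
    refine IsClosed.inter ?_ (IsClosed.inter ?_ (IsClosed.inter ?_ ?_))
    · simp only [Set.ofPred_forall]
      exact isClosed_iInter fun j => isClosed_Icc.preimage (continuous_apply j)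
    · simp only [Set.ofPred_forall]
      exact isClosed_iInter fun j => isClosed_iInter fun _ =>
        isClosed_eq (continuous_apply j) continuous_const
    · simp only [Set.ofPred_forall]
      exact isClosed_iInter fun j => isClosed_iInter fun _ =>
        isClosed_le (continuous_apply j) continuous_const
    · exact isClosed_le continuous_const (continuous_finsetSum _ fun j _ => continuous_apply j)
  -- the function `h`
  set h : (Fin m → ℝ) × (Fin d → ℝ) → ℝ :=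
    fun q => 2 * Real.pi * ∑ j, q.2 j * (row ψ q.1 j ⬝ᵥ w q.1) with hh
  have hhC : ContDiffOn ℝ ∞ h (O ×ˢ Set.univ) := by
    refine contDiffOn_const.mul (ContDiffOn.sum fun j _ => ?_)
    have h1 : ContDiffOn ℝ ∞ (fun q : (Fin m → ℝ) × (Fin d → ℝ) => q.2 j) (O ×ˢ Set.univ) :=
      ((ContinuousLinearMap.proj j : (Fin d → ℝ) →L[ℝ] ℝ).contDiff.comp contDiff_snd).contDiffOn
    have h2 : ContDiffOn ℝ ∞ (fun q : (Fin m → ℝ) × (Fin d → ℝ) => row ψ q.1 j ⬝ᵥ w q.1)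
        (O ×ˢ Set.univ) :=
      ((hdot j).contDiffOn hOo.uniqueDiffOn).comp contDiff_fst.contDiffOn
        (fun q hq => hq.1)
    exact h1.mul h2
  have hne : ∀ u ∈ tsupport χ, ∀ p ∈ Q, h (u, p) ≠ 0 := by
    intro u hu p hp
    have huO := hχO hu
    obtain ⟨hp1, hp2, hp3, hp4⟩ := hp
    have hlow : c₀ / 2 ≤ ∑ j, p j * (row ψ u j ⬝ᵥ w u) := by
      have h1 : ∀ j, (if j ∈ S \ Z then p j * c₀ else 0) - ε * C₀ ≤
          p j * (row ψ u j ⬝ᵥ w u) := by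
        intro j
        have hεC : 0 ≤ ε * C₀ := by positivity
        by_cases hjS : j ∈ S \ Z
        · rw [if_pos hjS]
          have := mul_le_mul_of_nonneg_left (hcS u huO j hjS) (hp1 j).1
          linarith
        · rw [if_neg hjS]
          by_cases hjZ : j ∈ Z
          · rw [hp2 j hjZ, zero_mul]; linarith
          · have hjS' : j ∉ S := fun h => hjS (Finset.mem_sdiff.2 ⟨h, hjZ⟩)
            have h3 : |p j * (row ψ u j ⬝ᵥ w u)| ≤ ε * C₀ := by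
              rw [abs_mul, abs_of_nonneg (hp1 j).1]
              exact mul_le_mul (hp3 j hjS') (hC u huO j) (abs_nonneg _) hεpos.le
            have := neg_le_of_abs_le h3
            linarith
      have h2 := Finset.sum_le_sum fun j (_ : j ∈ Finset.univ) => h1 j
      rw [Finset.sum_sub_distrib, Finset.sum_const, Finset.card_univ, Fintype.card_fin,
        nsmul_eq_mul, ← Finset.sum_filter, Finset.filter_mem_eq_inter, Finset.univ_inter,
        ← Finset.sum_mul] at h2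
      have h3 : c₀ ≤ (∑ j ∈ S \ Z, p j) * c₀ := by nlinarith
      have h4 : (d : ℝ) * (ε * C₀) ≤ c₀ / 2 := by
        calc (d : ℝ) * (ε * C₀) ≤ ε * (d * C₀ + 1) := by
              have : (d : ℝ) * (ε * C₀) = ε * (d * C₀ + 1) - ε := by ring
              linarith
          _ ≤ c₀ / 2 := hεc
      linarith
    have : 0 < h (u, p) := by
      simp only [hh]
      have : 0 < Real.pi := Real.pi_pos
      have : 0 < ∑ j, p j * (row ψ u j ⬝ᵥ w u) := by linarith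
      positivity
    exact this.ne'
  obtain ⟨C, hCC⟩ := ibp (K := tsupport χ) (O := O) hχc hOo hχO (w := w)
    (hw.contDiffOn hOo.uniqueDiffOn) hhC (g := fun u => (χ u : ℂ))
    (Complex.ofRealCLM.contDiff.comp hχ)
    (fun u hu => by
      simp only [Complex.ofReal_eq_zero]
      exact image_eq_zero_of_notMem_tsupport hu) hQc hne N
  refine ⟨|C|, fun k K hK hkS hkN => ?_⟩
  obtain ⟨j₁, hj₁, hmax⟩ := Finset.exists_max_image (S \ Z) (fun j => (k j : ℝ)) hSZ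
  set lam : ℝ := (k j₁ : ℝ) with hlam
  have hKlam : K ≤ lam := hkS j₁ (Finset.mem_sdiff.1 hj₁).1
  have hlam0 : 0 < lam := hK.trans_le hKlam
  set p : Fin d → ℝ := fun j => if j ∈ Z then 0 else (k j : ℝ) / lam with hp
  have hpQ : p ∈ Q := by
    refine ⟨fun j => ?_, fun j hj => by simp [hp, hj], fun j hj => ?_, ?_⟩
    · by_cases hjZ : j ∈ Z
      · simp [hp, hjZ]
      · simp only [hp, if_neg hjZ]
        refine ⟨by positivity, ?_⟩
        rw [div_le_one hlam0]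
        by_cases hjS : j ∈ S
        · exact hmax j (Finset.mem_sdiff.2 ⟨hjS, hjZ⟩)
        · calc (k j : ℝ) ≤ ε * K := hkN j hjS
            _ ≤ 1 * lam := by gcongr
            _ = lam := one_mul _
    · have hjZ : j ∉ Z := fun h => hj (hZS h)
      simp only [hp, if_neg hjZ]
      rw [div_le_iff₀ hlam0]
      calc (k j : ℝ) ≤ ε * K := hkN j hj
        _ ≤ ε * lam := by gcongr
    · have h1 : p j₁ = 1 := by
        have hjZ : j₁ ∉ Z := (Finset.mem_sdiff.1 hj₁).2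
        simp only [hp, if_neg hjZ]
        exact div_self hlam0.ne'
      rw [← h1]
      refine Finset.single_le_sum (f := p) (fun j _ => ?_) hj₁
      simp only [hp]
      split_ifs
      · exact le_rfl
      · positivity
  set φ : (Fin m → ℝ) → ℝ := fun u => ∑ j, (2 * Real.pi * (k j : ℝ)) * ψ u j with hφ
  have hφC : ContDiffOn ℝ 1 φ O := by
    refine ContDiffOn.sum fun j _ => contDiffOn_const.mul ?_
    exact ((ContinuousLinearMap.proj j : (Fin d → ℝ) →L[ℝ] ℝ).contDiff.comp_contDiffOn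
      (hψO.contDiffOn hOo.uniqueDiffOn))
  have hφd : ∀ u ∈ tsupport χ, fderiv ℝ φ u (w u) = lam * h (u, p) := by
    intro u hu
    have huO := hχO hu
    rw [hφ, fderiv_phase (hψO u huO).differentiableAt]
    simp only [hh, Finset.mul_sum]
    refine Finset.sum_congr rfl fun j _ => ?_
    by_cases hjZ : j ∈ Z
    · rw [hZ u huO j hjZ]; simp
    · simp only [hp, if_neg hjZ]
      field_simp
  have h1 := hCC p hpQ lam hlam0 φ hφC hφd
  have h2 : pc ψ χ (toZ k) = ∫ u, (χ u : ℂ) * Complex.exp (Complex.I * φ u) := by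
    unfold pc
    congr 1
    ext u
    congr 1
    unfold chz
    congr 1
    simp only [hφ, toZ, Complex.ofReal_sum, Complex.ofReal_mul, Finset.mul_sum]
    refine Finset.sum_congr rfl fun j _ => ?_
    push_cast
    ring
  rw [h2]
  calc ‖∫ u, (χ u : ℂ) * Complex.exp (Complex.I * φ u)‖ ≤ C / lam ^ N := h1
    _ ≤ |C| / lam ^ N := by gcongr; exact le_abs_self C
    _ ≤ |C| / K ^ N := by gcongr

end Pool.MP4ac1fb.Full
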