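import Pool.Agent.H.MP_4ac1fb_an.Full.PatchL2
import Pool.Agent.H.MP_4ac1fb_an.Full.PatchDecay
import Pool.Agent.H.MP_4ac1fb_an.Full.Comb
import Pool.Agent.H.MP_4ac1fb_an.Full.Dual

/-!
A bad patch excludes cyclicity.
-/

namespace Pool.MP4ac1fb.Full

open MvPolynomial
open scoped ContDiff Topology

variable {d : ℕ}

namespace NC

lemma chz_zero' {ι : Type*} [Fintype ι] (θ : ι → ℝ) : chz (0 : ι → ℤ) θ = 1 := by
  simp [chz]

lemma chz_add' {ι : Type*} [Fintype ι] (k l : ι → ℤ) (θ : ι → ℝ) :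
    chz (k + l) θ = chz k θ * chz l θ := by
  unfold chz
  rw [← Complex.exp_add]
  congr 1
  rw [← mul_add, ← Finset.sum_add_distrib]
  congr 1
  refine Finset.sum_congr rfl fun i _ => ?_
  push_cast [Pi.add_apply]
  ring

lemma chz_toZ (a : Fin d →₀ ℕ) (θ : Fin d → ℝ) : chz (toZ a) θ = ∏ j, tor θ j ^ a j := by
  unfold chz tor toZ
  rw [Finset.mul_sum, Complex.exp_sum]
  refine Finset.prod_congr rfl fun j _ => ?_
  rw [← Complex.exp_nat_mul]
  congr 1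
  push_cast
  ring

lemma sum_chz (P : MvPolynomial (Fin d) ℂ) (θ : Fin d → ℝ) :
    ∑ a ∈ P.support, coeff a P * chz (toZ a) θ = eval (tor θ) P := by
  rw [MvPolynomial.eval_eq']
  refine Finset.sum_congr rfl fun a _ => ?_
  rw [chz_toZ]

lemma toZ_add (k a : Fin d →₀ ℕ) : toZ (k + a) = toZ k + toZ a := by
  funext j
  simp [toZ]

lemma continuous_chz {ι : Type*} [Fintype ι] (k : ι → ℤ) : Continuous (chz k) := by
  unfold chz
  fun_prop

section Patch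

variable {m : ℕ} {U : Set (Fin m → ℝ)} {ψ : (Fin m → ℝ) → (Fin d → ℝ)} {χ : (Fin m → ℝ) → ℝ}

lemma cont_integrand (hU : IsOpen U) (hψ : ContinuousOn ψ U) (hχ : Continuous χ)
    (hs : tsupport χ ⊆ U) (k : Fin d → ℤ) :
    Continuous fun u => (χ u : ℂ) * chz k (ψ u) := by
  rw [continuous_iff_continuousAt]
  intro u
  by_cases hu : u ∈ tsupport χ
  · have h1 : ContinuousAt ψ u := hψ.continuousAt (hU.mem_nhds (hs hu))
    have h2 : ContinuousAt (fun u => chz k (ψ u)) u :=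
      (continuous_chz k).continuousAt.comp h1
    exact (Complex.continuous_ofReal.continuousAt.comp hχ.continuousAt).mul h2
  · have h3 : (fun u => (χ u : ℂ) * chz k (ψ u)) =ᶠ[𝓝 u] fun _ => 0 := by
      filter_upwards [(isClosed_tsupport χ).isOpen_compl.mem_nhds hu] with v hv
      rw [image_eq_zero_of_notMem_tsupport hv]
      simp
    exact (continuousAt_congr h3).mpr continuousAt_const

lemma integrable_integrand (hU : IsOpen U) (hψ : ContinuousOn ψ U) (hχ : Continuous χ)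
    (hcs : HasCompactSupport χ) (hs : tsupport χ ⊆ U) (k : Fin d → ℤ) :
    MeasureTheory.Integrable fun u => (χ u : ℂ) * chz k (ψ u) := by
  apply (cont_integrand hU hψ hχ hs k).integrable_of_hasCompactSupport
  apply HasCompactSupport.intro hcs
  intro u hu
  rw [image_eq_zero_of_notMem_tsupport hu]
  simp

lemma pc_rec (hU : IsOpen U) (hψ : ContinuousOn ψ U) (hχ : Continuous χ)
    (hcs : HasCompactSupport χ) (hs : tsupport χ ⊆ U) (P : MvPolynomial (Fin d) ℂ)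
    (hz : ∀ u ∈ U, eval (tor (ψ u)) P = 0) (k : Fin d →₀ ℕ) :
    ∑ a ∈ P.support, coeff a P * pc ψ χ (toZ (k + a)) = 0 := by
  unfold pc
  simp_rw [← MeasureTheory.integral_const_mul]
  rw [← MeasureTheory.integral_finsetSum]
  · have h0 : (fun u => ∑ a ∈ P.support, coeff a P * ((χ u : ℂ) * chz (toZ (k + a)) (ψ u))) =
        fun _ => 0 := by
      funext u
      have h1 : ∑ a ∈ P.support, coeff a P * ((χ u : ℂ) * chz (toZ (k + a)) (ψ u)) =
          (χ u : ℂ) * chz (toZ k) (ψ u) * eval (tor (ψ u)) P := by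
        rw [← sum_chz, Finset.mul_sum]
        refine Finset.sum_congr rfl fun a _ => ?_
        rw [toZ_add, chz_add']
        ring
      rw [h1]
      by_cases hu : u ∈ U
      · rw [hz u hu, mul_zero]
      · have : χ u = 0 := image_eq_zero_of_notMem_tsupport fun h => hu (hs h)
        rw [this]
        simp
    rw [h0]
    simp
  · intro a _
    exact (integrable_integrand hU hψ hχ hcs hs _).const_mul _

lemma pc_zero_ne (hχ : Continuous χ) (hcs : HasCompactSupport χ) (h0 : ∀ u, 0 ≤ χ u)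
    (u₀ : Fin m → ℝ) (h1 : χ u₀ ≠ 0) : pc ψ χ 0 ≠ 0 := by
  have h2 : pc ψ χ 0 = ((∫ u, χ u : ℝ) : ℂ) := by
    unfold pc
    rw [← integral_complex_ofReal]
    congr 1
    funext u
    rw [chz_zero', mul_one]
  rw [h2, Complex.ofReal_ne_zero]
  exact (hχ.integral_pos_of_hasCompactSupport_nonneg_nonzero hcs h0 h1).ne'

lemma summable_g (p : ℝ) (hp : p < -1) : Summable fun n : ℕ => ((n : ℝ) + 1) ^ p := by
  have h1 := (summable_nat_add_iff 1).mpr (Real.summable_nat_rpow.mpr hp)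
  refine h1.congr fun n => ?_
  push_cast
  rfl

/-- summability of the terms of a basis -/
lemma summable_basis (ψ : (Fin m → ℝ) → (Fin d → ℝ)) (χ : (Fin m → ℝ) → ℝ)
    (T : Finset (Fin d)) (C : ℝ)
    (h : ∀ c : Fin d → ℤ, Summable (fun l : T → ℤ => ‖pc ψ χ (ov T c l)‖ ^ 2) ∧
      ∑' l : T → ℤ, ‖pc ψ χ (ov T c l)‖ ^ 2 ≤ C) (η : ℝ) (hη : 0 < η) :
    Summable fun k : Fin d →₀ ℕ => ‖pc ψ χ (toZ k)‖ ^ 2 *
      ∏ j ∈ Finset.univ \ T, ((k j : ℝ) + 1) ^ (-(1 + η) : ℝ) := by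
  classical
  obtain ⟨g, hg⟩ : ∃ g : ℕ → ℝ, g = fun n : ℕ => ((n : ℝ) + 1) ^ (-(1 + η) : ℝ) := ⟨_, rfl⟩
  have hg0 : ∀ n, 0 ≤ g n := fun n => by rw [hg]; positivity
  have hgs : Summable g := by rw [hg]; exact summable_g _ (by linarith)
  obtain ⟨ext, hext⟩ : ∃ ext : ({j // j ∉ T} → ℕ) → (Fin d → ℤ),
      ext = fun c j => if hj : j ∉ T then (c ⟨j, hj⟩ : ℤ) else 0 := ⟨_, rfl⟩
  have hF0 : 0 ≤ fun p : ({j // j ∉ T} → ℕ) × (T → ℤ) =>
      ‖pc ψ χ (ov T (ext p.1) p.2)‖ ^ 2 * ∏ j, g (p.1 j) :=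
    fun p => mul_nonneg (sq_nonneg _) (Finset.prod_nonneg fun j _ => hg0 _)
  have hF : Summable fun p : ({j // j ∉ T} → ℕ) × (T → ℤ) =>
      ‖pc ψ χ (ov T (ext p.1) p.2)‖ ^ 2 * ∏ j, g (p.1 j) := by
    rw [summable_prod_of_nonneg hF0]
    refine ⟨fun c => ((h (ext c)).1.mul_right (∏ j, g (c j))), ?_⟩
    have h1 : (fun c : {j // j ∉ T} → ℕ => ∑' l : T → ℤ,
        ‖pc ψ χ (ov T (ext c) l)‖ ^ 2 * ∏ j, g (c j)) =
        fun c => (∑' l : T → ℤ, ‖pc ψ χ (ov T (ext c) l)‖ ^ 2) * ∏ j, g (c j) := by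
      funext c
      rw [tsum_mul_right]
    show Summable fun c : {j // j ∉ T} → ℕ => ∑' l : T → ℤ,
        ‖pc ψ χ (ov T (ext c) l)‖ ^ 2 * ∏ j, g (c j)
    rw [h1]
    refine Summable.of_nonneg_of_le (fun c => mul_nonneg (tsum_nonneg fun l => sq_nonneg _)
      (Finset.prod_nonneg fun j _ => hg0 _)) (fun c => ?_)
      ((summable_pi (ι := {j // j ∉ T}) g hg0 hgs).mul_left C)
    exact mul_le_mul_of_nonneg_right (h (ext c)).2 (Finset.prod_nonneg fun j _ => hg0 _)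
  have hi : Function.Injective fun k : Fin d →₀ ℕ =>
      (((fun j => k j), fun j => (k j : ℤ)) : ({j // j ∉ T} → ℕ) × (T → ℤ)) := by
    intro k k' hk
    ext j
    by_cases hj : j ∈ T
    · have h1 := congrFun (congrArg Prod.snd hk) ⟨j, hj⟩
      simpa using h1
    · have h1 := congrFun (congrArg Prod.fst hk) ⟨j, hj⟩
      simpa using h1
  refine (hF.comp_injective hi).congr fun k => ?_
  have h1 : ov T (ext fun j => k j) (fun j => (k j : ℤ)) = toZ k := by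
    funext j
    unfold ov toZ
    by_cases hj : j ∈ T
    · simp [hj]
    · simp [hj, hext]
  have h2 : ∏ j ∈ Finset.univ \ T, ((k j : ℝ) + 1) ^ (-(1 + η) : ℝ) =
      ∏ j : {j // j ∉ T}, g (k j) := by
    rw [Finset.prod_subtype (Finset.univ \ T) (p := fun j => j ∉ T) (by simp), hg]
  rw [h2, ← h1]
  rfl

end Patch

lemma summable_two : Summable fun k : Fin d →₀ ℕ => ∏ j, ((k j : ℝ) + 1) ^ (-2 : ℝ) :=
  (summable_pi (ι := Fin d) (fun n : ℕ => ((n : ℝ) + 1) ^ (-2 : ℝ)) (fun n => by positivity)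
    (summable_g _ (by norm_num))).comp_injective DFunLike.coe_injective

/-- pointwise estimate in the separated case -/
lemma sep_bound (t : ℝ) (N : ℕ) (δ C : ℝ) (hC : 0 < C)
    (hN : d * |t| + 2 * d ≤ 2 * N * δ) (b CN K : ℝ) (k : Fin d →₀ ℕ) (hK : 0 < K)
    (hb0 : 0 ≤ b) (hb : b ≤ CN / K ^ N) (h : (1 + ∑ j, (k j : ℝ)) ^ (δ : ℝ) ≤ C * K) :
    b ^ 2 / wt t k ≤ CN ^ 2 * C ^ (2 * N) * ∏ j, ((k j : ℝ) + 1) ^ (-2 : ℝ) := by
  set σ : ℝ := 1 + ∑ j, (k j : ℝ) with hσ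
  have hk : ∀ j, (k j : ℝ) + 1 ≤ σ := by
    intro j
    have : (k j : ℝ) ≤ ∑ j, (k j : ℝ) :=
      Finset.single_le_sum (f := fun j => (k j : ℝ)) (fun i _ => by positivity) (Finset.mem_univ j)
    linarith
  have hσ1 : 1 ≤ σ := by
    have : (0 : ℝ) ≤ ∑ j, (k j : ℝ) := Finset.sum_nonneg fun i _ => by positivity
    linarith
  have hσ0 : 0 < σ := by linarith
  -- the weight
  have hw : (wt t k)⁻¹ ≤ σ ^ (d * |t|) := by
    unfold wt
    rw [← Finset.prod_inv_distrib]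
    calc ∏ j, (((k j : ℝ) + 1) ^ t)⁻¹ ≤ ∏ _j : Fin d, σ ^ |t| := by
          refine Finset.prod_le_prod (fun j _ => by positivity) fun j _ => ?_
          rw [← Real.rpow_neg (by positivity)]
          calc ((k j : ℝ) + 1) ^ (-t) ≤ ((k j : ℝ) + 1) ^ |t| :=
                Real.rpow_le_rpow_of_exponent_le (by
                  have : (0 : ℝ) ≤ k j := by positivity
                  linarith) (neg_le_abs t)
            _ ≤ σ ^ |t| := Real.rpow_le_rpow (by positivity) (hk j) (abs_nonneg t)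
      _ = σ ^ (d * |t|) := by
          rw [Finset.prod_const, Finset.card_univ, Fintype.card_fin, ← Real.rpow_natCast,
            ← Real.rpow_mul hσ0.le, mul_comm]
  have hKi : (K ^ N)⁻¹ ≤ C ^ N * σ ^ (-(N * δ)) := by
    have h1 : K⁻¹ ≤ C * σ ^ (-δ) := by
      rw [Real.rpow_neg hσ0.le]
      have h2 : 0 < σ ^ δ := by positivity
      rw [inv_le_iff_one_le_mul₀ hK]
      have h3 : 1 ≤ (σ ^ δ)⁻¹ * (C * K) := by
        rw [← inv_mul_cancel₀ h2.ne']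
        exact mul_le_mul_of_nonneg_left h (by positivity)
      calc (1 : ℝ) ≤ (σ ^ δ)⁻¹ * (C * K) := h3
        _ = C * (σ ^ δ)⁻¹ * K := by ring
    calc (K ^ N)⁻¹ = (K⁻¹) ^ N := by rw [inv_pow]
      _ ≤ (C * σ ^ (-δ)) ^ N := pow_le_pow_left₀ (by positivity) h1 N
      _ = C ^ N * σ ^ (-(N * δ)) := by
          rw [mul_pow, ← Real.rpow_natCast (σ ^ (-δ)), ← Real.rpow_mul hσ0.le]
          ring_nf
  have hb2 : b ^ 2 ≤ CN ^ 2 * (C ^ N * σ ^ (-(N * δ))) ^ 2 := by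
    have h1 : b ^ 2 ≤ (CN / K ^ N) ^ 2 := pow_le_pow_left₀ hb0 hb 2
    refine h1.trans ?_
    rw [div_eq_mul_inv, mul_pow]
    exact mul_le_mul_of_nonneg_left (pow_le_pow_left₀ (by positivity) hKi 2) (sq_nonneg _)
  have hprod : σ ^ (-(2 * d) : ℝ) ≤ ∏ j, ((k j : ℝ) + 1) ^ (-2 : ℝ) := by
    calc σ ^ (-(2 * d) : ℝ) = ∏ _j : Fin d, σ ^ (-2 : ℝ) := by
          rw [Finset.prod_const, Finset.card_univ, Fintype.card_fin, ← Real.rpow_natCast,
            ← Real.rpow_mul hσ0.le]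
          ring_nf
      _ ≤ ∏ j, ((k j : ℝ) + 1) ^ (-2 : ℝ) :=
          Finset.prod_le_prod (fun j _ => by positivity) fun j _ =>
            Real.rpow_le_rpow_of_nonpos (by positivity) (hk j) (by norm_num)
  calc b ^ 2 / wt t k = b ^ 2 * (wt t k)⁻¹ := by rw [div_eq_mul_inv]
    _ ≤ (CN ^ 2 * (C ^ N * σ ^ (-(N * δ))) ^ 2) * σ ^ (d * |t|) :=
        mul_le_mul hb2 hw (inv_nonneg.mpr (wt_pos t k).le) (by positivity)
    _ = CN ^ 2 * C ^ (2 * N) * σ ^ (d * |t| - 2 * N * δ) := by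
        have h1 : (σ ^ (-(N * δ))) ^ 2 = σ ^ (-(2 * N * δ)) := by
          rw [← Real.rpow_natCast, ← Real.rpow_mul hσ0.le]
          push_cast
          ring_nf
        rw [mul_pow, h1, sub_eq_add_neg, Real.rpow_add hσ0]
        ring
    _ ≤ CN ^ 2 * C ^ (2 * N) * σ ^ (-(2 * d) : ℝ) := by
        refine mul_le_mul_of_nonneg_left ?_ (by positivity)
        exact Real.rpow_le_rpow_of_exponent_le hσ1 (by linarith)
    _ ≤ CN ^ 2 * C ^ (2 * N) * ∏ j, ((k j : ℝ) + 1) ^ (-2 : ℝ) :=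
        mul_le_mul_of_nonneg_left hprod (by positivity)

/-- near a suitable point the matroid of the rows is constant -/
lemma exists_regular {m : ℕ} {U : Set (Fin m → ℝ)} (hU : IsOpen U) (hne : U.Nonempty)
    {ψ : (Fin m → ℝ) → (Fin d → ℝ)} (hψ : AnalyticOnNhd ℝ ψ U) :
    ∃ u₀ ∈ U, ∀ T : Finset (Fin d), ∀ᶠ u in 𝓝 u₀,
      (LinearIndepOn ℝ (row ψ u) (T : Set (Fin d)) ↔
        LinearIndepOn ℝ (row ψ u₀) (T : Set (Fin d))) := by
  classical
  let A : (Fin m → ℝ) → Finset (Finset (Fin d)) := fun u =>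
    Finset.univ.filter fun T => LinearIndepOn ℝ (row ψ u) (T : Set (Fin d))
  have hbdd : BddAbove ((fun u => (A u).card) '' U) :=
    ⟨(Finset.univ : Finset (Finset (Fin d))).card, by
      rintro _ ⟨u, _, rfl⟩
      exact Finset.card_le_card (Finset.filter_subset _ _)⟩
  obtain ⟨u₀, hu₀, hmax⟩ := Nat.sSup_mem (hne.image fun u => (A u).card) hbdd
  have hmax' : ∀ u ∈ U, (A u).card ≤ (A u₀).card := by
    intro u hu
    have h1 := le_csSup hbdd (Set.mem_image_of_mem (fun u => (A u).card) hu)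
    rw [← hmax] at h1
    exact h1
  refine ⟨u₀, hu₀, ?_⟩
  have h1 : ∀ᶠ u in 𝓝 u₀, ∀ T : Finset (Fin d), LinearIndepOn ℝ (row ψ u₀) (T : Set (Fin d)) →
      LinearIndepOn ℝ (row ψ u) (T : Set (Fin d)) := by
    rw [Filter.eventually_all]
    intro T
    by_cases hT : LinearIndepOn ℝ (row ψ u₀) (T : Set (Fin d))
    · have hc : ContinuousAt (fun u => fun x : (T : Set (Fin d)) => row ψ u x) u₀ := by
        rw [continuousAt_pi]
        intro x
        exact (analyticOnNhd_row hψ x u₀ hu₀).continuousAt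
      have h2 := hc.eventually (LinearIndependent.eventually hT)
      filter_upwards [h2] with u hu _
      exact hu
    · exact Filter.Eventually.of_forall fun u h => absurd h hT
  have h2 : ∀ᶠ u in 𝓝 u₀, A u = A u₀ := by
    filter_upwards [h1, hU.mem_nhds hu₀] with u hu huU
    symm
    apply Finset.eq_of_subset_of_card_le _ (hmax' u huU)
    intro T hT
    simp only [A, Finset.mem_filter, Finset.mem_univ, true_and] at hT ⊢
    exact hu T hT
  intro T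
  filter_upwards [h2] with u hu
  have h3 : T ∈ A u ↔ T ∈ A u₀ := by rw [hu]
  simpa only [A, Finset.mem_filter, Finset.mem_univ, true_and] using h3

end NC

open NC in
theorem not_cyclic_of_bad (t : ℝ) (P : MvPolynomial (Fin d) ℂ) (h : ¬ GoodPatches t P) :
    ¬ ShiftCyclic t P := by
  classical
  unfold GoodPatches at h
  push Not at h
  obtain ⟨m, U, ψ, hP, hbad⟩ := h
  obtain ⟨u₀, hu₀, hloc⟩ := exists_regular hP.isOpen hP.nonempty hP.analytic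
  have hbad' : ∀ S, PosSup (row ψ u₀) S → (1 - t) * S.card < rkk (row ψ u₀) S := by
    intro S hS
    have h1 := hbad u₀ hu₀ S ((normalSupport_iff ψ u₀ S).mpr hS)
    rwa [projDim_eq] at h1
  have hspan := rkk_univ ψ u₀ (hP.immersion u₀ hu₀)
  have hψa := hP.analytic u₀ hu₀
  -- neighbourhoods for the bases
  have hB : ∀ T : Finset (Fin d), ∃ O ∈ 𝓝 u₀, T.card = m →
      LinearIndepOn ℝ (row ψ u₀) (T : Set (Fin d)) → ∀ χ : (Fin m → ℝ) → ℝ, ContDiff ℝ ∞ χ →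
      HasCompactSupport χ → tsupport χ ⊆ O → ∃ C : ℝ, ∀ c : Fin d → ℤ,
        Summable (fun l : T → ℤ => ‖pc ψ χ (ov T c l)‖ ^ 2) ∧
          ∑' l : T → ℤ, ‖pc ψ χ (ov T c l)‖ ^ 2 ≤ C := by
    intro T
    by_cases hT : T.card = m ∧ LinearIndepOn ℝ (row ψ u₀) (T : Set (Fin d))
    · obtain ⟨O, hO, hO'⟩ := patch_l2 ψ u₀ hψa T hT.1 hT.2
      exact ⟨O, hO, fun _ _ => hO'⟩
    · exact ⟨Set.univ, Filter.univ_mem, fun h1 h2 => absurd ⟨h1, h2⟩ hT⟩
  choose OT hOT hOT' using hB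
  -- neighbourhoods for the separated case
  have hD : ∀ S : Finset (Fin d), ∃ O ∈ 𝓝 u₀, ∃ ε > 0, S.Nonempty → ¬ PosSup (row ψ u₀) S →
      ∀ χ : (Fin m → ℝ) → ℝ, ContDiff ℝ ∞ χ → HasCompactSupport χ →
      tsupport χ ⊆ O → ∀ N : ℕ, ∃ C : ℝ, ∀ (k : Fin d →₀ ℕ) (K : ℝ), 0 < K →
        (∀ i ∈ S, K ≤ k i) → (∀ j ∉ S, (k j : ℝ) ≤ ε * K) → ‖pc ψ χ (toZ k)‖ ≤ C / K ^ N := by
    intro S
    by_cases hS : S.Nonempty ∧ ¬ PosSup (row ψ u₀) S
    · obtain ⟨O, hO, ε, hε, hO'⟩ := patch_decay ψ u₀ hψa hloc S hS.1 hS.2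
      exact ⟨O, hO, ε, hε, fun _ _ => hO'⟩
    · exact ⟨Set.univ, Filter.univ_mem, 1, one_pos, fun h1 h2 => absurd ⟨h1, h2⟩ hS⟩
  choose OS hOS εS hεS hOS' using hD
  obtain ⟨ε, hε, hεle⟩ : ∃ ε > 0, ∀ S, ε ≤ εS S := by
    refine ⟨Finset.univ.inf' Finset.univ_nonempty εS, ?_, fun S =>
      Finset.inf'_le _ (Finset.mem_univ S)⟩
    rw [gt_iff_lt, Finset.lt_inf'_iff]
    intro S _
    exact hεS S
  obtain ⟨η, hη, δ, hδ, C, hC, hcomb⟩ := comb (row ψ u₀) hspan t hbad' ε hε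
  have hO : U ∩ (⋂ T, OT T) ∩ (⋂ S, OS S) ∈ 𝓝 u₀ := by
    refine Filter.inter_mem (Filter.inter_mem (hP.isOpen.mem_nhds hu₀) ?_) ?_
    · exact Filter.iInter_mem.mpr hOT
    · exact Filter.iInter_mem.mpr hOS
  obtain ⟨χ, hχO, hcs, hχ, hrange, hχ1⟩ := exists_contDiff_tsupport_subset (n := ⊤) hO
  have hχU : tsupport χ ⊆ U := fun u hu => (hχO hu).1.1
  have hχT : ∀ T, tsupport χ ⊆ OT T := fun T u hu => Set.mem_iInter.mp (hχO hu).1.2 T
  have hχS : ∀ S, tsupport χ ⊆ OS S := fun S u hu => Set.mem_iInter.mp (hχO hu).2 S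
  have hχ0 : ∀ u, 0 ≤ χ u := fun u => (hrange ⟨u, rfl⟩).1
  have hχc : Continuous χ := hχ.continuous
  have hψc : ContinuousOn ψ U := hP.analytic.continuousOn
  intro hcyc
  rw [shiftCyclic_iff_ann] at hcyc
  refine pc_zero_ne (ψ := ψ) hχc hcs hχ0 u₀ (by rw [hχ1]; exact one_ne_zero) ?_
  have hb0 := hcyc (fun k => pc ψ χ (toZ k)) ⟨?_, fun k => ?_⟩
  · have : toZ (0 : Fin d →₀ ℕ) = 0 := by funext j; simp [toZ]
    simpa only [this] using hb0
  swap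
  · exact pc_rec hP.isOpen hψc hχc hcs hχU P hP.zero k
  -- summability
  obtain ⟨N, hN⟩ : ∃ N : ℕ, d * |t| + 2 * d ≤ 2 * N * δ := by
    obtain ⟨N, hN⟩ := exists_nat_ge ((d * |t| + 2 * d) / (2 * δ))
    refine ⟨N, ?_⟩
    rw [div_le_iff₀ (by positivity)] at hN
    linarith
  have hCS : ∀ S : Finset (Fin d), ∃ CN : ℝ, S.Nonempty → ¬ PosSup (row ψ u₀) S →
      ∀ (k : Fin d →₀ ℕ) (K : ℝ), 0 < K →
        (∀ i ∈ S, K ≤ k i) → (∀ j ∉ S, (k j : ℝ) ≤ εS S * K) →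
          ‖pc ψ χ (toZ k)‖ ≤ CN / K ^ N := by
    intro S
    by_cases hS : S.Nonempty ∧ ¬ PosSup (row ψ u₀) S
    · obtain ⟨CN, hCN⟩ := hOS' S hS.1 hS.2 χ hχ hcs (hχS S) N
      exact ⟨CN, fun _ _ => hCN⟩
    · exact ⟨0, fun h1 h2 => absurd ⟨h1, h2⟩ hS⟩
  choose CS hCS' using hCS
  let Bs : Finset (Finset (Fin d)) := Finset.univ.filter fun T =>
    T.card = m ∧ LinearIndepOn ℝ (row ψ u₀) (T : Set (Fin d))
  have hsum1 : Summable fun k : Fin d →₀ ℕ => ∑ T ∈ Bs, C * (‖pc ψ χ (toZ k)‖ ^ 2 *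
      ∏ j ∈ Finset.univ \ T, ((k j : ℝ) + 1) ^ (-(1 + η) : ℝ)) := by
    apply summable_sum
    intro T hT
    simp only [Bs, Finset.mem_filter, Finset.mem_univ, true_and] at hT
    obtain ⟨CT, hCT⟩ := hOT' T hT.1 hT.2 χ hχ hcs (hχT T)
    exact (summable_basis ψ χ T CT hCT η hη).mul_left C
  have hsum2 : Summable fun k : Fin d →₀ ℕ => (∑ S, CS S ^ 2) * C ^ (2 * N) *
      ∏ j, ((k j : ℝ) + 1) ^ (-2 : ℝ) := summable_two.mul_left _
  refine Summable.of_nonneg_of_le (fun k => div_nonneg (sq_nonneg _) (wt_pos t k).le) (fun k => ?_)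
    (hsum1.add hsum2)
  have hterm0 : ∀ T : Finset (Fin d), 0 ≤ C * (‖pc ψ χ (toZ k)‖ ^ 2 *
      ∏ j ∈ Finset.univ \ T, ((k j : ℝ) + 1) ^ (-(1 + η) : ℝ)) := fun T => by positivity
  have hterm2 : 0 ≤ (∑ S, CS S ^ 2) * C ^ (2 * N) * ∏ j, ((k j : ℝ) + 1) ^ (-2 : ℝ) := by
    positivity
  rcases hcomb k with ⟨T, hTc, hTi, hT⟩ | ⟨S, hSn, hSp, K, hK, hKi, hKj, hKσ⟩
  · have hTB : T ∈ Bs := by
      simp only [Bs, Finset.mem_filter, Finset.mem_univ, true_and]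
      exact ⟨hTc, hTi⟩
    calc ‖pc ψ χ (toZ k)‖ ^ 2 / wt t k
        ≤ ‖pc ψ χ (toZ k)‖ ^ 2 * (C * ∏ j ∈ Finset.univ \ T, ((k j : ℝ) + 1) ^ (-(1 + η) : ℝ)) := by
          rw [div_eq_mul_inv]
          exact mul_le_mul_of_nonneg_left hT (sq_nonneg _)
      _ = C * (‖pc ψ χ (toZ k)‖ ^ 2 *
            ∏ j ∈ Finset.univ \ T, ((k j : ℝ) + 1) ^ (-(1 + η) : ℝ)) := by ring
      _ ≤ ∑ T ∈ Bs, C * (‖pc ψ χ (toZ k)‖ ^ 2 *
            ∏ j ∈ Finset.univ \ T, ((k j : ℝ) + 1) ^ (-(1 + η) : ℝ)) :=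
          Finset.single_le_sum (f := fun T => C * (‖pc ψ χ (toZ k)‖ ^ 2 *
            ∏ j ∈ Finset.univ \ T, ((k j : ℝ) + 1) ^ (-(1 + η) : ℝ))) (fun T _ => hterm0 T) hTB
      _ ≤ _ := le_add_of_nonneg_right hterm2
  · have h1 : ‖pc ψ χ (toZ k)‖ ≤ CS S / K ^ N := hCS' S hSn hSp k K hK hKi fun j hj =>
      (hKj j hj).trans (mul_le_mul_of_nonneg_right (hεle S) hK.le)
    have h2 := sep_bound t N δ C hC hN ‖pc ψ χ (toZ k)‖ (CS S) K k hK (norm_nonneg _) h1 hKσ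
    refine h2.trans ?_
    have h3 : CS S ^ 2 ≤ ∑ S, CS S ^ 2 :=
      Finset.single_le_sum (f := fun S => CS S ^ 2) (fun S _ => sq_nonneg _) (Finset.mem_univ S)
    calc CS S ^ 2 * C ^ (2 * N) * ∏ j, ((k j : ℝ) + 1) ^ (-2 : ℝ)
        ≤ (∑ S, CS S ^ 2) * C ^ (2 * N) * ∏ j, ((k j : ℝ) + 1) ^ (-2 : ℝ) := by
          gcongr
      _ ≤ _ := le_add_of_nonneg_left (Finset.sum_nonneg fun T _ => hterm0 T)

end Pool.MP4ac1fb.Full
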