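import Pool.Agent.H.MP_4ac1fb_an.Full.Hyper

/-!
Countable stratification of an analytic set by analytic graph charts with constant matroid.
-/

namespace Pool.MP4ac1fb.Full

variable {d : ℕ}

/-! ### Families of charts -/

/-- The data of a chart. -/
structure ChartData (d : ℕ) where
  /-- the number of parameters -/
  m : ℕ
  /-- the domain -/
  U : Set (Fin m → ℝ)
  /-- the parametrisation -/
  ψ : (Fin m → ℝ) → (Fin d → ℝ)
  /-- the coordinates used as parameters -/
  B : Fin m → Fin d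

/-- Charts in the zero set of `F` with the wanted properties. -/
def ChartData.Nice (F : (Fin d → ℝ) → ℝ) (c : ChartData d) : Prop :=
  GraphChart c.U c.ψ c.B ∧ IsPreconnected c.U ∧ MatroidConst c.U c.ψ ∧
    ∀ u ∈ c.U, F (c.ψ u) = 0

/-- `A` is covered by countably many nice charts. -/
def Cov (F : (Fin d → ℝ) → ℝ) (A : Set (Fin d → ℝ)) : Prop :=
  ∃ S : Set (ChartData d), S.Countable ∧ (∀ c ∈ S, c.Nice F) ∧
    ∀ θ ∈ A, ∃ c ∈ S, θ ∈ c.ψ '' c.U

theorem Cov.mono {F : (Fin d → ℝ) → ℝ} {A A' : Set (Fin d → ℝ)} (h : Cov F A) (hA : A' ⊆ A) :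
    Cov F A' := by
  obtain ⟨S, h1, h2, h3⟩ := h
  exact ⟨S, h1, h2, fun θ hθ => h3 θ (hA hθ)⟩

theorem Cov.empty (F : (Fin d → ℝ) → ℝ) : Cov F ∅ :=
  ⟨∅, Set.countable_empty, fun _ h => absurd h (Set.notMem_empty _),
    fun _ h => absurd h (Set.notMem_empty _)⟩

theorem Cov.biUnion {F : (Fin d → ℝ) → ℝ} {ι : Type*} {I : Set ι} (hI : I.Countable)
    {A : ι → Set (Fin d → ℝ)} (h : ∀ i ∈ I, Cov F (A i)) : Cov F (⋃ i ∈ I, A i) := by
  choose! S h1 h2 h3 using h
  refine ⟨⋃ i ∈ I, S i, hI.biUnion h1, ?_, ?_⟩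
  · intro c hc
    simp only [Set.mem_iUnion] at hc
    obtain ⟨i, hi, hc⟩ := hc
    exact h2 i hi c hc
  · intro θ hθ
    simp only [Set.mem_iUnion] at hθ
    obtain ⟨i, hi, hθ⟩ := hθ
    obtain ⟨c, hc, hc'⟩ := h3 i hi θ hθ
    refine ⟨c, ?_, hc'⟩
    simp only [Set.mem_iUnion]
    exact ⟨i, hi, hc⟩

theorem Cov.iUnion {F : (Fin d → ℝ) → ℝ} {ι : Type*} [Countable ι]
    {A : ι → Set (Fin d → ℝ)} (h : ∀ i, Cov F (A i)) : Cov F (⋃ i, A i) := by
  have := Cov.biUnion (F := F) (I := (Set.univ : Set ι)) Set.countable_univ (A := A)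
    (fun i _ => h i)
  simpa using this

theorem Cov.union {F : (Fin d → ℝ) → ℝ} {A A' : Set (Fin d → ℝ)} (h : Cov F A) (h' : Cov F A') :
    Cov F (A ∪ A') := by
  have := Cov.iUnion (F := F) (ι := Bool) (A := fun b => cond b A A')
    (fun b => by cases b <;> simpa)
  refine this.mono ?_
  intro θ hθ
  rcases hθ with hθ | hθ
  · exact Set.mem_iUnion.2 ⟨true, hθ⟩
  · exact Set.mem_iUnion.2 ⟨false, hθ⟩

/-! ### Operations on graph charts -/

theorem GraphChart.stratMono {m : ℕ} {U V : Set (Fin m → ℝ)} {ψ : (Fin m → ℝ) → (Fin d → ℝ)}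
    {B : Fin m → Fin d} (h : GraphChart U ψ B) (hV : IsOpen V) (hVU : V ⊆ U) :
    GraphChart V ψ B where
  isOpen := hV
  analytic := h.analytic.mono hVU
  graph := fun u hu => h.graph u (hVU hu)

theorem GraphChart.stratComp {m k : ℕ} {U : Set (Fin m → ℝ)} {ψ : (Fin m → ℝ) → (Fin d → ℝ)}
    {B : Fin m → Fin d} (h : GraphChart U ψ B) {V : Set (Fin k → ℝ)}
    {φ : (Fin k → ℝ) → (Fin m → ℝ)} {B' : Fin k → Fin m} (h' : GraphChart V φ B')
    (hφ : φ '' V ⊆ U) : GraphChart V (fun v => ψ (φ v)) (fun i => B (B' i)) where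
  isOpen := h'.isOpen
  analytic := fun v hv => (h.analytic (φ v) (hφ ⟨v, hv, rfl⟩)).comp (h'.analytic v hv)
  graph := fun v hv i => by
    rw [h.graph (φ v) (hφ ⟨v, hv, rfl⟩), h'.graph v hv]

/-! ### Covering an open set by balls -/

theorem strat_ball_cover {m : ℕ} {U : Set (Fin m → ℝ)} (hU : IsOpen U) :
    ∃ (I : Set (Fin m → ℝ)) (r : (Fin m → ℝ) → ℝ), I.Countable ∧
      (∀ x ∈ I, 0 < r x ∧ Metric.ball x (r x) ⊆ U) ∧ U ⊆ ⋃ x ∈ I, Metric.ball x (r x) := by
  have h1 : ∀ x ∈ U, ∃ r : ℝ, 0 < r ∧ Metric.ball x r ⊆ U := fun x hx => by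
    obtain ⟨r, hr, h⟩ := Metric.isOpen_iff.1 hU x hx
    exact ⟨r, hr, h⟩
  choose! r hr hrU using h1
  obtain ⟨I, hIU, hI, hcov⟩ := TopologicalSpace.countable_cover_nhdsWithin
    (f := fun x => Metric.ball x (r x)) (s := U)
    (fun x hx => mem_nhdsWithin_of_mem_nhds (Metric.ball_mem_nhds x (hr x hx)))
  exact ⟨I, r, hI, fun x hx => ⟨hr x (hIU hx), hrU x (hIU hx)⟩, hcov⟩

theorem strat_isPreconnected_ball {m : ℕ} (x : Fin m → ℝ) (r : ℝ) :
    IsPreconnected (Metric.ball x r) :=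
  (convex_ball x r).isPreconnected

/-! ### Gram determinants -/

/-- The Gram determinant of the rows in `T`. -/
noncomputable def gramDet {m : ℕ} (ψ : (Fin m → ℝ) → (Fin d → ℝ)) (T : Finset (Fin d))
    (u : Fin m → ℝ) : ℝ :=
  Matrix.det (Matrix.of fun i k : T => ∑ l, row ψ u i l * row ψ u k l)

theorem gramDet_ne_zero_iff {m : ℕ} (ψ : (Fin m → ℝ) → (Fin d → ℝ)) (T : Finset (Fin d))
    (u : Fin m → ℝ) : gramDet ψ T u ≠ 0 ↔ LinearIndepOn ℝ (row ψ u) (T : Set (Fin d)) := by
  classical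
  rw [linearIndepOn_finset_iff]
  constructor
  · intro h f hf i hi
    by_contra hne
    apply h
    rw [gramDet, ← Matrix.exists_mulVec_eq_zero_iff]
    refine ⟨fun k => f k, ?_, ?_⟩
    · intro h0
      exact hne (congrFun h0 ⟨i, hi⟩)
    · funext j
      simp only [Matrix.mulVec, dotProduct, Matrix.of_apply, Pi.zero_apply]
      have hl : ∀ l, ∑ k : T, row ψ u k l * f k = 0 := by
        intro l
        have h1 := congrFun hf l
        rw [Finset.sum_apply] at h1
        rw [Finset.sum_coe_sort T (fun k => row ψ u k l * f k)]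
        simp only [Pi.smul_apply, smul_eq_mul, Pi.zero_apply] at h1
        rw [← h1]
        exact Finset.sum_congr rfl fun k _ => mul_comm _ _
      calc ∑ k : T, (∑ l, row ψ u j l * row ψ u k l) * f k
          = ∑ k : T, ∑ l, row ψ u j l * (row ψ u k l * f k) := by
            refine Finset.sum_congr rfl fun k _ => ?_
            rw [Finset.sum_mul]
            exact Finset.sum_congr rfl fun l _ => by ring
        _ = ∑ l, row ψ u j l * ∑ k : T, row ψ u k l * f k := by
            rw [Finset.sum_comm]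
            exact Finset.sum_congr rfl fun l _ => by rw [Finset.mul_sum]
        _ = 0 := Finset.sum_eq_zero fun l _ => by rw [hl l, mul_zero]
  · intro h h0
    rw [gramDet, ← Matrix.exists_mulVec_eq_zero_iff] at h0
    obtain ⟨v, hv, hv0⟩ := h0
    -- the combination of the rows is zero
    have hl : ∀ l, ∑ k : T, v k * row ψ u k l = 0 := by
      have hsq : ∑ l, (∑ k : T, v k * row ψ u k l) ^ 2 = 0 := by
        calc ∑ l, (∑ k : T, v k * row ψ u k l) ^ 2
            = ∑ l, ∑ j : T, ∑ k : T, v j * (row ψ u j l * row ψ u k l * v k) := by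
              refine Finset.sum_congr rfl fun l _ => ?_
              rw [sq, Finset.sum_mul_sum]
              refine Finset.sum_congr rfl fun j _ => Finset.sum_congr rfl fun k _ => by ring
          _ = ∑ j : T, v j * ∑ k : T, (∑ l, row ψ u j l * row ψ u k l) * v k := by
              rw [Finset.sum_comm]
              refine Finset.sum_congr rfl fun j _ => ?_
              rw [Finset.sum_comm, Finset.mul_sum]
              refine Finset.sum_congr rfl fun k _ => ?_
              rw [Finset.sum_mul, Finset.mul_sum]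
          _ = ∑ j : T, v j * 0 := by
              refine Finset.sum_congr rfl fun j _ => ?_
              congr 1
              have := congrFun hv0 j
              simpa only [Matrix.mulVec, dotProduct, Matrix.of_apply, Pi.zero_apply] using this
          _ = 0 := by simp
      intro l
      have := (Finset.sum_eq_zero_iff_of_nonneg (fun l _ => sq_nonneg _)).1 hsq l
        (Finset.mem_univ l)
      exact pow_eq_zero_iff (two_ne_zero) |>.1 this
    apply hv
    set f : Fin d → ℝ := fun i => if hi : i ∈ T then v ⟨i, hi⟩ else 0 with hf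
    have hfv : ∀ k : T, f k = v k := fun k => by
      simp [hf]
    have h2 := h f (by
      funext l
      rw [Finset.sum_apply]
      simp only [Pi.smul_apply, smul_eq_mul, Pi.zero_apply]
      rw [← Finset.sum_coe_sort T (fun k => f k * row ψ u k l), ← hl l]
      exact Finset.sum_congr rfl fun k _ => by rw [hfv])
    funext k
    rw [← hfv k]
    exact h2 k k.2

theorem strat_analytic_row {m : ℕ} {U : Set (Fin m → ℝ)} {ψ : (Fin m → ℝ) → (Fin d → ℝ)}
    (h : AnalyticOnNhd ℝ ψ U) (j : Fin d) (l : Fin m) :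
    AnalyticOnNhd ℝ (fun u => row ψ u j l) U := by
  intro u hu
  have h1 : AnalyticAt ℝ (fderiv ℝ ψ) u := (h u hu).fderiv
  have h2 : AnalyticAt ℝ (fun u => fderiv ℝ ψ u (Pi.single l 1)) u :=
    (ContinuousLinearMap.apply ℝ (Fin d → ℝ) (Pi.single l (1 : ℝ) : Fin m → ℝ)).analyticAt _
      |>.comp h1
  exact (ContinuousLinearMap.proj (R := ℝ) (φ := fun _ : Fin d => ℝ) j).analyticAt _ |>.comp h2

theorem strat_analytic_gramDet {m : ℕ} {U : Set (Fin m → ℝ)} {ψ : (Fin m → ℝ) → (Fin d → ℝ)}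
    (h : AnalyticOnNhd ℝ ψ U) (T : Finset (Fin d)) : AnalyticOnNhd ℝ (gramDet ψ T) U := by
  classical
  have h1 : gramDet ψ T = fun u => ∑ σ : Equiv.Perm T, ((Equiv.Perm.sign σ : ℤ) : ℝ) *
      ∏ i : T, ∑ l, row ψ u (σ i) l * row ψ u i l := by
    funext u
    rw [gramDet, Matrix.det_apply']
    rfl
  rw [h1]
  refine Finset.analyticOnNhd_fun_sum _ fun σ _ => ?_
  refine AnalyticOnNhd.mul analyticOnNhd_const ?_
  refine Finset.analyticOnNhd_fun_prod _ fun i _ => ?_
  refine Finset.analyticOnNhd_fun_sum _ fun l _ => ?_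
  exact (strat_analytic_row h _ l).mul (strat_analytic_row h _ l)

/-! ### The induction -/

/-- The claim proved by induction on the number of parameters. -/
def StratClaim (F : (Fin d → ℝ) → ℝ) (m : ℕ) : Prop :=
  ∀ (U : Set (Fin m → ℝ)) (ψ : (Fin m → ℝ) → (Fin d → ℝ)) (B : Fin m → Fin d),
    GraphChart U ψ B → Cov F {θ | θ ∈ ψ '' U ∧ F θ = 0}

/-- The part of a chart over the zero set of a nonzero analytic function is covered. -/
theorem strat_cov_zero {F : (Fin d → ℝ) → ℝ} {m : ℕ} (hm : StratClaim F m) {V : Set (Fin (m + 1) → ℝ)}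
    {ψ : (Fin (m + 1) → ℝ) → (Fin d → ℝ)} {B : Fin (m + 1) → Fin d} (hc : GraphChart V ψ B)
    (hV : IsPreconnected V) {g : (Fin (m + 1) → ℝ) → ℝ} (hg : AnalyticOnNhd ℝ g V)
    (hne : ∃ u ∈ V, g u ≠ 0) :
    Cov F {θ | (∃ u ∈ V, g u = 0 ∧ ψ u = θ) ∧ F θ = 0} := by
  obtain ⟨W, φ, B', h1, h2⟩ := hypersurface V hc.isOpen hV g hg hne
  refine (Cov.iUnion (F := F) fun n => hm (W n) (fun v => ψ (φ n v)) (fun i => B (B' n i))
    (hc.stratComp (h1 n).1 (h1 n).2)).mono ?_
  rintro θ ⟨⟨u, hu, hgu, rfl⟩, hF⟩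
  obtain ⟨n, v, hv, hvu⟩ : ∃ n, ∃ v ∈ W n, φ n v = u := by
    have := h2 ⟨hu, hgu⟩
    simp only [Set.mem_iUnion, Set.mem_image] at this
    exact this
  refine Set.mem_iUnion.2 ⟨n, ?_, hF⟩
  exact ⟨v, hv, by simp only [hvu]⟩

theorem stratClaim_zero (F : (Fin d → ℝ) → ℝ) : StratClaim F 0 := by
  intro U ψ B hc
  by_cases h : ∃ u ∈ U, F (ψ u) = 0
  · obtain ⟨u, hu, hF⟩ := h
    have hsub : ∀ v : Fin 0 → ℝ, v = u := fun v => Subsingleton.elim _ _
    refine ⟨{⟨0, U, ψ, B⟩}, Set.countable_singleton _, ?_, ?_⟩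
    · rintro c rfl
      refine ⟨hc, ?_, ?_, ?_⟩
      · exact Set.Subsingleton.isPreconnected fun a _ b _ => Subsingleton.elim _ _
      · intro T
        by_cases hT : LinearIndepOn ℝ (row ψ u) (T : Set (Fin d))
        · exact Or.inl fun v _ => by rw [hsub v]; exact hT
        · exact Or.inr fun v _ => by rw [hsub v]; exact hT
      · intro v _
        show F (ψ v) = 0
        rw [hsub v]
        exact hF
    · rintro θ ⟨hθ, _⟩
      exact ⟨_, rfl, hθ⟩
  · refine (Cov.empty F).mono ?_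
    rintro θ ⟨⟨u, hu, rfl⟩, hF⟩
    exact absurd ⟨u, hu, hF⟩ h

theorem stratClaim_succ {F : (Fin d → ℝ) → ℝ} (hF : AnalyticOnNhd ℝ F Set.univ) {m : ℕ}
    (hm : StratClaim F m) : StratClaim F (m + 1) := by
  classical
  intro U ψ B hc
  obtain ⟨I, r, hI, hr, hcov⟩ := strat_ball_cover hc.isOpen
  have key : ∀ x ∈ I, Cov F {θ | θ ∈ ψ '' Metric.ball x (r x) ∧ F θ = 0} := by
    intro x hx
    have hc1 : GraphChart (Metric.ball x (r x)) ψ B := hc.stratMono Metric.isOpen_ball (hr x hx).2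
    set V0 := Metric.ball x (r x) with hV0
    have hpre : IsPreconnected V0 := strat_isPreconnected_ball x (r x)
    by_cases hz : ∃ u ∈ V0, F (ψ u) ≠ 0
    · refine (strat_cov_zero hm hc1 hpre (g := fun u => F (ψ u)) ?_ hz).mono ?_
      · intro u hu
        exact (hF (ψ u) (Set.mem_univ _)).comp (hc1.analytic u hu)
      · rintro θ ⟨⟨u, hu, rfl⟩, hFθ⟩
        exact ⟨⟨u, hu, hFθ, rfl⟩, hFθ⟩
    · push Not at hz
      set 𝒯 : Finset (Finset (Fin d)) := Finset.univ.filter
        (fun T => ∃ u ∈ V0, gramDet ψ T u ≠ 0) with h𝒯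
      have hzero : Cov F (⋃ T ∈ (𝒯 : Set (Finset (Fin d))),
          {θ | (∃ u ∈ V0, gramDet ψ T u = 0 ∧ ψ u = θ) ∧ F θ = 0}) := by
        refine Cov.biUnion 𝒯.countable_toSet fun T hT => ?_
        have hT' : ∃ u ∈ V0, gramDet ψ T u ≠ 0 := by
          have := Finset.mem_coe.1 hT
          rw [h𝒯, Finset.mem_filter] at this
          exact this.2
        exact strat_cov_zero hm hc1 hpre (strat_analytic_gramDet hc1.analytic T) hT'
      set V1 : Set (Fin (m + 1) → ℝ) := {u | u ∈ V0 ∧ ∀ T ∈ 𝒯, gramDet ψ T u ≠ 0} with hV1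
      have hV1o : IsOpen V1 := by
        have h1 : V1 = V0 ∩ ⋂ T ∈ 𝒯, (V0 ∩ gramDet ψ T ⁻¹' {0}ᶜ) := by
          ext u
          simp only [hV1, Set.mem_ofPred_eq, Set.mem_inter_iff, Set.mem_iInter, Set.mem_preimage,
            Set.mem_compl_iff, Set.mem_singleton_iff]
          constructor
          · rintro ⟨h1, h2⟩
            exact ⟨h1, fun T hT => ⟨h1, h2 T hT⟩⟩
          · rintro ⟨h1, h2⟩
            exact ⟨h1, fun T hT => (h2 T hT).2⟩
        rw [h1]
        refine hc1.isOpen.inter (isOpen_biInter_finset fun T _ => ?_)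
        exact (strat_analytic_gramDet hc1.analytic T).continuousOn.isOpen_inter_preimage
          hc1.isOpen isOpen_compl_singleton
      obtain ⟨J, s, hJ, hs, hcovJ⟩ := strat_ball_cover hV1o
      have hopen : Cov F (⋃ y ∈ J, ψ '' Metric.ball y (s y)) := by
        refine Cov.biUnion hJ fun y hy => ?_
        have hsub : Metric.ball y (s y) ⊆ V1 := (hs y hy).2
        have hsub0 : Metric.ball y (s y) ⊆ V0 := fun u hu => (hsub hu).1
        refine ⟨{⟨m + 1, Metric.ball y (s y), ψ, B⟩}, Set.countable_singleton _, ?_, ?_⟩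
        · rintro c rfl
          refine ⟨hc1.stratMono Metric.isOpen_ball hsub0, strat_isPreconnected_ball y (s y), ?_, ?_⟩
          · intro T
            by_cases hT : T ∈ 𝒯
            · left
              intro u hu
              exact (gramDet_ne_zero_iff ψ T u).1 ((hsub hu).2 T hT)
            · right
              intro u hu hli
              apply hT
              rw [h𝒯, Finset.mem_filter]
              exact ⟨Finset.mem_univ _, u, hsub0 hu, (gramDet_ne_zero_iff ψ T u).2 hli⟩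
          · intro u hu
            exact hz u (hsub0 hu)
        · intro θ hθ
          exact ⟨_, rfl, hθ⟩
      refine (hzero.union hopen).mono ?_
      rintro θ ⟨⟨u, hu, rfl⟩, hFθ⟩
      by_cases hu1 : u ∈ V1
      · right
        have := hcovJ hu1
        simp only [Set.mem_iUnion] at this ⊢
        obtain ⟨y, hy, huy⟩ := this
        exact ⟨y, hy, u, huy, rfl⟩
      · left
        have : ∃ T ∈ 𝒯, gramDet ψ T u = 0 := by
          by_contra hcon
          push Not at hcon
          exact hu1 ⟨hu, hcon⟩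
        obtain ⟨T, hT, hT0⟩ := this
        simp only [Set.mem_iUnion]
        exact ⟨T, Finset.mem_coe.2 hT, ⟨u, hu, hT0, rfl⟩, hFθ⟩
  refine (Cov.biUnion hI key).mono ?_
  rintro θ ⟨⟨u, hu, rfl⟩, hFθ⟩
  have := hcov hu
  simp only [Set.mem_iUnion] at this ⊢
  obtain ⟨x, hx, hux⟩ := this
  exact ⟨x, hx, ⟨u, hux, rfl⟩, hFθ⟩

theorem stratClaim_all {F : (Fin d → ℝ) → ℝ} (hF : AnalyticOnNhd ℝ F Set.univ) (m : ℕ) :
    StratClaim F m := by
  induction m with
  | zero => exact stratClaim_zero F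
  | succ m ih => exact stratClaim_succ hF ih

theorem strat (F : (Fin d → ℝ) → ℝ) (hF : AnalyticOnNhd ℝ F Set.univ) :
    ∃ (m : ℕ → ℕ) (U : ∀ n, Set (Fin (m n) → ℝ)) (ψ : ∀ n, (Fin (m n) → ℝ) → (Fin d → ℝ))
      (B : ∀ n, Fin (m n) → Fin d),
      (∀ n, GraphChart (U n) (ψ n) (B n) ∧ IsPreconnected (U n) ∧ MatroidConst (U n) (ψ n) ∧
        ∀ u ∈ U n, F (ψ n u) = 0) ∧
      {θ | F θ = 0} ⊆ ⋃ n, ψ n '' U n := by
  have hid : GraphChart (Set.univ : Set (Fin d → ℝ)) (fun u => u) (fun i => i) :=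
    ⟨isOpen_univ, fun u _ => analyticAt_id, fun u _ i => rfl⟩
  obtain ⟨S, hS, hN, hcov⟩ := stratClaim_all hF d Set.univ (fun u => u) (fun i => i) hid
  -- add a dummy chart
  set c0 : ChartData d := ⟨0, ∅, fun _ => 0, fun i => i.elim0⟩ with hc0
  have hc0N : c0.Nice F := by
    refine ⟨⟨isOpen_empty, fun u hu => absurd hu (Set.notMem_empty _),
      fun u hu => absurd hu (Set.notMem_empty _)⟩, isPreconnected_empty, ?_, ?_⟩
    · intro T
      exact Or.inl fun u hu => absurd hu (Set.notMem_empty _)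
    · intro u hu
      exact absurd hu (Set.notMem_empty _)
  obtain ⟨f, hf⟩ := (hS.insert c0).exists_eq_range ⟨c0, Set.mem_insert _ _⟩
  have hfN : ∀ n, (f n).Nice F := by
    intro n
    have : f n ∈ insert c0 S := by rw [hf]; exact ⟨n, rfl⟩
    rcases this with h | h
    · rw [h]; exact hc0N
    · exact hN _ h
  refine ⟨fun n => (f n).m, fun n => (f n).U, fun n => (f n).ψ, fun n => (f n).B,
    fun n => hfN n, ?_⟩
  intro θ hθ
  obtain ⟨c, hc, hc'⟩ := hcov θ ⟨⟨θ, Set.mem_univ _, rfl⟩, hθ⟩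
  have : c ∈ Set.range f := by rw [← hf]; exact Set.mem_insert_of_mem _ hc
  obtain ⟨n, rfl⟩ := this
  exact Set.mem_iUnion.2 ⟨n, hc'⟩

end Pool.MP4ac1fb.Full
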