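import Pool.Agent.H.MP_4ac1fb_an.Full.Removal
import Pool.Agent.H.MP_4ac1fb_an.Full.LinAlg
import Pool.Agent.H.MP_4ac1fb_an.Full.Strat
import Pool.Agent.H.MP_4ac1fb_an.Full.BaireChart
import Pool.Agent.H.MP_4ac1fb_an.Full.LocalGraph

/-!
Tempered solutions on `ℤ^d` vanish when all patches are good.
-/

namespace Pool.MP4ac1fb.Full

open MvPolynomial

variable {d : ℕ}

lemma GraphChart.injective_fderiv {m : ℕ} {U : Set (Fin m → ℝ)} {ψ : (Fin m → ℝ) → (Fin d → ℝ)}
    {B : Fin m → Fin d} (h : GraphChart U ψ B) {u : Fin m → ℝ} (hu : u ∈ U) :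
    Function.Injective (fderiv ℝ ψ u) := by
  have hd : DifferentiableAt ℝ ψ u := (h.analytic u hu).differentiableAt
  have key : ∀ v i, fderiv ℝ ψ u v (B i) = v i := by
    intro v i
    have h1 : HasFDerivAt (fun y => ψ y (B i))
        ((ContinuousLinearMap.proj (R := ℝ) (φ := fun _ : Fin d => ℝ) (B i)).comp (fderiv ℝ ψ u)) u :=
      (ContinuousLinearMap.proj (R := ℝ) (φ := fun _ : Fin d => ℝ) (B i)).hasFDerivAt.comp u
        hd.hasFDerivAt
    have h2 : HasFDerivAt (fun y : Fin m → ℝ => y i)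
        (ContinuousLinearMap.proj (R := ℝ) (φ := fun _ : Fin m => ℝ) i) u :=
      (ContinuousLinearMap.proj (R := ℝ) (φ := fun _ : Fin m => ℝ) i).hasFDerivAt
    have h3 : (fun y => ψ y (B i)) =ᶠ[nhds u] fun y : Fin m → ℝ => y i := by
      filter_upwards [h.isOpen.mem_nhds hu] with y hy
      exact h.graph y hy i
    have h4 := (h2.congr_of_eventuallyEq h3).unique h1
    have h5 := congrArg (fun L => L v) h4
    simpa using h5.symm
  intro v v' hvv
  funext i
  rw [← key v i, ← key v' i, hvv]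

lemma analyticAt_tor (θ : Fin d → ℝ) (j : Fin d) :
    AnalyticAt ℝ (fun θ : Fin d → ℝ => tor θ j) θ := by
  have h1 : AnalyticAt ℝ (fun θ : Fin d → ℝ => ((θ j : ℝ) : ℂ)) θ :=
    (Complex.ofRealCLM.comp
      (ContinuousLinearMap.proj (R := ℝ) (φ := fun _ : Fin d => ℝ) j)).analyticAt θ
  have h2 : AnalyticAt ℝ (fun θ : Fin d → ℝ => 2 * (Real.pi : ℂ) * Complex.I * ((θ j : ℝ) : ℂ)) θ :=
    analyticAt_const.mul h1
  have h3 : AnalyticAt ℝ Complex.exp (2 * (Real.pi : ℂ) * Complex.I * ((θ j : ℝ) : ℂ)) :=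
    analyticAt_cexp.restrictScalars
  exact AnalyticAt.comp_of_eq h3 h2 rfl

lemma analyticAt_eval_tor (P : MvPolynomial (Fin d) ℂ) (θ : Fin d → ℝ) :
    AnalyticAt ℝ (fun θ : Fin d → ℝ => eval (tor θ) P) θ := by
  induction P using MvPolynomial.induction_on with
  | C a => simpa using analyticAt_const
  | add p q hp hq => simp only [map_add]; exact hp.add hq
  | mul_X p j hp => simp only [map_mul, eval_X]; exact hp.mul (analyticAt_tor θ j)

theorem vanish (t : ℝ) (P : MvPolynomial (Fin d) ℂ) (g : (Fin d → ℤ) → ℂ) (hrec : RecZ P g)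
    (hg : Temp t g) (hgood : GoodPatches t P) : g = 0 := by
  by_contra hne
  have hpg := hg.polyGr
  -- the real analytic equation
  set F : (Fin d → ℝ) → ℝ := fun θ => Complex.normSq (eval (tor θ) P) with hF
  have hFan : AnalyticOnNhd ℝ F Set.univ := fun θ _ => by
    have h1 := analyticAt_eval_tor P θ
    have h2 : AnalyticAt ℝ (fun θ => (eval (tor θ) P).re) θ :=
      (Complex.reCLM.analyticAt _).comp h1
    have h3 : AnalyticAt ℝ (fun θ => (eval (tor θ) P).im) θ :=
      (Complex.imCLM.analyticAt _).comp h1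
    have h4 : F = fun θ => (eval (tor θ) P).re * (eval (tor θ) P).re +
        (eval (tor θ) P).im * (eval (tor θ) P).im := by
      funext θ
      rw [hF]
      exact Complex.normSq_apply _
    rw [h4]
    exact (h2.mul h2).add (h3.mul h3)
  obtain ⟨m, U, ψ, B, hch, hcov⟩ := strat F hFan
  have hcov' : gsupp g ⊆ ⋃ n, ψ n '' U n := by
    refine subset_trans (fun θ hθ => ?_) hcov
    have := gsupp_subset hpg hrec hθ
    simp only [Set.mem_ofPred_eq] at this
    simp [hF, this]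
  obtain ⟨n, u, hu, hxE, O, hO, hEO⟩ := baire_chart (isClosed_gsupp g) (gsupp_nonempty hpg hne) m U ψ
    (fun n => (hch n).1.isOpen) (fun n => (hch n).1.analytic.continuousOn) hcov'
  obtain ⟨hgc, hpre, hM, hz⟩ := hch n
  have hpatch : IsPatch P (U n) (ψ n) :=
    { isOpen := hgc.isOpen
      nonempty := ⟨u, hu⟩
      analytic := hgc.analytic
      immersion := fun v hv => hgc.injective_fderiv hv
      zero := fun v hv => by
        have := hz v hv
        simpa [hF, Complex.normSq_eq_zero] using this }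
  obtain ⟨u₁, hu₁, S, hNS, hdim⟩ := hgood _ _ _ hpatch
  rw [normalSupport_iff] at hNS
  rw [projDim_eq] at hdim
  have hPS : PosSup (row (ψ n) u) S :=
    posSup_const hgc.isOpen hpre (row (ψ n)) (fun j => analyticOnNhd_row hgc.analytic j) hM S hu₁ hu hNS
  have hrk : rkk (row (ψ n) u) S = rkk (row (ψ n) u₁) S := by
    refine rkk_eq_of_matroid S fun T _ => ?_
    rcases hM T with h | h
    · exact ⟨fun _ => h u₁ hu₁, fun _ => h u hu⟩
    · exact ⟨fun h' => absurd h' (h u hu), fun h' => absurd h' (h u₁ hu₁)⟩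
  obtain ⟨B', C, hBC, hC, hcard, Ψ, hΨ, hdep, ⟨O', hO', hgr⟩, η, hη, hpos⟩ :=
    local_graph hgc hM hu S hPS t (by rw [hrk]; exact hdim)
  refine removal t g hg (ψ n u) B' C hBC hC hcard Ψ hΨ hdep η hη hpos ⟨O ∩ O', Filter.inter_mem hO hO', ?_⟩ hxE
  rintro θ ⟨⟨hθO, hθO'⟩, hθE⟩ j hj
  exact hgr θ ⟨hθO', hEO ⟨hθE, hθO⟩⟩ j hj

end Pool.MP4ac1fb.Full
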