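import Pool.Agent.H.MP_4ac1fb_an.Full.Extension
import Pool.Agent.H.MP_4ac1fb_an.Full.Vanish
import Pool.Agent.H.MP_4ac1fb_an.Full.NonCyc

/-!
The classification.
-/

namespace Pool.MP4ac1fb.Full

open MvPolynomial

variable {d : ℕ}

theorem cyclic_of_good (t : ℝ) (n : ℕ) : ∀ P : MvPolynomial (Fin d) ℂ, P.vars.card ≤ n → NZ P →
    GoodPatches t P → ShiftCyclic t P := by
  induction n with
  | zero =>
    intro P hcard hP hgood
    by_contra hnc
    obtain ⟨g, hg0, hrec, htemp⟩ := extension t P hP (fun j hj => by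
      have : P.vars = ∅ := Finset.card_eq_zero.mp (Nat.le_zero.mp hcard)
      simp [this] at hj) hnc
    exact hg0 (vanish t P g hrec htemp hgood)
  | succ n ih =>
    intro P hcard hP hgood
    by_contra hnc
    obtain ⟨g, hg0, hrec, htemp⟩ := extension t P hP (fun j hj => by
      refine ih _ ?_ (hP.setZero j) (hgood.setZero hP j)
      have h1 := Finset.card_le_card (vars_setZero j P)
      have h2 := Finset.card_erase_of_mem hj
      omega) hnc
    exact hg0 (vanish t P g hrec htemp hgood)

theorem classification (t : ℝ) (P : MvPolynomial (Fin d) ℂ) :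
    ShiftCyclic t P ↔ (∀ z : Fin d → ℂ, (∀ j, ‖z j‖ < 1) → eval z P ≠ 0) ∧ GoodPatches t P := by
  constructor
  · intro h
    refine ⟨fun z hz h0 => not_cyclic_of_zero t P z hz h0 h, ?_⟩
    by_contra hbad
    exact not_cyclic_of_bad t P hbad h
  · rintro ⟨h1, h2⟩
    exact cyclic_of_good t _ P le_rfl h1 h2

end Pool.MP4ac1fb.Full
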