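import Pool.Agent.H.MP_4ac1fb_an.Full.Defs

/-!
Fourier coefficients of a smooth measure on a patch.
-/

namespace Pool.MP4ac1fb.Full

variable {d : ℕ}

/-- The functional `f ↦ ∫ χ(u) f(ψ(u)) du` at the character `k`. -/
noncomputable def pc {m : ℕ} (ψ : (Fin m → ℝ) → (Fin d → ℝ)) (χ : (Fin m → ℝ) → ℝ)
    (k : Fin d → ℤ) : ℂ :=
  ∫ u, (χ u : ℂ) * chz k (ψ u)

open Classical in
/-- Replace the coordinates in `T` of `c` by `l`. -/
noncomputable def ov (T : Finset (Fin d)) (c : Fin d → ℤ) (l : T → ℤ) : Fin d → ℤ :=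
  fun i => if h : i ∈ T then l ⟨i, h⟩ else c i

end Pool.MP4ac1fb.Full
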