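import Pool.Agent.H.MP_4ac1fb_an.Full.PatchDefs
import Pool.Agent.H.MP_4ac1fb_an.Full.CubeFS

/-!
The `ℓ²` bound for the Fourier coefficients of a patch, for each basis of the matroid.
-/

namespace Pool.MP4ac1fb.Full

open scoped ContDiff
open MeasureTheory

variable {d : ℕ}

/-- A convenient form of the inverse function theorem. -/
lemma patch_inv {m : ℕ} (H : (Fin m → ℝ) → (Fin m → ℝ)) (u₀ : Fin m → ℝ)
    (hH : AnalyticAt ℝ H u₀) (hinv : (fderiv ℝ H u₀).det ≠ 0) {W : Set (Fin m → ℝ)}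
    (hW : W ∈ nhds u₀) :
    ∃ O : Set (Fin m → ℝ), IsOpen O ∧ u₀ ∈ O ∧ O ⊆ W ∧ Set.InjOn H O ∧ AnalyticOnNhd ℝ H O ∧
      (∀ u ∈ O, (fderiv ℝ H u).det ≠ 0) ∧ (∀ u ∈ O, ∀ i, |H u i - H u₀ i| ≤ 1 / 4) ∧
      IsOpen (H '' O) ∧ ∃ G : (Fin m → ℝ) → (Fin m → ℝ), ContinuousOn G (H '' O) ∧
        ∀ u ∈ O, G (H u) = u := by
  have hstrict := hH.hasStrictFDerivAt
  set e : (Fin m → ℝ) ≃L[ℝ] (Fin m → ℝ) :=
    (fderiv ℝ H u₀).toContinuousLinearEquivOfDetNeZero hinv with he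
  have hee : (e : (Fin m → ℝ) →L[ℝ] (Fin m → ℝ)) = fderiv ℝ H u₀ := by
    ext1 v
    simp [he]
  have hs : HasStrictFDerivAt H (e : (Fin m → ℝ) →L[ℝ] (Fin m → ℝ)) u₀ := by
    rw [hee]; exact hstrict
  set K := hs.toOpenPartialHomeomorph H with hK
  have hKc : (K : (Fin m → ℝ) → (Fin m → ℝ)) = H := hs.toOpenPartialHomeomorph_coe
  have hmem : u₀ ∈ K.source := hs.mem_toOpenPartialHomeomorph_source
  -- analytic neighbourhood
  have hA : ∀ᶠ u in nhds u₀, AnalyticAt ℝ H u := hH.eventually_analyticAt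
  have hdetc : ContinuousAt (fun u => (fderiv ℝ H u).det) u₀ := by
    have h1 : ContinuousAt (fderiv ℝ H) u₀ := hH.fderiv.continuousAt
    exact ContinuousLinearMap.continuous_det.continuousAt.comp h1
  have hdet : ∀ᶠ u in nhds u₀, (fderiv ℝ H u).det ≠ 0 := hdetc.eventually_ne hinv
  have hball : ∀ᶠ u in nhds u₀, dist (H u) (H u₀) < 1 / 4 := by
    have := hH.continuousAt
    exact this.eventually (Metric.ball_mem_nhds (H u₀) (by norm_num))
  obtain ⟨V, hV, hVo, hV0⟩ := eventually_nhds_iff.1 ((hA.and (hdet.and hball)).and hW)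
  refine ⟨K.source ∩ V, K.open_source.inter hVo, ⟨hmem, hV0⟩, fun u hu => (hV u hu.2).2,
    ?_, ?_, ?_, ?_, ?_, ?_⟩
  · have := K.injOn
    rw [hKc] at this
    exact this.mono Set.inter_subset_left
  · exact fun u hu => (hV u hu.2).1.1
  · exact fun u hu => (hV u hu.2).1.2.1
  · intro u hu i
    have h1 := (hV u hu.2).1.2.2
    have h2 := dist_le_pi_dist (H u) (H u₀) i
    rw [Real.dist_eq] at h2
    linarith
  · have := K.isOpen_image_of_subset_source (K.open_source.inter hVo) Set.inter_subset_left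
    rwa [hKc] at this
  · refine ⟨K.symm, ?_, ?_⟩
    · have h1 : H '' (K.source ∩ V) ⊆ K.target := by
        rintro _ ⟨u, hu, rfl⟩
        have := K.map_source hu.1
        rwa [hKc] at this
      exact K.continuousOn_symm.mono h1
    · intro u hu
      have := K.left_inv hu.1
      rwa [hKc] at this


/-- The transported function. -/
noncomputable def tra {m : ℕ} (H G : (Fin m → ℝ) → (Fin m → ℝ)) (O : Set (Fin m → ℝ))
    (F : (Fin m → ℝ) → ℂ) : (Fin m → ℝ) → ℂ :=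
  (H '' O).indicator (fun v => ((|(fderiv ℝ H (G v)).det|⁻¹ : ℝ) : ℂ) * F (G v))

lemma tra_apply {m : ℕ} {H G : (Fin m → ℝ) → (Fin m → ℝ)} {O : Set (Fin m → ℝ)}
    (hG : ∀ u ∈ O, G (H u) = u) (F : (Fin m → ℝ) → ℂ) {u : Fin m → ℝ} (hu : u ∈ O) :
    tra H G O F (H u) = ((|(fderiv ℝ H u).det|⁻¹ : ℝ) : ℂ) * F u := by
  rw [tra, Set.indicator_of_mem (Set.mem_image_of_mem H hu), hG u hu]

lemma tra_eq_zero {m : ℕ} {H G : (Fin m → ℝ) → (Fin m → ℝ)} {O : Set (Fin m → ℝ)}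
    (F : (Fin m → ℝ) → ℂ) {v : Fin m → ℝ} (hv : v ∉ H '' O) : tra H G O F v = 0 :=
  Set.indicator_of_notMem hv _

lemma continuous_tra {m : ℕ} {H G : (Fin m → ℝ) → (Fin m → ℝ)} {O : Set (Fin m → ℝ)}
    (hH : AnalyticOnNhd ℝ H O) (hdet : ∀ u ∈ O, (fderiv ℝ H u).det ≠ 0)
    (hHO : IsOpen (H '' O)) (hGc : ContinuousOn G (H '' O)) (hG : ∀ u ∈ O, G (H u) = u)
    {F : (Fin m → ℝ) → ℂ} (hF : ContinuousOn F O) {K : Set (Fin m → ℝ)} (hK : IsCompact K)
    (hKO : K ⊆ O) (hFK : ∀ u, u ∉ K → F u = 0) : Continuous (tra H G O F) := by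
  have hGm : Set.MapsTo G (H '' O) O := by
    rintro _ ⟨u, hu, rfl⟩
    rw [hG u hu]; exact hu
  rw [continuous_iff_continuousAt]
  intro v
  by_cases hv : v ∈ H '' O
  · have h1 : ContinuousOn (fun v => ((|(fderiv ℝ H (G v)).det|⁻¹ : ℝ) : ℂ) * F (G v))
        (H '' O) := by
      apply ContinuousOn.mul
      · apply Complex.continuous_ofReal.comp_continuousOn
        apply ContinuousOn.inv₀
        · apply ContinuousOn.abs
          have h2 : ContinuousOn (fun u => (fderiv ℝ H u).det) O :=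
            ContinuousLinearMap.continuous_det.comp_continuousOn hH.fderiv.continuousOn
          exact h2.comp hGc hGm
        · intro w hw
          exact abs_ne_zero.2 (hdet _ (hGm hw))
      · exact hF.comp hGc hGm
    have h2 := h1.continuousAt (hHO.mem_nhds hv)
    refine h2.congr ?_
    filter_upwards [hHO.mem_nhds hv] with w hw
    rw [tra, Set.indicator_of_mem hw]
  · have hHK : IsClosed (H '' K) :=
      (hK.image_of_continuousOn (hH.continuousOn.mono hKO)).isClosed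
    have hvK : v ∉ H '' K := fun h => hv (Set.image_mono hKO h)
    have h3 : ∀ w, w ∉ H '' K → tra H G O F w = 0 := by
      intro w hw
      by_cases hwO : w ∈ H '' O
      · obtain ⟨u, hu, rfl⟩ := hwO
        rw [tra_apply hG F hu, hFK u (fun h => hw (Set.mem_image_of_mem H h)), mul_zero]
      · exact tra_eq_zero F hwO
    have h4 : tra H G O F =ᶠ[nhds v] fun _ => 0 := by
      filter_upwards [hHK.isOpen_compl.mem_nhds hvK] with w hw
      exact h3 w hw
    exact (continuousAt_const (y := (0 : ℂ))).congr h4.symm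

lemma integral_tra {m : ℕ} {H G : (Fin m → ℝ) → (Fin m → ℝ)} {O : Set (Fin m → ℝ)}
    (hO : IsOpen O) (hinj : Set.InjOn H O)
    (hH : AnalyticOnNhd ℝ H O) (hdet : ∀ u ∈ O, (fderiv ℝ H u).det ≠ 0)
    (hG : ∀ u ∈ O, G (H u) = u)
    {F : (Fin m → ℝ) → ℂ} (hFO : ∀ u, u ∉ O → F u = 0) (φ : (Fin m → ℝ) → ℂ) :
    ∫ v, φ v * tra H G O F v = ∫ u, φ (H u) * F u := by
  have h1 : ∫ v, φ v * tra H G O F v = ∫ v in H '' O, φ v * tra H G O F v := by
    rw [setIntegral_eq_integral_of_forall_compl_eq_zero]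
    intro v hv
    rw [tra_eq_zero F hv, mul_zero]
  have h2 : ∫ u, φ (H u) * F u = ∫ u in O, φ (H u) * F u := by
    rw [setIntegral_eq_integral_of_forall_compl_eq_zero]
    intro v hv
    rw [hFO v hv, mul_zero]
  rw [h1, h2, integral_image_eq_integral_abs_det_fderiv_smul volume hO.measurableSet
    (fun x hx => (hH x hx).differentiableAt.hasFDerivAt.hasFDerivWithinAt) hinj]
  apply setIntegral_congr_fun hO.measurableSet
  intro u hu
  simp only
  rw [tra_apply hG F hu, Complex.real_smul]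
  have h3 : ((|(fderiv ℝ H u).det| : ℝ) : ℂ) ≠ 0 := by
    exact_mod_cast abs_ne_zero.2 (hdet u hu)
  push_cast
  field_simp


lemma pl2_norm_chz {ι : Type*} [Fintype ι] (k : ι → ℤ) (θ : ι → ℝ) : ‖chz k θ‖ = 1 := by
  unfold chz
  have : 2 * (Real.pi : ℂ) * Complex.I * ∑ i, (k i : ℂ) * (θ i : ℂ)
      = ((2 * Real.pi * ∑ i, (k i : ℝ) * θ i : ℝ) : ℂ) * Complex.I := by
    push_cast; ring
  rw [this, Complex.norm_exp_ofReal_mul_I]

lemma pl2_continuous_chz {ι : Type*} [Fintype ι] (k : ι → ℤ) : Continuous (chz k) := by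
  unfold chz
  fun_prop

open Classical in
lemma pl2_chz_ov {m : ℕ} (T : Finset (Fin d)) (e : Fin m ≃ T) (c : Fin d → ℤ) (l : T → ℤ)
    (θ : Fin d → ℝ) : chz (ov T c l) θ =
      chz (fun j => l (e j)) (fun j => θ (e j)) * chz (fun i => if i ∈ T then 0 else c i) θ := by
  unfold chz
  rw [← Complex.exp_add, ← mul_add]
  congr 2
  have h1 : ∑ j, ((l (e j) : ℤ) : ℂ) * ((θ (e j) : ℝ) : ℂ) =
      ∑ i, (((if h : i ∈ T then l ⟨i, h⟩ else 0 : ℤ) : ℂ)) * (θ i : ℂ) := by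
    rw [e.sum_comp (fun x : T => ((l x : ℤ) : ℂ) * ((θ x : ℝ) : ℂ))]
    rw [← Finset.sum_subset (Finset.subset_univ T) (by
      intro x _ hx
      rw [dif_neg hx]; simp)]
    rw [← Finset.sum_coe_sort T]
    apply Finset.sum_congr rfl
    intro x _
    rw [dif_pos x.2]
  rw [h1, ← Finset.sum_add_distrib]
  apply Finset.sum_congr rfl
  intro i _
  unfold ov
  by_cases h : i ∈ T
  · simp [h]
  · simp [h]

theorem patch_l2 {m : ℕ} (ψ : (Fin m → ℝ) → (Fin d → ℝ)) (u₀ : Fin m → ℝ)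
    (hψ : AnalyticAt ℝ ψ u₀) (T : Finset (Fin d)) (hcard : T.card = m)
    (hT : LinearIndepOn ℝ (row ψ u₀) (T : Set (Fin d))) :
    ∃ O ∈ nhds u₀, ∀ χ : (Fin m → ℝ) → ℝ, ContDiff ℝ ∞ χ → HasCompactSupport χ →
      tsupport χ ⊆ O → ∃ C : ℝ, ∀ c : Fin d → ℤ,
        Summable (fun l : T → ℤ => ‖pc ψ χ (ov T c l)‖ ^ 2) ∧
          ∑' l : T → ℤ, ‖pc ψ χ (ov T c l)‖ ^ 2 ≤ C := by
  classical
  set e : Fin m ≃ T := (T.equivFinOfCardEq hcard).symm with he
  set L : (Fin d → ℝ) →L[ℝ] (Fin m → ℝ) :=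
    ContinuousLinearMap.pi (fun j => ContinuousLinearMap.proj (R := ℝ) (e j).1) with hL
  set H : (Fin m → ℝ) → (Fin m → ℝ) := fun u j => ψ u (e j) with hHdef
  have hHL : H = L ∘ ψ := by
    funext u; funext j; simp [hHdef, hL]
  have hH : AnalyticAt ℝ H u₀ := by
    rw [hHL]
    exact (L.analyticAt _).comp hψ
  have hfd : fderiv ℝ H u₀ = L.comp (fderiv ℝ ψ u₀) := by
    rw [hHL, fderiv_comp _ L.differentiableAt hψ.differentiableAt, L.fderiv]
  have hinv : (fderiv ℝ H u₀).det ≠ 0 := by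
    rw [hfd, ContinuousLinearMap.det, ← LinearMap.det_toMatrix']
    have hM : LinearMap.toMatrix' ((L.comp (fderiv ℝ ψ u₀) : (Fin m → ℝ) →L[ℝ] (Fin m → ℝ)) :
        (Fin m → ℝ) →ₗ[ℝ] (Fin m → ℝ)) = Matrix.of (fun j => row ψ u₀ (e j)) := by
      ext j i
      simp [LinearMap.toMatrix'_apply, hL, row]
    rw [hM]
    have h2 : LinearIndependent ℝ (Matrix.of (fun j => row ψ u₀ (e j))).row := by
      have h3 : LinearIndependent ℝ (fun x : T => row ψ u₀ x) := hT
      exact h3.comp e e.injective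
    rw [Matrix.linearIndependent_rows_iff_isUnit, Matrix.isUnit_iff_isUnit_det] at h2
    exact h2.ne_zero
  obtain ⟨O, hO, hu₀, hOW, hinj, hHO, hdet, hcube, hopen, G, hGc, hG⟩ :=
    patch_inv H u₀ hH hinv hψ.eventually_analyticAt
  refine ⟨O, hO.mem_nhds hu₀, ?_⟩
  intro χ hχ hχc hχO
  have hψc : ContinuousOn ψ O := fun u hu => (hOW hu).continuousAt.continuousWithinAt
  set F : (Fin d → ℤ) → (Fin m → ℝ) → ℂ := fun c u =>
    (χ u : ℂ) * chz (fun i => if i ∈ T then 0 else c i) (ψ u) with hF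
  have hFc : ∀ c, ContinuousOn (F c) O := by
    intro c
    apply ContinuousOn.mul
    · exact (Complex.continuous_ofReal.comp hχ.continuous).continuousOn
    · exact (pl2_continuous_chz _).comp_continuousOn hψc
  have hFK : ∀ c u, u ∉ tsupport χ → F c u = 0 := by
    intro c u hu
    simp only [hF]
    rw [image_eq_zero_of_notMem_tsupport hu]
    simp
  have hFO : ∀ c u, u ∉ O → F c u = 0 := fun c u hu => hFK c u (fun h => hu (hχO h))
  have hX : ∀ c, Continuous (tra H G O (F c)) := fun c =>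
    continuous_tra hHO hdet hopen hGc hG (hFc c) hχc hχO (hFK c)
  have hsupp : ∀ c, ∀ v, (∃ i, 1 / 4 < |v i - H u₀ i|) → tra H G O (F c) v = 0 := by
    rintro c v ⟨i, hi⟩
    apply tra_eq_zero
    rintro ⟨u, hu, rfl⟩
    exact absurd (hcube u hu i) (not_le.2 hi)
  have hnorm : ∀ c v, ‖tra H G O (F c) v‖ = ‖tra H G O (F 0) v‖ := by
    intro c v
    by_cases hv : v ∈ H '' O
    · rw [tra, tra, Set.indicator_of_mem hv, Set.indicator_of_mem hv]
      simp only [hF, norm_mul, pl2_norm_chz]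
    · rw [tra_eq_zero _ hv, tra_eq_zero _ hv]
  have hpc : ∀ c (l : T → ℤ), pc ψ χ (ov T c l) =
      FT (tra H G O (F c)) (-(fun j => l (e j))) := by
    intro c l
    unfold FT
    rw [neg_neg, integral_tra hO hinj hHO hdet hG (hFO c)]
    unfold pc
    apply integral_congr_ae
    refine Filter.Eventually.of_forall ?_
    intro u
    simp only [hF, hHdef]
    rw [pl2_chz_ov T e c l]
    ring
  refine ⟨∫ v, ‖tra H G O (F 0) v‖ ^ 2, ?_⟩
  intro c
  obtain ⟨hs, hb⟩ := cube_bessel (tra H G O (F c)) (hX c) (H u₀) (hsupp c)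
  set E : (T → ℤ) ≃ (Fin m → ℤ) := (e.symm.arrowCongr (Equiv.refl ℤ)).trans (Equiv.neg _) with hE
  have hEl : ∀ l : T → ℤ, E l = -(fun j => l (e j)) := by
    intro l; funext j; simp [hE, Equiv.arrowCongr]
  have hfun : (fun l : T → ℤ => ‖pc ψ χ (ov T c l)‖ ^ 2) =
      (fun l => ‖FT (tra H G O (F c)) l‖ ^ 2) ∘ E := by
    funext l
    simp only [Function.comp]
    rw [hpc, hEl]
  constructor
  · rw [hfun, E.summable_iff]
    exact hs
  · rw [hfun]
    have h5 : ∑' l, ((fun l => ‖FT (tra H G O (F c)) l‖ ^ 2) ∘ E) l =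
        ∑' l, ‖FT (tra H G O (F c)) l‖ ^ 2 :=
      E.tsum_eq (fun l => ‖FT (tra H G O (F c)) l‖ ^ 2)
    rw [h5]
    refine hb.trans (le_of_eq ?_)
    simp only [hnorm c]

end Pool.MP4ac1fb.Full
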