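import Pool.Agent.H.MP_4ac1fb_an.Full.FTBasic
import Pool.Agent.H.MP_4ac1fb_an.Full.IBP

/-!
Decay of the Fourier coefficients of `χ(v) e^{-2πi⟨n, ψ(v)⟩}`.
-/

namespace Pool.MP4ac1fb.Full

open scoped ContDiff

variable {ι κ : Type*} [Fintype ι] [DecidableEq ι] [Fintype κ]

/-- `χ(v) e^{-2πi⟨n, ψ(v)⟩}`. -/
noncomputable def osc (χ : (ι → ℝ) → ℂ) (ψ : (ι → ℝ) → (κ → ℝ)) (n : κ → ℝ) : (ι → ℝ) → ℂ :=
  fun v => χ v * Complex.exp (-(2 * Real.pi * Complex.I * ∑ j, (n j : ℂ) * (ψ v j : ℂ)))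

/-- The phase. -/
private noncomputable def ph (ψ : (ι → ℝ) → (κ → ℝ)) (n : κ → ℝ) (l : ι → ℤ) (v : ι → ℝ) : ℝ :=
  -(2 * Real.pi) * ((∑ j, n j * ψ v j) + ∑ i, (l i : ℝ) * v i)

omit [DecidableEq ι] in
private theorem FT_osc_eq (χ : (ι → ℝ) → ℂ) (ψ : (ι → ℝ) → (κ → ℝ)) (n : κ → ℝ) (l : ι → ℤ) :
    FT (osc χ ψ n) l = ∫ v, χ v * Complex.exp (Complex.I * (ph ψ n l v : ℂ)) := by
  unfold FT osc
  congr 1
  funext v
  unfold chz
  have h1 : Complex.I * (ph ψ n l v : ℂ) =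
      (2 * Real.pi * Complex.I * ∑ i, (((-l) i : ℤ) : ℂ) * (v i : ℂ)) +
        -(2 * Real.pi * Complex.I * ∑ j, (n j : ℂ) * (ψ v j : ℂ)) := by
    unfold ph
    push_cast
    simp only [Pi.neg_apply, Int.cast_neg, neg_mul, Finset.sum_neg_distrib]
    ring
  rw [h1, Complex.exp_add]
  ring

/-- Directional derivative of the `j`-th coordinate. -/
private noncomputable def dd (ψ : (ι → ℝ) → (κ → ℝ)) (i : ι) (j : κ) (v : ι → ℝ) : ℝ :=
  fderiv ℝ (fun x => ψ x j) v (Pi.single i 1)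

private theorem contDiffOn_dd {ψ : (ι → ℝ) → (κ → ℝ)} {O : Set (ι → ℝ)} (hO : IsOpen O)
    (hψ : ContDiffOn ℝ ∞ ψ O) (i : ι) (j : κ) : ContDiffOn ℝ ∞ (dd ψ i j) O := by
  have h1 : ContDiffOn ℝ ∞ (fun x => ψ x j) O := (contDiffOn_pi.1 hψ) j
  have h2 : ContDiffOn ℝ ∞ (fderiv ℝ (fun x => ψ x j)) O := h1.fderiv_of_isOpen hO (by simp)
  exact h2.clm_apply contDiffOn_const

private theorem one_dir {χ : (ι → ℝ) → ℂ} (hχ : ContDiff ℝ ∞ χ) {K O : Set (ι → ℝ)}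
    (hK : IsCompact K) (hO : IsOpen O) (hKO : K ⊆ O) (hχK : ∀ v ∉ K, χ v = 0)
    {ψ : (ι → ℝ) → (κ → ℝ)} (hψ : ContDiffOn ℝ ∞ ψ O) (i : ι) {Q : Set ((κ → ℝ) × ℝ)}
    (hQ : IsCompact Q) (hne : ∀ v ∈ K, ∀ p ∈ Q, (∑ j, p.1 j * dd ψ i j v) + p.2 ≠ 0) (N : ℕ) :
    ∃ C : ℝ, ∀ p ∈ Q, ∀ lam : ℝ, 0 < lam → ∀ (n : κ → ℝ) (l : ι → ℤ),
      (n = lam • p.1) → ((l i : ℝ) = lam * p.2) → ‖FT (osc χ ψ n) l‖ ≤ C / lam ^ N := by
  have hh : ContDiffOn ℝ ∞ (fun q : (ι → ℝ) × ((κ → ℝ) × ℝ) =>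
      -(2 * Real.pi) * ((∑ j, q.2.1 j * dd ψ i j q.1) + q.2.2)) (O ×ˢ Set.univ) := by
    apply ContDiffOn.mul contDiffOn_const
    apply ContDiffOn.add
    · apply ContDiffOn.sum
      intro j _
      apply ContDiffOn.mul
      · have : ContDiff ℝ ∞ (fun q : (ι → ℝ) × ((κ → ℝ) × ℝ) => q.2.1 j) := by fun_prop
        exact this.contDiffOn
      · exact (contDiffOn_dd hO hψ i j).comp contDiffOn_fst (fun q hq => hq.1)
    · have : ContDiff ℝ ∞ (fun q : (ι → ℝ) × ((κ → ℝ) × ℝ) => q.2.2) := by fun_prop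
      exact this.contDiffOn
  obtain ⟨C, hC⟩ := ibp hK hO hKO (w := fun _ => Pi.single i 1) contDiffOn_const hh hχ hχK hQ
    (by
      intro u hu p hp h0
      have h1 := hne u hu p hp
      have h2 : (2 * Real.pi) ≠ 0 := by positivity
      have h3 : -(2 * Real.pi) * ((∑ j, p.1 j * dd ψ i j u) + p.2) = 0 := h0
      rw [neg_mul, neg_eq_zero] at h3
      rcases mul_eq_zero.1 h3 with h4 | h4
      · exact h2 h4
      · exact h1 h4) N
  refine ⟨C, ?_⟩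
  intro p hp lam hlam n l hn hl
  rw [FT_osc_eq]
  apply hC p hp lam hlam (ph ψ n l)
  · have h1 : ContDiffOn ℝ 1 ψ O := hψ.of_le (by simp)
    unfold ph
    apply ContDiffOn.mul contDiffOn_const
    apply ContDiffOn.add
    · apply ContDiffOn.sum
      intro j _
      exact contDiffOn_const.mul ((contDiffOn_pi.1 h1) j)
    · have : ContDiff ℝ 1 (fun v : ι → ℝ => ∑ i, (l i : ℝ) * v i) := by fun_prop
      exact this.contDiffOn
  · intro u hu
    have huO := hKO hu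
    have h1 : ∀ j, HasFDerivAt (fun x => ψ x j) (fderiv ℝ (fun x => ψ x j) u) u := by
      intro j
      have h2 : ContDiffOn ℝ ∞ (fun x => ψ x j) O := (contDiffOn_pi.1 hψ) j
      have h3 : ContDiffAt ℝ ∞ (fun x => ψ x j) u := h2.contDiffAt (hO.mem_nhds huO)
      exact (h3.differentiableAt (by simp)).hasFDerivAt
    have h2 : HasFDerivAt (fun v => ∑ j, n j * ψ v j)
        (∑ j, n j • fderiv ℝ (fun x => ψ x j) u) u :=
      HasFDerivAt.fun_sum fun j _ => (h1 j).const_mul (n j)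
    have h3 : HasFDerivAt (fun v : ι → ℝ => ∑ k, (l k : ℝ) * v k)
        (∑ k, (l k : ℝ) • (ContinuousLinearMap.proj (R := ℝ) (φ := fun _ : ι => ℝ) k)) u :=
      HasFDerivAt.fun_sum fun k _ => (hasFDerivAt_apply k u).const_mul (l k : ℝ)
    have h4 := (h2.add h3).const_mul (-(2 * Real.pi))
    have h5 : HasFDerivAt (ph ψ n l) (-(2 * Real.pi) •
        ((∑ j, n j • fderiv ℝ (fun x => ψ x j) u) +
          ∑ k, (l k : ℝ) • (ContinuousLinearMap.proj (R := ℝ) (φ := fun _ : ι => ℝ) k))) u := h4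
    rw [h5.fderiv]
    simp only [_root_.smul_apply, _root_.add_apply,
      _root_.sum_apply, ContinuousLinearMap.proj_apply, smul_eq_mul]
    have h6 : ∑ k, (l k : ℝ) * (Pi.single i (1 : ℝ) : ι → ℝ) k = l i := by
      rw [Finset.sum_eq_single i]
      · simp
      · intro k _ hk
        rw [Pi.single_eq_of_ne hk, mul_zero]
      · intro h; exact absurd (Finset.mem_univ i) h
    rw [h6, hl, hn]
    simp only [Pi.smul_apply, smul_eq_mul]
    have h7 : ∀ j, fderiv ℝ (fun x => ψ x j) u (Pi.single i 1) = dd ψ i j u := fun j => rfl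
    simp only [h7]
    have h8 : ∑ j, lam * p.1 j * dd ψ i j u = lam * ∑ j, p.1 j * dd ψ i j u := by
      rw [Finset.mul_sum]
      exact Finset.sum_congr rfl fun j _ => by ring
    rw [h8]
    ring

omit [DecidableEq ι] in
private theorem sz_eq (l : ι → ℤ) : sz l = 1 + ∑ j, |(l j : ℝ)| := rfl

/-- A bound for the directional derivatives on `K`. -/
private theorem exists_dd_bound {K O : Set (ι → ℝ)} (hK : IsCompact K) (hO : IsOpen O)
    (hKO : K ⊆ O) {ψ : (ι → ℝ) → (κ → ℝ)} (hψ : ContDiffOn ℝ ∞ ψ O) :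
    ∃ M : ℝ, 1 ≤ M ∧ ∀ i j, ∀ v ∈ K, |dd ψ i j v| ≤ M := by
  have h1 : ∀ i j, ∃ M : ℝ, ∀ v ∈ K, |dd ψ i j v| ≤ M := by
    intro i j
    have hc : ContinuousOn (dd ψ i j) K := ((contDiffOn_dd hO hψ i j).continuousOn).mono hKO
    obtain ⟨M, hM⟩ := hK.exists_bound_of_continuousOn hc
    exact ⟨M, fun v hv => hM v hv⟩
  choose M hM using h1
  refine ⟨1 + ∑ i, ∑ j, |M i j|, ?_, ?_⟩
  · have : 0 ≤ ∑ i, ∑ j, |M i j| := by positivity
    linarith
  · intro i j v hv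
    have h2 : |M i j| ≤ ∑ j, |M i j| :=
      Finset.single_le_sum (f := fun j => |M i j|) (fun _ _ => abs_nonneg _) (Finset.mem_univ j)
    have h3 : ∑ j, |M i j| ≤ ∑ i, ∑ j, |M i j| :=
      Finset.single_le_sum (f := fun i => ∑ j, |M i j|)
        (fun _ _ => Finset.sum_nonneg fun _ _ => abs_nonneg _) (Finset.mem_univ i)
    have h4 := hM i j v hv
    have h5 := le_abs_self (M i j)
    linarith

/-- Rapid decay for frequencies much larger than `n`. -/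
theorem osc_decay_far {χ : (ι → ℝ) → ℂ} (hχ : ContDiff ℝ ∞ χ) {K O : Set (ι → ℝ)}
    (hK : IsCompact K) (hO : IsOpen O) (hKO : K ⊆ O) (hχK : ∀ v ∉ K, χ v = 0)
    {ψ : (ι → ℝ) → (κ → ℝ)} (hψ : ContDiffOn ℝ ∞ ψ O) :
    ∃ A : ℝ, 1 ≤ A ∧ ∀ N : ℕ, ∃ C : ℝ, ∀ (n : κ → ℝ) (l : ι → ℤ),
      A * (1 + ∑ j, |n j|) ≤ sz l → ‖FT (osc χ ψ n) l‖ ≤ C / (sz l + ∑ j, |n j|) ^ N := by
  obtain ⟨M, hM1, hM⟩ := exists_dd_bound hK hO hKO hψ
  set c : ℝ := ((Fintype.card ι : ℕ) : ℝ) with hc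
  have hc0 : 0 ≤ c := by positivity
  set A : ℝ := 2 + 2 * M * c with hA
  have hA2 : 2 ≤ A := by
    have : 0 ≤ 2 * M * c := by positivity
    linarith
  refine ⟨A, by linarith, fun N => ?_⟩
  set Q : Set ((κ → ℝ) × ℝ) :=
    {p | (∑ j, |p.1 j|) + |p.2| = 1 ∧ 2 * M * ∑ j, |p.1 j| ≤ |p.2|} with hQdef
  have hQ : IsCompact Q := by
    apply Metric.isCompact_of_isClosed_isBounded
    · have k1 : Continuous (fun p : (κ → ℝ) × ℝ => (∑ j, |p.1 j|) + |p.2|) := by fun_prop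
      have k2 : Continuous (fun p : (κ → ℝ) × ℝ => 2 * M * ∑ j, |p.1 j|) := by fun_prop
      have k3 : Continuous (fun p : (κ → ℝ) × ℝ => |p.2|) := by fun_prop
      exact (isClosed_eq k1 continuous_const).inter (isClosed_le k2 k3)
    · refine (Metric.isBounded_closedBall (x := (0 : (κ → ℝ) × ℝ)) (r := 1)).subset ?_
      intro p hp
      have h0 := hp.1
      rw [mem_closedBall_zero_iff, Prod.norm_def, max_le_iff]
      constructor
      · rw [pi_norm_le_iff_of_nonneg zero_le_one]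
        intro j
        have h2 : |p.1 j| ≤ ∑ j, |p.1 j| :=
          Finset.single_le_sum (f := fun j => |p.1 j|) (fun _ _ => abs_nonneg _)
            (Finset.mem_univ j)
        have h3 := abs_nonneg p.2
        rw [Real.norm_eq_abs]
        linarith
      · have h2 : 0 ≤ ∑ j, |p.1 j| := Finset.sum_nonneg fun _ _ => abs_nonneg _
        rw [Real.norm_eq_abs]
        linarith
  have hne : ∀ i, ∀ v ∈ K, ∀ p ∈ Q, (∑ j, p.1 j * dd ψ i j v) + p.2 ≠ 0 := by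
    intro i v hv p hp h0
    have h1 : |∑ j, p.1 j * dd ψ i j v| ≤ M * ∑ j, |p.1 j| := by
      refine (Finset.abs_sum_le_sum_abs _ _).trans ?_
      rw [Finset.mul_sum]
      refine Finset.sum_le_sum fun j _ => ?_
      rw [abs_mul, mul_comm]
      exact mul_le_mul_of_nonneg_right (hM i j v hv) (abs_nonneg _)
    have h2 : |p.2| = |∑ j, p.1 j * dd ψ i j v| := by
      have : p.2 = -∑ j, p.1 j * dd ψ i j v := by linarith
      rw [this, abs_neg]
    have h3 := hp.1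
    have h4 := hp.2
    have h5 : 0 ≤ ∑ j, |p.1 j| := Finset.sum_nonneg fun _ _ => abs_nonneg _
    nlinarith
  have hall : ∀ i : ι, ∃ C : ℝ, ∀ p ∈ Q, ∀ lam : ℝ, 0 < lam → ∀ (n : κ → ℝ) (l : ι → ℤ),
      (n = lam • p.1) → ((l i : ℝ) = lam * p.2) → ‖FT (osc χ ψ n) l‖ ≤ C / lam ^ N :=
    fun i => one_dir hχ hK hO hKO hχK hψ i hQ (hne i) N
  choose C hC using hall
  refine ⟨(∑ i, |C i|) * (2 * c + 1) ^ N, fun n l hl => ?_⟩
  have hSn : 0 ≤ ∑ j, |n j| := Finset.sum_nonneg fun _ _ => abs_nonneg _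
  rcases isEmpty_or_nonempty ι with hι | hι
  · exfalso
    have h1 : sz l = 1 := by simp [sz_eq]
    rw [h1] at hl
    nlinarith
  obtain ⟨i, _, hi⟩ := Finset.exists_max_image (Finset.univ : Finset ι) (fun i => |(l i : ℝ)|)
    Finset.univ_nonempty
  have hc1 : 1 ≤ c := by
    rw [hc]
    exact_mod_cast Fintype.card_pos
  have h1 : ∑ j, |(l j : ℝ)| ≤ c * |(l i : ℝ)| := by
    have := Finset.sum_le_card_nsmul (Finset.univ : Finset ι) (fun j => |(l j : ℝ)|) |(l i : ℝ)|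
      (fun j hj => hi j hj)
    simpa [hc, nsmul_eq_mul] using this
  have hsz : sz l = 1 + ∑ j, |(l j : ℝ)| := rfl
  have h2 : 1 ≤ c * |(l i : ℝ)| := by nlinarith
  have h3 : 2 * M * ∑ j, |n j| ≤ |(l i : ℝ)| := by
    have h4 : c * (2 * M * ∑ j, |n j|) ≤ c * |(l i : ℝ)| := by nlinarith
    exact le_of_mul_le_mul_left h4 (by linarith)
  have hli : 0 < |(l i : ℝ)| := by
    by_contra h
    have : |(l i : ℝ)| = 0 := le_antisymm (not_lt.1 h) (abs_nonneg _)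
    rw [this] at h2
    linarith
  set lam : ℝ := |(l i : ℝ)| + ∑ j, |n j| with hlam
  have hlam0 : 0 < lam := by linarith
  have h5 := hC i (lam⁻¹ • n, lam⁻¹ * (l i : ℝ)) (by
    have e1 : ∑ j, |(lam⁻¹ • n) j| = lam⁻¹ * ∑ j, |n j| := by
      rw [Finset.mul_sum]
      refine Finset.sum_congr rfl fun j _ => ?_
      rw [Pi.smul_apply, smul_eq_mul, abs_mul, abs_of_pos (inv_pos.2 hlam0)]
    have e2 : |lam⁻¹ * (l i : ℝ)| = lam⁻¹ * |(l i : ℝ)| := by
      rw [abs_mul, abs_of_pos (inv_pos.2 hlam0)]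
    refine ⟨?_, ?_⟩
    · simp only
      rw [e1, e2, ← mul_add, add_comm, ← hlam, inv_mul_cancel₀ hlam0.ne']
    · simp only
      rw [e1, e2]
      have := mul_le_mul_of_nonneg_left h3 (inv_pos.2 hlam0).le
      linarith) lam hlam0 n l
    (by rw [smul_smul, mul_inv_cancel₀ hlam0.ne', one_smul])
    (by rw [← mul_assoc, mul_inv_cancel₀ hlam0.ne', one_mul])
  refine h5.trans ?_
  have h6 : sz l + ∑ j, |n j| ≤ (2 * c + 1) * lam := by
    rw [hsz, hlam]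
    nlinarith
  have h7 : 0 < sz l + ∑ j, |n j| := by
    have := one_le_sz l
    linarith
  have h8 : C i ≤ ∑ i, |C i| := (le_abs_self _).trans
    (Finset.single_le_sum (f := fun i => |C i|) (fun _ _ => abs_nonneg _) (Finset.mem_univ i))
  have h9 : 0 ≤ ∑ i, |C i| := Finset.sum_nonneg fun _ _ => abs_nonneg _
  rw [div_le_div_iff₀ (pow_pos hlam0 N) (pow_pos h7 N)]
  calc C i * (sz l + ∑ j, |n j|) ^ N ≤ (∑ i, |C i|) * (sz l + ∑ j, |n j|) ^ N :=
        mul_le_mul_of_nonneg_right h8 (pow_nonneg h7.le N)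
    _ ≤ (∑ i, |C i|) * ((2 * c + 1) * lam) ^ N :=
        mul_le_mul_of_nonneg_left (pow_le_pow_left₀ h7.le h6 N) h9
    _ = (∑ i, |C i|) * (2 * c + 1) ^ N * lam ^ N := by rw [mul_pow]; ring

/-- Rapid decay for frequencies with a nonpositive coordinate when `-Dψᵀ n` is positive. -/
theorem osc_decay_cone {χ : (ι → ℝ) → ℂ} (hχ : ContDiff ℝ ∞ χ) {K O : Set (ι → ℝ)}
    (hK : IsCompact K) (hO : IsOpen O) (hKO : K ⊆ O) (hχK : ∀ v ∉ K, χ v = 0)
    {ψ : (ι → ℝ) → (κ → ℝ)} (hψ : ContDiffOn ℝ ∞ ψ O) {Y : Set (κ → ℝ)} (hY : IsCompact Y)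
    (hpos : ∀ ν ∈ Y, ∀ v ∈ K, ∀ i, 0 < -∑ j, ν j * fderiv ℝ (fun x => ψ x j) v (Pi.single i 1)) :
    ∀ N : ℕ, ∃ C : ℝ, ∀ ν ∈ Y, ∀ s : ℝ, 1 ≤ s → ∀ l : ι → ℤ, (∃ i, l i ≤ 0) →
      ‖FT (osc χ ψ (s • ν)) l‖ ≤ C / (sz l + s) ^ N := by
  intro N
  rcases K.eq_empty_or_nonempty with hKe | ⟨v₀, hv₀⟩
  · refine ⟨0, fun ν _ s _ l _ => ?_⟩
    have h1 : FT (osc χ ψ (s • ν)) l = 0 := by
      rw [FT_osc_eq]
      have : ∀ v, χ v = 0 := fun v => hχK v (by rw [hKe]; exact Set.notMem_empty v)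
      simp [this]
    rw [h1, norm_zero, zero_div]
  rcases Y.eq_empty_or_nonempty with hYe | hYn
  · refine ⟨0, fun ν hν => ?_⟩
    rw [hYe] at hν
    exact absurd hν (Set.notMem_empty ν)
  rcases isEmpty_or_nonempty ι with hι | hι
  · refine ⟨0, fun ν _ s _ l hl => ?_⟩
    obtain ⟨i, _⟩ := hl
    exact (hι.false i).elim
  -- bounds for the elements of `Y`
  have hcont : Continuous (fun ν : κ → ℝ => ∑ j, |ν j|) := by fun_prop
  obtain ⟨ν₁, hν₁, hmin⟩ := hY.exists_isMinOn hYn hcont.continuousOn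
  obtain ⟨ν₂, hν₂, hmax⟩ := hY.exists_isMaxOn hYn hcont.continuousOn
  set c0 : ℝ := ∑ j, |ν₁ j| with hc0
  set MY : ℝ := ∑ j, |ν₂ j| with hMY
  have hc0pos : 0 < c0 := by
    rcases lt_or_eq_of_le (show 0 ≤ c0 from Finset.sum_nonneg fun _ _ => abs_nonneg _) with h | h
    · exact h
    · exfalso
      have h1 : ∀ j, ν₁ j = 0 := by
        intro j
        have h2 := (Finset.sum_eq_zero_iff_of_nonneg (fun j _ => abs_nonneg (ν₁ j))).1 h.symm j
          (Finset.mem_univ j)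
        exact abs_eq_zero.1 h2
      obtain ⟨i⟩ := hι
      have h2 := hpos ν₁ hν₁ v₀ hv₀ i
      simp [h1] at h2
  have hMY0 : 0 ≤ MY := Finset.sum_nonneg fun _ _ => abs_nonneg _
  -- the far estimate
  obtain ⟨A, hA1, hfar⟩ := osc_decay_far hχ hK hO hKO hχK hψ
  obtain ⟨C₁, hC₁⟩ := hfar N
  -- the cone estimates
  set Q : Set ((κ → ℝ) × ℝ) :=
    (fun q : (κ → ℝ) × ℝ => (q.2 • q.1, -(1 - q.2))) '' (Y ×ˢ Set.Icc (0 : ℝ) 1) with hQdef
  have hQ : IsCompact Q := (hY.prod isCompact_Icc).image (by fun_prop)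
  have hne : ∀ i, ∀ v ∈ K, ∀ p ∈ Q, (∑ j, p.1 j * dd ψ i j v) + p.2 ≠ 0 := by
    rintro i v hv _ ⟨⟨ν, a⟩, ⟨hν, ha0, ha1⟩, rfl⟩
    have h1 := hpos ν hν v hv i
    have h2 : ∑ j, (a • ν) j * dd ψ i j v = a * ∑ j, ν j * dd ψ i j v := by
      rw [Finset.mul_sum]
      refine Finset.sum_congr rfl fun j _ => ?_
      rw [Pi.smul_apply, smul_eq_mul, mul_assoc]
    have h3 : 0 < -∑ j, ν j * dd ψ i j v := h1
    simp only at ha0 ha1
    have h4 : ((∑ j, (a • ν) j * dd ψ i j v) + -(1 - a)) < 0 := by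
      rw [h2]
      rcases eq_or_lt_of_le ha0 with h5 | h5
      · rw [← h5]; norm_num
      · nlinarith
    exact ne_of_lt h4
  have hall : ∀ i : ι, ∃ C : ℝ, ∀ p ∈ Q, ∀ lam : ℝ, 0 < lam → ∀ (n : κ → ℝ) (l : ι → ℤ),
      (n = lam • p.1) → ((l i : ℝ) = lam * p.2) → ‖FT (osc χ ψ n) l‖ ≤ C / lam ^ N :=
    fun i => one_dir hχ hK hO hKO hχK hψ i hQ (hne i) N
  choose C hC using hall
  set B : ℝ := A * (1 + MY) + 1 with hB
  have hB0 : 0 ≤ B := by positivity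
  set c1 : ℝ := min 1 c0 with hc1
  have hc1pos : 0 < c1 := lt_min one_pos hc0pos
  refine ⟨|C₁| * (c1⁻¹) ^ N + (∑ i, |C i|) * B ^ N, fun ν hν s hs l hl => ?_⟩
  have hsz1 := one_le_sz l
  have hpos' : 0 < sz l + s := by linarith
  have hνc : c0 ≤ ∑ j, |ν j| := hmin hν
  have hνM : ∑ j, |ν j| ≤ MY := hmax hν
  have hsum : ∑ j, |(s • ν) j| = s * ∑ j, |ν j| := by
    rw [Finset.mul_sum]
    refine Finset.sum_congr rfl fun j _ => ?_
    rw [Pi.smul_apply, smul_eq_mul, abs_mul, abs_of_pos (by linarith)]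
  have hT1 : 0 ≤ |C₁| * (c1⁻¹) ^ N := by positivity
  have hT2 : 0 ≤ (∑ i, |C i|) * B ^ N :=
    mul_nonneg (Finset.sum_nonneg fun _ _ => abs_nonneg _) (pow_nonneg hB0 N)
  by_cases hcase : A * (1 + ∑ j, |(s • ν) j|) ≤ sz l
  · have h1 := hC₁ (s • ν) l hcase
    rw [hsum] at h1
    have h2 : c1 * (sz l + s) ≤ sz l + s * ∑ j, |ν j| := by
      have h3 : c1 * sz l ≤ sz l := by
        have : c1 ≤ 1 := min_le_left _ _
        nlinarith
      have h4 : c1 * s ≤ s * ∑ j, |ν j| := by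
        have : c1 ≤ ∑ j, |ν j| := (min_le_right _ _).trans hνc
        nlinarith
      linarith
    have h5 : 0 < sz l + s * ∑ j, |ν j| := lt_of_lt_of_le (mul_pos hc1pos hpos') h2
    refine h1.trans ?_
    rw [div_le_div_iff₀ (pow_pos h5 N) (pow_pos hpos' N)]
    calc C₁ * (sz l + s) ^ N ≤ |C₁| * (sz l + s) ^ N :=
          mul_le_mul_of_nonneg_right (le_abs_self _) (pow_nonneg hpos'.le N)
      _ = |C₁| * (c1⁻¹) ^ N * (c1 * (sz l + s)) ^ N := by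
          rw [mul_pow, inv_pow]
          have : c1 ^ N ≠ 0 := pow_ne_zero N hc1pos.ne'
          field_simp
      _ ≤ |C₁| * (c1⁻¹) ^ N * (sz l + s * ∑ j, |ν j|) ^ N :=
          mul_le_mul_of_nonneg_left (pow_le_pow_left₀ (mul_pos hc1pos hpos').le h2 N) hT1
      _ ≤ (|C₁| * (c1⁻¹) ^ N + (∑ i, |C i|) * B ^ N) * (sz l + s * ∑ j, |ν j|) ^ N :=
          mul_le_mul_of_nonneg_right (by linarith) (pow_nonneg h5.le N)
  · obtain ⟨i, hi⟩ := hl
    have hi' : (l i : ℝ) ≤ 0 := by exact_mod_cast hi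
    set lam : ℝ := s - l i with hlam
    have hlam0 : 0 < lam := by linarith
    have hslam : s ≤ lam := by linarith
    have h1 := hC i ((s / lam) • ν, -(1 - s / lam)) ⟨(ν, s / lam), ⟨hν, by
      refine ⟨by positivity, ?_⟩
      rw [div_le_one hlam0]; exact hslam⟩, rfl⟩ lam hlam0 (s • ν) l
      (by rw [smul_smul, mul_div_cancel₀ _ hlam0.ne'])
      (by
        simp only
        field_simp
        rw [hlam]; ring)
    refine h1.trans ?_
    rw [not_le, hsum] at hcase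
    have h2 : sz l + s ≤ B * lam := by
      have h3 : A * (1 + s * ∑ j, |ν j|) ≤ A * (1 + MY) * s := by
        have h4 : s * ∑ j, |ν j| ≤ s * MY := mul_le_mul_of_nonneg_left hνM (by linarith)
        nlinarith
      have h5 : sz l + s ≤ B * s := by rw [hB]; nlinarith
      exact h5.trans (mul_le_mul_of_nonneg_left hslam hB0)
    have h8 : C i ≤ ∑ i, |C i| := (le_abs_self _).trans
      (Finset.single_le_sum (f := fun i => |C i|) (fun _ _ => abs_nonneg _) (Finset.mem_univ i))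
    have h9 : 0 ≤ ∑ i, |C i| := Finset.sum_nonneg fun _ _ => abs_nonneg _
    rw [div_le_div_iff₀ (pow_pos hlam0 N) (pow_pos hpos' N)]
    calc C i * (sz l + s) ^ N ≤ (∑ i, |C i|) * (sz l + s) ^ N :=
          mul_le_mul_of_nonneg_right h8 (pow_nonneg hpos'.le N)
      _ ≤ (∑ i, |C i|) * (B * lam) ^ N :=
          mul_le_mul_of_nonneg_left (pow_le_pow_left₀ hpos'.le h2 N) h9
      _ = (∑ i, |C i|) * B ^ N * lam ^ N := by rw [mul_pow]; ring
      _ ≤ (|C₁| * (c1⁻¹) ^ N + (∑ i, |C i|) * B ^ N) * lam ^ N :=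
          mul_le_mul_of_nonneg_right (by linarith) (pow_nonneg hlam0.le N)

end Pool.MP4ac1fb.Full
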