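import Pool.Agent.H.MP_4ac1fb_an.Full.RemovalAux

/-!
The double sum estimate in the removability theorem.
-/

namespace Pool.MP4ac1fb.Full

open MvPolynomial

variable {d : ℕ}

theorem weighted_amgm {x z w δ : ℝ} (hw : 0 < w) (hδ : 0 < δ) :
    x * z ≤ δ / 2 * (x ^ 2 * w) + 1 / (2 * δ) * (z ^ 2 / w) := by
  have h : 0 ≤ (δ * w * x - z) ^ 2 := sq_nonneg _
  have h1 : δ / 2 * (x ^ 2 * w) + 1 / (2 * δ) * (z ^ 2 / w) - x * z =
      (δ * w * x - z) ^ 2 / (2 * δ * w) := by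
    field_simp
    ring
  have h2 : 0 ≤ (δ * w * x - z) ^ 2 / (2 * δ * w) := by positivity
  linarith

theorem removal_est {t : ℝ} {B C : Finset (Fin d)} (hBC : Disjoint B C) (hC : C.Nonempty)
    (hcard : t * (B.card + C.card) ≤ C.card)
    {β : (Fin d → ℤ) → ℂ} (hβ1 : PolyGr β)
    (hβ2 : Summable fun k : Fin d →₀ ℕ => ‖β (toZ k)‖ ^ 2 / wt t k)
    {a : (Fin d →₀ ℕ) → (B → ℤ) → ℂ} {Dd : ℝ}
    (hbes : ∀ n, Summable (fun l => ‖a n l‖ ^ 2) ∧ ∑' l, ‖a n l‖ ^ 2 ≤ Dd)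
    {A : ℝ} (hA : 1 ≤ A)
    (hfar : ∀ N : ℕ, ∃ Cf : ℝ, ∀ n l, A * (1 + ∑ j, (n j : ℝ)) ≤ sz l → ‖a n l‖ ≤ Cf / sz l ^ N)
    (R : ℕ → (Fin d →₀ ℕ) → Prop) (c1 : ℕ)
    (hR : ∀ L n, R L n → (∀ j ∉ C, n j = 0) ∧ ∀ j ∈ C, L ≤ n j ∧ n j ≤ c1 * L)
    (hcone : ∀ N : ℕ, ∃ Cc : ℝ, ∀ L n, R L n → ∀ l, (∃ i, l i ≤ 0) →
      ‖a n l‖ ≤ Cc / (sz l + L) ^ N)
    (Q : ℕ) (ε : ℝ) (hε : 0 < ε) :
    ∃ L0 : ℕ, ∀ L ≥ L0, ∀ κ : MvPolynomial (Fin d) ℂ, (∀ n ∈ κ.support, R L n) →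
      (∑ n ∈ κ.support, ‖coeff n κ‖ ≤ 2 ^ Q) → (∀ n, ‖coeff n κ‖ ≤ 2 ^ Q / (L : ℝ) ^ C.card) →
      ‖∑ n ∈ κ.support, coeff n κ * ∑' l, a n l * β (toZ n + extZ B l)‖ ≤ ε := by
  classical
  -- exponents
  set tp : ℝ := max t 0 with htp
  have htp0 : 0 ≤ tp := le_max_right _ _
  have htle : t ≤ tp := le_max_left _ _
  have hCc1 : 1 ≤ (C.card : ℝ) := by exact_mod_cast hC.card_pos
  have hB0 : (0 : ℝ) ≤ B.card := by positivity
  have hcardp : tp * (B.card + C.card) ≤ C.card := by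
    rw [htp]
    rcases le_total t 0 with h | h
    · rw [max_eq_right h, zero_mul]; linarith
    · rw [max_eq_left h]; exact hcard
  have htp1 : tp ≤ 1 := by
    by_contra hlt
    push Not at hlt
    nlinarith
  -- constants
  obtain ⟨Cβ0, q, hβq⟩ := hβ1
  set Cβ := max Cβ0 0 with hCβ
  have hCβ0 : 0 ≤ Cβ := le_max_right _ _
  have hβ' : ∀ k, ‖β k‖ ≤ Cβ * sz k ^ q := by
    intro k
    refine (hβq k).trans ?_
    have := one_le_sz k
    exact mul_le_mul_of_nonneg_right (le_max_left _ _) (by positivity)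
  obtain ⟨Cc0, hcone0⟩ := hcone ((q + 2 * B.card) + (q + 1))
  set Cc := max Cc0 0 with hCc
  have hCc0 : 0 ≤ Cc := le_max_right _ _
  obtain ⟨Cf0, hfar0⟩ := hfar (2 * B.card)
  set Cf := max Cf0 0 with hCf
  have hfar' : ∀ n l, A * (1 + ∑ j, (n j : ℝ)) ≤ sz l → ‖a n l‖ ≤ Cf / sz l ^ (2 * B.card) := by
    intro n l h
    refine (hfar0 n l h).trans ?_
    have := one_le_sz l
    exact div_le_div_of_nonneg_right (le_max_left _ _) (by positivity)
  obtain ⟨Cg0, hfarg0⟩ := hfar (q + 2 * B.card)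
  set Cg := max Cg0 0 with hCg
  set S : ℝ := ∑' l : B → ℤ, (sz l ^ (2 * B.card))⁻¹ with hS
  have hSs : Summable fun l : B → ℤ => (sz l ^ (2 * B.card))⁻¹ :=
    summable_sz (ι := B) (by rw [Fintype.card_coe])
  have hS0 : 0 ≤ S := tsum_nonneg fun l => by
    have := one_le_sz l
    positivity
  have hD0 : 0 ≤ Dd := le_trans (tsum_nonneg fun l => by positivity) (hbes 0).2
  set c2 : ℝ := 1 + d * c1 with hc2
  have hc20 : 0 ≤ c2 := by positivity
  set K1 : ℝ := Cc * Cβ * c2 ^ q with hK1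
  have hK10 : 0 ≤ K1 := by positivity
  set K2 : ℝ := ((c1 + 1 : ℝ) ^ tp) ^ C.card * (((A * (1 + d * c1)) ^ tp) ^ B.card * Dd +
        Cf ^ 2 * ∑' l : B → ℤ, (sz l ^ (2 * B.card))⁻¹) with hK2
  have hK20 : 0 ≤ K2 := by
    rw [hK2, ← hS]
    positivity
  set δ : ℝ := ε / (2 * (K2 * 4 ^ Q + 1)) with hδ
  have hδ0 : 0 < δ := by positivity
  set W : (Fin d →₀ ℕ) → ℝ := fun k => ‖β (toZ k)‖ ^ 2 / wt t k with hW
  have hW0 : ∀ k, 0 ≤ W k := fun k => div_nonneg (by positivity) (wt_pos t k).le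
  have htail := tendsto_tail hβ2 hW0 C
  have hev := (tendsto_order.1 htail).2 (δ * ε / 2) (by positivity)
  obtain ⟨L1, hL1⟩ := Filter.eventually_atTop.1 hev
  obtain ⟨L2, hL2⟩ := exists_nat_gt (2 ^ Q * K1 * S / (ε / 4))
  refine ⟨max (max L1 L2) 1, fun L hL κ hκR hκ1 hκ2 => ?_⟩
  have hLL1 : L1 ≤ L := (le_max_left _ _).trans ((le_max_left _ _).trans hL)
  have hLL2 : L2 ≤ L := (le_max_right _ _).trans ((le_max_left _ _).trans hL)
  have hLge1 : 1 ≤ L := (le_max_right _ _).trans hL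
  have hL1' : (1 : ℝ) ≤ L := by exact_mod_cast hLge1
  set τ : ℝ := ∑' k, (if ∃ j ∈ C, L ≤ k j then W k else 0) with hτ
  have hτle : τ < δ * ε / 2 := hL1 L hLL1
  have hsmall : 2 ^ Q * K1 * S / L ≤ ε / 4 := by
    have h1 : (2 ^ Q * K1 * S / (ε / 4)) < L := hL2.trans_le (by exact_mod_cast hLL2)
    rw [div_lt_iff₀ (by positivity)] at h1
    rw [div_le_iff₀ (by positivity)]
    linarith
  set Pos : Set (B → ℤ) := {l : B → ℤ | ∀ i, 0 < l i} with hPos
  -- termwise bounds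
  have hterm : ∀ n ∈ κ.support, ∀ l : B → ℤ,
      ‖coeff n κ‖ * (‖a n l‖ * ‖β (toZ n + extZ B l)‖) ≤
      ‖coeff n κ‖ * (K1 / L) * (sz l ^ (2 * B.card))⁻¹ +
      (δ / 2 * ‖coeff n κ‖ ^ 2 * Pos.indicator (fun l => ‖a n l‖ ^ 2 * wt t (kk B n l)) l +
       1 / (2 * δ) * Pos.indicator (fun l => W (kk B n l)) l) := by
    intro n hn l
    have hsl := one_le_sz l
    obtain ⟨hnC, hnL⟩ := hR L n (hκR n hn)
    by_cases hl : l ∈ Pos
    · rw [Set.indicator_of_mem hl, Set.indicator_of_mem hl]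
      have h1 : toZ n + extZ B l = toZ (kk B n l) := (toZ_kk B n l hl).symm
      have h2 := weighted_amgm (x := ‖coeff n κ‖ * ‖a n l‖) (z := ‖β (toZ (kk B n l))‖)
        (wt_pos t (kk B n l)) hδ0
      have h3 : 0 ≤ ‖coeff n κ‖ * (K1 / L) * (sz l ^ (2 * B.card))⁻¹ := by positivity
      rw [h1]
      simp only [hW]
      have h4 : ‖coeff n κ‖ * (‖a n l‖ * ‖β (toZ (kk B n l))‖) =
        ‖coeff n κ‖ * ‖a n l‖ * ‖β (toZ (kk B n l))‖ := by ring
      have h5 : δ / 2 * ((‖coeff n κ‖ * ‖a n l‖) ^ 2 * wt t (kk B n l)) =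
        δ / 2 * ‖coeff n κ‖ ^ 2 * (‖a n l‖ ^ 2 * wt t (kk B n l)) := by ring
      rw [h4, ← h5]
      linarith
    · rw [Set.indicator_of_notMem hl, Set.indicator_of_notMem hl, mul_zero, mul_zero, add_zero,
        add_zero, mul_assoc]
      apply mul_le_mul_of_nonneg_left _ (norm_nonneg _)
      have hex : ∃ i, l i ≤ 0 := by
        by_contra hc
        push Not at hc
        exact hl hc
      have h1 : ‖a n l‖ ≤ Cc / (sz l + L) ^ ((q + 2 * B.card) + (q + 1)) := by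
        refine (hcone0 L n (hκR n hn) l hex).trans ?_
        exact div_le_div_of_nonneg_right (le_max_left _ _) (by positivity)
      have h2 : ‖β (toZ n + extZ B l)‖ ≤ Cβ * ((c2 * L) * sz l) ^ q := by
        refine (hβ' _).trans ?_
        apply mul_le_mul_of_nonneg_left _ hCβ0
        have h3 := one_le_sz (toZ n + extZ B l)
        apply pow_le_pow_left₀ (by linarith)
        refine (sz_add_le _ _).trans ?_
        rw [sz_extZ, sz_toZ]
        apply mul_le_mul_of_nonneg_right _ (by linarith)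
        have h4 : ∀ j : Fin d, (n j : ℝ) ≤ c1 * L := by
          intro j
          by_cases hj : j ∈ C
          · exact_mod_cast (hnL j hj).2
          · rw [hnC j hj]
            push_cast
            positivity
        have h5 : ∑ j, (n j : ℝ) ≤ ∑ _j : Fin d, (c1 * L : ℝ) := Finset.sum_le_sum fun j _ => h4 j
        rw [Finset.sum_const, Finset.card_univ, Fintype.card_fin, nsmul_eq_mul] at h5
        rw [hc2]
        nlinarith
      have h6 : sz l ^ (q + 2 * B.card) * (L : ℝ) ^ (q + 1) ≤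
          (sz l + L) ^ ((q + 2 * B.card) + (q + 1)) := by
        rw [pow_add (sz l + L)]
        apply mul_le_mul
        · exact pow_le_pow_left₀ (by linarith) (by linarith) _
        · exact pow_le_pow_left₀ (by linarith) (by linarith) _
        · positivity
        · positivity
      calc ‖a n l‖ * ‖β (toZ n + extZ B l)‖
          ≤ (Cc / (sz l ^ (q + 2 * B.card) * (L : ℝ) ^ (q + 1))) * (Cβ * ((c2 * L) * sz l) ^ q) := by
            apply mul_le_mul _ h2 (norm_nonneg _) (by positivity)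
            refine h1.trans ?_
            apply div_le_div_of_nonneg_left hCc0 (by positivity) h6
        _ = K1 / L * (sz l ^ (2 * B.card))⁻¹ := by
            rw [hK1, mul_pow, mul_pow, pow_add, pow_succ]
            have : sz l ≠ 0 := by linarith
            have hL0 : (L : ℝ) ≠ 0 := by linarith
            field_simp
  -- summability of the right-hand sides
  have hG : ∀ n ∈ κ.support, Summable (Pos.indicator fun l => ‖a n l‖ ^ 2 * wt t (kk B n l)) ∧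
      ∑' l, Pos.indicator (fun l => ‖a n l‖ ^ 2 * wt t (kk B n l)) l ≤ K2 * (L : ℝ) ^ C.card := by
    intro n hn
    obtain ⟨hnC, hnL⟩ := hR L n (hκR n hn)
    exact sum_G_le hBC htp0 htp1 htle hcardp hA (hbes n) hLge1 hnC (fun j hj => (hnL j hj).2)
      (hfar' n)
  have hWs := sum_tail_le hBC hC hβ2 hW0 L κ.support (fun n hn =>
    ⟨(hR L n (hκR n hn)).1, fun j hj => ((hR L n (hκR n hn)).2 j hj).1⟩)
  have hrhs : ∀ n ∈ κ.support, Summable fun l =>
      ‖coeff n κ‖ * (K1 / L) * (sz l ^ (2 * B.card))⁻¹ +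
      (δ / 2 * ‖coeff n κ‖ ^ 2 * Pos.indicator (fun l => ‖a n l‖ ^ 2 * wt t (kk B n l)) l +
       1 / (2 * δ) * Pos.indicator (fun l => W (kk B n l)) l) := fun n hn =>
    (hSs.mul_left _).add (((hG n hn).1.mul_left _).add ((hWs.1 n hn).mul_left _))
  have hlhs : ∀ n ∈ κ.support, Summable fun l =>
      ‖coeff n κ‖ * (‖a n l‖ * ‖β (toZ n + extZ B l)‖) := fun n hn =>
    Summable.of_nonneg_of_le (fun l => by positivity) (hterm n hn) (hrhs n hn)
  have hone : ∀ n ∈ κ.support, ‖coeff n κ * ∑' l, a n l * β (toZ n + extZ B l)‖ ≤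
      ‖coeff n κ‖ * (K1 / L) * S +
      (δ / 2 * ‖coeff n κ‖ ^ 2 * (K2 * (L : ℝ) ^ C.card) +
       1 / (2 * δ) * ∑' l, Pos.indicator (fun l => W (kk B n l)) l) := by
    intro n hn
    have hne : coeff n κ ≠ 0 := mem_support_iff.1 hn
    have hpos : 0 < ‖coeff n κ‖ := norm_pos_iff.2 hne
    have hs1 : Summable fun l => ‖a n l * β (toZ n + extZ B l)‖ := by
      have := (hlhs n hn).mul_left (‖coeff n κ‖)⁻¹
      refine this.congr fun l => ?_
      rw [norm_mul]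
      field_simp
    rw [norm_mul]
    calc ‖coeff n κ‖ * ‖∑' l, a n l * β (toZ n + extZ B l)‖
        ≤ ‖coeff n κ‖ * ∑' l, ‖a n l * β (toZ n + extZ B l)‖ :=
          mul_le_mul_of_nonneg_left (norm_tsum_le_tsum_norm hs1) hpos.le
      _ = ∑' l, ‖coeff n κ‖ * (‖a n l‖ * ‖β (toZ n + extZ B l)‖) := by
          rw [← tsum_mul_left]
          apply tsum_congr
          intro l
          rw [norm_mul]
      _ ≤ ∑' l, (‖coeff n κ‖ * (K1 / L) * (sz l ^ (2 * B.card))⁻¹ +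
          (δ / 2 * ‖coeff n κ‖ ^ 2 * Pos.indicator (fun l => ‖a n l‖ ^ 2 * wt t (kk B n l)) l +
          1 / (2 * δ) * Pos.indicator (fun l => W (kk B n l)) l)) :=
          (hlhs n hn).tsum_le_tsum (hterm n hn) (hrhs n hn)
      _ = ‖coeff n κ‖ * (K1 / L) * S +
          (δ / 2 * ‖coeff n κ‖ ^ 2 *
            ∑' l, Pos.indicator (fun l => ‖a n l‖ ^ 2 * wt t (kk B n l)) l +
          1 / (2 * δ) * ∑' l, Pos.indicator (fun l => W (kk B n l)) l) := by
          rw [(hSs.mul_left _).tsum_add (((hG n hn).1.mul_left _).add ((hWs.1 n hn).mul_left _)),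
            ((hG n hn).1.mul_left _).tsum_add ((hWs.1 n hn).mul_left _), tsum_mul_left,
            tsum_mul_left, tsum_mul_left]
      _ ≤ _ := by
          have := mul_le_mul_of_nonneg_left (hG n hn).2
            (show 0 ≤ δ / 2 * ‖coeff n κ‖ ^ 2 by positivity)
          linarith
  -- summation over n
  refine (norm_sum_le _ _).trans ((Finset.sum_le_sum hone).trans ?_)
  rw [Finset.sum_add_distrib, Finset.sum_add_distrib, ← Finset.sum_mul, ← Finset.sum_mul,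
    ← Finset.sum_mul, ← Finset.mul_sum, ← Finset.mul_sum]
  have hsq : ∑ n ∈ κ.support, ‖coeff n κ‖ ^ 2 ≤ 2 ^ Q / (L : ℝ) ^ C.card * 2 ^ Q := by
    calc ∑ n ∈ κ.support, ‖coeff n κ‖ ^ 2 ≤
        ∑ n ∈ κ.support, 2 ^ Q / (L : ℝ) ^ C.card * ‖coeff n κ‖ := by
          apply Finset.sum_le_sum
          intro n _
          rw [sq]
          exact mul_le_mul_of_nonneg_right (hκ2 n) (norm_nonneg _)
      _ = 2 ^ Q / (L : ℝ) ^ C.card * ∑ n ∈ κ.support, ‖coeff n κ‖ := by rw [Finset.mul_sum]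
      _ ≤ _ := mul_le_mul_of_nonneg_left hκ1 (by positivity)
  have e1 : (∑ n ∈ κ.support, ‖coeff n κ‖) * (K1 / L) * S ≤ ε / 4 := by
    refine le_trans ?_ hsmall
    have h1 : (∑ n ∈ κ.support, ‖coeff n κ‖) * (K1 / L) * S ≤ 2 ^ Q * (K1 / L) * S := by
      gcongr
    refine h1.trans (le_of_eq ?_)
    ring
  have e2 : δ / 2 * (∑ n ∈ κ.support, ‖coeff n κ‖ ^ 2) * (K2 * (L : ℝ) ^ C.card) ≤ ε / 4 := by
    have h1 : δ / 2 * (∑ n ∈ κ.support, ‖coeff n κ‖ ^ 2) * (K2 * (L : ℝ) ^ C.card) ≤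
        δ / 2 * (2 ^ Q / (L : ℝ) ^ C.card * 2 ^ Q) * (K2 * (L : ℝ) ^ C.card) := by
      gcongr
    refine h1.trans ?_
    have h2 : δ / 2 * (2 ^ Q / (L : ℝ) ^ C.card * 2 ^ Q) * (K2 * (L : ℝ) ^ C.card) =
        δ / 2 * (K2 * 4 ^ Q) := by
      have h3 : (4 : ℝ) ^ Q = 2 ^ Q * 2 ^ Q := by rw [← mul_pow]; norm_num
      have hL0 : (L : ℝ) ^ C.card ≠ 0 := by positivity
      rw [h3]
      field_simp
    rw [h2, hδ]
    have h4 : 0 ≤ K2 * 4 ^ Q := by positivity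
    rw [div_div, div_mul_eq_mul_div, div_le_div_iff₀ (by positivity) (by norm_num)]
    nlinarith
  have e3 : 1 / (2 * δ) * ∑ n ∈ κ.support, ∑' l, Pos.indicator (fun l => W (kk B n l)) l ≤
      ε / 4 := by
    have h1 : 1 / (2 * δ) * ∑ n ∈ κ.support, ∑' l, Pos.indicator (fun l => W (kk B n l)) l ≤
        1 / (2 * δ) * (δ * ε / 2) :=
      mul_le_mul_of_nonneg_left (hWs.2.trans hτle.le) (by positivity)
    refine h1.trans (le_of_eq ?_)
    field_simp
    norm_num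
  linarith

end Pool.MP4ac1fb.Full
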