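import Pool.Agent.H.MP_4ac1fb_an.Full.RemovalAux
import Pool.Agent.H.MP_4ac1fb_an.Full.PhaseDecay

/-!
Geometric preliminaries for the removability theorem.
-/

namespace Pool.MP4ac1fb.Full

open MvPolynomial
open scoped ContDiff

variable {d : ℕ}

/-- Product of a test function with a function which is smooth near its support. -/
theorem isTest_mul_of_contDiffOn {ι : Type*} [Fintype ι] {F G : (ι → ℝ) → ℂ} {U : Set (ι → ℝ)}
    (hU : IsOpen U) (hF : IsTest F) (hFU : tsupport F ⊆ U) (hG : ContDiffOn ℝ ∞ G U) :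
    IsTest (fun θ => G θ * F θ) := by
  refine ⟨contDiff_iff_contDiffAt.2 fun θ => ?_, ?_⟩
  · by_cases h : θ ∈ tsupport F
    · exact (hG.contDiffAt (hU.mem_nhds (hFU h))).mul hF.1.contDiffAt
    · have h1 : (fun θ => G θ * F θ) =ᶠ[nhds θ] fun _ => 0 := by
        have h2 : (tsupport F)ᶜ ∈ nhds θ := (isClosed_tsupport F).isOpen_compl.mem_nhds h
        filter_upwards [h2] with y hy
        rw [image_eq_zero_of_notMem_tsupport hy, mul_zero]
      exact contDiffAt_const.congr_of_eventuallyEq h1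
  · exact hF.2.mul_left

/-- Restriction to `B`. -/
def resB (B : Finset (Fin d)) (θ : Fin d → ℝ) : B → ℝ := fun i => θ i

/-- Extension from `B` by the values of `x`. -/
def extB (B : Finset (Fin d)) (x : Fin d → ℝ) (v : B → ℝ) : Fin d → ℝ :=
  fun i => if h : i ∈ B then v ⟨i, h⟩ else x i

/-- The linear part of `extB`. -/
noncomputable def linB (B : Finset (Fin d)) : (B → ℝ) →L[ℝ] (Fin d → ℝ) :=
  ContinuousLinearMap.pi fun i => if h : i ∈ B then ContinuousLinearMap.proj (⟨i, h⟩ : B) else 0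

theorem linB_apply (B : Finset (Fin d)) (v : B → ℝ) (i : Fin d) :
    linB B v i = if h : i ∈ B then v ⟨i, h⟩ else 0 := by
  unfold linB
  rw [ContinuousLinearMap.pi_apply]
  split_ifs with h
  · rfl
  · rfl

theorem extB_eq (B : Finset (Fin d)) (x : Fin d → ℝ) (v : B → ℝ) :
    extB B x v = linB B v + fun i => if i ∈ B then 0 else x i := by
  funext i
  rw [Pi.add_apply, linB_apply]
  unfold extB
  split_ifs <;> simp

theorem extB_resB (B : Finset (Fin d)) (x : Fin d → ℝ) : extB B x (resB B x) = x := by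
  funext i
  simp [extB, resB]

theorem linB_single (B : Finset (Fin d)) (i : B) :
    linB B (Pi.single i 1) = Pi.single (i : Fin d) 1 := by
  funext j
  rw [linB_apply]
  by_cases h : j ∈ B
  · rw [dif_pos h]
    by_cases hji : j = i
    · subst hji
      simp
    · rw [Pi.single_eq_of_ne hji, Pi.single_eq_of_ne]
      intro h2
      exact hji (congrArg Subtype.val h2)
  · rw [dif_neg h, Pi.single_eq_of_ne]
    rintro rfl
    exact h i.2

theorem hasFDerivAt_extB (B : Finset (Fin d)) (x : Fin d → ℝ) (v : B → ℝ) :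
    HasFDerivAt (extB B x) (linB B) v := by
  have h : extB B x = fun v => linB B v + fun i => if i ∈ B then 0 else x i :=
    funext fun v => extB_eq B x v
  rw [h]
  exact (linB B).hasFDerivAt.add_const _

theorem contDiff_extB (B : Finset (Fin d)) (x : Fin d → ℝ) : ContDiff ℝ ∞ (extB B x) := by
  have h : extB B x = fun v => linB B v + fun i => if i ∈ B then 0 else x i :=
    funext fun v => extB_eq B x v
  rw [h]
  exact (linB B).contDiff.add contDiff_const

theorem extB_mem_ball (B : Finset (Fin d)) {x : Fin d → ℝ} {ρ : ℝ} (hρ : 0 < ρ) {v : B → ℝ}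
    (hv : v ∈ Metric.ball (resB B x) ρ) : extB B x v ∈ Metric.ball x ρ := by
  rw [Metric.mem_ball, dist_pi_lt_iff hρ] at hv ⊢
  intro i
  by_cases h : i ∈ B
  · have := hv ⟨i, h⟩
    simpa [extB, h, resB] using this
  · simpa [extB, h] using hρ

theorem resB_mem_ball (B : Finset (Fin d)) {x θ : Fin d → ℝ} {ρ : ℝ} (hρ : 0 < ρ)
    (h : θ ∈ Metric.ball x ρ) : resB B θ ∈ Metric.ball (resB B x) ρ := by
  rw [Metric.mem_ball, dist_pi_lt_iff hρ] at h ⊢
  exact fun i => h i

theorem fderiv_comp_extB (B : Finset (Fin d)) (x : Fin d → ℝ) {Ψ : (Fin d → ℝ) → (Fin d → ℝ)}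
    {v : B → ℝ} (h : AnalyticAt ℝ Ψ (extB B x v)) (i : B) (j : Fin d) :
    fderiv ℝ (fun y => Ψ (extB B x y) j) v (Pi.single i 1) =
      fderiv ℝ Ψ (extB B x v) (Pi.single (i : Fin d) 1) j := by
  have h1 : HasFDerivAt Ψ (fderiv ℝ Ψ (extB B x v)) (extB B x v) :=
    h.differentiableAt.hasFDerivAt
  have h2 := h1.comp v (hasFDerivAt_extB B x v)
  have h3 := (hasFDerivAt_pi'.1 h2) j
  have h4 := h3.fderiv
  have h5 : (fun y => Ψ (extB B x y) j) = fun y => (Ψ ∘ extB B x) y j := rfl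
  rw [h5, h4]
  simp [linB_single]

/-- Openness of the positivity condition. -/
theorem exists_rho {x : Fin d → ℝ} {B C : Finset (Fin d)} {Ψ : (Fin d → ℝ) → (Fin d → ℝ)}
    (hΨ : AnalyticAt ℝ Ψ x) {η : Fin d → ℝ}
    (hpos : ∀ i ∈ B, 0 < -∑ j ∈ C, η j * fderiv ℝ Ψ x (Pi.single i 1) j) :
    ∃ ρ : ℝ, 0 < ρ ∧ AnalyticOnNhd ℝ Ψ (Metric.ball x ρ) ∧
      ∀ ν θ : Fin d → ℝ, (∀ j ∈ C, |ν j - η j| < ρ) → (∀ j ∉ C, ν j = 0) →
        θ ∈ Metric.ball x ρ → ∀ i ∈ B, 0 < -∑ j, ν j * fderiv ℝ Ψ θ (Pi.single i 1) j := by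
  classical
  obtain ⟨r0, hr0, hr0'⟩ := hΨ.exists_ball_analyticOnNhd
  set η0 : Fin d → ℝ := fun j => if j ∈ C then η j else 0 with hη0
  have hc : ∀ i ∈ B, ∀ᶠ p : (Fin d → ℝ) × (Fin d → ℝ) in nhds (η0, x),
      0 < -∑ j, p.1 j * fderiv ℝ Ψ p.2 (Pi.single i 1) j := by
    intro i hi
    have hcont : ContinuousAt (fun p : (Fin d → ℝ) × (Fin d → ℝ) =>
        -∑ j, p.1 j * fderiv ℝ Ψ p.2 (Pi.single i 1) j) (η0, x) := by
      have hf : ContinuousAt (fun p : (Fin d → ℝ) × (Fin d → ℝ) => fderiv ℝ Ψ p.2) (η0, x) :=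
        ContinuousAt.comp (f := fun p : (Fin d → ℝ) × (Fin d → ℝ) => p.2) (x := (η0, x))
          (g := fderiv ℝ Ψ) (hΨ.fderiv.continuousAt) continuousAt_snd
      refine ContinuousAt.neg (tendsto_finsetSum _ fun j _ => ?_)
      refine ContinuousAt.mul ?_ ?_
      · exact (continuous_apply j).continuousAt.comp continuousAt_fst
      · have h2 : ContinuousAt (fun p : (Fin d → ℝ) × (Fin d → ℝ) =>
            fderiv ℝ Ψ p.2 (Pi.single i 1)) (η0, x) := hf.clm_apply continuousAt_const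
        exact (continuous_apply j).continuousAt.comp h2
    refine hcont.eventually (lt_mem_nhds ?_)
    have h1 : ∑ j, η0 j * fderiv ℝ Ψ x (Pi.single i 1) j =
        ∑ j ∈ C, η j * fderiv ℝ Ψ x (Pi.single i 1) j := by
      rw [← Finset.sum_subset (Finset.subset_univ C)]
      · apply Finset.sum_congr rfl
        intro j hj
        simp [hη0, hj]
      · intro j _ hj
        simp [hη0, hj]
    simp only
    rw [h1]
    exact hpos i hi
  have hall := (Filter.eventually_all_finset B).2 hc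
  rw [Metric.eventually_nhds_iff_ball] at hall
  obtain ⟨ρ1, hρ1, hball⟩ := hall
  refine ⟨min r0 ρ1, lt_min hr0 hρ1, fun y hy => hr0' y ?_, ?_⟩
  · exact Metric.ball_subset_ball (min_le_left _ _) hy
  · intro ν θ hν hν0 hθ i hi
    have hmem : ((ν, θ) : (Fin d → ℝ) × (Fin d → ℝ)) ∈ Metric.ball (η0, x) ρ1 := by
      rw [Metric.mem_ball, Prod.dist_eq, max_lt_iff]
      constructor
      · rw [dist_pi_lt_iff hρ1]
        intro j
        by_cases hj : j ∈ C
        · simp only [hη0, if_pos hj, Real.dist_eq]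
          exact (hν j hj).trans_le (min_le_right _ _)
        · simp only [hη0, if_neg hj, hν0 j hj, dist_self]
          exact hρ1
      · exact (Metric.mem_ball.1 hθ).trans_le (min_le_right _ _)
    exact hball _ hmem i hi

/-- Evaluation of a polynomial on the torus. -/
theorem eval_tor (p : MvPolynomial (Fin d) ℂ) (φ : Fin d → ℝ) :
    eval (tor φ) p = ∑ n ∈ p.support, coeff n p * chz (toZ n) φ := by
  rw [MvPolynomial.eval_eq']
  apply Finset.sum_congr rfl
  intro n _
  congr 1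
  unfold tor chz toZ
  rw [Finset.mul_sum, Complex.exp_sum]
  apply Finset.prod_congr rfl
  intro j _
  rw [← Complex.exp_nat_mul]
  congr 1
  push_cast
  ring

end Pool.MP4ac1fb.Full
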