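import Pool.Agent.H.MP_4ac1fb_an.Full.Van
import Pool.Agent.H.MP_4ac1fb_an.Full.CubeFS
import Pool.Agent.H.MP_4ac1fb_an.Full.Kernel
import Pool.Agent.H.MP_4ac1fb_an.Full.PhaseDecay
import Pool.Agent.H.MP_4ac1fb_an.Full.RemovalEst
import Pool.Agent.H.MP_4ac1fb_an.Full.RemovalGeo

/-!
Removability: the support of a tempered functional contains no point near which it lies in a graph
of large codimension with positive normal direction.
-/

namespace Pool.MP4ac1fb.Full

open MvPolynomial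
open scoped ContDiff

variable {d : ℕ}

/-- The norm of the oscillating factor. -/
theorem norm_osc_exp {κ : Type*} [Fintype κ] (n y : κ → ℝ) :
    ‖Complex.exp (-(2 * Real.pi * Complex.I * ∑ j, (n j : ℂ) * (y j : ℂ)))‖ = 1 := by
  rw [Complex.norm_exp]
  have h : (∑ j, (n j : ℂ) * (y j : ℂ)) = ((∑ j, n j * y j : ℝ) : ℂ) := by
    push_cast
    rfl
  rw [h]
  have h2 : (-(2 * (Real.pi : ℂ) * Complex.I * ((∑ j, n j * y j : ℝ) : ℂ))).re = 0 := by
    simp [Complex.mul_re, Complex.mul_im]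
  rw [h2, Real.exp_zero]

theorem norm_osc {ι κ : Type*} [Fintype ι] [Fintype κ] (χ : (ι → ℝ) → ℂ)
    (ψ : (ι → ℝ) → (κ → ℝ)) (n : κ → ℝ) (v : ι → ℝ) : ‖osc χ ψ n v‖ = ‖χ v‖ := by
  unfold osc
  rw [norm_mul, norm_osc_exp, mul_one]

/-- Smoothness of the oscillating factor. -/
theorem contDiffOn_osc_exp {ι κ : Type*} [Fintype ι] [Fintype κ] {O : Set (ι → ℝ)}
    {ψ : (ι → ℝ) → (κ → ℝ)} (hψ : ContDiffOn ℝ ∞ ψ O) (n : κ → ℝ) :
    ContDiffOn ℝ ∞ (fun v => Complex.exp
      (-(2 * Real.pi * Complex.I * ∑ j, (n j : ℂ) * (ψ v j : ℂ)))) O := by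
  apply ContDiffOn.cexp
  apply ContDiffOn.neg
  apply contDiffOn_const.mul
  apply ContDiffOn.sum
  intro j _
  apply contDiffOn_const.mul
  exact Complex.ofRealCLM.contDiff.comp_contDiffOn ((contDiffOn_pi.1 hψ) j)

theorem chz_sub (k : Fin d → ℤ) (θ y : Fin d → ℝ) :
    chz k (θ - y) = chz k θ * Complex.exp
      (-(2 * Real.pi * Complex.I * ∑ j, (((k j : ℤ) : ℝ) : ℂ) * (y j : ℂ))) := by
  unfold chz
  rw [← Complex.exp_add]
  congr 1
  have h : ∑ i, (k i : ℂ) * (((θ - y) i : ℝ) : ℂ) = ∑ i, (k i : ℂ) * (θ i : ℂ) -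
      ∑ j, (((k j : ℤ) : ℝ) : ℂ) * (y j : ℂ) := by
    rw [← Finset.sum_sub_distrib]
    apply Finset.sum_congr rfl
    intro i _
    rw [Pi.sub_apply]
    push_cast
    ring
  rw [h]
  ring

theorem chz_extZ (B : Finset (Fin d)) (l : B → ℤ) (θ : Fin d → ℝ) :
    chz (extZ B l) θ = chz l (resB B θ) := by
  unfold chz
  congr 1
  congr 1
  have h1 : ∑ j : Fin d, ((extZ B l j : ℤ) : ℂ) * (θ j : ℂ) =
      ∑ j ∈ B, ((extZ B l j : ℤ) : ℂ) * (θ j : ℂ) := by
    symm
    apply Finset.sum_subset (Finset.subset_univ B)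
    intro j _ hj
    simp [extZ, hj]
  rw [h1, ← Finset.sum_coe_sort]
  apply Finset.sum_congr rfl
  intro i _
  simp [extZ, resB]

/-- The smooth functions `θ ↦ z^n (θ - Ψ θ)`. -/
theorem contDiffOn_chz_sub {U : Set (Fin d → ℝ)} {Ψ : (Fin d → ℝ) → (Fin d → ℝ)}
    (hΨ : ContDiffOn ℝ ∞ Ψ U) (k : Fin d → ℤ) :
    ContDiffOn ℝ ∞ (fun θ => chz k (θ - Ψ θ)) U :=
  (contDiff_chz k).comp_contDiffOn (contDiffOn_id.sub hΨ)

/-- The main estimate: test functions with support near `x` are annihilated. -/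
theorem removal_local (t : ℝ) (g : (Fin d → ℤ) → ℂ) (hg : Temp t g) (x : Fin d → ℝ)
    (B C : Finset (Fin d)) (hBC : Disjoint B C) (hC : C.Nonempty)
    (hcard : t * (B.card + C.card) ≤ C.card) (Ψ : (Fin d → ℝ) → (Fin d → ℝ))
    (hdep : ∀ j ∈ C, ∀ θ θ' : Fin d → ℝ, (∀ i ∈ B, θ i = θ' i) → Ψ θ j = Ψ θ' j)
    (η : Fin d → ℝ) (hη : ∀ j ∈ C, 0 < η j) (ρ : ℝ) (hρ : 0 < ρ)
    (hΨρ : AnalyticOnNhd ℝ Ψ (Metric.ball x ρ))
    (hpos : ∀ ν θ : Fin d → ℝ, (∀ j ∈ C, |ν j - η j| < ρ) → (∀ j ∉ C, ν j = 0) →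
        θ ∈ Metric.ball x ρ → ∀ i ∈ B, 0 < -∑ j, ν j * fderiv ℝ Ψ θ (Pi.single i 1) j)
    (r : ℝ) (hr : 0 < r) (hrρ : r < ρ) (hr4 : r ≤ 1 / 4) (O : Set (Fin d → ℝ)) (hO : IsOpen O)
    (hsupp : ∀ θ ∈ O ∩ gsupp g, ∀ j ∈ C, θ j = Ψ θ j)
    (F : (Fin d → ℝ) → ℂ) (hF : IsTest F) (hFsupp : tsupport F ⊆ Metric.ball x (r / 2) ∩ O) :
    Gf g F = 0 := by
  classical
  have hgP := hg.polyGr
  obtain ⟨Q, hQ⟩ := van hgP
  set U : Set (Fin d → ℝ) := Metric.ball x (r / 2) ∩ O with hU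
  have hUo : IsOpen U := Metric.isOpen_ball.inter hO
  have hUρ : U ⊆ Metric.ball x ρ := fun y hy =>
    Metric.ball_subset_ball (by linarith) hy.1
  have hΨs : ContDiffOn ℝ ∞ Ψ (Metric.ball x ρ) := fun y hy =>
    (hΨρ y hy).contDiffAt.contDiffWithinAt
  -- the scale M and the integer normal
  obtain ⟨M0, hM0⟩ := exists_nat_gt (2 / ρ)
  set M : ℕ := M0 + 1 with hM
  have hM1 : (1 : ℝ) ≤ M := by rw [hM]; push_cast; linarith [(Nat.cast_nonneg M0 : (0 : ℝ) ≤ M0)]
  have hMρ : 2 / (M : ℝ) < ρ := by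
    rw [div_lt_iff₀ (by linarith)]
    rw [div_lt_iff₀ hρ] at hM0
    have : (M : ℝ) = M0 + 1 := by rw [hM]; push_cast; ring
    rw [this]
    nlinarith
  set η' : Fin d → ℕ := fun j => ⌈(M : ℝ) * η j⌉₊ with hη'
  have hη'1 : ∀ j ∈ C, 1 ≤ η' j := by
    intro j hj
    have := hη j hj
    simp only [hη']
    exact Nat.one_le_iff_ne_zero.2 (Nat.pos_iff_ne_zero.1 (Nat.ceil_pos.2 (by positivity)))
  set Y : Set (Fin d → ℝ) := Set.pi Set.univ fun j =>
    if j ∈ C then Set.Icc (η j) (η j + 2 / M) else {0} with hY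
  have hYc : IsCompact Y := by
    apply isCompact_univ_pi
    intro j
    split_ifs
    · exact isCompact_Icc
    · exact isCompact_singleton
  have hYmem : ∀ ν ∈ Y, (∀ j ∈ C, η j ≤ ν j ∧ ν j ≤ η j + 2 / M) ∧ ∀ j ∉ C, ν j = 0 := by
    intro ν hν
    have hν' : ∀ j, ν j ∈ (if j ∈ C then Set.Icc (η j) (η j + 2 / (M : ℝ)) else {0}) := fun j =>
      hν j (Set.mem_univ j)
    constructor
    · intro j hj
      have := hν' j
      rw [if_pos hj] at this
      exact this
    · intro j hj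
      have := hν' j
      rw [if_neg hj] at this
      exact this
  -- cut-off on the coordinates in B
  set xB : B → ℝ := resB B x with hxB
  let bump : ContDiffBump xB := ⟨r / 2, r, by linarith, by linarith⟩
  set χ : (B → ℝ) → ℂ := fun v => ((bump v : ℝ) : ℂ) with hχ
  have hχs : ContDiff ℝ ∞ χ := Complex.ofRealCLM.contDiff.comp bump.contDiff
  set K : Set (B → ℝ) := Metric.closedBall xB r with hK
  have hKc : IsCompact K := isCompact_closedBall _ _
  set O' : Set (B → ℝ) := Metric.ball xB ρ with hO'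
  have hO'o : IsOpen O' := Metric.isOpen_ball
  have hKO : K ⊆ O' := Metric.closedBall_subset_ball hrρ
  have hχK : ∀ v ∉ K, χ v = 0 := by
    intro v hv
    simp only [hχ]
    rw [bump.zero_of_le_dist]
    · simp
    · rw [hK, Metric.mem_closedBall, not_le] at hv
      exact hv.le
  have hχt : IsTest χ := ⟨hχs, HasCompactSupport.intro hKc hχK⟩
  have hχ1 : ∀ θ ∈ U, χ (resB B θ) = 1 := by
    intro θ hθ
    simp only [hχ]
    rw [bump.one_of_mem_closedBall]
    · simp
    · exact Metric.ball_subset_closedBall (resB_mem_ball B (ρ := r / 2) (by linarith) hθ.1)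
  set ψ : (B → ℝ) → (Fin d → ℝ) := fun v => Ψ (extB B x v) with hψdef
  have hψs : ContDiffOn ℝ ∞ ψ O' :=
    hΨs.comp (contDiff_extB B x).contDiffOn fun v hv => extB_mem_ball B hρ hv
  have hcone' : ∀ ν ∈ Y, ∀ v ∈ K, ∀ i,
      0 < -∑ j, ν j * fderiv ℝ (fun y => ψ y j) v (Pi.single i 1) := by
    intro ν hν v hv i
    have hvρ : extB B x v ∈ Metric.ball x ρ := extB_mem_ball B hρ (hKO hv)
    have h1 := hpos ν (extB B x v) (fun j hj => ?_) (hYmem ν hν).2 hvρ i i.2
    · refine lt_of_lt_of_eq h1 ?_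
      congr 1
      apply Finset.sum_congr rfl
      intro j _
      rw [fderiv_comp_extB B x (hΨρ _ hvρ) i j]
    · have h2 := (hYmem ν hν).1 j hj
      rw [abs_lt]
      constructor <;> linarith [h2.1, h2.2]
  -- the coefficients
  set a : (Fin d →₀ ℕ) → (B → ℤ) → ℂ := fun n l => FT (osc χ ψ fun j => (n j : ℝ)) l with ha
  have hosct : ∀ n : Fin d →₀ ℕ, IsTest (osc χ ψ fun j => (n j : ℝ)) := by
    intro n
    have h1 := isTest_mul_of_contDiffOn hO'o hχt (U := O')
      ((closure_minimal (fun v hv => by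
        by_contra hc
        exact hv (hχK v hc)) Metric.isClosed_closedBall).trans hKO)
      (contDiffOn_osc_exp hψs fun j => (n j : ℝ))
    have h2 : osc χ ψ (fun j => (n j : ℝ)) = fun v => Complex.exp
      (-(2 * Real.pi * Complex.I * ∑ j, ((n j : ℝ) : ℂ) * (ψ v j : ℂ))) * χ v := by
      funext v
      unfold osc
      rw [mul_comm]
    rw [h2]
    exact h1
  have hoscc : ∀ n : Fin d →₀ ℕ, Continuous (osc χ ψ fun j => (n j : ℝ)) := fun n =>
    (hosct n).1.continuous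
  have hoscsupp : ∀ (n : Fin d →₀ ℕ) (v : B → ℝ), (∃ i, 1 / 4 < |v i - xB i|) →
      osc χ ψ (fun j => (n j : ℝ)) v = 0 := by
    rintro n v ⟨i, hi⟩
    unfold osc
    rw [hχK v, zero_mul]
    intro hv
    rw [hK, Metric.mem_closedBall, dist_pi_le_iff hr.le] at hv
    have := hv i
    rw [Real.dist_eq] at this
    linarith
  have hbes : ∀ n, Summable (fun l => ‖a n l‖ ^ 2) ∧ ∑' l, ‖a n l‖ ^ 2 ≤ ∫ v, ‖χ v‖ ^ 2 := by
    intro n
    have h1 := cube_bessel (osc χ ψ fun j => (n j : ℝ)) (hoscc n) xB (hoscsupp n)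
    refine ⟨h1.1, h1.2.trans (le_of_eq ?_)⟩
    congr 1
    funext v
    rw [norm_osc]
  obtain ⟨A, hA, hfar0⟩ := osc_decay_far hχs hKc hO'o hKO hχK hψs
  have hfar : ∀ N : ℕ, ∃ Cf : ℝ, ∀ n l, A * (1 + ∑ j, (n j : ℝ)) ≤ sz l →
      ‖a n l‖ ≤ Cf / sz l ^ N := by
    intro N
    obtain ⟨Cf, hCf⟩ := hfar0 N
    refine ⟨max Cf 0, fun n l hl => ?_⟩
    have h1 := hCf (fun j => (n j : ℝ)) l (by simpa using hl)
    refine h1.trans ?_
    have hsz := one_le_sz l
    have h2 : 0 ≤ ∑ j, |((n j : ℕ) : ℝ)| := Finset.sum_nonneg fun j _ => abs_nonneg _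
    calc Cf / (sz l + ∑ j, |((n j : ℕ) : ℝ)|) ^ N
        ≤ max Cf 0 / (sz l + ∑ j, |((n j : ℕ) : ℝ)|) ^ N :=
          div_le_div_of_nonneg_right (le_max_left _ _) (by positivity)
      _ ≤ max Cf 0 / sz l ^ N := by
          apply div_le_div_of_nonneg_left (le_max_right _ _) (by positivity)
          exact pow_le_pow_left₀ (by linarith) (by linarith) N
  set c1 : ℕ := Q * (∑ j ∈ C, η' j + 1) with hc1
  set R : ℕ → (Fin d →₀ ℕ) → Prop := fun L n => 1 ≤ L ∧ (∀ j ∉ C, n j = 0) ∧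
    ∃ i : ℕ, 1 ≤ i ∧ i ≤ Q ∧ ∀ j ∈ C, i * η' j * L ≤ n j ∧ n j ≤ i * (η' j + 1) * L with hR
  have hRle : ∀ L n, R L n → (∀ j ∉ C, n j = 0) ∧ ∀ j ∈ C, L ≤ n j ∧ n j ≤ c1 * L := by
    rintro L n ⟨_, hn0, i, hi1, hiQ, hin⟩
    refine ⟨hn0, fun j hj => ⟨?_, ?_⟩⟩
    · refine le_trans ?_ (hin j hj).1
      have h1 := hη'1 j hj
      calc L = 1 * 1 * L := by ring
        _ ≤ i * η' j * L := by gcongr
    · refine (hin j hj).2.trans ?_
      rw [hc1]
      have h1 : η' j ≤ ∑ j ∈ C, η' j := Finset.single_le_sum (fun _ _ => Nat.zero_le _) hj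
      gcongr
  have hcone : ∀ N : ℕ, ∃ Cc : ℝ, ∀ L n, R L n → ∀ l, (∃ i, l i ≤ 0) →
      ‖a n l‖ ≤ Cc / (sz l + L) ^ N := by
    intro N
    obtain ⟨Cc, hCc⟩ := osc_decay_cone hχs hKc hO'o hKO hχK hψs hYc hcone' N
    refine ⟨max Cc 0, ?_⟩
    rintro L n ⟨hL, hn0, i, hi1, _, hin⟩ l hl
    have hL' : (1 : ℝ) ≤ L := by exact_mod_cast hL
    have hi' : (1 : ℝ) ≤ i := by exact_mod_cast hi1
    set s : ℝ := i * L * M with hs
    have hiL : (1 : ℝ) ≤ i * L := one_le_mul_of_one_le_of_one_le hi' hL'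
    have hs1 : 1 ≤ s := one_le_mul_of_one_le_of_one_le hiL hM1
    have hs0 : 0 < s := by linarith
    have hLs : (L : ℝ) ≤ s := by
      calc (L : ℝ) = 1 * L * 1 := by ring
        _ ≤ i * L * M := by gcongr
    set ν : Fin d → ℝ := fun j => (n j : ℝ) / s with hν
    have hνY : ν ∈ Y := by
      intro j _
      by_cases hj : j ∈ C
      · simp only [if_pos hj, hν]
        have h1 := hin j hj
        have h2 : (i : ℝ) * η' j * L ≤ n j := by exact_mod_cast h1.1
        have h3 : (n j : ℝ) ≤ i * (η' j + 1) * L := by exact_mod_cast h1.2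
        have h4 : (M : ℝ) * η j ≤ η' j := Nat.le_ceil _
        have h5 : (η' j : ℝ) < M * η j + 1 := Nat.ceil_lt_add_one (by
          have := hη j hj; positivity)
        constructor
        · rw [le_div_iff₀ hs0, hs]
          calc η j * (i * L * M) = (i * L) * (M * η j) := by ring
            _ ≤ (i * L) * η' j := by gcongr
            _ = i * η' j * L := by ring
            _ ≤ n j := h2
        · rw [div_le_iff₀ hs0, hs]
          calc (n j : ℝ) ≤ i * (η' j + 1) * L := h3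
            _ = (i * L) * (η' j + 1) := by ring
            _ ≤ (i * L) * (M * η j + 1 + 1) := by gcongr
            _ = (η j + 2 / M) * (i * L * M) := by
              field_simp
              ring
      · simp only [if_neg hj, hν, hn0 j hj]
        simp
    have h1 := hCc ν hνY s hs1 l hl
    have h2 : s • ν = fun j => (n j : ℝ) := by
      funext j
      simp only [Pi.smul_apply, smul_eq_mul, hν]
      field_simp
    rw [h2] at h1
    refine h1.trans ?_
    have hsz := one_le_sz l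
    calc Cc / (sz l + s) ^ N ≤ max Cc 0 / (sz l + s) ^ N :=
          div_le_div_of_nonneg_right (le_max_left _ _) (by positivity)
      _ ≤ max Cc 0 / (sz l + L) ^ N := by
          apply div_le_div_of_nonneg_left (le_max_right _ _) (by positivity)
          exact pow_le_pow_left₀ (by linarith) (by linarith) N
  -- the sequence β
  set β : (Fin d → ℤ) → ℂ := fun k => Gf g (fun θ => chz k θ * F θ) with hβ
  have hβ1 : PolyGr β := polyGr_Gf hgP hF
  have hβ2 : Summable fun k : Fin d →₀ ℕ => ‖β (toZ k)‖ ^ 2 / wt t k := local_bound hg hF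
  -- expansion of one term
  have hexp : ∀ n : Fin d →₀ ℕ, (∀ j ∉ C, n j = 0) →
      Gf g (fun θ => chz (toZ n) (θ - Ψ θ) * F θ) = ∑' l, a n l * β (toZ n + extZ B l) := by
    intro n hn0
    obtain ⟨Cb, hCb⟩ : ∃ Cb : ℝ, ∀ l, ‖a n l‖ ^ 2 ≤ Cb := by
      refine ⟨∫ v, ‖χ v‖ ^ 2, fun l => ?_⟩
      refine le_trans ?_ (hbes n).2
      exact (hbes n).1.le_tsum l (fun _ _ => by positivity)
    have hdecay : ∀ N : ℕ, ∃ C' : ℝ, 0 ≤ C' ∧ ∀ l, ‖a n l‖ ≤ C' / sz l ^ N := by
      intro N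
      obtain ⟨Cf, hCf⟩ := hfar N
      refine summable_of_far hCb (C := max Cf 0) (le_max_right _ _)
        (R := A * (1 + ∑ j, (n j : ℝ))) ?_
      intro l hl
      refine (hCf n l hl).trans ?_
      have hsz := one_le_sz l
      exact div_le_div_of_nonneg_right (le_max_left _ _) (by positivity)
    have hsumm : ∀ N : ℕ, Summable fun l => ‖a n l‖ * sz (toZ n + extZ B l) ^ N := by
      intro N
      obtain ⟨C', hC'0, hC'⟩ := hdecay (N + 2 * B.card)
      have hS : Summable fun l : B → ℤ => (sz l ^ (2 * B.card))⁻¹ :=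
        summable_sz (ι := B) (by rw [Fintype.card_coe])
      refine Summable.of_nonneg_of_le (fun l => ?_) (fun l => ?_)
        (hS.mul_left (C' * sz (toZ n) ^ N))
      · have := one_le_sz (toZ n + extZ B l)
        positivity
      · have h1 := one_le_sz (toZ n + extZ B l)
        have h2 := one_le_sz l
        have h3 := one_le_sz (toZ n)
        have h4 : sz (toZ n + extZ B l) ≤ sz (toZ n) * sz l := by
          have := sz_add_le (toZ n) (extZ B l)
          rwa [sz_extZ] at this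
        calc ‖a n l‖ * sz (toZ n + extZ B l) ^ N
            ≤ (C' / sz l ^ (N + 2 * B.card)) * (sz (toZ n) * sz l) ^ N := by
              apply mul_le_mul (hC' l) _ (by positivity) (by positivity)
              exact pow_le_pow_left₀ (by linarith) h4 N
          _ = C' * sz (toZ n) ^ N * (sz l ^ (2 * B.card))⁻¹ := by
              rw [mul_pow, pow_add]
              have : sz l ≠ 0 := by linarith
              field_simp
    have hsFT : Summable fun l => ‖FT (osc χ ψ fun j => (n j : ℝ)) l‖ := by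
      have := hsumm 0
      simpa using this
    have hpt : ∀ θ, chz (toZ n) (θ - Ψ θ) * F θ =
        (∑' l, a n l * chz (toZ n + extZ B l) θ) * F θ := by
      intro θ
      by_cases hθ : θ ∈ tsupport F
      · congr 1
        have hθU : θ ∈ U := hFsupp hθ
        have h1 := cube_fourier (osc χ ψ fun j => (n j : ℝ)) (hoscc n) xB (hoscsupp n) hsFT
          (resB B θ) (fun i => by
            have h2 := resB_mem_ball B (by linarith) hθU.1
            rw [Metric.mem_ball, dist_pi_lt_iff (by linarith)] at h2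
            have h3 := h2 i
            rw [Real.dist_eq] at h3
            simp only [hxB]
            linarith)
        rw [chz_sub]
        have h2 : Complex.exp (-(2 * Real.pi * Complex.I *
            ∑ j, (((toZ n j : ℤ) : ℝ) : ℂ) * (Ψ θ j : ℂ))) =
            osc χ ψ (fun j => (n j : ℝ)) (resB B θ) := by
          unfold osc
          rw [hχ1 θ hθU, one_mul]
          congr 3
          apply Finset.sum_congr rfl
          intro j _
          by_cases hj : j ∈ C
          · have h3 : Ψ θ j = ψ (resB B θ) j := by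
              simp only [hψdef]
              apply hdep j hj
              intro i hi
              simp [extB, hi, resB]
            rw [h3]
            simp [toZ]
          · simp [toZ, hn0 j hj]
        rw [h2, h1, ← tsum_mul_left]
        apply tsum_congr
        intro l
        rw [chz_add, chz_extZ]
        simp only [ha]
        ring
      · rw [image_eq_zero_of_notMem_tsupport hθ, mul_zero, mul_zero]
    exact Gf_tsum hgP hF (fun l => toZ n + extZ B l) (a n) hsumm hpt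
  -- the estimate
  have hest : ∀ ε : ℝ, 0 < ε → ‖Gf g F‖ ≤ ε := by
    intro ε hε
    obtain ⟨L0, hL0⟩ := removal_est hBC hC hcard hβ1 hβ2 hbes hA hfar R c1 hRle hcone Q ε hε
    set L : ℕ := max L0 1 with hLdef
    have hL1 : 1 ≤ L := le_max_right _ _
    obtain ⟨κ, om, hκω, hω0, hκs, hωs, hκ1, hκ2⟩ := kernel C hC η' 1 Q L hL1
    have hκR : ∀ n ∈ κ.support, R L n := by
      intro n hn
      obtain ⟨h1, i, hi1, hi2, hi3⟩ := hκs n hn
      refine ⟨hL1, h1, i, hi1, hi2, fun j hj => ?_⟩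
      have := hi3 j hj
      simpa using this
    have h1 := hL0 L (le_max_left _ _) κ hκR hκ1 hκ2
    refine le_of_eq_of_le ?_ h1
    congr 1
    -- Gf g F = sum
    set w : (Fin d → ℝ) → ℂ := fun θ => eval (tor (θ - Ψ θ)) om with hw
    have hws : ContDiffOn ℝ ∞ w U := by
      have h2 : w = fun θ => ∑ n ∈ om.support, coeff n om * chz (toZ n) (θ - Ψ θ) := by
        funext θ
        simp only [hw]
        rw [eval_tor]
      rw [h2]
      apply ContDiffOn.sum
      intro n _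
      exact contDiffOn_const.mul (contDiffOn_chz_sub (hΨs.mono hUρ) _)
    have hwv : ∀ y ∈ U ∩ gsupp g, w y = 0 := by
      intro y hy
      simp only [hw]
      apply hω0
      intro j hj
      have h3 := hsupp y ⟨hy.1.2, hy.2⟩ j hj
      simp [tor, h3.symm]
    have hvan := hQ F w U hUo hF hFsupp hws hwv
    have hFn : ∀ n ∈ κ.support, IsTest (fun θ => chz (toZ n) (θ - Ψ θ) * F θ) := fun n _ =>
      isTest_mul_of_contDiffOn hUo hF hFsupp (contDiffOn_chz_sub (hΨs.mono hUρ) _)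
    have hFnc : ∀ n ∈ κ.support,
        IsTest (fun θ => coeff n κ * (chz (toZ n) (θ - Ψ θ) * F θ)) := by
      intro n hn
      exact (hFn n hn).smul contDiff_const
    have hFs : IsTest (fun θ => ∑ n ∈ κ.support, coeff n κ * (chz (toZ n) (θ - Ψ θ) * F θ)) := by
      refine ⟨ContDiff.sum fun n hn => (hFnc n hn).1, ?_⟩
      apply HasCompactSupport.intro hF.2
      intro θ hθ
      apply Finset.sum_eq_zero
      intro n _
      rw [image_eq_zero_of_notMem_tsupport hθ, mul_zero, mul_zero]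
    have hwQ : IsTest (fun θ => w θ ^ Q * F θ) :=
      isTest_mul_of_contDiffOn hUo hF hFsupp (hws.pow Q)
    have hFeq : F = fun θ => w θ ^ Q * F θ +
        ∑ n ∈ κ.support, coeff n κ * (chz (toZ n) (θ - Ψ θ) * F θ) := by
      funext θ
      have h2 : eval (tor (θ - Ψ θ)) κ = 1 - w θ ^ Q := by
        rw [hκω]
        simp [hw]
      rw [eval_tor] at h2
      have h3 : ∑ n ∈ κ.support, coeff n κ * (chz (toZ n) (θ - Ψ θ) * F θ) =
          (∑ n ∈ κ.support, coeff n κ * chz (toZ n) (θ - Ψ θ)) * F θ := by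
        rw [Finset.sum_mul]
        apply Finset.sum_congr rfl
        intro n _
        ring
      rw [h3, h2]
      ring
    have h2 : Gf g F = Gf g (fun θ => w θ ^ Q * F θ) +
        Gf g (fun θ => ∑ n ∈ κ.support, coeff n κ * (chz (toZ n) (θ - Ψ θ) * F θ)) := by
      conv_lhs => rw [hFeq]
      exact Gf_add hgP hwQ hFs
    rw [h2, hvan, zero_add, Gf_sum hgP κ.support _ hFnc]
    apply Finset.sum_congr rfl
    intro n hn
    rw [Gf_const_mul, hexp n (hκR n hn).2.1]
  have h0 : ‖Gf g F‖ ≤ 0 := le_of_forall_pos_le_add fun ε hε => by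
    rw [zero_add]
    exact hest ε hε
  exact norm_le_zero_iff.1 h0

theorem removal (t : ℝ) (g : (Fin d → ℤ) → ℂ) (hg : Temp t g) (x : Fin d → ℝ)
    (B C : Finset (Fin d)) (hBC : Disjoint B C) (hC : C.Nonempty)
    (hcard : t * (B.card + C.card) ≤ C.card) (Ψ : (Fin d → ℝ) → (Fin d → ℝ))
    (hΨ : AnalyticAt ℝ Ψ x)
    (hdep : ∀ j ∈ C, ∀ θ θ' : Fin d → ℝ, (∀ i ∈ B, θ i = θ' i) → Ψ θ j = Ψ θ' j)
    (η : Fin d → ℝ) (hη : ∀ j ∈ C, 0 < η j)
    (hpos : ∀ i ∈ B, 0 < -∑ j ∈ C, η j * fderiv ℝ Ψ x (Pi.single i 1) j)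
    (hsupp : ∃ O ∈ nhds x, ∀ θ ∈ O ∩ gsupp g, ∀ j ∈ C, θ j = Ψ θ j) : x ∉ gsupp g := by
  obtain ⟨ρ, hρ, hΨρ, hposρ⟩ := exists_rho hΨ hpos
  obtain ⟨O, hOn, hO⟩ := hsupp
  obtain ⟨O1, hO1O, hO1o, hxO1⟩ := mem_nhds_iff.1 hOn
  set r : ℝ := min (ρ / 2) (1 / 4) with hr
  have hr0 : 0 < r := lt_min (by linarith) (by norm_num)
  have hrρ : r < ρ := (min_le_left _ _).trans_lt (by linarith)
  have hr4 : r ≤ 1 / 4 := min_le_right _ _
  have hloc : ∀ F : (Fin d → ℝ) → ℂ, IsTest F → tsupport F ⊆ Metric.ball x (r / 2) ∩ O1 →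
      Gf g F = 0 := fun F hF hFs =>
    removal_local t g hg x B C hBC hC hcard Ψ hdep η hη ρ hρ hΨρ hposρ r hr0 hrρ hr4 O1 hO1o
      (fun θ hθ => hO θ ⟨hO1O hθ.1, hθ.2⟩) F hF hFs
  intro hx
  have hU : Metric.ball x (r / 2) ∩ O1 ∈ nhds x :=
    Filter.inter_mem (Metric.ball_mem_nhds x (by linarith)) (hO1o.mem_nhds hxO1)
  obtain ⟨δ, hδ0, hδ⟩ := Metric.nhds_basis_closedBall.mem_iff.1 hU
  let bump : ContDiffBump x := ⟨δ / 2, δ, by linarith, by linarith⟩
  set Θ : (Fin d → ℝ) → ℂ := fun θ => ((bump θ : ℝ) : ℂ) with hΘ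
  have hΘs : ContDiff ℝ ∞ Θ := Complex.ofRealCLM.contDiff.comp bump.contDiff
  have hΘt : tsupport Θ ⊆ Metric.ball x (r / 2) ∩ O1 := by
    refine subset_trans ?_ hδ
    apply closure_minimal _ Metric.isClosed_closedBall
    intro θ hθ
    by_contra hc
    rw [Metric.mem_closedBall, not_le] at hc
    apply hθ
    simp only [hΘ]
    rw [bump.zero_of_le_dist hc.le]
    simp
  have h1 : Θ x = 0 := by
    apply hx Θ hΘs
    intro F hF
    apply hloc _ (hF.smul hΘs)
    exact (tsupport_mul_subset_left).trans hΘt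
  have h2 : Θ x = 1 := by
    simp only [hΘ]
    rw [bump.one_of_mem_closedBall (Metric.mem_closedBall_self bump.rIn_pos.le)]
    simp
  rw [h2] at h1
  exact one_ne_zero h1

end Pool.MP4ac1fb.Full
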