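import Pool.Agent.H.MP_4ac1fb_an.Full.FTBasic

/-!
Auxiliary estimates for the removability theorem: extension of indices and the double sum.
-/

namespace Pool.MP4ac1fb.Full

open MvPolynomial

variable {d : ℕ}

/-- Extension of an integer vector on `B` by zero. -/
def extZ (B : Finset (Fin d)) (l : B → ℤ) : Fin d → ℤ :=
  fun i => if h : i ∈ B then l ⟨i, h⟩ else 0

/-- The exponent `n + l` for `l ≥ 0`. -/
noncomputable def kk (B : Finset (Fin d)) (n : Fin d →₀ ℕ) (l : B → ℤ) : Fin d →₀ ℕ :=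
  n + Finsupp.equivFunOnFinite.symm (fun i => if h : i ∈ B then (l ⟨i, h⟩).toNat else 0)

theorem sz_extZ (B : Finset (Fin d)) (l : B → ℤ) : sz (extZ B l) = sz l := by
  unfold sz
  congr 1
  have h1 : ∑ j : Fin d, |((extZ B l j : ℤ) : ℝ)| = ∑ j ∈ B, |((extZ B l j : ℤ) : ℝ)| := by
    symm
    apply Finset.sum_subset (Finset.subset_univ B)
    intro j _ hj
    simp [extZ, hj]
  rw [h1, ← Finset.sum_coe_sort]
  apply Finset.sum_congr rfl
  intro i _
  simp [extZ]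

theorem sz_toZ (n : Fin d →₀ ℕ) : sz (toZ n) = 1 + ∑ j, (n j : ℝ) := by
  unfold sz toZ
  congr 1
  apply Finset.sum_congr rfl
  intro j _
  simp

theorem kk_apply_of_mem (B : Finset (Fin d)) (n : Fin d →₀ ℕ) (l : B → ℤ) {i : Fin d}
    (hi : i ∈ B) : kk B n l i = n i + (l ⟨i, hi⟩).toNat := by
  simp [kk, hi]

theorem kk_apply_of_notMem (B : Finset (Fin d)) (n : Fin d →₀ ℕ) (l : B → ℤ) {i : Fin d}
    (hi : i ∉ B) : kk B n l i = n i := by
  simp [kk, hi]

theorem toZ_kk (B : Finset (Fin d)) (n : Fin d →₀ ℕ) (l : B → ℤ) (hl : ∀ i, 0 < l i) :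
    toZ (kk B n l) = toZ n + extZ B l := by
  funext i
  by_cases hi : i ∈ B
  · simp only [toZ, Pi.add_apply, kk_apply_of_mem B n l hi, extZ, dif_pos hi]
    push_cast
    rw [Int.toNat_of_nonneg (hl _).le]
  · simp only [toZ, Pi.add_apply, kk_apply_of_notMem B n l hi, extZ, dif_neg hi, add_zero]

theorem kk_inj {B C : Finset (Fin d)} (hBC : Disjoint B C) {n n' : Fin d →₀ ℕ} {l l' : B → ℤ}
    (hn : ∀ j ∉ C, n j = 0) (hn' : ∀ j ∉ C, n' j = 0) (hl : ∀ i, 0 < l i) (hl' : ∀ i, 0 < l' i)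
    (h : kk B n l = kk B n' l') : n = n' ∧ l = l' := by
  have h1 : ∀ i, kk B n l i = kk B n' l' i := fun i => by rw [h]
  constructor
  · ext j
    by_cases hj : j ∈ C
    · have hjB : j ∉ B := fun hB => (Finset.disjoint_left.1 hBC hB) hj
      have := h1 j
      rwa [kk_apply_of_notMem B n l hjB, kk_apply_of_notMem B n' l' hjB] at this
    · rw [hn j hj, hn' j hj]
  · funext i
    have hiC : (i : Fin d) ∉ C := Finset.disjoint_left.1 hBC i.2
    have := h1 i
    rw [kk_apply_of_mem B n l i.2, kk_apply_of_mem B n' l' i.2, hn _ hiC, hn' _ hiC] at this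
    have a1 := hl i
    have a2 := hl' i
    simp only [Subtype.coe_eta, zero_add] at this
    omega

/-- Bound of the weight at `n + l`. -/
theorem wt_kk_le {B C : Finset (Fin d)} (hBC : Disjoint B C) (t tp : ℝ) (htp0 : 0 ≤ tp)
    (ht : t ≤ tp) (c1 L : ℕ) {n : Fin d →₀ ℕ} (hn : ∀ j ∉ C, n j = 0)
    (hn1 : ∀ j ∈ C, n j ≤ c1 * L) {l : B → ℤ} (hl : ∀ i, 0 < l i) :
    wt t (kk B n l) ≤ ((c1 * L + 1 : ℝ) ^ tp) ^ C.card * ((sz l) ^ tp) ^ B.card := by
  unfold wt
  have h0 : ∀ j : Fin d, ((kk B n l j : ℝ) + 1) ^ t ≤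
      (if j ∈ C then (c1 * L + 1 : ℝ) ^ tp else 1) * (if j ∈ B then (sz l) ^ tp else 1) := by
    intro j
    have hk1 : (1 : ℝ) ≤ (kk B n l j : ℝ) + 1 := by
      have : (0 : ℝ) ≤ (kk B n l j : ℝ) := by positivity
      linarith
    refine (Real.rpow_le_rpow_of_exponent_le hk1 ht).trans ?_
    by_cases hjC : j ∈ C
    · have hjB : j ∉ B := fun hB => (Finset.disjoint_left.1 hBC hB) hjC
      rw [if_pos hjC, if_neg hjB, mul_one, kk_apply_of_notMem B n l hjB]
      apply Real.rpow_le_rpow (by positivity) _ htp0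
      have := hn1 j hjC
      have h2 : (n j : ℝ) ≤ (c1 : ℝ) * L := by exact_mod_cast this
      linarith
    · by_cases hjB : j ∈ B
      · rw [if_neg hjC, if_pos hjB, one_mul, kk_apply_of_mem B n l hjB, hn j hjC]
        apply Real.rpow_le_rpow (by positivity) _ htp0
        unfold sz
        have h3 : |((l ⟨j, hjB⟩ : ℤ) : ℝ)| ≤ ∑ i, |((l i : ℤ) : ℝ)| :=
          Finset.single_le_sum (f := fun i => |((l i : ℤ) : ℝ)|) (fun i _ => abs_nonneg _)
            (Finset.mem_univ (⟨j, hjB⟩ : B))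
        have h4 : (((l ⟨j, hjB⟩).toNat : ℕ) : ℝ) = |((l ⟨j, hjB⟩ : ℤ) : ℝ)| := by
          have h5 := (hl ⟨j, hjB⟩).le
          rw [abs_of_nonneg (by exact_mod_cast h5)]
          exact_mod_cast congrArg (fun z : ℤ => (z : ℝ)) (Int.toNat_of_nonneg h5)
        rw [zero_add, h4]
        linarith
      · rw [if_neg hjC, if_neg hjB, kk_apply_of_notMem B n l hjB, hn j hjC]
        simp
  refine (Finset.prod_le_prod (fun j _ => by positivity) (fun j _ => h0 j)).trans (le_of_eq ?_)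
  rw [Finset.prod_mul_distrib]
  congr 1
  · rw [Finset.prod_ite_mem, Finset.univ_inter, Finset.prod_const]
  · rw [Finset.prod_ite_mem, Finset.univ_inter, Finset.prod_const]

/-- Uniform rapid decay implies summability against polynomially growing sequences. -/
theorem summable_of_far {B : Finset (Fin d)} {a : (B → ℤ) → ℂ} {D R C : ℝ}
    (hb : ∀ l, ‖a l‖ ^ 2 ≤ D) {N : ℕ} (hC : 0 ≤ C)
    (hfar : ∀ l, R ≤ sz l → ‖a l‖ ≤ C / sz l ^ N) :
    ∃ C' : ℝ, 0 ≤ C' ∧ ∀ l, ‖a l‖ ≤ C' / sz l ^ N := by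
  refine ⟨max (Real.sqrt D * R ^ N) C, le_max_of_le_right hC, fun l => ?_⟩
  have h1 : 1 ≤ sz l := one_le_sz l
  have hpos : 0 < sz l ^ N := by positivity
  by_cases hl : R ≤ sz l
  · refine (hfar l hl).trans ?_
    apply div_le_div_of_nonneg_right (le_max_right _ _) hpos.le
  · push Not at hl
    rw [le_div_iff₀ hpos]
    refine le_trans ?_ (le_max_left _ _)
    have h2 : ‖a l‖ ≤ Real.sqrt D := Real.le_sqrt_of_sq_le (hb l)
    have h3 : sz l ^ N ≤ R ^ N := pow_le_pow_left₀ (by linarith) hl.le N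
    exact mul_le_mul h2 h3 hpos.le (Real.sqrt_nonneg _)

/-- The tail of the sum over the exponents with a large coordinate in `C`. -/
theorem tendsto_tail {W : (Fin d →₀ ℕ) → ℝ} (hW : Summable W) (hW0 : ∀ k, 0 ≤ W k)
    (C : Finset (Fin d)) :
    Filter.Tendsto (fun L : ℕ => ∑' k, if ∃ j ∈ C, L ≤ k j then W k else 0) Filter.atTop
      (nhds 0) := by
  classical
  have h := tendsto_tsum_of_dominated_convergence (𝓕 := Filter.atTop)
    (f := fun (L : ℕ) (k : Fin d →₀ ℕ) => if ∃ j ∈ C, L ≤ k j then W k else 0)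
    (g := fun _ => (0 : ℝ)) hW ?_ ?_
  · simpa using h
  · intro k
    apply tendsto_const_nhds.congr'
    filter_upwards [Filter.eventually_ge_atTop ((∑ j, k j) + 1)] with L hL
    rw [if_neg]
    rintro ⟨j, _, hj⟩
    have : k j ≤ ∑ j, k j := Finset.single_le_sum (fun i _ => Nat.zero_le _) (Finset.mem_univ j)
    omega
  · refine Filter.Eventually.of_forall fun L k => ?_
    split_ifs with h
    · rw [Real.norm_of_nonneg (hW0 k)]
    · rw [norm_zero]
      exact hW0 k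


/-- The sum over the exponents `n + l`, `l > 0`, is a part of the tail. -/
theorem sum_tail_le {B C : Finset (Fin d)} (hBC : Disjoint B C) (hC : C.Nonempty)
    {W : (Fin d →₀ ℕ) → ℝ} (hW : Summable W) (hW0 : ∀ k, 0 ≤ W k) (L : ℕ)
    (s : Finset (Fin d →₀ ℕ)) (hs : ∀ n ∈ s, (∀ j ∉ C, n j = 0) ∧ ∀ j ∈ C, L ≤ n j) :
    (∀ n ∈ s, Summable (Set.indicator {l : B → ℤ | ∀ i, 0 < l i} fun l => W (kk B n l))) ∧
    ∑ n ∈ s, ∑' l, Set.indicator {l : B → ℤ | ∀ i, 0 < l i} (fun l => W (kk B n l)) l ≤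
      ∑' k, if ∃ j ∈ C, L ≤ k j then W k else 0 := by
  classical
  set Pos : Set (B → ℤ) := {l : B → ℤ | ∀ i, 0 < l i} with hPos
  set f : (Fin d →₀ ℕ) → ℝ := fun k => if ∃ j ∈ C, L ≤ k j then W k else 0 with hf
  have hf0 : ∀ k, 0 ≤ f k := fun k => by
    simp only [hf]; split_ifs
    · exact hW0 k
    · exact le_rfl
  have hfs : Summable f := by
    refine Summable.of_nonneg_of_le hf0 (fun k => ?_) hW
    simp only [hf]; split_ifs
    · exact le_rfl
    · exact hW0 k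
  obtain ⟨j0, hj0⟩ := hC
  have hfW : ∀ n ∈ s, ∀ l : B → ℤ, W (kk B n l) = f (kk B n l) := by
    intro n hn l
    simp only [hf]
    rw [if_pos]
    refine ⟨j0, hj0, ?_⟩
    rw [kk_apply_of_notMem B n l (fun hB => (Finset.disjoint_left.1 hBC hB) hj0)]
    exact (hs n hn).2 j0 hj0
  let φ : (s × Pos) → (Fin d →₀ ℕ) := fun p => kk B p.1 p.2
  have hφ : Function.Injective φ := by
    rintro ⟨⟨n, hn⟩, ⟨l, hl⟩⟩ ⟨⟨n', hn'⟩, ⟨l', hl'⟩⟩ h
    obtain ⟨h1, h2⟩ := kk_inj hBC (hs n hn).1 (hs n' hn').1 hl hl' h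
    simp [h1, h2]
  have hsum : Summable (f ∘ φ) := hfs.comp_injective hφ
  have h1 : ∀ n ∈ s, Summable (Set.indicator Pos fun l => W (kk B n l)) := by
    intro n hn
    rw [← summable_subtype_iff_indicator]
    have h2 : Summable (fun l : Pos => f (kk B n l)) := by
      apply hfs.comp_injective (i := fun l : Pos => kk B n l)
      intro l l' h
      exact Subtype.ext (kk_inj hBC (hs n hn).1 (hs n hn).1 l.2 l'.2 h).2
    refine h2.congr fun l => ?_
    simp only [Function.comp]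
    rw [hfW n hn]
  refine ⟨h1, ?_⟩
  have h3 : ∑ n ∈ s, ∑' l, Set.indicator Pos (fun l => W (kk B n l)) l = ∑' p, (f ∘ φ) p := by
    rw [hsum.tsum_prod, tsum_fintype, ← Finset.sum_coe_sort]
    apply Finset.sum_congr rfl
    intro n _
    rw [← tsum_subtype]
    apply tsum_congr
    intro l
    rw [hfW n n.2]
    rfl
  rw [h3]
  exact _root_.tsum_comp_le_tsum_of_inj hfs hf0 hφ

/-- The weighted square sum. -/
theorem sum_G_le {t tp : ℝ} {B C : Finset (Fin d)} (hBC : Disjoint B C) (htp0 : 0 ≤ tp)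
    (htp1 : tp ≤ 1) (ht : t ≤ tp)
    (hcard : tp * (B.card + C.card) ≤ C.card) {a : (B → ℤ) → ℂ} {D A Cf : ℝ} (hA : 1 ≤ A)
    (hbes : Summable (fun l => ‖a l‖ ^ 2) ∧ ∑' l, ‖a l‖ ^ 2 ≤ D)
    {n : Fin d →₀ ℕ} {c1 L : ℕ} (hL : 1 ≤ L) (hn : ∀ j ∉ C, n j = 0) (hn1 : ∀ j ∈ C, n j ≤ c1 * L)
    (hfar : ∀ l, A * (1 + ∑ j, (n j : ℝ)) ≤ sz l → ‖a l‖ ≤ Cf / sz l ^ (2 * B.card)) :
    Summable (Set.indicator {l : B → ℤ | ∀ i, 0 < l i} fun l => ‖a l‖ ^ 2 * wt t (kk B n l)) ∧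
    ∑' l, Set.indicator {l : B → ℤ | ∀ i, 0 < l i} (fun l => ‖a l‖ ^ 2 * wt t (kk B n l)) l ≤
      (((c1 + 1 : ℝ) ^ tp) ^ C.card * (((A * (1 + d * c1)) ^ tp) ^ B.card * D +
        Cf ^ 2 * ∑' l : B → ℤ, (sz l ^ (2 * B.card))⁻¹)) * (L : ℝ) ^ C.card := by
  have hL1 : (1 : ℝ) ≤ L := by exact_mod_cast hL
  set S : ℝ := ∑' l : B → ℤ, (sz l ^ (2 * B.card))⁻¹ with hS
  have hSs : Summable fun l : B → ℤ => (sz l ^ (2 * B.card))⁻¹ :=
    summable_sz (ι := B) (by rw [Fintype.card_coe])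
  have hS0 : 0 ≤ S := tsum_nonneg fun l => by
    have := one_le_sz l
    positivity
  have hD0 : 0 ≤ D := le_trans (tsum_nonneg fun l => by positivity) hbes.2
  set X : ℝ := ((c1 * L + 1 : ℝ) ^ tp) ^ C.card with hX
  set Y : ℝ := ((A * (1 + d * c1) * L) ^ tp) ^ B.card with hY
  have hX0 : 0 ≤ X := by positivity
  have hY0 : 0 ≤ Y := by positivity
  have hsn : 1 + ∑ j, (n j : ℝ) ≤ (1 + d * c1) * L := by
    have h1 : ∀ j : Fin d, (n j : ℝ) ≤ c1 * L := by
      intro j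
      by_cases hj : j ∈ C
      · exact_mod_cast hn1 j hj
      · rw [hn j hj]
        push_cast
        positivity
    have h2 : ∑ j, (n j : ℝ) ≤ ∑ _j : Fin d, (c1 * L : ℝ) := Finset.sum_le_sum fun j _ => h1 j
    rw [Finset.sum_const, Finset.card_univ, Fintype.card_fin, nsmul_eq_mul] at h2
    nlinarith
  have hterm : ∀ l, Set.indicator {l : B → ℤ | ∀ i, 0 < l i}
      (fun l => ‖a l‖ ^ 2 * wt t (kk B n l)) l ≤
      X * (Y * ‖a l‖ ^ 2 + Cf ^ 2 * (sz l ^ (2 * B.card))⁻¹) := by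
    intro l
    have hl1 := one_le_sz l
    by_cases hl : l ∈ {l : B → ℤ | ∀ i, 0 < l i}
    · rw [Set.indicator_of_mem hl]
      have h1 := wt_kk_le hBC t tp htp0 ht c1 L hn hn1 hl
      have h2 : ‖a l‖ ^ 2 * ((sz l) ^ tp) ^ B.card ≤
          Y * ‖a l‖ ^ 2 + Cf ^ 2 * (sz l ^ (2 * B.card))⁻¹ := by
        by_cases hfl : A * (1 + ∑ j, (n j : ℝ)) ≤ sz l
        · have h3 := hfar l hfl
          have h4 : ((sz l) ^ tp) ^ B.card ≤ sz l ^ B.card := by
            apply pow_le_pow_left₀ (by positivity)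
            have := Real.rpow_le_rpow_of_exponent_le hl1 htp1
            rwa [Real.rpow_one] at this
          have h5 : ‖a l‖ ^ 2 ≤ (Cf / sz l ^ (2 * B.card)) ^ 2 :=
            pow_le_pow_left₀ (norm_nonneg _) h3 2
          have h6 : ‖a l‖ ^ 2 * ((sz l) ^ tp) ^ B.card ≤
              (Cf / sz l ^ (2 * B.card)) ^ 2 * sz l ^ B.card :=
            mul_le_mul h5 h4 (by positivity) (by positivity)
          have h7 : (Cf / sz l ^ (2 * B.card)) ^ 2 * sz l ^ B.card ≤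
              Cf ^ 2 * (sz l ^ (2 * B.card))⁻¹ := by
            rw [div_pow, div_mul_eq_mul_div, mul_div_assoc]
            apply mul_le_mul_of_nonneg_left _ (sq_nonneg _)
            rw [← pow_mul, div_le_iff₀ (by positivity), ← div_eq_inv_mul, le_div_iff₀ (by positivity),
              ← pow_add]
            exact pow_le_pow_right₀ hl1 (by omega)
          have h8 : 0 ≤ Y * ‖a l‖ ^ 2 := by positivity
          linarith
        · push Not at hfl
          have h3 : sz l ≤ A * (1 + d * c1) * L := by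
            refine hfl.le.trans ?_
            rw [mul_assoc]
            exact mul_le_mul_of_nonneg_left hsn (by linarith)
          have h4 : ((sz l) ^ tp) ^ B.card ≤ Y := by
            apply pow_le_pow_left₀ (by positivity)
            exact Real.rpow_le_rpow (by linarith) h3 htp0
          have h5 : 0 ≤ Cf ^ 2 * (sz l ^ (2 * B.card))⁻¹ := by positivity
          have h6 : ‖a l‖ ^ 2 * ((sz l) ^ tp) ^ B.card ≤ ‖a l‖ ^ 2 * Y :=
            mul_le_mul_of_nonneg_left h4 (by positivity)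
          linarith [mul_comm (‖a l‖ ^ 2) Y]
      calc ‖a l‖ ^ 2 * wt t (kk B n l) ≤ ‖a l‖ ^ 2 * (X * ((sz l) ^ tp) ^ B.card) :=
            mul_le_mul_of_nonneg_left h1 (by positivity)
        _ = X * (‖a l‖ ^ 2 * ((sz l) ^ tp) ^ B.card) := by ring
        _ ≤ _ := mul_le_mul_of_nonneg_left h2 hX0
    · rw [Set.indicator_of_notMem hl]
      positivity
  have hnn : ∀ l, 0 ≤ Set.indicator {l : B → ℤ | ∀ i, 0 < l i}
      (fun l => ‖a l‖ ^ 2 * wt t (kk B n l)) l := fun l =>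
    Set.indicator_nonneg (fun l _ => mul_nonneg (by positivity) (wt_pos t _).le) l
  have hsr : Summable fun l => X * (Y * ‖a l‖ ^ 2 + Cf ^ 2 * (sz l ^ (2 * B.card))⁻¹) :=
    ((hbes.1.mul_left Y).add (hSs.mul_left (Cf ^ 2))).mul_left X
  have hsl := Summable.of_nonneg_of_le hnn hterm hsr
  refine ⟨hsl, ?_⟩
  refine (hsl.tsum_le_tsum hterm hsr).trans ?_
  rw [tsum_mul_left, (hbes.1.mul_left Y).tsum_add (hSs.mul_left (Cf ^ 2)), tsum_mul_left,
    tsum_mul_left, ← hS]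
  -- powers of L
  set Lt : ℝ := (L : ℝ) ^ tp with hLt
  have hLt1 : 1 ≤ Lt := Real.one_le_rpow hL1 htp0
  have hXle : X ≤ ((c1 + 1 : ℝ) ^ tp) ^ C.card * Lt ^ C.card := by
    rw [← mul_pow, hLt, ← Real.mul_rpow (by positivity) (by positivity)]
    apply pow_le_pow_left₀ (by positivity)
    apply Real.rpow_le_rpow (by positivity) _ htp0
    nlinarith
  have hYeq : Y = ((A * (1 + d * c1)) ^ tp) ^ B.card * Lt ^ B.card := by
    rw [hY, ← mul_pow, hLt, ← Real.mul_rpow (by positivity) (by positivity)]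
  have hLpow : Lt ^ B.card * Lt ^ C.card ≤ (L : ℝ) ^ C.card := by
    rw [← pow_add, hLt, ← Real.rpow_natCast, ← Real.rpow_mul (by positivity), ← Real.rpow_natCast]
    apply Real.rpow_le_rpow_of_exponent_le hL1
    push_cast
    exact hcard
  set Z := ((A * (1 + d * c1)) ^ tp) ^ B.card with hZ
  have hZ0 : 0 ≤ Z := by positivity
  have h9 : Y * ∑' l, ‖a l‖ ^ 2 + Cf ^ 2 * S ≤ (Z * D + Cf ^ 2 * S) * Lt ^ B.card := by
    have hLtB : 1 ≤ Lt ^ B.card := one_le_pow₀ hLt1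
    have h10 : Y * ∑' l, ‖a l‖ ^ 2 ≤ Y * D := mul_le_mul_of_nonneg_left hbes.2 hY0
    rw [hYeq] at h10
    have h11 : Cf ^ 2 * S ≤ Cf ^ 2 * S * Lt ^ B.card := by
      have : 0 ≤ Cf ^ 2 * S := by positivity
      nlinarith
    rw [hYeq]
    nlinarith
  calc X * (Y * ∑' l, ‖a l‖ ^ 2 + Cf ^ 2 * S)
      ≤ (((c1 + 1 : ℝ) ^ tp) ^ C.card * Lt ^ C.card) * ((Z * D + Cf ^ 2 * S) * Lt ^ B.card) := by
        apply mul_le_mul hXle h9 _ (by positivity)
        have : 0 ≤ ∑' l, ‖a l‖ ^ 2 := tsum_nonneg fun l => by positivity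
        positivity
    _ = (((c1 + 1 : ℝ) ^ tp) ^ C.card * (Z * D + Cf ^ 2 * S)) * (Lt ^ B.card * Lt ^ C.card) := by
        ring
    _ ≤ _ := mul_le_mul_of_nonneg_left hLpow (by positivity)

end Pool.MP4ac1fb.Full
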