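import Pool.Agent.H.MP_4ac1fb_an.Full.Defs
import Pool.Agent.H.MP_4ac1fb_an.Fibre

/-!
The polynomial `P|_{z_j = 0}`.
-/

namespace Pool.MP4ac1fb.Full

open MvPolynomial

variable {d : ℕ}

lemma setZero_monomial (j : Fin d) (u : Fin d →₀ ℕ) (a : ℂ) :
    setZero j (monomial u a) = if u j = 0 then monomial u a else 0 := by
  rw [setZero, bind₁_monomial]
  split_ifs with h
  · rw [monomial_eq, Finsupp.prod]
    congr 1
    refine Finset.prod_congr rfl fun i hi => ?_
    rw [if_neg]
    rintro rfl
    exact (Finsupp.mem_support_iff.mp hi) h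
  · have hj : j ∈ u.support := Finsupp.mem_support_iff.mpr h
    rw [Finset.prod_eq_zero hj, mul_zero]
    rw [if_pos rfl, zero_pow h]

lemma setZero_add (j : Fin d) (P Q : MvPolynomial (Fin d) ℂ) :
    setZero j (P + Q) = setZero j P + setZero j Q := by
  simp [setZero]

theorem coeff_setZero (j : Fin d) (P : MvPolynomial (Fin d) ℂ) (k : Fin d →₀ ℕ) :
    coeff k (setZero j P) = if k j = 0 then coeff k P else 0 := by
  classical
  induction P using MvPolynomial.induction_on' with
  | monomial u a =>
    rw [setZero_monomial]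
    by_cases hu : u j = 0
    · rw [if_pos hu, coeff_monomial]
      split_ifs with h1 h2
      · rfl
      · subst h1
        exact absurd hu h2
      · rfl
      · rfl
    · rw [if_neg hu, coeff_zero, coeff_monomial]
      split_ifs with h1 h2
      · subst h2
        exact absurd h1 hu
      · rfl
      · rfl
  | add p q hp hq =>
    rw [setZero_add, coeff_add, hp, hq, coeff_add]
    split_ifs <;> simp

theorem eval_setZero (j : Fin d) (P : MvPolynomial (Fin d) ℂ) (z : Fin d → ℂ) :
    eval z (setZero j P) = eval (Function.update z j 0) P := by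
  have h : (eval z).comp
      ((bind₁ (fun i => if i = j then (0 : MvPolynomial (Fin d) ℂ) else X i) :
        MvPolynomial (Fin d) ℂ →ₐ[ℂ] MvPolynomial (Fin d) ℂ) :
          MvPolynomial (Fin d) ℂ →+* MvPolynomial (Fin d) ℂ)
      = eval (Function.update z j 0) := by
    apply MvPolynomial.ringHom_ext
    · intro r
      simp
    · intro i
      by_cases hij : i = j
      · subst hij
        simp
      · simp [hij]
  exact congrArg (fun f => f P) (congrArg DFunLike.coe h)

theorem NZ.setZero {P : MvPolynomial (Fin d) ℂ} (hP : NZ P) (j : Fin d) : NZ (setZero j P) := by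
  intro z hz
  rw [eval_setZero]
  apply hP
  intro i
  by_cases hij : i = j
  · subst hij
    simp
  · rw [Function.update_of_ne hij]
    exact hz i

theorem vars_setZero (j : Fin d) (P : MvPolynomial (Fin d) ℂ) :
    (setZero j P).vars ⊆ P.vars.erase j := by
  intro i hi
  rw [mem_vars_iff_mem_support] at hi
  obtain ⟨k, hk, hik⟩ := hi
  rw [mem_support_iff, coeff_setZero] at hk
  have hkj : k j = 0 := by
    by_contra h
    rw [if_neg h] at hk
    exact hk rfl
  rw [if_pos hkj] at hk
  rw [Finset.mem_erase]
  constructor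
  · rintro rfl
    exact (Finsupp.mem_support_iff.mp hik) hkj
  · rw [mem_vars_iff_mem_support]
    exact ⟨k, mem_support_iff.mpr hk, hik⟩

lemma norm_tor_sz (θ : Fin d → ℝ) (i : Fin d) : ‖tor θ i‖ = 1 := by
  rw [tor]
  have : (2 * Real.pi * Complex.I * θ i : ℂ) = ((2 * Real.pi * θ i : ℝ) : ℂ) * Complex.I := by
    push_cast
    ring
  rw [this, Complex.norm_exp_ofReal_mul_I]

/-- If `P` has no zeros in the polydisc, `|z_i| = 1` and `P` vanishes at `z` with `z_j` replaced by
`0`, then `P` vanishes at `z`. -/
theorem eval_tor_of_setZero {P : MvPolynomial (Fin d) ℂ} (hP : NZ P) (j : Fin d) (θ : Fin d → ℝ)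
    (h : eval (tor θ) (setZero j P) = 0) : eval (tor θ) P = 0 := by
  rw [eval_setZero] at h
  have hfib : fib P (tor θ) j = 0 := by
    by_contra hne
    have := norm_root_ge P hP (tor θ) (norm_tor_sz θ) j 0 h hne
    rw [norm_zero] at this
    linarith
  have h2 := eval_fib P (tor θ) j (tor θ j)
  rw [hfib, Polynomial.eval_zero, Function.update_eq_self] at h2
  exact h2.symm

theorem GoodPatches.setZero {t : ℝ} {P : MvPolynomial (Fin d) ℂ} (h : GoodPatches t P) (hP : NZ P)
    (j : Fin d) : GoodPatches t (setZero j P) := by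
  intro m U ψ hψ
  exact h m U ψ ⟨hψ.isOpen, hψ.nonempty, hψ.analytic, hψ.immersion,
    fun u hu => eval_tor_of_setZero hP j (ψ u) (hψ.zero u hu)⟩

end Pool.MP4ac1fb.Full
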