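import Pool.Agent.H.MP_4ac1fb_an.Full.FTBasic

/-!
The support of the distribution `Gf g`.
-/

namespace Pool.MP4ac1fb.Full

open MvPolynomial
open scoped ContDiff ComplexConjugate

variable {d : ℕ}

theorem isClosed_gsupp (g : (Fin d → ℤ) → ℂ) : IsClosed (gsupp g) := by
  have e : gsupp g = ⋂ Θ : {Θ : (Fin d → ℝ) → ℂ // ContDiff ℝ ∞ Θ ∧
      ∀ F, IsTest F → Gf g (fun θ => Θ θ * F θ) = 0}, {x | Θ.1 x = 0} := by
    ext x
    simp only [gsupp, Set.mem_ofPred_eq, Set.mem_iInter, Subtype.forall, and_imp]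
  rw [e]
  exact isClosed_iInter fun Θ => isClosed_eq Θ.2.1.continuous continuous_const

lemma eval_tor (P : MvPolynomial (Fin d) ℂ) (θ : Fin d → ℝ) :
    eval (tor θ) P = ∑ a ∈ P.support, coeff a P * chz (toZ a) θ := by
  rw [eval_eq']
  refine Finset.sum_congr rfl fun a _ => ?_
  congr 1
  unfold chz tor toZ
  rw [Finset.mul_sum, Complex.exp_sum]
  refine Finset.prod_congr rfl fun i _ => ?_
  rw [← Complex.exp_nat_mul]
  congr 1
  push_cast
  ring

lemma summable_shift {g : (Fin d → ℤ) → ℂ} (hg : PolyGr g) {F : (Fin d → ℝ) → ℂ}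
    (hF : IsTest F) (l : Fin d → ℤ) : Summable fun k => g (k + l) * FT F k := by
  have h1 := (summable_Gf hg (hF.smul (contDiff_chz l))).of_norm
  have h2 : Summable fun k => g k * FT F (k - l) := by
    refine h1.congr fun k => ?_
    rw [FT_chz_mul]
  have h3 := (Equiv.addRight l).summable_iff.2 h2
  refine h3.congr fun k => ?_
  simp [Function.comp]

theorem gsupp_subset {P : MvPolynomial (Fin d) ℂ} {g : (Fin d → ℤ) → ℂ} (hg : PolyGr g)
    (hrec : RecZ P g) : gsupp g ⊆ {θ | eval (tor θ) P = 0} := by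
  intro x hx
  have hx' := hx (fun θ => ∑ a ∈ P.support, coeff a P * chz (toZ a) θ)
    (ContDiff.sum fun a _ => contDiff_const.mul (contDiff_chz (toZ a))) ?_
  · show eval (tor x) P = 0
    rw [eval_tor]
    exact hx'
  · intro F hF
    have e : (fun θ => (∑ a ∈ P.support, coeff a P * chz (toZ a) θ) * F θ) =
        fun θ => ∑ a ∈ P.support, (fun a θ => coeff a P * (chz (toZ a) θ * F θ)) a θ := by
      funext θ
      rw [Finset.sum_mul]
      exact Finset.sum_congr rfl fun a _ => by ring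
    rw [e, Gf_sum hg]
    · have h1 : ∀ a ∈ P.support, Gf g ((fun a θ => coeff a P * (chz (toZ a) θ * F θ)) a) =
          ∑' k, coeff a P * (g (k + toZ a) * FT F k) := by
        intro a _
        show Gf g (fun θ => coeff a P * (chz (toZ a) θ * F θ)) = _
        rw [Gf_const_mul, Gf_chz_mul, tsum_mul_left]
      rw [Finset.sum_congr rfl h1,
        ← Summable.tsum_finsetSum fun a _ => (summable_shift hg hF (toZ a)).mul_left _]
      rw [← tsum_zero]
      refine tsum_congr fun k => ?_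
      have h2 := hrec k
      have h3 : ∑ a ∈ P.support, coeff a P * (g (k + toZ a) * FT F k) =
          (∑ a ∈ P.support, coeff a P * g (k + toZ a)) * FT F k := by
        rw [Finset.sum_mul]
        exact Finset.sum_congr rfl fun a _ => by ring
      rw [h3, h2, zero_mul]
    · intro a _
      have := (hF.smul (contDiff_chz (toZ a))).smul
        (contDiff_const (c := coeff a P) : ContDiff ℝ ∞ fun _ : Fin d → ℝ => coeff a P)
      exact this

theorem Gf_eq_zero_of_disjoint {g : (Fin d → ℤ) → ℂ} (hg : PolyGr g) {F : (Fin d → ℝ) → ℂ}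
    (hF : IsTest F) (hdisj : Disjoint (tsupport F) (gsupp g)) : Gf g F = 0 := by
  classical
  have h1 : ∀ x : Fin d → ℝ, x ∈ tsupport F → ∃ Θ : (Fin d → ℝ) → ℂ, ContDiff ℝ ∞ Θ ∧
      (∀ F, IsTest F → Gf g (fun θ => Θ θ * F θ) = 0) ∧ Θ x ≠ 0 := by
    intro x hx
    have hx' : x ∉ gsupp g := Set.disjoint_left.1 hdisj hx
    simp only [gsupp, Set.mem_ofPred_eq, not_forall] at hx'
    obtain ⟨Θ, h2, h3, h4⟩ := hx'
    exact ⟨Θ, h2, h3, h4⟩
  choose! Θ hΘ hann hne using h1
  obtain ⟨s, hs, hcov⟩ := hF.2.isCompact.elim_nhds_subcover (fun x => {y | Θ x y ≠ 0})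
    (fun x hx => (isOpen_ne_fun (hΘ x hx).continuous continuous_const).mem_nhds (hne x hx))
  set D : (Fin d → ℝ) → ℂ := fun θ => ∑ x ∈ s, Θ x θ * conj (Θ x θ) with hD
  have hDs : ContDiff ℝ ∞ D := by
    refine ContDiff.sum fun x hx => ?_
    have := hΘ x (hs x hx)
    exact this.mul (Complex.conjCLE.contDiff.comp this)
  have hDne : ∀ θ ∈ tsupport F, D θ ≠ 0 := by
    intro θ hθ
    have h2 := hcov hθ
    simp only [Set.mem_iUnion, Set.mem_ofPred_eq] at h2
    obtain ⟨x, hx, hx2⟩ := h2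
    have h3 : D θ = ((∑ x ∈ s, ‖Θ x θ‖ ^ 2 : ℝ) : ℂ) := by
      rw [hD]
      push_cast
      refine Finset.sum_congr rfl fun x _ => ?_
      rw [Complex.mul_conj, Complex.normSq_eq_norm_sq]
      push_cast
      rfl
    rw [h3]
    have h4 : 0 < ∑ x ∈ s, ‖Θ x θ‖ ^ 2 :=
      Finset.sum_pos' (fun _ _ => by positivity) ⟨x, hx, by positivity⟩
    exact_mod_cast h4.ne'
  have hF' : IsTest fun θ => F θ * (D θ)⁻¹ := by
    refine ⟨?_, hF.2.mul_right⟩
    rw [contDiff_iff_contDiffAt]
    intro θ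
    by_cases hθ : θ ∈ tsupport F
    · exact hF.1.contDiffAt.mul (hDs.contDiffAt.inv (hDne θ hθ))
    · have h2 : (fun θ => F θ * (D θ)⁻¹) =ᶠ[nhds θ] fun _ => 0 := by
        have h3 := notMem_tsupport_iff_eventuallyEq.1 hθ
        filter_upwards [h3] with y hy
        rw [hy]
        simp
      exact contDiffAt_const.congr_of_eventuallyEq h2
  have e : F = fun θ => ∑ x ∈ s,
      (fun x θ => Θ x θ * (conj (Θ x θ) * (F θ * (D θ)⁻¹))) x θ := by
    funext θ
    have h2 : ∑ x ∈ s, (fun x θ => Θ x θ * (conj (Θ x θ) * (F θ * (D θ)⁻¹))) x θ =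
        D θ * (F θ * (D θ)⁻¹) := by
      rw [hD]
      simp only []
      rw [Finset.sum_mul]
      exact Finset.sum_congr rfl fun x _ => by ring
    rw [h2]
    by_cases hθ : θ ∈ tsupport F
    · field_simp [hDne θ hθ]
    · rw [image_eq_zero_of_notMem_tsupport hθ]
      simp
  have hterm : ∀ x ∈ s, IsTest fun θ => conj (Θ x θ) * (F θ * (D θ)⁻¹) := fun x hx =>
    hF'.smul (Complex.conjCLE.contDiff.comp (hΘ x (hs x hx)))
  rw [e, Gf_sum hg]
  · refine Finset.sum_eq_zero fun x hx => ?_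
    exact hann x (hs x hx) _ (hterm x hx)
  · intro x hx
    exact (hterm x hx).smul (hΘ x (hs x hx))

/-- The bump function. -/
noncomputable def bump (s : ℝ) : ℝ := Real.smoothTransition s - Real.smoothTransition (s - 1)

lemma contDiff_bump : ContDiff ℝ ∞ bump :=
  Real.smoothTransition.contDiff.sub
    (Real.smoothTransition.contDiff.comp (contDiff_id.sub contDiff_const))

lemma bump_of_nonpos {s : ℝ} (h : s ≤ 0) : bump s = 0 := by
  unfold bump
  rw [Real.smoothTransition.zero_of_nonpos h, Real.smoothTransition.zero_of_nonpos (by linarith)]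
  simp

lemma bump_of_two_le {s : ℝ} (h : 2 ≤ s) : bump s = 0 := by
  unfold bump
  rw [Real.smoothTransition.one_of_one_le (by linarith),
    Real.smoothTransition.one_of_one_le (by linarith)]
  simp

lemma bump_add {s : ℝ} (h0 : 0 ≤ s) (h1 : s ≤ 1) : bump s + bump (s + 1) = 1 := by
  unfold bump
  rw [Real.smoothTransition.one_of_one_le (show 1 ≤ s + 1 by linarith),
    Real.smoothTransition.zero_of_nonpos (show s - 1 ≤ 0 by linarith)]
  have : s + 1 - 1 = s := by ring
  rw [this]
  ring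

lemma integral_bump (k : ℤ) :
    ∫ s : ℝ, Complex.exp (2 * Real.pi * Complex.I * ((k : ℂ) * (s : ℂ))) * (bump s : ℂ) =
      if k = 0 then 1 else 0 := by
  set f : ℝ → ℂ := fun s =>
    Complex.exp (2 * Real.pi * Complex.I * ((k : ℂ) * (s : ℂ))) * (bump s : ℂ) with hf
  have hc : Continuous f := by
    have := contDiff_bump.continuous
    fun_prop
  have hint : ∀ a b : ℝ, IntervalIntegrable f MeasureTheory.volume a b := fun a b =>
    hc.intervalIntegrable a b
  have hsupp : Function.support f ⊆ Set.Ioc 0 2 := by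
    intro s hs
    by_contra h
    rw [Set.mem_Ioc, not_and_or, not_lt, not_le] at h
    rcases h with h | h
    · exact hs (by simp [hf, bump_of_nonpos h])
    · exact hs (by simp [hf, bump_of_two_le h.le])
  have h1 : ∫ s, f s = ∫ s in (0 : ℝ)..2, f s :=
    (intervalIntegral.integral_eq_integral_of_support_subset hsupp).symm
  have h2 : ∫ s in (0 : ℝ)..2, f s = (∫ s in (0 : ℝ)..1, f s) + ∫ s in (1 : ℝ)..2, f s :=
    (intervalIntegral.integral_add_adjacent_intervals (hint 0 1) (hint 1 2)).symm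
  have h3 : ∫ s in (1 : ℝ)..2, f s = ∫ s in (0 : ℝ)..1, f (s + 1) := by
    rw [intervalIntegral.integral_comp_add_right]
    norm_num
  have hexp : ∀ s : ℝ, Complex.exp (2 * Real.pi * Complex.I * ((k : ℂ) * ((s + 1 : ℝ) : ℂ))) =
      Complex.exp (2 * Real.pi * Complex.I * ((k : ℂ) * (s : ℂ))) := by
    intro s
    have : 2 * Real.pi * Complex.I * ((k : ℂ) * ((s + 1 : ℝ) : ℂ)) =
        2 * Real.pi * Complex.I * ((k : ℂ) * (s : ℂ)) + k * (2 * Real.pi * Complex.I) := by
      push_cast
      ring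
    rw [this, Complex.exp_add, Complex.exp_int_mul_two_pi_mul_I, mul_one]
  have h4 : (∫ s in (0 : ℝ)..1, f s) + ∫ s in (0 : ℝ)..1, f (s + 1) =
      ∫ s in (0 : ℝ)..1, Complex.exp (2 * Real.pi * Complex.I * k * s) := by
    have hint' : IntervalIntegrable (fun s => f (s + 1)) MeasureTheory.volume 0 1 :=
      (hc.comp (continuous_id.add continuous_const)).intervalIntegrable 0 1
    rw [← intervalIntegral.integral_add (hint 0 1) hint']
    refine intervalIntegral.integral_congr fun s hs => ?_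
    rw [Set.uIcc_of_le zero_le_one] at hs
    simp only [hf, hexp s]
    rw [← mul_add]
    have h5 : ((bump s : ℝ) : ℂ) + ((bump (s + 1) : ℝ) : ℂ) = 1 := by
      exact_mod_cast bump_add hs.1 hs.2
    rw [h5, mul_one]
    congr 1
    ring
  rw [h1, h2, h3, h4]
  by_cases hk : k = 0
  · rw [if_pos hk, hk]
    simp
  · rw [if_neg hk, integral_exp_mul_complex]
    · have : 2 * Real.pi * Complex.I * (k : ℂ) * ((1 : ℝ) : ℂ) = k * (2 * Real.pi * Complex.I) := by
        push_cast
        ring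
      rw [this, Complex.exp_int_mul_two_pi_mul_I]
      simp
    · have : (k : ℂ) ≠ 0 := by exact_mod_cast hk
      have hpi := Complex.two_pi_I_ne_zero
      exact mul_ne_zero hpi this

/-- A test function with Fourier transform `δ_0` at the integer points. -/
theorem exists_delta (d : ℕ) : ∃ F : (Fin d → ℝ) → ℂ, IsTest F ∧
    ∀ k : Fin d → ℤ, FT F k = if k = 0 then 1 else 0 := by
  refine ⟨fun θ => ∏ i, (bump (θ i) : ℂ), ⟨?_, ?_⟩, ?_⟩
  · refine contDiff_prod fun i _ => ?_
    exact Complex.ofRealCLM.contDiff.comp (contDiff_bump.comp (contDiff_apply ℝ ℝ i))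
  · refine HasCompactSupport.intro (K := Set.pi Set.univ fun _ => Set.Icc 0 2)
      (isCompact_univ_pi fun _ => isCompact_Icc) ?_
    intro θ hθ
    simp only [Set.mem_pi, Set.mem_univ, true_implies, not_forall, Set.mem_Icc, not_and_or,
      not_le] at hθ
    obtain ⟨i, hi⟩ := hθ
    refine Finset.prod_eq_zero (Finset.mem_univ i) ?_
    rcases hi with hi | hi
    · rw [bump_of_nonpos hi.le]; simp
    · rw [bump_of_two_le hi.le]; simp
  · intro k
    have h1 : ∀ θ : Fin d → ℝ, chz (-k) θ * ∏ i, (bump (θ i) : ℂ) =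
        ∏ i, (fun (i : Fin d) (s : ℝ) => Complex.exp (2 * Real.pi * Complex.I *
          (((-k i : ℤ) : ℂ) * (s : ℂ))) * (bump s : ℂ)) i (θ i) := by
      intro θ
      unfold chz
      rw [Finset.mul_sum, Complex.exp_sum, ← Finset.prod_mul_distrib]
      rfl
    have h2 : FT (fun θ => ∏ i, (bump (θ i) : ℂ)) k =
        ∏ i, ∫ s : ℝ, Complex.exp (2 * Real.pi * Complex.I *
          (((-k i : ℤ) : ℂ) * (s : ℂ))) * (bump s : ℂ) := by
      unfold FT
      simp_rw [h1]
      exact MeasureTheory.integral_fintype_prod_volume_eq_prod (fun (i : Fin d) (s : ℝ) =>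
        Complex.exp (2 * Real.pi * Complex.I * (((-k i : ℤ) : ℂ) * (s : ℂ))) * (bump s : ℂ))
    rw [h2]
    simp_rw [integral_bump]
    by_cases hk : k = 0
    · rw [if_pos hk, hk]
      simp
    · rw [if_neg hk]
      obtain ⟨i, hi⟩ := Function.ne_iff.1 hk
      refine Finset.prod_eq_zero (Finset.mem_univ i) ?_
      rw [if_neg]
      simpa using hi

theorem gsupp_nonempty {g : (Fin d → ℤ) → ℂ} (hg : PolyGr g) (hne : g ≠ 0) :
    (gsupp g).Nonempty := by
  by_contra h
  rw [Set.not_nonempty_iff_eq_empty] at h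
  apply hne
  obtain ⟨F, hF, hFT⟩ := exists_delta d
  funext l
  have h1 : Gf g (fun θ => chz l θ * F θ) = 0 :=
    Gf_eq_zero_of_disjoint hg (hF.smul (contDiff_chz l)) (by rw [h]; exact Set.disjoint_empty _)
  rw [Gf_chz_mul] at h1
  rw [tsum_eq_single 0] at h1
  · rw [hFT, if_pos rfl, zero_add, mul_one] at h1
    exact h1
  · intro k hk
    rw [hFT, if_neg hk, mul_zero]

end Pool.MP4ac1fb.Full
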