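import Pool.Agent.H.MP_4ac1fb_an.Full.Supp

/-!
Functions vanishing to high order on the support are annihilated.
-/

namespace Pool.MP4ac1fb.Full

open MvPolynomial
open scoped ContDiff Manifold Nat

variable {d : ℕ}

/-- derivatives up to order `N` are bounded on a compact set -/
theorem exists_bound_on {E F : Type*} [NormedAddCommGroup E] [NormedSpace ℝ E]
    [NormedAddCommGroup F] [NormedSpace ℝ F] {f : E → F} (hf : ContDiff ℝ ∞ f) {K : Set E}
    (hK : IsCompact K) (N : ℕ) :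
    ∃ C : ℝ, 1 ≤ C ∧ ∀ i ≤ N, ∀ x ∈ K, ‖iteratedFDeriv ℝ i f x‖ ≤ C := by
  have h1 : ∀ i : ℕ, ∃ C : ℝ, ∀ x ∈ K, ‖iteratedFDeriv ℝ i f x‖ ≤ C := by
    intro i
    have hc : Continuous (iteratedFDeriv ℝ i f) :=
      hf.continuous_iteratedFDeriv (by exact_mod_cast le_top)
    exact hK.exists_bound_of_continuousOn hc.continuousOn
  choose C hC using h1
  refine ⟨1 + ∑ i ∈ Finset.range (N + 1), |C i|, ?_, ?_⟩
  · have : 0 ≤ ∑ i ∈ Finset.range (N + 1), |C i| := Finset.sum_nonneg fun _ _ => abs_nonneg _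
    linarith
  · intro i hi x hx
    have h2 : |C i| ≤ ∑ i ∈ Finset.range (N + 1), |C i| :=
      Finset.single_le_sum (f := fun i => |C i|) (fun _ _ => abs_nonneg _)
        (Finset.mem_range.2 (by omega))
    have := hC i x hx
    have := le_abs_self (C i)
    linarith

/-- derivatives up to order `N` of a compactly supported function are bounded -/
theorem exists_bound_all {E F : Type*} [NormedAddCommGroup E] [NormedSpace ℝ E]
    [NormedAddCommGroup F] [NormedSpace ℝ F] {f : E → F} (hf : ContDiff ℝ ∞ f)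
    (hs : HasCompactSupport f) (N : ℕ) :
    ∃ C : ℝ, 1 ≤ C ∧ ∀ i ≤ N, ∀ x, ‖iteratedFDeriv ℝ i f x‖ ≤ C := by
  obtain ⟨C, hC1, hC⟩ := exists_bound_on hf hs.isCompact N
  refine ⟨C, hC1, fun i hi x => ?_⟩
  by_cases hx : x ∈ tsupport f
  · exact hC i hi x hx
  · have h1 : x ∉ tsupport (iteratedFDeriv ℝ i f) := fun h =>
      hx (tsupport_iteratedFDeriv_subset (𝕜 := ℝ) i h)
    rw [image_eq_zero_of_notMem_tsupport h1, norm_zero]
    linarith

/-- the cut-off -/
noncomputable def cutρ (ζ : ℂ) : ℂ := ((Real.smoothTransition (2 - ‖ζ‖ ^ 2) : ℝ) : ℂ)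

theorem contDiff_cutρ : ContDiff ℝ ∞ cutρ := by
  unfold cutρ
  refine Complex.ofRealCLM.contDiff.comp ?_
  refine Real.smoothTransition.contDiff.comp ?_
  exact contDiff_const.sub (contDiff_norm_sq ℝ)

theorem cutρ_one {ζ : ℂ} (h : ‖ζ‖ ≤ 1) : cutρ ζ = 1 := by
  have h1 : ‖ζ‖ ^ 2 ≤ 1 := by nlinarith [norm_nonneg ζ]
  unfold cutρ
  rw [Real.smoothTransition.one_of_one_le (by linarith)]
  norm_num

theorem cutρ_zero {ζ : ℂ} (h : 2 ≤ ‖ζ‖) : cutρ ζ = 0 := by
  have h1 : 2 ≤ ‖ζ‖ ^ 2 := by nlinarith [norm_nonneg ζ]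
  unfold cutρ
  rw [Real.smoothTransition.zero_of_nonpos (by linarith)]
  norm_num

/-- the profile -/
noncomputable def prof (Q : ℕ) (ζ : ℂ) : ℂ := ζ ^ Q * cutρ ζ

theorem contDiff_prof (Q : ℕ) : ContDiff ℝ ∞ (prof Q) :=
  (contDiff_id.pow Q).mul contDiff_cutρ

theorem prof_support (Q : ℕ) : HasCompactSupport (prof Q) := by
  refine HasCompactSupport.of_support_subset_isCompact (isCompact_closedBall (0 : ℂ) 2) ?_
  intro ζ hζ
  rw [Function.mem_support] at hζ
  rw [mem_closedBall_zero_iff]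
  by_contra hcon
  exact hζ (by unfold prof; rw [cutρ_zero (le_of_lt (not_le.1 hcon)), mul_zero])

theorem van_global {g : (Fin d → ℤ) → ℂ} (hg : PolyGr g) {N : ℕ} {C : ℝ}
    (hN : ∀ F : (Fin d → ℝ) → ℂ, IsTest F →
      ‖Gf g F‖ ≤ C * ∑ n ∈ Finset.range (N + 1), ∫ θ, ‖iteratedFDeriv ℝ n F θ‖)
    {F w : (Fin d → ℝ) → ℂ} (hF : IsTest F) (hw : ContDiff ℝ ∞ w) (hw0 : ∀ x ∈ gsupp g, w x = 0) :
    Gf g (fun θ => w θ ^ (N + 1) * F θ) = 0 := by
  set K := tsupport F with hK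
  have hKc : IsCompact K := hF.2
  obtain ⟨A, hA1, hA⟩ := exists_bound_on hw hKc N
  obtain ⟨B, hB1, hB⟩ := exists_bound_all hF.1 hF.2 N
  obtain ⟨Y, hY1, hY⟩ := exists_bound_all (contDiff_prof (N + 1)) (prof_support (N + 1)) N
  -- the truncated functions
  set Fε : ℝ → (Fin d → ℝ) → ℂ := fun ε θ =>
    ((ε : ℂ) ^ (N + 1) * prof (N + 1) ((ε : ℂ)⁻¹ * w θ)) * F θ with hFε
  have hwε : ∀ ε : ℝ, ContDiff ℝ ∞ (fun θ => (ε : ℂ)⁻¹ * w θ) := fun ε => contDiff_const.mul hw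
  have hpε : ∀ ε : ℝ, ContDiff ℝ ∞ (fun θ => prof (N + 1) ((ε : ℂ)⁻¹ * w θ)) := fun ε =>
    (contDiff_prof (N + 1)).comp (hwε ε)
  have hFεtest : ∀ ε, IsTest (Fε ε) := fun ε => hF.smul (contDiff_const.mul (hpε ε))
  have hFεeq : ∀ ε : ℝ, 0 < ε → ∀ θ, Fε ε θ = w θ ^ (N + 1) * cutρ ((ε : ℂ)⁻¹ * w θ) * F θ := by
    intro ε hε θ
    have h1 : (ε : ℂ) ≠ 0 := by exact_mod_cast hε.ne'
    simp only [hFε, prof]
    rw [mul_pow, inv_pow]
    field_simp
  -- the difference is supported off the support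
  have hdiff : ∀ ε : ℝ, 0 < ε → Gf g (fun θ => w θ ^ (N + 1) * F θ) = Gf g (Fε ε) := by
    intro ε hε
    have htest : IsTest (fun θ => (w θ ^ (N + 1) * (1 - cutρ ((ε : ℂ)⁻¹ * w θ))) * F θ) :=
      hF.smul ((hw.pow (N + 1)).mul (contDiff_const.sub (contDiff_cutρ.comp (hwε ε))))
    have hz : Gf g (fun θ => (w θ ^ (N + 1) * (1 - cutρ ((ε : ℂ)⁻¹ * w θ))) * F θ) = 0 := by
      refine Gf_eq_zero_of_disjoint hg htest ?_
      rw [Set.disjoint_left]
      intro x hx hxg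
      have hcl : IsClosed {θ | ε ≤ ‖w θ‖} := isClosed_le continuous_const hw.continuous.norm
      have hsub : tsupport (fun θ => (w θ ^ (N + 1) * (1 - cutρ ((ε : ℂ)⁻¹ * w θ))) * F θ) ⊆
          {θ | ε ≤ ‖w θ‖} := by
        refine closure_minimal ?_ hcl
        intro θ hθ
        rw [Function.mem_support] at hθ
        by_contra hcon
        rw [Set.mem_ofPred_eq, not_le] at hcon
        apply hθ
        have h1 : ‖(ε : ℂ)⁻¹ * w θ‖ ≤ 1 := by
          rw [norm_mul, norm_inv, Complex.norm_real, Real.norm_of_nonneg hε.le,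
            inv_mul_le_iff₀ hε]
          linarith
        rw [cutρ_one h1, sub_self, mul_zero, zero_mul]
      have h2 : ε ≤ ‖w x‖ := hsub hx
      rw [hw0 x hxg, norm_zero] at h2
      linarith
    have hsum : (fun θ => w θ ^ (N + 1) * F θ) = fun θ => Fε ε θ +
        (w θ ^ (N + 1) * (1 - cutρ ((ε : ℂ)⁻¹ * w θ))) * F θ := by
      funext θ
      rw [hFεeq ε hε]
      ring
    rw [hsum, Gf_add hg (hFεtest ε) htest, hz, add_zero]
  -- derivative bounds
  set M : ℝ := ∑ n ∈ Finset.range (N + 1), ∑ i ∈ Finset.range (n + 1),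
    (n.choose i : ℝ) * ((i ! : ℝ) * Y * A ^ i) * B with hM
  have hbound : ∀ ε : ℝ, 0 < ε → ε ≤ 1 → ∀ n ≤ N, ∀ x ∈ K,
      ‖iteratedFDeriv ℝ n (Fε ε) x‖ ≤ ε * ∑ i ∈ Finset.range (n + 1),
        (n.choose i : ℝ) * ((i ! : ℝ) * Y * A ^ i) * B := by
    intro ε hε hε1 n hn x hx
    have hnn : ((n : ℕ∞) : ℕ∞ω) ≤ ∞ := by exact_mod_cast le_top
    have h1 := norm_iteratedFDeriv_mul_le (𝕜 := ℝ) (f := fun θ => (ε : ℂ) ^ (N + 1) *
      prof (N + 1) ((ε : ℂ)⁻¹ * w θ)) (g := F) (contDiff_const.mul (hpε ε)) hF.1 x hnn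
    refine h1.trans ?_
    rw [Finset.mul_sum]
    refine Finset.sum_le_sum fun i hi => ?_
    have hin : i ≤ n := by
      have := Finset.mem_range.1 hi
      omega
    have hii : ((i : ℕ∞) : ℕ∞ω) ≤ ∞ := by exact_mod_cast le_top
    have h2 : ‖iteratedFDeriv ℝ (n - i) F x‖ ≤ B := hB _ (by omega) x
    have h3 : ‖iteratedFDeriv ℝ i (fun θ => prof (N + 1) ((ε : ℂ)⁻¹ * w θ)) x‖ ≤
        (i ! : ℝ) * Y * (A / ε) ^ i := by
      refine norm_iteratedFDeriv_comp_le (g := prof (N + 1)) (f := fun θ => (ε : ℂ)⁻¹ * w θ)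
        (contDiff_prof (N + 1)) (hwε ε) hii x ?_ ?_
      · intro k hk
        exact hY k (by omega) _
      · intro k hk1 hk
        have e1 : (fun θ => (ε : ℂ)⁻¹ * w θ) = fun θ => (ε⁻¹ : ℝ) • w θ := by
          funext θ
          rw [Complex.real_smul]
          push_cast
          rfl
        rw [e1, iteratedFDeriv_const_smul_apply' (hw.of_le (by exact_mod_cast le_top)).contDiffAt,
          norm_smul, Real.norm_of_nonneg (inv_nonneg.2 hε.le)]
        have h4 : ‖iteratedFDeriv ℝ k w x‖ ≤ A := hA k (by omega) x hx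
        have h5 : ε⁻¹ * A ≤ (A / ε) ^ k := by
          have h6 : 1 ≤ A / ε := by
            rw [le_div_iff₀ hε]; linarith
          calc ε⁻¹ * A = (A / ε) ^ 1 := by rw [pow_one]; ring
            _ ≤ (A / ε) ^ k := pow_le_pow_right₀ h6 hk1
        exact (mul_le_mul_of_nonneg_left h4 (inv_nonneg.2 hε.le)).trans h5
    have h4 : ‖iteratedFDeriv ℝ i (fun θ => (ε : ℂ) ^ (N + 1) *
        prof (N + 1) ((ε : ℂ)⁻¹ * w θ)) x‖ ≤ ε * ((i ! : ℝ) * Y * A ^ i) := by
      have e1 : (fun θ => (ε : ℂ) ^ (N + 1) * prof (N + 1) ((ε : ℂ)⁻¹ * w θ)) =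
          fun θ => (ε ^ (N + 1) : ℝ) • prof (N + 1) ((ε : ℂ)⁻¹ * w θ) := by
        funext θ
        rw [Complex.real_smul]
        push_cast
        rfl
      rw [e1, iteratedFDeriv_const_smul_apply'
        ((hpε ε).of_le (by exact_mod_cast le_top)).contDiffAt,
        norm_smul, Real.norm_of_nonneg (by positivity)]
      calc ε ^ (N + 1) * ‖iteratedFDeriv ℝ i (fun θ => prof (N + 1) ((ε : ℂ)⁻¹ * w θ)) x‖
          ≤ ε ^ (N + 1) * ((i ! : ℝ) * Y * (A / ε) ^ i) :=
            mul_le_mul_of_nonneg_left h3 (by positivity)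
        _ = (ε ^ (N - i) * ε) * ((i ! : ℝ) * Y * A ^ i) := by
            have e2 : ε ^ (N + 1) = ε ^ (N - i) * ε * ε ^ i := by
              rw [← pow_succ, ← pow_add]
              congr 1
              omega
            rw [e2, div_pow]
            field_simp
        _ ≤ ε * ((i ! : ℝ) * Y * A ^ i) := by
            apply mul_le_mul_of_nonneg_right _ (by positivity)
            have : ε ^ (N - i) ≤ 1 := pow_le_one₀ hε.le hε1
            nlinarith
    calc (n.choose i : ℝ) * ‖iteratedFDeriv ℝ i (fun θ => (ε : ℂ) ^ (N + 1) *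
          prof (N + 1) ((ε : ℂ)⁻¹ * w θ)) x‖ * ‖iteratedFDeriv ℝ (n - i) F x‖
        ≤ (n.choose i : ℝ) * (ε * ((i ! : ℝ) * Y * A ^ i)) * B := by
          have : (0 : ℝ) ≤ (n.choose i : ℝ) := Nat.cast_nonneg _
          apply mul_le_mul (mul_le_mul_of_nonneg_left h4 this) h2 (norm_nonneg _) (by positivity)
      _ = ε * ((n.choose i : ℝ) * ((i ! : ℝ) * Y * A ^ i) * B) := by ring
  -- integrals
  have hint : ∀ ε : ℝ, 0 < ε → ε ≤ 1 → ∀ n ≤ N,
      ∫ θ, ‖iteratedFDeriv ℝ n (Fε ε) θ‖ ≤ (ε * ∑ i ∈ Finset.range (n + 1),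
        (n.choose i : ℝ) * ((i ! : ℝ) * Y * A ^ i) * B) *
          MeasureTheory.volume.real K := by
    intro ε hε hε1 n hn
    have h0 : ∀ x ∉ K, ‖iteratedFDeriv ℝ n (Fε ε) x‖ = 0 := by
      intro x hx
      have h1 : x ∉ tsupport (iteratedFDeriv ℝ n (Fε ε)) := by
        intro h
        have h2 := tsupport_iteratedFDeriv_subset (𝕜 := ℝ) n h
        have h3 : tsupport (Fε ε) ⊆ K := by
          refine closure_mono ?_
          intro y hy
          rw [Function.mem_support] at hy ⊢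
          intro hy0
          apply hy
          simp only [hFε]
          rw [hy0, mul_zero]
        exact hx (h3 h2)
      rw [image_eq_zero_of_notMem_tsupport h1, norm_zero]
    rw [← MeasureTheory.setIntegral_eq_integral_of_forall_compl_eq_zero h0]
    have h1 := MeasureTheory.norm_setIntegral_le_of_norm_le_const
      (μ := MeasureTheory.volume) (s := K) (f := fun θ => ‖iteratedFDeriv ℝ n (Fε ε) θ‖)
      hKc.measure_lt_top (fun x hx => by
        rw [norm_norm]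
        exact hbound ε hε hε1 n hn x hx)
    exact (le_abs_self _).trans (by simpa using h1)
  -- conclusion
  have hfin : ∀ ε : ℝ, 0 < ε → ε ≤ 1 →
      ‖Gf g (fun θ => w θ ^ (N + 1) * F θ)‖ ≤ ε * (|C| * (M * MeasureTheory.volume.real K)) := by
    intro ε hε hε1
    rw [hdiff ε hε]
    refine (hN _ (hFεtest ε)).trans ?_
    have h1 : ∑ n ∈ Finset.range (N + 1), ∫ θ, ‖iteratedFDeriv ℝ n (Fε ε) θ‖ ≤
        ε * (M * MeasureTheory.volume.real K) := by
      calc _ ≤ ∑ n ∈ Finset.range (N + 1), (ε * ∑ i ∈ Finset.range (n + 1),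
            (n.choose i : ℝ) * ((i ! : ℝ) * Y * A ^ i) * B) * MeasureTheory.volume.real K :=
            Finset.sum_le_sum fun n hn => hint ε hε hε1 n (by
              have := Finset.mem_range.1 hn
              omega)
        _ = ε * (M * MeasureTheory.volume.real K) := by
            rw [← Finset.sum_mul, ← Finset.mul_sum, hM]
            ring
    have h2 : 0 ≤ ∑ n ∈ Finset.range (N + 1), ∫ θ, ‖iteratedFDeriv ℝ n (Fε ε) θ‖ :=
      Finset.sum_nonneg fun n _ => MeasureTheory.integral_nonneg fun _ => norm_nonneg _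
    calc C * ∑ n ∈ Finset.range (N + 1), ∫ θ, ‖iteratedFDeriv ℝ n (Fε ε) θ‖
        ≤ |C| * ∑ n ∈ Finset.range (N + 1), ∫ θ, ‖iteratedFDeriv ℝ n (Fε ε) θ‖ :=
          mul_le_mul_of_nonneg_right (le_abs_self C) h2
      _ ≤ |C| * (ε * (M * MeasureTheory.volume.real K)) :=
          mul_le_mul_of_nonneg_left h1 (abs_nonneg C)
      _ = _ := by ring
  rw [← norm_eq_zero]
  refine le_antisymm ?_ (norm_nonneg _)
  refine le_of_forall_pos_le_add fun δ hδ => ?_
  set R : ℝ := |C| * (M * MeasureTheory.volume.real K) with hR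
  have hR0 : 0 ≤ R := by
    have hM0 : 0 ≤ M := by
      refine Finset.sum_nonneg fun n _ => Finset.sum_nonneg fun i _ => ?_
      positivity
    positivity
  have h1 := hfin (min 1 (δ / (R + 1))) (by positivity) (min_le_left _ _)
  rw [zero_add]
  refine h1.trans ?_
  calc min 1 (δ / (R + 1)) * R ≤ δ / (R + 1) * R :=
        mul_le_mul_of_nonneg_right (min_le_right _ _) hR0
    _ ≤ δ := by
        rw [div_mul_eq_mul_div, div_le_iff₀ (by positivity)]
        nlinarith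

theorem van {g : (Fin d → ℤ) → ℂ} (hg : PolyGr g) : ∃ Q : ℕ, ∀ (F w : (Fin d → ℝ) → ℂ)
    (U : Set (Fin d → ℝ)), IsOpen U → IsTest F → tsupport F ⊆ U → ContDiffOn ℝ ∞ w U →
    (∀ x ∈ U ∩ gsupp g, w x = 0) → Gf g (fun θ => w θ ^ Q * F θ) = 0 := by
  obtain ⟨N, C, hN⟩ := Gf_bound hg
  refine ⟨N + 1, fun F w U hU hF hFU hw hw0 => ?_⟩
  -- extend `w`
  obtain ⟨χ, hχ1, hχ0, -⟩ := exists_contMDiffMap_zero_one_nhds_of_isClosed (n := (⊤ : ℕ∞))
    (𝓘(ℝ, Fin d → ℝ)) (s := Uᶜ) (t := tsupport F) hU.isClosed_compl (isClosed_tsupport F)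
    (Set.disjoint_left.2 fun x hx hx' => hx (hFU hx'))
  have hχs : ContDiff ℝ ∞ χ := χ.contMDiff.contDiff
  set w1 : (Fin d → ℝ) → ℂ := fun θ => (χ θ : ℂ) * w θ with hw1
  have hw1s : ContDiff ℝ ∞ w1 := by
    rw [contDiff_iff_contDiffAt]
    intro x
    by_cases hx : x ∈ U
    · have h1 : ContDiffAt ℝ ∞ w x := hw.contDiffAt (hU.mem_nhds hx)
      exact ((Complex.ofRealCLM.contDiff.comp hχs).contDiffAt).mul h1
    · have h1 : ∀ᶠ y in nhds x, χ y = 0 := by
        have := hχ1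
        rw [Filter.Eventually, mem_nhdsSet_iff_forall] at this
        exact this x hx
      have h2 : w1 =ᶠ[nhds x] fun _ => 0 := by
        filter_upwards [h1] with y hy
        simp only [hw1, hy]
        simp
      exact contDiffAt_const.congr_of_eventuallyEq h2
  have hw10 : ∀ x ∈ gsupp g, w1 x = 0 := by
    intro x hx
    by_cases hxU : x ∈ U
    · simp only [hw1, hw0 x ⟨hxU, hx⟩, mul_zero]
    · have h1 : χ x = 0 := hχ1.self_of_nhdsSet x hxU
      simp only [hw1, h1]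
      simp
  have h1 := van_global hg hN hF hw1s hw10
  have h2 : (fun θ => w θ ^ (N + 1) * F θ) = fun θ => w1 θ ^ (N + 1) * F θ := by
    funext θ
    by_cases hθ : θ ∈ tsupport F
    · have h3 : χ θ = 1 := hχ0.self_of_nhdsSet θ hθ
      simp only [hw1, h3]
      simp
    · rw [image_eq_zero_of_notMem_tsupport hθ, mul_zero, mul_zero]
  rw [h2]
  exact h1

end Pool.MP4ac1fb.Full
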