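import Pool.Agent.H.MP_4ac1fb_an.Full.Defs

/-!
The weighted `ℓ¹` algebra of power series and its action on the dual space of `D_t`.
-/

namespace Pool.MP4ac1fb.Full

open MvPolynomial

variable {d : ℕ}

/-- `1 + |k|`. -/
def wsz (k : Fin d →₀ ℕ) : ℝ := 1 + ∑ i, (k i : ℝ)

/-- Power series with `∑ |f_k| (1+|k|)^q < ∞`. -/
def WS (q : ℕ) (f : MvPowerSeries (Fin d) ℂ) : Prop :=
  Summable fun k => ‖MvPowerSeries.coeff k f‖ * wsz k ^ q

/-- The weighted norm. -/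
noncomputable def nrm (q : ℕ) (f : MvPowerSeries (Fin d) ℂ) : ℝ :=
  ∑' k, ‖MvPowerSeries.coeff k f‖ * wsz k ^ q

/-- The dual space of `D_t`. -/
def DualSp (t : ℝ) (b : (Fin d →₀ ℕ) → ℂ) : Prop := Summable fun k => ‖b k‖ ^ 2 / wt t k

/-- The action of power series on sequences: `(f·b)_l = ∑_k f_k b_{k+l}`. -/
noncomputable def conv (f : MvPowerSeries (Fin d) ℂ) (b : (Fin d →₀ ℕ) → ℂ) :
    (Fin d →₀ ℕ) → ℂ :=
  fun l => ∑' k, MvPowerSeries.coeff k f * b (k + l)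

/-- The exponent needed for the action. -/
noncomputable def q0 (d : ℕ) (t : ℝ) : ℕ := d * ⌈|t|⌉₊

namespace WAlgAux

lemma one_le_wsz (k : Fin d →₀ ℕ) : 1 ≤ wsz k := by
  unfold wsz
  have : (0 : ℝ) ≤ ∑ i, (k i : ℝ) := Finset.sum_nonneg fun _ _ => Nat.cast_nonneg _
  linarith

lemma wsz_add_le (a b : Fin d →₀ ℕ) : wsz (a + b) ≤ wsz a * wsz b := by
  unfold wsz
  have h1 : (0 : ℝ) ≤ ∑ i, (a i : ℝ) := Finset.sum_nonneg fun _ _ => Nat.cast_nonneg _
  have h2 : (0 : ℝ) ≤ ∑ i, (b i : ℝ) := Finset.sum_nonneg fun _ _ => Nat.cast_nonneg _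
  have h3 : ∑ i, (((a + b) i : ℕ) : ℝ) = ∑ i, (a i : ℝ) + ∑ i, (b i : ℝ) := by
    rw [← Finset.sum_add_distrib]
    apply Finset.sum_congr rfl
    intro i _
    rw [Finsupp.add_apply]; push_cast; ring
  rw [h3]
  nlinarith

lemma coord_le_wsz (k : Fin d →₀ ℕ) (j : Fin d) : (k j : ℝ) + 1 ≤ wsz k := by
  unfold wsz
  have := Finset.single_le_sum (f := fun i => (k i : ℝ)) (fun _ _ => Nat.cast_nonneg _)
    (Finset.mem_univ j)
  linarith

lemma wt_add_le' (t : ℝ) (a k : Fin d →₀ ℕ) :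
    wt t (a + k) ≤ wsz a ^ q0 d t * wt t k := by
  have h1 : wt t (a + k) ≤ (∏ j, ((a j : ℝ) + 1) ^ (max t 0)) * wt t k := by
    unfold wt
    rw [← Finset.prod_mul_distrib]
    apply Finset.prod_le_prod
    · intro j _; positivity
    · intro j _
      have h1 : ((a + k) j : ℝ) + 1 ≤ ((a j : ℝ) + 1) * ((k j : ℝ) + 1) := by
        simp only [Finsupp.add_apply, Nat.cast_add]
        have h2 : (0 : ℝ) ≤ (a j : ℝ) * (k j : ℝ) := by positivity
        nlinarith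
      rcases le_total 0 t with ht | ht
      · rw [max_eq_left ht, ← Real.mul_rpow (by positivity) (by positivity)]
        exact Real.rpow_le_rpow (by positivity) h1 ht
      · rw [max_eq_right ht, Real.rpow_zero, one_mul]
        apply Real.rpow_le_rpow_of_nonpos (by positivity) _ ht
        simp only [Finsupp.add_apply, Nat.cast_add]
        have : (0 : ℝ) ≤ (a j : ℝ) := by positivity
        linarith
  refine h1.trans (mul_le_mul_of_nonneg_right ?_ (wt_pos t k).le)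
  have h2 : ∀ j : Fin d, ((a j : ℝ) + 1) ^ (max t 0) ≤ wsz a ^ ⌈|t|⌉₊ := by
    intro j
    have h3 : (1 : ℝ) ≤ (a j : ℝ) + 1 := by linarith [Nat.cast_nonneg (α := ℝ) (a j)]
    have h4 : max t 0 ≤ ((⌈|t|⌉₊ : ℕ) : ℝ) :=
      (max_le (le_abs_self t) (abs_nonneg t)).trans (Nat.le_ceil _)
    calc ((a j : ℝ) + 1) ^ (max t 0) ≤ ((a j : ℝ) + 1) ^ ((⌈|t|⌉₊ : ℕ) : ℝ) :=
          Real.rpow_le_rpow_of_exponent_le h3 h4
      _ = ((a j : ℝ) + 1) ^ ⌈|t|⌉₊ := Real.rpow_natCast _ _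
      _ ≤ _ := pow_le_pow_left₀ (by positivity) (coord_le_wsz a j) _
  calc ∏ j, ((a j : ℝ) + 1) ^ (max t 0) ≤ ∏ _j : Fin d, wsz a ^ ⌈|t|⌉₊ :=
        Finset.prod_le_prod (fun j _ => by positivity) fun j _ => h2 j
    _ = wsz a ^ q0 d t := by
        rw [Finset.prod_const, Finset.card_univ, Fintype.card_fin, ← pow_mul, q0, mul_comm]

lemma tsum_sq_le {ι : Type*} (r F G : ι → ℝ) (hF0 : ∀ i, 0 ≤ F i) (hG0 : ∀ i, 0 ≤ G i)
    (hr0 : ∀ i, 0 ≤ r i) (hr : ∀ i, r i ^ 2 = F i * G i) (hF : Summable F) (hG : Summable G) :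
    Summable r ∧ (∑' i, r i) ^ 2 ≤ (∑' i, F i) * ∑' i, G i := by
  have hs : Summable r := by
    refine Summable.of_nonneg_of_le hr0 (fun i => ?_) ((hF.add hG))
    have h1 := hr i
    have h2 := hF0 i
    have h3 := hG0 i
    apply le_of_sq_le_sq _ (by positivity)
    rw [h1]
    nlinarith [mul_nonneg h2 h3]
  refine ⟨hs, ?_⟩
  have hFt : 0 ≤ ∑' i, F i := tsum_nonneg hF0
  have hGt : 0 ≤ ∑' i, G i := tsum_nonneg hG0
  have h1 : ∑' i, r i ≤ Real.sqrt ((∑' i, F i) * ∑' i, G i) := by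
    apply Real.tsum_le_of_sum_le hr0
    intro s
    apply Real.le_sqrt_of_sq_le
    calc (∑ i ∈ s, r i) ^ 2 ≤ (∑ i ∈ s, F i) * ∑ i ∈ s, G i :=
          Finset.sum_sq_le_sum_mul_sum_of_sq_le_mul s (fun i _ => hF0 i) (fun i _ => hG0 i)
            (fun i _ => (hr i).le)
      _ ≤ _ := mul_le_mul (hF.sum_le_tsum _ fun i _ => hF0 i) (hG.sum_le_tsum _ fun i _ => hG0 i)
          (Finset.sum_nonneg fun i _ => hG0 i) hFt
  calc (∑' i, r i) ^ 2 ≤ Real.sqrt ((∑' i, F i) * ∑' i, G i) ^ 2 :=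
        pow_le_pow_left₀ (tsum_nonneg hr0) h1 2
    _ = _ := Real.sq_sqrt (mul_nonneg hFt hGt)

end WAlgAux

open WAlgAux

lemma antidiag_bound {q : ℕ} (f g : MvPowerSeries (Fin d) ℂ) (k : Fin d →₀ ℕ) :
    ‖MvPowerSeries.coeff k (f * g)‖ * wsz k ^ q ≤
      ∑ p ∈ Finset.HasAntidiagonal.antidiagonal k,
        (‖MvPowerSeries.coeff p.1 f‖ * wsz p.1 ^ q) *
          (‖MvPowerSeries.coeff p.2 g‖ * wsz p.2 ^ q) := by
  rw [MvPowerSeries.coeff_mul]
  have hw : (0 : ℝ) ≤ wsz k ^ q := pow_nonneg (zero_le_one.trans (one_le_wsz k)) _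
  refine (mul_le_mul_of_nonneg_right (norm_sum_le _ _) hw).trans ?_
  rw [Finset.sum_mul]
  apply Finset.sum_le_sum
  intro p hp
  rw [Finset.HasAntidiagonal.mem_antidiagonal] at hp
  rw [norm_mul]
  have h1 : wsz k ^ q ≤ wsz p.1 ^ q * wsz p.2 ^ q := by
    rw [← mul_pow, ← hp]
    exact pow_le_pow_left₀ (zero_le_one.trans (one_le_wsz _)) (wsz_add_le _ _) _
  calc _ ≤ ‖MvPowerSeries.coeff p.1 f‖ * ‖MvPowerSeries.coeff p.2 g‖ *
        (wsz p.1 ^ q * wsz p.2 ^ q) := mul_le_mul_of_nonneg_left h1 (by positivity)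
    _ = _ := by ring

lemma term_nonneg (q : ℕ) (f : MvPowerSeries (Fin d) ℂ) (k : Fin d →₀ ℕ) :
    0 ≤ ‖MvPowerSeries.coeff k f‖ * wsz k ^ q :=
  mul_nonneg (norm_nonneg _) (pow_nonneg (zero_le_one.trans (one_le_wsz k)) _)

lemma prod_summable {q : ℕ} {f g : MvPowerSeries (Fin d) ℂ} (hf : WS q f) (hg : WS q g) :
    Summable fun x : (Fin d →₀ ℕ) × (Fin d →₀ ℕ) =>
      (‖MvPowerSeries.coeff x.1 f‖ * wsz x.1 ^ q) * (‖MvPowerSeries.coeff x.2 g‖ * wsz x.2 ^ q) :=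
  Summable.mul_of_nonneg (f := fun k => ‖MvPowerSeries.coeff k f‖ * wsz k ^ q)
    (g := fun k => ‖MvPowerSeries.coeff k g‖ * wsz k ^ q) hf hg
    (fun k => term_nonneg q f k) (fun k => term_nonneg q g k)

lemma antidiag_summable {q : ℕ} {f g : MvPowerSeries (Fin d) ℂ} (hf : WS q f) (hg : WS q g) :
    Summable fun k : Fin d →₀ ℕ => ∑ p ∈ Finset.HasAntidiagonal.antidiagonal k,
        (‖MvPowerSeries.coeff p.1 f‖ * wsz p.1 ^ q) *
          (‖MvPowerSeries.coeff p.2 g‖ * wsz p.2 ^ q) :=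
  summable_sum_mul_antidiagonal_of_summable_mul
    (f := fun k => ‖MvPowerSeries.coeff k f‖ * wsz k ^ q)
    (g := fun k => ‖MvPowerSeries.coeff k g‖ * wsz k ^ q) (prod_summable hf hg)

theorem WS.mul {q : ℕ} {f g : MvPowerSeries (Fin d) ℂ} (hf : WS q f) (hg : WS q g) :
    WS q (f * g) :=
  Summable.of_nonneg_of_le (fun k => term_nonneg q (f * g) k) (fun k => antidiag_bound f g k)
    (antidiag_summable hf hg)

theorem nrm_mul_le {q : ℕ} {f g : MvPowerSeries (Fin d) ℂ} (hf : WS q f) (hg : WS q g) :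
    nrm q (f * g) ≤ nrm q f * nrm q g := by
  have h1 : nrm q f * nrm q g = ∑' k : Fin d →₀ ℕ, ∑ p ∈ Finset.HasAntidiagonal.antidiagonal k,
        (‖MvPowerSeries.coeff p.1 f‖ * wsz p.1 ^ q) *
          (‖MvPowerSeries.coeff p.2 g‖ * wsz p.2 ^ q) :=
    Summable.tsum_mul_tsum_eq_tsum_sum_antidiagonal
      (f := fun k => ‖MvPowerSeries.coeff k f‖ * wsz k ^ q)
      (g := fun k => ‖MvPowerSeries.coeff k g‖ * wsz k ^ q) hf hg (prod_summable hf hg)
  rw [h1]
  exact Summable.tsum_le_tsum (fun k => antidiag_bound f g k) (WS.mul hf hg)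
    (antidiag_summable hf hg)

theorem nrm_nonneg (q : ℕ) (f : MvPowerSeries (Fin d) ℂ) : 0 ≤ nrm q f :=
  tsum_nonneg fun k => term_nonneg q f k

theorem WS_poly (q : ℕ) (p : MvPolynomial (Fin d) ℂ) : WS q (p : MvPowerSeries (Fin d) ℂ) := by
  apply summable_of_ne_finset_zero (s := p.support)
  intro k hk
  rw [MvPolynomial.coeff_coe, MvPolynomial.notMem_support_iff.mp hk, norm_zero, zero_mul]

/-- product summability over a finite index type -/
lemma summable_pi_nat {ι : Type*} [Fintype ι] [DecidableEq ι] (g : ℕ → ℝ) (hg : ∀ n, 0 ≤ g n)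
    (hs : Summable g) : Summable fun n : ι → ℕ => ∏ i, g (n i) := by
  apply summable_of_sum_le (c := ∏ _i : ι, ∑' n, g n)
  · intro n; exact Finset.prod_nonneg fun i _ => hg _
  · intro s
    set M : ℕ := (∑ n ∈ s, ∑ i, n i) + 1 with hM
    have hsub : s ⊆ Fintype.piFinset fun _ : ι => Finset.range M := by
      intro n hn
      rw [Fintype.mem_piFinset]
      intro i
      rw [Finset.mem_range]
      have h1 : n i ≤ ∑ i, n i := Finset.single_le_sum (f := fun i => n i)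
        (fun _ _ => Nat.zero_le _) (Finset.mem_univ i)
      have h2 : ∑ i, n i ≤ ∑ n ∈ s, ∑ i, n i := Finset.single_le_sum
        (f := fun n : ι → ℕ => ∑ i, n i) (fun _ _ => Nat.zero_le _) hn
      omega
    calc ∑ n ∈ s, ∏ i, g (n i) ≤ ∑ n ∈ Fintype.piFinset fun _ : ι => Finset.range M, ∏ i, g (n i) :=
          Finset.sum_le_sum_of_subset_of_nonneg hsub
            fun n _ _ => Finset.prod_nonneg fun i _ => hg _
      _ = ∏ _i : ι, ∑ m ∈ Finset.range M, g m :=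
          (Finset.prod_univ_sum (fun _ => Finset.range M) (fun _ m => g m)).symm
      _ ≤ ∏ _i : ι, ∑' n, g n := by
          apply Finset.prod_le_prod
          · intro i _; exact Finset.sum_nonneg fun m _ => hg m
          · intro i _; exact hs.sum_le_tsum _ (fun m _ => hg m)

lemma summable_wsz (d : ℕ) : Summable fun k : Fin d →₀ ℕ => (wsz k ^ (2 * d))⁻¹ := by
  have h1 : Summable fun n : ℕ => (((n : ℝ) + 1) ^ 2)⁻¹ := by
    have h2 := (Real.summable_nat_pow_inv (p := 2)).mpr one_lt_two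
    have h3 := (summable_nat_add_iff 1).mpr h2
    refine h3.congr fun n => ?_
    push_cast; rfl
  have h2 := summable_pi_nat (ι := Fin d) (fun n : ℕ => (((n : ℝ) + 1) ^ 2)⁻¹)
    (fun n => by positivity) h1
  have h3 : Summable fun k : Fin d →₀ ℕ => ∏ i, (((k i : ℝ) + 1) ^ 2)⁻¹ :=
    h2.comp_injective (i := fun k : Fin d →₀ ℕ => (k : Fin d → ℕ)) DFunLike.coe_injective
  refine Summable.of_nonneg_of_le (fun k => ?_) (fun k => ?_) h3
  · exact inv_nonneg.mpr (pow_nonneg (zero_le_one.trans (one_le_wsz k)) _)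
  · rw [Finset.prod_inv_distrib]
    apply inv_anti₀
    · exact Finset.prod_pos fun i _ => by positivity
    · calc ∏ i, ((k i : ℝ) + 1) ^ 2 ≤ ∏ _i : Fin d, wsz k ^ 2 :=
            Finset.prod_le_prod (fun i _ => by positivity)
              fun i _ => pow_le_pow_left₀ (by positivity) (coord_le_wsz k i) _
        _ = wsz k ^ (2 * d) := by
            rw [Finset.prod_const, Finset.card_univ, Fintype.card_fin, ← pow_mul]

/-- Membership in the weighted algebra and norm bound from pointwise bounds; `2 d` extra powers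
suffice for summability. -/
theorem WS_of_bound {q : ℕ} {f : MvPowerSeries (Fin d) ℂ} {A : ℝ}
    (h : ∀ k, ‖MvPowerSeries.coeff k f‖ * wsz k ^ (q + 2 * d) ≤ A) :
    WS q f ∧ nrm q f ≤ A * ∑' k : Fin d →₀ ℕ, (wsz k ^ (2 * d))⁻¹ := by
  have h1 : ∀ k, ‖MvPowerSeries.coeff k f‖ * wsz k ^ q ≤ A * (wsz k ^ (2 * d))⁻¹ := by
    intro k
    have hw : (0 : ℝ) < wsz k ^ (2 * d) := pow_pos (zero_lt_one.trans_le (one_le_wsz k)) _
    rw [← div_eq_mul_inv, le_div_iff₀ hw, mul_assoc, ← pow_add]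
    exact h k
  have hs := (summable_wsz d).mul_left A
  have hWS : WS q f := Summable.of_nonneg_of_le (fun k => term_nonneg q f k) h1 hs
  refine ⟨hWS, ?_⟩
  unfold nrm
  rw [← tsum_mul_left]
  exact Summable.tsum_le_tsum h1 hWS hs

/-- pointwise bound -/
lemma exists_pointwise {t : ℝ} {b : (Fin d →₀ ℕ) → ℂ} (hb : DualSp t b) (l : Fin d →₀ ℕ) :
    ∃ K : ℝ, 0 ≤ K ∧ ∀ k, ‖b (k + l)‖ ≤ K * wsz k ^ q0 d t := by
  set B := ∑' k, ‖b k‖ ^ 2 / wt t k with hB
  have hB0 : 0 ≤ B := tsum_nonneg fun k => div_nonneg (by positivity) (wt_pos t k).le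
  refine ⟨Real.sqrt (B * wt t l), Real.sqrt_nonneg _, fun k => ?_⟩
  have h1 : ‖b (k + l)‖ ^ 2 / wt t (k + l) ≤ B :=
    hb.le_tsum (k + l) fun m _ => div_nonneg (by positivity) (wt_pos t m).le
  rw [div_le_iff₀ (wt_pos t _)] at h1
  have h2 := wt_add_le' t k l
  have hw : 1 ≤ wsz k ^ q0 d t := one_le_pow₀ (one_le_wsz k)
  have h3 : ‖b (k + l)‖ ^ 2 ≤ (Real.sqrt (B * wt t l) * wsz k ^ q0 d t) ^ 2 := by
    rw [mul_pow, Real.sq_sqrt (mul_nonneg hB0 (wt_pos t l).le)]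
    calc ‖b (k + l)‖ ^ 2 ≤ B * wt t (k + l) := h1
      _ ≤ B * (wsz k ^ q0 d t * wt t l) := mul_le_mul_of_nonneg_left h2 hB0
      _ = B * wt t l * (wsz k ^ q0 d t * 1) := by ring
      _ ≤ B * wt t l * (wsz k ^ q0 d t * wsz k ^ q0 d t) := by
          apply mul_le_mul_of_nonneg_left _ (mul_nonneg hB0 (wt_pos t l).le)
          exact mul_le_mul_of_nonneg_left hw (by positivity)
      _ = _ := by ring
  exact le_of_sq_le_sq h3 (mul_nonneg (Real.sqrt_nonneg _) (by positivity))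

theorem conv_summable {t : ℝ} {q : ℕ} (hq : q0 d t ≤ q) {f : MvPowerSeries (Fin d) ℂ}
    (hf : WS q f) {b : (Fin d →₀ ℕ) → ℂ} (hb : DualSp t b) (l : Fin d →₀ ℕ) :
    Summable fun k => ‖MvPowerSeries.coeff k f * b (k + l)‖ := by
  obtain ⟨K, hK0, hK⟩ := exists_pointwise hb l
  have hs : Summable fun k => K * (‖MvPowerSeries.coeff k f‖ * wsz k ^ q) := Summable.mul_left K hf
  refine Summable.of_nonneg_of_le (fun k => norm_nonneg _) (fun k => ?_) hs
  rw [norm_mul]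
  have h1 : wsz k ^ q0 d t ≤ wsz k ^ q := pow_le_pow_right₀ (one_le_wsz k) hq
  calc ‖MvPowerSeries.coeff k f‖ * ‖b (k + l)‖
      ≤ ‖MvPowerSeries.coeff k f‖ * (K * wsz k ^ q) := by
        apply mul_le_mul_of_nonneg_left _ (norm_nonneg _)
        exact (hK k).trans (mul_le_mul_of_nonneg_left h1 hK0)
    _ = _ := by ring

lemma shift_bound {t : ℝ} {b : (Fin d →₀ ℕ) → ℂ} (hb : DualSp t b) (i : Fin d →₀ ℕ) :
    Summable (fun l => ‖b (i + l)‖ ^ 2 / wt t l) ∧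
      ∑' l, ‖b (i + l)‖ ^ 2 / wt t l ≤ wsz i ^ q0 d t * ∑' k, ‖b k‖ ^ 2 / wt t k := by
  have h1 : ∀ l, ‖b (i + l)‖ ^ 2 / wt t l ≤ wsz i ^ q0 d t * (‖b (i + l)‖ ^ 2 / wt t (i + l)) := by
    intro l
    have h2 := wt_add_le' t i l
    rw [div_le_iff₀ (wt_pos t l), mul_assoc, div_mul_eq_mul_div, mul_div_assoc',
      le_div_iff₀ (wt_pos t _)]
    nlinarith [mul_le_mul_of_nonneg_left h2 (sq_nonneg ‖b (i + l)‖)]
  have hinj : Function.Injective fun l : Fin d →₀ ℕ => i + l := fun a b h => add_left_cancel h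
  have hs : Summable fun l => ‖b (i + l)‖ ^ 2 / wt t (i + l) := hb.comp_injective hinj
  have hnn : ∀ l, 0 ≤ ‖b (i + l)‖ ^ 2 / wt t l := fun l =>
    div_nonneg (by positivity) (wt_pos t l).le
  have hs' : Summable (fun l => ‖b (i + l)‖ ^ 2 / wt t l) :=
    Summable.of_nonneg_of_le hnn h1 (hs.mul_left _)
  refine ⟨hs', ?_⟩
  calc ∑' l, ‖b (i + l)‖ ^ 2 / wt t l
      ≤ ∑' l, wsz i ^ q0 d t * (‖b (i + l)‖ ^ 2 / wt t (i + l)) :=
        hs'.tsum_le_tsum h1 (hs.mul_left _)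
    _ = wsz i ^ q0 d t * ∑' l, (‖b (i + l)‖ ^ 2 / wt t (i + l)) := tsum_mul_left
    _ ≤ _ := by
        apply mul_le_mul_of_nonneg_left _
          (pow_nonneg (zero_le_one.trans (one_le_wsz i)) _)
        exact hs.tsum_le_tsum_of_inj (fun l : Fin d →₀ ℕ => i + l) hinj
          (fun k _ => div_nonneg (by positivity) (wt_pos t k).le) (fun l => le_rfl) hb

theorem conv_mem {t : ℝ} {q : ℕ} (hq : q0 d t ≤ q) {f : MvPowerSeries (Fin d) ℂ}
    (hf : WS q f) {b : (Fin d →₀ ℕ) → ℂ} (hb : DualSp t b) :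
    DualSp t (conv f b) ∧
      ∑' k, ‖conv f b k‖ ^ 2 / wt t k ≤ nrm q f ^ 2 * ∑' k, ‖b k‖ ^ 2 / wt t k := by
  set B := ∑' k, ‖b k‖ ^ 2 / wt t k with hB
  have hB0 : 0 ≤ B := tsum_nonneg fun k => div_nonneg (by positivity) (wt_pos t k).le
  -- the double family
  set h : (Fin d →₀ ℕ) × (Fin d →₀ ℕ) → ℝ := fun x =>
    ‖MvPowerSeries.coeff x.1 f‖ * (wsz x.1 ^ q)⁻¹ * (‖b (x.1 + x.2)‖ ^ 2 / wt t x.2) with hh
  have hnn : ∀ x, 0 ≤ h x := by
    intro x
    have h1 := one_le_wsz x.1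
    have h2 := wt_pos t x.2
    simp only [hh]; positivity
  have hrow : ∀ i, Summable fun l => h (i, l) := fun i =>
    (shift_bound hb i).1.mul_left (‖MvPowerSeries.coeff i f‖ * (wsz i ^ q)⁻¹)
  have hrowle : ∀ i, ∑' l, h (i, l) ≤ ‖MvPowerSeries.coeff i f‖ * wsz i ^ q * B := by
    intro i
    have h1 : ∑' l, h (i, l) = ‖MvPowerSeries.coeff i f‖ * (wsz i ^ q)⁻¹ *
        ∑' l, ‖b (i + l)‖ ^ 2 / wt t l := by simp only [hh]; exact tsum_mul_left
    rw [h1]
    have h2 := (shift_bound hb i).2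
    have hw := one_le_wsz i
    have hwq : 1 ≤ wsz i ^ q := one_le_pow₀ hw
    have h3 : (wsz i ^ q)⁻¹ * wsz i ^ q0 d t ≤ 1 := by
      rw [inv_mul_le_iff₀ (by positivity), mul_one]
      exact pow_le_pow_right₀ hw hq
    calc ‖MvPowerSeries.coeff i f‖ * (wsz i ^ q)⁻¹ * ∑' l, ‖b (i + l)‖ ^ 2 / wt t l
        ≤ ‖MvPowerSeries.coeff i f‖ * (wsz i ^ q)⁻¹ * (wsz i ^ q0 d t * B) :=
          mul_le_mul_of_nonneg_left h2 (by positivity)
      _ = ‖MvPowerSeries.coeff i f‖ * B * ((wsz i ^ q)⁻¹ * wsz i ^ q0 d t) := by ring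
      _ ≤ ‖MvPowerSeries.coeff i f‖ * B * 1 := mul_le_mul_of_nonneg_left h3 (by positivity)
      _ ≤ ‖MvPowerSeries.coeff i f‖ * B * wsz i ^ q :=
          mul_le_mul_of_nonneg_left hwq (by positivity)
      _ = _ := by ring
  have hsrow : Summable fun i => ∑' l, h (i, l) :=
    Summable.of_nonneg_of_le (fun i => tsum_nonneg fun l => hnn _) hrowle (Summable.mul_right B hf)
  have hsum : Summable h := (summable_prod_of_nonneg hnn).mpr ⟨hrow, hsrow⟩
  have hsum' : Summable fun x : (Fin d →₀ ℕ) × (Fin d →₀ ℕ) => h (x.2, x.1) := hsum.prod_symm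
  have hcol : ∀ l, Summable fun i => h (i, l) := fun l => hsum'.prod_factor l
  have hscol : Summable fun l => ∑' i, h (i, l) := hsum'.prod
  have htot : ∑' l, ∑' i, h (i, l) ≤ nrm q f * B := by
    have h1 : ∑' l, ∑' i, h (i, l) = ∑' i, ∑' l, h (i, l) :=
      Summable.tsum_comm (f := fun i l => h (i, l)) hsum
    rw [h1]
    calc ∑' i, ∑' l, h (i, l) ≤ ∑' i, ‖MvPowerSeries.coeff i f‖ * wsz i ^ q * B :=
          hsrow.tsum_le_tsum hrowle (Summable.mul_right B hf)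
      _ = nrm q f * B := tsum_mul_right
  -- pointwise estimate
  have hpt : ∀ l, ‖conv f b l‖ ^ 2 / wt t l ≤ nrm q f * ∑' i, h (i, l) := by
    intro l
    have hwl := wt_pos t l
    have hG : Summable fun i => ‖MvPowerSeries.coeff i f‖ * (wsz i ^ q)⁻¹ * ‖b (i + l)‖ ^ 2 := by
      refine ((hcol l).mul_right (wt t l)).congr fun i => ?_
      simp only [hh]
      field_simp
    obtain ⟨h1, h2⟩ := tsum_sq_le (fun i => ‖MvPowerSeries.coeff i f‖ * ‖b (i + l)‖)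
      (fun i => ‖MvPowerSeries.coeff i f‖ * wsz i ^ q)
      (fun i => ‖MvPowerSeries.coeff i f‖ * (wsz i ^ q)⁻¹ * ‖b (i + l)‖ ^ 2)
      (fun i => term_nonneg q f i)
      (fun i => by have := one_le_wsz i; positivity) (fun i => by positivity)
      (fun i => by
        have h3 : wsz i ^ q * (wsz i ^ q)⁻¹ = 1 :=
          mul_inv_cancel₀ (pow_pos (zero_lt_one.trans_le (one_le_wsz i)) _).ne'
        linear_combination (-(‖MvPowerSeries.coeff i f‖ ^ 2 * ‖b (i + l)‖ ^ 2)) * h3) hf hG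
    have h3 : ‖conv f b l‖ ≤ ∑' i, ‖MvPowerSeries.coeff i f‖ * ‖b (i + l)‖ := by
      unfold conv
      have h4 : ∀ i, ‖MvPowerSeries.coeff i f * b (i + l)‖ =
          ‖MvPowerSeries.coeff i f‖ * ‖b (i + l)‖ := fun i => norm_mul _ _
      have h5 : Summable fun i => ‖MvPowerSeries.coeff i f * b (i + l)‖ := by
        simp only [h4]; exact h1
      refine (norm_tsum_le_tsum_norm h5).trans ?_
      simp only [h4]; exact le_rfl
    have h4 : ‖conv f b l‖ ^ 2 ≤ nrm q f *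
        ∑' i, ‖MvPowerSeries.coeff i f‖ * (wsz i ^ q)⁻¹ * ‖b (i + l)‖ ^ 2 :=
      (pow_le_pow_left₀ (norm_nonneg _) h3 2).trans h2
    rw [div_le_iff₀ hwl]
    refine h4.trans (le_of_eq ?_)
    rw [mul_assoc, ← tsum_mul_right]
    congr 1
    apply tsum_congr
    intro i
    simp only [hh]
    field_simp
  have hmem : DualSp t (conv f b) := by
    have hs : Summable fun l => nrm q f * ∑' i, h (i, l) := hscol.mul_left _
    exact Summable.of_nonneg_of_le (fun l => div_nonneg (by positivity) (wt_pos t l).le) hpt hs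
  refine ⟨hmem, ?_⟩
  calc ∑' k, ‖conv f b k‖ ^ 2 / wt t k ≤ ∑' l, nrm q f * ∑' i, h (i, l) :=
        Summable.tsum_le_tsum hpt hmem (hscol.mul_left _)
    _ = nrm q f * ∑' l, ∑' i, h (i, l) := tsum_mul_left
    _ ≤ nrm q f * (nrm q f * B) := mul_le_mul_of_nonneg_left htot (nrm_nonneg _ _)
    _ = _ := by ring

theorem conv_mul {t : ℝ} {q : ℕ} (hq : q0 d t ≤ q) {f g : MvPowerSeries (Fin d) ℂ}
    (hf : WS q f) (hg : WS q g) {b : (Fin d →₀ ℕ) → ℂ} (hb : DualSp t b) :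
    conv (f * g) b = conv f (conv g b) := by
  funext l
  obtain ⟨K, hK0, hK⟩ := exists_pointwise hb l
  set φ : (Fin d →₀ ℕ) × (Fin d →₀ ℕ) → ℂ := fun x =>
    MvPowerSeries.coeff x.1 f * MvPowerSeries.coeff x.2 g * b (x.1 + x.2 + l) with hφ
  have hφs : Summable φ := by
    apply Summable.of_norm
    have hs : Summable fun x : (Fin d →₀ ℕ) × (Fin d →₀ ℕ) => K *
        ((‖MvPowerSeries.coeff x.1 f‖ * wsz x.1 ^ q) *
          (‖MvPowerSeries.coeff x.2 g‖ * wsz x.2 ^ q)) := Summable.mul_left K (prod_summable hf hg)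
    refine Summable.of_nonneg_of_le (fun x => norm_nonneg _) (fun x => ?_) hs
    simp only [hφ]
    rw [norm_mul, norm_mul]
    have hw1 := one_le_wsz x.1
    have hw2 := one_le_wsz x.2
    have h1 : ‖b (x.1 + x.2 + l)‖ ≤ K * (wsz x.1 ^ q * wsz x.2 ^ q) := by
      refine (hK (x.1 + x.2)).trans (mul_le_mul_of_nonneg_left ?_ hK0)
      calc wsz (x.1 + x.2) ^ q0 d t ≤ wsz (x.1 + x.2) ^ q :=
            pow_le_pow_right₀ (one_le_wsz _) hq
        _ ≤ (wsz x.1 * wsz x.2) ^ q :=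
            pow_le_pow_left₀ (zero_le_one.trans (one_le_wsz _)) (wsz_add_le _ _) _
        _ = _ := mul_pow _ _ _
    calc _ ≤ ‖MvPowerSeries.coeff x.1 f‖ * ‖MvPowerSeries.coeff x.2 g‖ *
          (K * (wsz x.1 ^ q * wsz x.2 ^ q)) := mul_le_mul_of_nonneg_left h1 (by positivity)
      _ = _ := by ring
  have h1 : conv (f * g) b l = ∑' x, φ x := by
    rw [← Finset.HasAntidiagonal.sigmaAntidiagonalEquivProd.tsum_eq φ]
    have hs : Summable fun s : Σ n : Fin d →₀ ℕ, Finset.HasAntidiagonal.antidiagonal n =>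
        φ (Finset.HasAntidiagonal.sigmaAntidiagonalEquivProd s) :=
      Finset.HasAntidiagonal.sigmaAntidiagonalEquivProd.summable_iff.mpr hφs
    rw [hs.tsum_sigma' fun n => (hasSum_fintype _).summable]
    unfold conv
    apply tsum_congr
    intro k
    rw [tsum_fintype, MvPowerSeries.coeff_mul, Finset.sum_mul]
    rw [← Finset.sum_coe_sort]
    apply Finset.sum_congr rfl
    intro p _
    have h2 : (p : (Fin d →₀ ℕ) × (Fin d →₀ ℕ)).1 + (p : (Fin d →₀ ℕ) × (Fin d →₀ ℕ)).2 = k :=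
      Finset.HasAntidiagonal.mem_antidiagonal.mp p.2
    simp only [Finset.HasAntidiagonal.sigmaAntidiagonalEquivProd_apply, hφ, h2]
  rw [h1, hφs.tsum_prod]
  unfold conv
  apply tsum_congr
  intro a
  rw [← tsum_mul_left]
  apply tsum_congr
  intro c
  simp only [hφ]
  rw [show a + c + l = c + (a + l) by abel]
  ring

theorem conv_add {t : ℝ} {q : ℕ} (hq : q0 d t ≤ q) {f g : MvPowerSeries (Fin d) ℂ}
    (hf : WS q f) (hg : WS q g) {b : (Fin d →₀ ℕ) → ℂ} (hb : DualSp t b) :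
    conv (f + g) b = conv f b + conv g b := by
  funext l
  rw [Pi.add_apply]
  unfold conv
  rw [← Summable.tsum_add (conv_summable hq hf hb l).of_norm (conv_summable hq hg hb l).of_norm]
  apply tsum_congr
  intro k
  rw [map_add]; ring

theorem conv_poly (p : MvPolynomial (Fin d) ℂ) (b : (Fin d →₀ ℕ) → ℂ) (l : Fin d →₀ ℕ) :
    conv (p : MvPowerSeries (Fin d) ℂ) b l = ∑ a ∈ p.support, coeff a p * b (l + a) := by
  unfold conv
  rw [tsum_eq_sum (s := p.support)]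
  · apply Finset.sum_congr rfl
    intro a _
    rw [MvPolynomial.coeff_coe, add_comm a l]
  · intro k hk
    rw [MvPolynomial.coeff_coe, MvPolynomial.notMem_support_iff.mp hk, zero_mul]

theorem conv_shift (f : MvPowerSeries (Fin d) ℂ) (b : (Fin d →₀ ℕ) → ℂ) (a l : Fin d →₀ ℕ) :
    conv f (fun k => b (k + a)) l = conv f b (l + a) := by
  unfold conv
  apply tsum_congr
  intro k
  show MvPowerSeries.coeff k f * b (k + l + a) = _
  rw [add_assoc]

end Pool.MP4ac1fb.Full
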